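import Pool.Agent.H94.EP.DyP
import Pool.Agent.H72.CC.Cyl

/-
ROW DyQ (MP_09540e_EP). The height weight, and the dominating function (static). Aux lemmas prefixed DyQ_ . PROOF.
`P_d`: deriv of `z ↦ g (z + c)` is `deriv g (z + c)` (deriv_comp_add_const; funext). `P_sm`: `ph L a s = (1 + (s-a)²/L²)⁻¹`, the denominator is `≥ 1`: ContDiff.inv; composition with the translation.
`P_bd`: `t = s - a`: `ph L a s = (1 + t²/L²)⁻¹`; `ph' = - (2 t/L²) ph²`, `ph'' = - (2/L²) ph² + (8 t²/L⁴) ph³`, `|2 t / L| ph ≤ 1`, `t²/L² · ph ≤ 1`: `|ph'| ≤ ph / L ≤ ph`, `|ph''| ≤ 10 ph / L² ≤ 10 ph` (L ≥ 1). And `ph L a (z + h/2) ≤ 3 ph L a z` for `|h| ≤ 1 ≤ L`: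
  `1 + t²/L² ≤ 3 (1 + (t + h/2)²/L²)` because `t² ≤ 2 (t + h/2)² + 2 (h/2)²` and `(h/2)² ≤ 1/4 ≤ L²/4`. `0 < ph`.
`ph_i`: substitute in integrable_inv_one_add_sq (`fun s => (1 + s ^ 2)⁻¹`): comp_sub_right, comp_div (Integrable.comp_div).
`dm_int`: dm is nonnegative and measurable, `dm θ L a x = f (rad x, x 2)` with `f (r, z) = indicator (r² < 1) ((r²)^(θ-1) * ph L a z)` (`rad x ^ 2 = rsq x`: rad_sq'). `cyl` (H72/CC/Cyl.lean) with ENNReal.ofReal: `∫⁻ dm = ofReal (2π) * ∫⁻ r in Ioi 0, ∫⁻ z, ofReal r * f (r, z)`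
  `= ofReal (2π) * (∫⁻ r in Ioo 0 1, ofReal (r * (r²)^(θ-1))) * ∫⁻ z, ofReal (ph L a z)`; `r * (r²)^(θ-1) = r^(2θ-1)`, integrable on `Ioo 0 1` as `2θ-1 > -1` (intervalIntegral.intervalIntegrable_rpow' / integrableOn_Ioo_rpow..), `ph_i`: finite.
`dm_1`: `rsq x < 1`, `0 < rsq x`, `θ ≤ 1`: `1 ≤ rsq x ^ (θ - 1)` (Real.one_le_rpow_of_pos_of_le_one_of_nonpos). `ae_off`: axis_null (H87/NS/S1.lean), rsq_pos.
-/

set_option autoImplicit false

open Set Filter Topology MeasureTheory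
open scoped ContDiff

namespace Pool.Agent.H37.EP

open Pool.Agent.H16 Pool.Agent.H87.NS Pool.Agent.H72.CC Pool.Agent.H16.TU Pool.Agent.H94.EP

private theorem DyQ_den (L a s : ℝ) : 0 < 1 + (s - a) ^ 2 / L ^ 2 := by positivity

private theorem DyQ_d1 (L a s : ℝ) : HasDerivAt (ph L a) (-(2 * (s - a) / L ^ 2) * ph L a s ^ 2) s := by
  have h1 : HasDerivAt (fun s : ℝ => 1 + (s - a) ^ 2 / L ^ 2) (2 * (s - a) / L ^ 2) s := by
    have h2 : HasDerivAt (fun s : ℝ => (s - a) ^ 2) (2 * (s - a)) s := by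
      have h3 := ((hasDerivAt_id s).sub_const a).pow 2
      refine h3.congr_deriv ?_
      simp
    exact (h2.div_const _).const_add 1
  have h4 := h1.inv (DyQ_den L a s).ne'
  have h5 : -(2 * (s - a) / L ^ 2) / (1 + (s - a) ^ 2 / L ^ 2) ^ 2 = -(2 * (s - a) / L ^ 2) * ph L a s ^ 2 := by
    unfold ph
    rw [inv_pow, div_eq_mul_inv]
  rw [← h5]
  exact h4

private theorem DyQ_deriv (L a : ℝ) : deriv (ph L a) = fun s => -(2 * (s - a) / L ^ 2) * ph L a s ^ 2 :=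
  funext fun s => (DyQ_d1 L a s).deriv

private theorem DyQ_d2 (L a s : ℝ) : deriv (deriv (ph L a)) s =
    -(2 / L ^ 2) * ph L a s ^ 2 + 8 * (s - a) ^ 2 / L ^ 4 * ph L a s ^ 3 := by
  rw [DyQ_deriv]
  have h1 : HasDerivAt (fun s : ℝ => -(2 * (s - a) / L ^ 2)) (-(2 / L ^ 2)) s := by
    have h4 : HasDerivAt (fun s : ℝ => 2 * (s - a)) 2 s := by
      have h3 := ((hasDerivAt_id s).sub_const a).const_mul 2
      simpa using h3
    exact (h4.div_const (L ^ 2)).neg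
  have h2 : HasDerivAt (fun s => ph L a s ^ 2) (2 * ph L a s * (-(2 * (s - a) / L ^ 2) * ph L a s ^ 2)) s := by
    have h3 := (DyQ_d1 L a s).pow 2
    refine h3.congr_deriv ?_
    simp
  have h3 : HasDerivAt (fun s => -(2 * (s - a) / L ^ 2) * ph L a s ^ 2) _ s := h1.mul h2
  rw [h3.deriv]
  by_cases hL : L = 0
  · simp [hL]
  · field_simp
    ring

theorem P_d (L a h z : ℝ) : deriv (Ph L a h) z = deriv (ph L a) (z + h / 2) ∧ deriv (deriv (Ph L a h)) z = deriv (deriv (ph L a)) (z + h / 2) := by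
  have h1 : deriv (Ph L a h) = fun z => deriv (ph L a) (z + h / 2) := by
    funext z
    exact deriv_comp_add_const (ph L a) (h / 2) z
  refine ⟨by rw [h1], ?_⟩
  rw [h1]
  exact deriv_comp_add_const (deriv (ph L a)) (h / 2) z

theorem P_sm (L a h : ℝ) : ContDiff ℝ ∞ (ph L a) ∧ ContDiff ℝ ∞ (Ph L a h) := by
  have h1 : ContDiff ℝ ∞ (ph L a) := by
    have h2 : ContDiff ℝ ∞ (fun s : ℝ => 1 + (s - a) ^ 2 / L ^ 2) := by fun_prop
    exact h2.inv fun s => (DyQ_den L a s).ne'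
  exact ⟨h1, h1.comp (contDiff_id.add contDiff_const)⟩

private theorem DyQ_pos (L a s : ℝ) : 0 < ph L a s := inv_pos.2 (DyQ_den L a s)

private theorem DyQ_one (L a s : ℝ) : ph L a s ≤ 1 := by
  refine inv_le_one_of_one_le₀ ?_
  have : 0 ≤ (s - a) ^ 2 / L ^ 2 := by positivity
  linarith

private theorem DyQ_b1 {L : ℝ} (hL : 1 ≤ L) (a s : ℝ) : |deriv (ph L a) s| ≤ ph L a s := by
  have hp := DyQ_pos L a s
  have hL0 : 0 < L := by linarith
  have hd : ph L a s * (1 + (s - a) ^ 2 / L ^ 2) = 1 := inv_mul_cancel₀ (DyQ_den L a s).ne'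
  have h2 : |2 * (s - a) / L ^ 2| ≤ 1 + (s - a) ^ 2 / L ^ 2 := by
    rw [abs_div, abs_of_pos (by positivity : (0 : ℝ) < L ^ 2), div_le_iff₀ (by positivity), add_mul, one_mul,
      div_mul_cancel₀ _ (by positivity)]
    rw [abs_mul, abs_two]
    have h3 : |s - a| ^ 2 = (s - a) ^ 2 := sq_abs _
    have h4 : 0 ≤ |s - a| := abs_nonneg _
    nlinarith only [sq_nonneg (|s - a| - 1), hL, h3]
  rw [DyQ_deriv]
  show |-(2 * (s - a) / L ^ 2) * ph L a s ^ 2| ≤ _
  rw [abs_mul, abs_neg, abs_of_pos (by positivity : 0 < ph L a s ^ 2)]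
  calc |2 * (s - a) / L ^ 2| * ph L a s ^ 2 ≤ (1 + (s - a) ^ 2 / L ^ 2) * ph L a s ^ 2 := by gcongr
    _ = (ph L a s * (1 + (s - a) ^ 2 / L ^ 2)) * ph L a s := by ring
    _ = ph L a s := by rw [hd, one_mul]

private theorem DyQ_b2 {L : ℝ} (hL : 1 ≤ L) (a s : ℝ) : |deriv (deriv (ph L a)) s| ≤ 10 * ph L a s := by
  have hp := DyQ_pos L a s
  have h1 := DyQ_one L a s
  have hL0 : 0 < L := by linarith
  have hL2 : 1 ≤ L ^ 2 := one_le_pow₀ hL
  have hd : ph L a s * (1 + (s - a) ^ 2 / L ^ 2) = 1 := inv_mul_cancel₀ (DyQ_den L a s).ne'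
  have hu : 0 ≤ (s - a) ^ 2 / L ^ 2 := by positivity
  have h3 : (s - a) ^ 2 / L ^ 2 * ph L a s ≤ 1 := by linarith only [hp, hd]
  have h4 : 1 / L ^ 2 ≤ 1 := by
    rw [div_le_one (by positivity)]
    exact hL2
  have h5 : 0 ≤ 1 / L ^ 2 := by positivity
  have h6 : ph L a s ^ 2 ≤ ph L a s := by nlinarith only [hp, h1]
  have e1 : deriv (deriv (ph L a)) s = (1 / L ^ 2) * (-2 * ph L a s ^ 2 +
      8 * ((s - a) ^ 2 / L ^ 2 * ph L a s) * ph L a s ^ 2) := by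
    rw [DyQ_d2]
    field_simp
  have h7 : 0 ≤ (s - a) ^ 2 / L ^ 2 * ph L a s := by positivity
  have h8 : |-2 * ph L a s ^ 2 + 8 * ((s - a) ^ 2 / L ^ 2 * ph L a s) * ph L a s ^ 2| ≤ 10 * ph L a s := by
    have h9 : ((s - a) ^ 2 / L ^ 2 * ph L a s) * ph L a s ^ 2 ≤ ph L a s ^ 2 := by
      have := sq_nonneg (ph L a s)
      nlinarith only [hp, hd]
    have h10 : 0 ≤ ((s - a) ^ 2 / L ^ 2 * ph L a s) * ph L a s ^ 2 := by positivity
    rw [abs_le]
    constructor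
    · linarith only [hp, h6, h10]
    · linarith only [hp, h6, h9]
  rw [e1, abs_mul, abs_of_nonneg h5]
  calc 1 / L ^ 2 * |-2 * ph L a s ^ 2 + 8 * ((s - a) ^ 2 / L ^ 2 * ph L a s) * ph L a s ^ 2|
      ≤ 1 * (10 * ph L a s) := by gcongr
    _ = 10 * ph L a s := one_mul _

private theorem DyQ_sh {L : ℝ} (hL : 1 ≤ L) (a : ℝ) {h : ℝ} (hh : |h| ≤ 1) (z : ℝ) :
    ph L a (z + h / 2) ≤ 3 * ph L a z := by
  have hL0 : 0 < L := by linarith
  have hL2 : 1 ≤ L ^ 2 := one_le_pow₀ hL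
  have hh2 : h ^ 2 ≤ 1 := by
    rw [← sq_abs]
    exact pow_le_one₀ (abs_nonneg _) hh
  unfold ph
  rw [inv_le_iff_one_le_mul₀ (DyQ_den L a _), ← div_eq_mul_inv, div_mul_eq_mul_div, le_div_iff₀ (DyQ_den L a z), one_mul]
  have h1 : (z - a) ^ 2 / L ^ 2 ≤ (3 * (z + h / 2 - a) ^ 2 + 2 * L ^ 2) / L ^ 2 := by
    refine div_le_div_of_nonneg_right ?_ (by positivity)
    linarith only [sq_nonneg (z - a + h), sq_nonneg (z + h / 2 - a + h / 2), sq_nonneg (z + h / 2 - a), hL2, hh2]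
  rw [add_div, mul_div_assoc, mul_div_assoc, div_self (by positivity : L ^ 2 ≠ 0)] at h1
  linarith

theorem P_bd {L : ℝ} (hL : 1 ≤ L) (a : ℝ) {h : ℝ} (hh : |h| ≤ 1) (z : ℝ) : 0 < ph L a z ∧ ph L a z ≤ 1 ∧
    |deriv (ph L a) z| ≤ ph L a z ∧ |deriv (deriv (ph L a)) z| ≤ 10 * ph L a z ∧
    |Ph L a h z| ≤ 3 * ph L a z ∧ |deriv (Ph L a h) z| ≤ 3 * ph L a z ∧ |deriv (deriv (Ph L a h)) z| ≤ 30 * ph L a z := by
  obtain ⟨d1, d2⟩ := P_d L a h z
  have hs := DyQ_sh hL a hh z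
  refine ⟨DyQ_pos L a z, DyQ_one L a z, DyQ_b1 hL a z, DyQ_b2 hL a z, ?_, ?_, ?_⟩
  · show |ph L a (z + h / 2)| ≤ _
    rw [abs_of_pos (DyQ_pos L a _)]
    exact hs
  · rw [d1]
    exact (DyQ_b1 hL a _).trans hs
  · rw [d2]
    have := DyQ_b2 hL a (z + h / 2)
    linarith

theorem ph_i {L : ℝ} (hL : 0 < L) (a : ℝ) : Integrable (ph L a) := by
  have h1 := (integrable_inv_one_add_sq.comp_div hL.ne').comp_sub_right a
  refine h1.congr (Eventually.of_forall fun s => ?_)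
  simp only [ph, div_pow]

/-- The dominating function. -/
noncomputable def dm (θ L a : ℝ) : E3 → ℝ := {x : E3 | rsq x < 1}.indicator fun x => rsq x ^ (θ - 1) * ph L a (x 2)

private theorem DyQ_nn (θ L a : ℝ) (x : E3) : 0 ≤ dm θ L a x := by
  refine indicator_nonneg (fun x _ => ?_) x
  have h1 : 0 ≤ rsq x := by
    unfold rsq
    positivity
  exact mul_nonneg (Real.rpow_nonneg h1 _) (DyQ_pos L a _).le

private theorem DyQ_rsq (x : E3) : rad x ^ 2 = rsq x := rad_sq' x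

theorem dm_int {θ L : ℝ} (hθ : 0 < θ) (hL : 0 < L) (a : ℝ) : Integrable (dm θ L a) := by
  have hph : Measurable (ph L a) := (P_sm L a 0).1.continuous.measurable
  have hrm : Measurable (rsq : E3 → ℝ) := by
    unfold rsq
    exact Continuous.measurable (by fun_prop)
  have hm : Measurable (dm θ L a) := by
    refine Measurable.indicator ?_ (measurableSet_lt hrm measurable_const)
    refine Measurable.mul ?_ (hph.comp (Continuous.measurable (by fun_prop)))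
    exact hrm.pow_const _
  refine ⟨hm.aestronglyMeasurable, ?_⟩
  rw [hasFiniteIntegral_iff_ofReal (Eventually.of_forall (DyQ_nn θ L a))]
  let f : ℝ × ℝ → ENNReal := fun q => ENNReal.ofReal ({r : ℝ | r ^ 2 < 1}.indicator (fun r => (r ^ 2) ^ (θ - 1)) q.1) *
    ENNReal.ofReal (ph L a q.2)
  have hf1 : Measurable fun r : ℝ => ENNReal.ofReal ({r : ℝ | r ^ 2 < 1}.indicator (fun r => (r ^ 2) ^ (θ - 1)) r) := by
    refine ENNReal.measurable_ofReal.comp (Measurable.indicator ?_ ?_)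
    · exact (measurable_id.pow_const 2).pow_const _
    · exact measurableSet_lt (measurable_id.pow_const 2) measurable_const
  have hf : Measurable f := by
    refine Measurable.mul (hf1.comp measurable_fst) ?_
    exact ENNReal.measurable_ofReal.comp (hph.comp measurable_snd)
  have h1 : ∫⁻ x : E3, ENNReal.ofReal (dm θ L a x) = ∫⁻ x : E3, f (rad x, x 2) := by
    refine lintegral_congr fun x => ?_
    simp only [f, dm]
    by_cases hx : rsq x < 1
    · rw [indicator_of_mem (by exact hx), indicator_of_mem (by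
        show rad x ^ 2 < 1
        rw [DyQ_rsq]
        exact hx), DyQ_rsq, ENNReal.ofReal_mul (Real.rpow_nonneg (by
        unfold rsq
        positivity) _)]
    · rw [indicator_of_notMem (by exact hx), indicator_of_notMem (by
        show ¬ rad x ^ 2 < 1
        rw [DyQ_rsq]
        exact hx)]
      simp
  rw [h1, cyl hf]
  refine ENNReal.mul_lt_top ENNReal.ofReal_lt_top ?_
  have hI : ∫⁻ z, ENNReal.ofReal (ph L a z) < ⊤ := by
    have h2 := (ph_i hL a).2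
    rwa [hasFiniteIntegral_iff_ofReal (Eventually.of_forall fun z => (DyQ_pos L a z).le)] at h2
  have h3 : ∀ r : ℝ, ∫⁻ z : ℝ, ENNReal.ofReal r * f (r, z) =
      (ENNReal.ofReal r * ENNReal.ofReal ({r : ℝ | r ^ 2 < 1}.indicator (fun r => (r ^ 2) ^ (θ - 1)) r)) *
        ∫⁻ z, ENNReal.ofReal (ph L a z) := by
    intro r
    simp only [f]
    rw [← lintegral_const_mul _ hph.ennreal_ofReal]
    refine lintegral_congr fun z => ?_
    ring
  simp only [h3]
  have hm2 : Measurable fun r : ℝ => ENNReal.ofReal r *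
      ENNReal.ofReal ({r : ℝ | r ^ 2 < 1}.indicator (fun r => (r ^ 2) ^ (θ - 1)) r) :=
    ENNReal.measurable_ofReal.mul hf1
  rw [lintegral_mul_const _ hm2]
  refine ENNReal.mul_lt_top ?_ hI
  have h4 : IntegrableOn (fun r : ℝ => r ^ (2 * θ - 1)) (Ioo 0 1) := by
    rw [intervalIntegral.integrableOn_Ioo_rpow_iff one_pos]
    linarith
  have h5 : ∫⁻ r in Ioo (0 : ℝ) 1, ENNReal.ofReal (r ^ (2 * θ - 1)) < ⊤ := by
    have h6 := h4.2
    rwa [hasFiniteIntegral_iff_ofReal] at h6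
    refine (ae_restrict_iff' measurableSet_Ioo).2 (Eventually.of_forall fun r hr => ?_)
    exact Real.rpow_nonneg hr.1.le _
  refine lt_of_le_of_lt ?_ h5
  rw [← lintegral_indicator measurableSet_Ioi, ← lintegral_indicator measurableSet_Ioo]
  refine lintegral_mono fun r => ?_
  by_cases hr : 0 < r
  · by_cases hr1 : r < 1
    · have hr2 : r ^ 2 < 1 := by nlinarith
      rw [indicator_of_mem (s := Ioi (0 : ℝ)) hr, indicator_of_mem (s := Ioo (0 : ℝ) 1) ⟨hr, hr1⟩,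
        indicator_of_mem (s := {r : ℝ | r ^ 2 < 1}) hr2, ← ENNReal.ofReal_mul hr.le]
      refine ENNReal.ofReal_le_ofReal (le_of_eq ?_)
      rw [← Real.rpow_natCast r 2, ← Real.rpow_mul hr.le]
      have h7 : r * r ^ (((2 : ℕ) : ℝ) * (θ - 1)) = r ^ (1 : ℝ) * r ^ (((2 : ℕ) : ℝ) * (θ - 1)) := by
        rw [Real.rpow_one]
      rw [h7, ← Real.rpow_add hr]
      congr 1
      push_cast
      ring
    · have hr2 : ¬ r ^ 2 < 1 := by
        have : 1 ≤ r := not_lt.1 hr1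
        have := one_le_pow₀ (n := 2) this
        linarith
      rw [indicator_of_mem (s := Ioi (0 : ℝ)) hr, indicator_of_notMem (s := {r : ℝ | r ^ 2 < 1}) hr2]
      simp
  · rw [indicator_of_notMem (s := Ioi (0 : ℝ)) hr]
    exact bot_le

theorem dm_nn (θ L a : ℝ) (x : E3) : 0 ≤ dm θ L a x := DyQ_nn θ L a x

theorem dm_1 {θ : ℝ} (hθ1 : θ ≤ 1) (L a : ℝ) {x : E3} (hx : 0 < rsq x) (h1 : rsq x < 1) :
    ph L a (x 2) ≤ dm θ L a x ∧ rsq x ^ (θ - 1) * ph L a (x 2) = dm θ L a x := by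
  have h2 : dm θ L a x = rsq x ^ (θ - 1) * ph L a (x 2) := indicator_of_mem (by exact h1) _
  refine ⟨?_, h2.symm⟩
  rw [h2]
  have h3 : 1 ≤ rsq x ^ (θ - 1) := Real.one_le_rpow_of_pos_of_le_one_of_nonpos hx h1.le (by linarith)
  have h4 := DyQ_pos L a (x 2)
  nlinarith

theorem ae_off : ∀ᵐ x : E3, 0 < rsq x := by
  filter_upwards [axis_null] with x hx
  rw [← DyQ_rsq]
  positivity

end Pool.Agent.H37.EP
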