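import Pool.Agent.H94.EP.Defs

/-
ROW DyM (MP_09540e_EP). Dominated convergence: two abstract lemmas. Aux lemmas prefixed DyM_ . PROOF.
`ct1`: continuity at `t₀ ∈ Ico 0 T` within `Ico 0 T`: take `b = (t₀ + T)/2 < T`; near `t₀` all `t ∈ Ico 0 T` are in `Icc 0 b`; tendsto_integral_filter_of_dominated_convergence with bound `K * g` (or continuousWithinAt_of_dominated: eventually in `𝓝[Ico 0 T] t₀`).
`ct2`: the same at `(t₀, s₀)` within `Ico 0 T ×ˢ Icc (-1) 1`; the bound is `|K| * |g|` since `s ^ 2 ≤ 1`.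
  Second part of `Nice`: norm_integral_le_of_norm_le: `|∫| ≤ K s² ∫ g ≤ (|K| ∫ |g|) s²`; constant `|K| * ∫ |g|`.
-/

set_option autoImplicit false

open Set Filter Topology MeasureTheory
open scoped ContDiff

namespace Pool.Agent.H37.EP

open Pool.Agent.H16 Pool.Agent.H87.NS Pool.Agent.H72.CC Pool.Agent.H16.TU Pool.Agent.H94.EP

variable {T : ℝ}

private theorem DyM_ev {t₀ : ℝ} (ht : t₀ ∈ Ico 0 T) : (t₀ + T) / 2 < T ∧ t₀ < (t₀ + T) / 2 := by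
  have := ht.2
  constructor <;> linarith

theorem ct1 {Φ : ℝ → E3 → ℝ} {g : E3 → ℝ} (hg : Integrable g) (hm : ∀ t ∈ Ico 0 T, AEStronglyMeasurable (Φ t) volume)
    (hb : ∀ b < T, ∃ K : ℝ, ∀ t ∈ Icc 0 b, ∀ᵐ x, |Φ t x| ≤ K * g x) (hc : ∀ᵐ x, ContinuousOn (fun t => Φ t x) (Ico 0 T)) :
    ContinuousOn (fun t => ∫ x, Φ t x) (Ico 0 T) := by
  intro t₀ ht₀
  obtain ⟨h1, h2⟩ := DyM_ev ht₀
  obtain ⟨K, hK⟩ := hb _ h1
  have hev : ∀ᶠ t in 𝓝[Ico 0 T] t₀, t ∈ Icc 0 ((t₀ + T) / 2) := by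
    filter_upwards [self_mem_nhdsWithin, mem_nhdsWithin_of_mem_nhds (Iio_mem_nhds h2)] with t h3 h4
    exact ⟨h3.1, le_of_lt h4⟩
  refine continuousWithinAt_of_dominated (bound := fun x => K * g x) ?_ ?_ (hg.const_mul K) ?_
  · filter_upwards [self_mem_nhdsWithin] with t h3
    exact hm t h3
  · filter_upwards [hev] with t h3
    exact hK t h3
  · filter_upwards [hc] with x hx
    exact hx t₀ ht₀

/-- Continuous on `[0,T) × [-1,1]` and bounded by `K s²`. -/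
def Nice (T : ℝ) (I : ℝ × ℝ → ℝ) : Prop :=
  ContinuousOn I (Ico 0 T ×ˢ Icc (-1) 1) ∧ ∀ b < T, ∃ K : ℝ, 0 ≤ K ∧ ∀ t ∈ Icc 0 b, ∀ s ∈ Icc (-1 : ℝ) 1, |I (t, s)| ≤ K * s ^ 2

private theorem DyM_le (K s y : ℝ) : K * s ^ 2 * y ≤ s ^ 2 * (|K| * |y|) := by
  have h1 : K * y ≤ |K| * |y| := by
    rw [← abs_mul]
    exact le_abs_self _
  nlinarith [mul_le_mul_of_nonneg_left h1 (sq_nonneg s)]

theorem ct2 {Φ : ℝ × ℝ → E3 → ℝ} {g : E3 → ℝ} (hg : Integrable g)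
    (hm : ∀ t ∈ Ico 0 T, ∀ s ∈ Icc (-1 : ℝ) 1, AEStronglyMeasurable (Φ (t, s)) volume)
    (hb : ∀ b < T, ∃ K : ℝ, ∀ t ∈ Icc 0 b, ∀ s ∈ Icc (-1 : ℝ) 1, ∀ᵐ x, |Φ (t, s) x| ≤ K * s ^ 2 * g x)
    (hc : ∀ᵐ x, ContinuousOn (fun q => Φ q x) (Ico 0 T ×ˢ Icc (-1) 1)) : Nice T (fun q => ∫ x, Φ q x) := by
  have hga : Integrable (fun x => |g x|) := hg.abs
  constructor
  · rintro ⟨t₀, s₀⟩ ⟨ht₀, hs₀⟩
    obtain ⟨h1, h2⟩ := DyM_ev (T := T) (t₀ := t₀) ht₀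
    obtain ⟨K, hK⟩ := hb _ h1
    have hev : ∀ᶠ q : ℝ × ℝ in 𝓝[Ico 0 T ×ˢ Icc (-1) 1] (t₀, s₀), q.1 ∈ Icc 0 ((t₀ + T) / 2) ∧ q.2 ∈ Icc (-1 : ℝ) 1 := by
      have h3 : {q : ℝ × ℝ | q.1 < (t₀ + T) / 2} ∈ 𝓝 (t₀, s₀) :=
        (isOpen_lt continuous_fst continuous_const).mem_nhds h2
      filter_upwards [self_mem_nhdsWithin, mem_nhdsWithin_of_mem_nhds h3] with q h4 h5
      exact ⟨⟨h4.1.1, le_of_lt h5⟩, h4.2⟩
    refine continuousWithinAt_of_dominated (bound := fun x => |K| * |g x|) ?_ ?_ (hga.const_mul _) ?_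
    · filter_upwards [self_mem_nhdsWithin] with q h3
      exact hm q.1 h3.1 q.2 h3.2
    · filter_upwards [hev] with q h3
      filter_upwards [hK q.1 h3.1 q.2 h3.2] with x hx
      refine hx.trans ((DyM_le K q.2 (g x)).trans ?_)
      have h4 : q.2 ^ 2 ≤ 1 := by
        have := h3.2.1
        have := h3.2.2
        nlinarith
      have h5 : 0 ≤ |K| * |g x| := by positivity
      nlinarith
    · filter_upwards [hc] with x hx
      exact hx (t₀, s₀) ⟨ht₀, hs₀⟩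
  · intro b hbT
    obtain ⟨K, hK⟩ := hb b hbT
    refine ⟨|K| * ∫ x, |g x|, by positivity, ?_⟩
    intro t ht s hs
    have h1 : ‖∫ x, Φ (t, s) x‖ ≤ ∫ x, s ^ 2 * (|K| * |g x|) := by
      apply norm_integral_le_of_norm_le ((hga.const_mul _).const_mul _)
      filter_upwards [hK t ht s hs] with x hx
      exact hx.trans (DyM_le K s (g x))
    rw [integral_const_mul, integral_const_mul] at h1
    rw [Real.norm_eq_abs] at h1
    linarith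

end Pool.Agent.H37.EP
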