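import Pool.Agent.H94.EP.DyP

/-
ROW DyY (MP_09540e_EP). The radial profiles of the two weights and their bounds (static).
-/

set_option autoImplicit false

open Set Filter Topology MeasureTheory
open scoped ContDiff

namespace Pool.Agent.H37.EP

open Pool.Agent.H16 Pool.Agent.H87.NS Pool.Agent.H72.CC Pool.Agent.H16.TU Pool.Agent.H94.EP

theorem Y1_sm : ContDiff ℝ ∞ Y1 := by
  unfold Y1
  exact (Real.smoothTransition.contDiff.comp (by fun_prop)).pow 4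

private theorem DyY_B_sm : ContDiff ℝ ∞ (fun ρ : ℝ => Real.smoothTransition (2 - 16 * ρ) ^ 4) :=
  (Real.smoothTransition.contDiff.comp (by fun_prop)).pow 4

theorem Y2_sm (s : ℝ) : ContDiffOn ℝ ∞ (Y2 s) (Ioi 0) := by
  unfold Y2
  refine ContDiffOn.mul ?_ DyY_B_sm.contDiffOn
  intro ρ hρ
  have h1 : ρ / 2 ≠ 0 := by
    have : (0 : ℝ) < ρ := hρ
    positivity
  have h2 : ContDiffAt ℝ ∞ (fun y : ℝ => y ^ s) (ρ / 2) := Real.contDiffAt_rpow_const_of_ne h1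
  have h3 : ContDiffAt ℝ ∞ (fun y : ℝ => y / 2) ρ := by fun_prop
  exact (ContDiffAt.comp ρ h2 h3).contDiffWithinAt

private theorem DyY_ev {f : ℝ → ℝ} {ρ : ℝ} (h : f =ᶠ[𝓝 ρ] fun _ => (0 : ℝ)) :
    f ρ = 0 ∧ deriv f ρ = 0 ∧ deriv (deriv f) ρ = 0 := by
  refine ⟨h.eq_of_nhds, ?_, ?_⟩
  · rw [h.deriv_eq]; simp
  · rw [h.deriv.deriv_eq]; simp

theorem Y1_zero {ρ : ℝ} (h : 1 / 2 < ρ) : Y1 ρ = 0 ∧ deriv Y1 ρ = 0 ∧ deriv (deriv Y1) ρ = 0 := by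
  apply DyY_ev
  filter_upwards [lt_mem_nhds h] with y hy
  unfold Y1
  rw [Real.smoothTransition.zero_of_nonpos (by linarith)]
  norm_num

theorem Y2_zero (s : ℝ) {ρ : ℝ} (h : 1 / 8 < ρ) : Y2 s ρ = 0 ∧ deriv (Y2 s) ρ = 0 ∧ deriv (deriv (Y2 s)) ρ = 0 := by
  apply DyY_ev
  filter_upwards [lt_mem_nhds h] with y hy
  unfold Y2
  rw [Real.smoothTransition.zero_of_nonpos (by linarith)]
  norm_num

theorem Y_nn (s : ℝ) {ρ : ℝ} (h : 0 ≤ ρ) : 0 ≤ Y1 ρ ∧ 0 ≤ Y2 s ρ := by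
  constructor
  · unfold Y1
    exact pow_nonneg (Real.smoothTransition.nonneg _) 4
  · unfold Y2
    exact mul_nonneg (Real.rpow_nonneg (by linarith) _) (pow_nonneg (Real.smoothTransition.nonneg _) 4)

private theorem DyY_bdd {f : ℝ → ℝ} (hf : Continuous f) : ∃ C : ℝ, 0 ≤ C ∧ ∀ ρ, 0 < ρ → ρ ≤ 1 → |f ρ| ≤ C := by
  obtain ⟨C, hC⟩ := isCompact_Icc.exists_bound_of_continuousOn (s := Icc (0 : ℝ) 1) hf.continuousOn
  refine ⟨C, (norm_nonneg _).trans (hC 0 ⟨le_rfl, zero_le_one⟩), fun ρ h0 h1 => hC ρ ⟨h0.le, h1⟩⟩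

private theorem DyY_d {f : ℝ → ℝ} (hf : ContDiff ℝ ∞ f) : ContDiff ℝ ∞ (deriv f) :=
  (contDiff_infty_iff_deriv.1 hf).2

theorem Y1_bd : ∃ C : ℝ, 0 ≤ C ∧ ∀ ρ, 0 < ρ → |Y1 ρ| ≤ C ∧ |ρ * deriv Y1 ρ| ≤ C ∧ |ρ * deriv (deriv Y1) ρ| ≤ C := by
  obtain ⟨C1, h1, k1⟩ := DyY_bdd Y1_sm.continuous
  obtain ⟨C2, h2, k2⟩ := DyY_bdd (f := fun ρ => ρ * deriv Y1 ρ) (continuous_id.mul (DyY_d Y1_sm).continuous)
  obtain ⟨C3, h3, k3⟩ := DyY_bdd (f := fun ρ => ρ * deriv (deriv Y1) ρ)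
    (continuous_id.mul (DyY_d (DyY_d Y1_sm)).continuous)
  refine ⟨C1 + C2 + C3, by linarith, fun ρ hρ => ?_⟩
  by_cases hle : ρ ≤ 1
  · have a1 := k1 ρ hρ hle
    have a2 := k2 ρ hρ hle
    have a3 := k3 ρ hρ hle
    exact ⟨by linarith, by linarith, by linarith⟩
  · push Not at hle
    obtain ⟨z1, z2, z3⟩ := Y1_zero (ρ := ρ) (by linarith)
    rw [z1, z2, z3, mul_zero, abs_zero]
    exact ⟨by linarith, by linarith, by linarith⟩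

private theorem DyY_A (s : ℝ) {ρ : ℝ} (h : 0 < ρ) :
    HasDerivAt (fun y : ℝ => (y / 2) ^ s) (1 / 2 * s * (ρ / 2) ^ (s - 1)) ρ := by
  have h1 : HasDerivAt (fun y : ℝ => y / 2) (1 / 2) ρ := (hasDerivAt_id ρ).div_const 2
  exact h1.rpow_const (Or.inl (by positivity))

theorem Y2_bd {θ : ℝ} (hθ : 0 < θ) (hθ1 : θ ≤ 1) : ∃ C : ℝ, 0 ≤ C ∧ ∀ ρ, 0 < ρ → |Y2 θ ρ| ≤ C ∧ |ρ * deriv (Y2 θ) ρ| ≤ C ∧
    |ρ * deriv (deriv (Y2 θ)) ρ| ≤ C * ρ ^ (θ - 1) ∧ |Y2 (θ - 1) ρ| ≤ C * ρ ^ (θ - 1) := by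
  obtain ⟨B, hB⟩ : ∃ B : ℝ → ℝ, B = fun ρ : ℝ => Real.smoothTransition (2 - 16 * ρ) ^ 4 := ⟨_, rfl⟩
  have sB : ContDiff ℝ ∞ B := by rw [hB]; exact DyY_B_sm
  have hY : ∀ s : ℝ, Y2 s = fun ρ => (ρ / 2) ^ s * B ρ := by
    intro s
    rw [hB]
    rfl
  obtain ⟨C1, h1, k1⟩ := DyY_bdd sB.continuous
  obtain ⟨C2, h2, k2⟩ := DyY_bdd (DyY_d sB).continuous
  obtain ⟨C3, h3, k3⟩ := DyY_bdd (DyY_d (DyY_d sB)).continuous
  have dB : ∀ ρ, HasDerivAt B (deriv B ρ) ρ := fun ρ => (sB.differentiable (by simp) ρ).hasDerivAt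
  have ddB : ∀ ρ, HasDerivAt (deriv B) (deriv (deriv B) ρ) ρ := fun ρ =>
    ((DyY_d sB).differentiable (by simp) ρ).hasDerivAt
  have e1 : ∀ ρ, 0 < ρ → deriv (Y2 θ) ρ = 1 / 2 * θ * (ρ / 2) ^ (θ - 1) * B ρ + (ρ / 2) ^ θ * deriv B ρ := by
    intro ρ hρ
    rw [hY]
    exact ((DyY_A θ hρ).mul (dB ρ)).deriv
  have e2 : ∀ ρ, 0 < ρ → deriv (deriv (Y2 θ)) ρ =
      1 / 2 * θ * (1 / 2 * (θ - 1) * (ρ / 2) ^ (θ - 1 - 1)) * B ρ + 1 / 2 * θ * (ρ / 2) ^ (θ - 1) * deriv B ρ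
        + (1 / 2 * θ * (ρ / 2) ^ (θ - 1) * deriv B ρ + (ρ / 2) ^ θ * deriv (deriv B) ρ) := by
    intro ρ hρ
    have h4 : deriv (Y2 θ) =ᶠ[𝓝 ρ] fun y =>
        1 / 2 * θ * (y / 2) ^ (θ - 1) * B y + (y / 2) ^ θ * deriv B y := by
      filter_upwards [lt_mem_nhds hρ] with y hy
      exact e1 y hy
    rw [h4.deriv_eq]
    exact ((((DyY_A (θ - 1) hρ).const_mul (1 / 2 * θ)).mul (dB ρ)).add ((DyY_A θ hρ).mul (ddB ρ))).deriv
  have hC0 : 0 ≤ C1 + C2 + C3 := by linarith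
  refine ⟨5 * (C1 + C2 + C3), by linarith, fun ρ hρ => ?_⟩
  have hr0 : 0 ≤ ρ ^ (θ - 1) := Real.rpow_nonneg hρ.le _
  by_cases hle : ρ ≤ 1
  · have a1 := k1 ρ hρ hle
    have a2 := k2 ρ hρ hle
    have a3 := k3 ρ hρ hle
    have hh : 0 < ρ / 2 := by linarith
    have p1 : (ρ / 2) ^ θ ≤ 1 := Real.rpow_le_one hh.le (by linarith) hθ.le
    have p0 : 0 ≤ (ρ / 2) ^ θ := Real.rpow_nonneg hh.le _
    have q0 : 0 ≤ (ρ / 2) ^ (θ - 1) := Real.rpow_nonneg hh.le _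
    have q1 : 1 ≤ ρ ^ (θ - 1) := Real.one_le_rpow_of_pos_of_le_one_of_nonpos hρ hle (by linarith)
    have q2 : (ρ / 2) ^ (θ - 1) ≤ 2 * ρ ^ (θ - 1) := by
      have r1 : (ρ / 2) ^ (θ - 1) = ρ ^ (θ - 1) * (2 : ℝ) ^ (1 - θ) := by
        rw [Real.div_rpow hρ.le (by norm_num), div_eq_mul_inv, ← Real.rpow_neg (by norm_num)]
        congr 2
        ring
      have r2 : (2 : ℝ) ^ (1 - θ) ≤ 2 := by
        calc (2 : ℝ) ^ (1 - θ) ≤ 2 ^ (1 : ℝ) :=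
              Real.rpow_le_rpow_of_exponent_le (by norm_num) (by linarith)
          _ = 2 := Real.rpow_one 2
      rw [r1, mul_comm]
      exact mul_le_mul_of_nonneg_right r2 hr0
    have r3 : ρ / 2 * (ρ / 2) ^ (θ - 1) = (ρ / 2) ^ θ := by
      have := Real.rpow_add hh 1 (θ - 1)
      rw [Real.rpow_one] at this
      rw [← this]
      congr 1
      ring
    have r4 : ρ / 2 * (ρ / 2) ^ (θ - 1 - 1) = (ρ / 2) ^ (θ - 1) := by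
      have := Real.rpow_add hh 1 (θ - 1 - 1)
      rw [Real.rpow_one] at this
      rw [← this]
      congr 1
      ring
    have hBn : |B ρ| ≤ C1 := a1
    have x1 : |(ρ / 2) ^ θ * B ρ| ≤ C1 := by
      rw [abs_mul, abs_of_nonneg p0]
      calc (ρ / 2) ^ θ * |B ρ| ≤ 1 * C1 := mul_le_mul p1 hBn (abs_nonneg _) zero_le_one
        _ = C1 := one_mul _
    have x2 : |ρ * ((ρ / 2) ^ θ * deriv B ρ)| ≤ C2 := by
      rw [abs_mul, abs_mul, abs_of_pos hρ, abs_of_nonneg p0]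
      calc ρ * ((ρ / 2) ^ θ * |deriv B ρ|) ≤ 1 * (1 * C2) :=
            mul_le_mul hle (mul_le_mul p1 a2 (abs_nonneg _) zero_le_one)
              (mul_nonneg p0 (abs_nonneg _)) zero_le_one
        _ = C2 := by ring
    have x3 : |ρ * ((ρ / 2) ^ θ * deriv (deriv B) ρ)| ≤ C3 := by
      rw [abs_mul, abs_mul, abs_of_pos hρ, abs_of_nonneg p0]
      calc ρ * ((ρ / 2) ^ θ * |deriv (deriv B) ρ|) ≤ 1 * (1 * C3) :=
            mul_le_mul hle (mul_le_mul p1 a3 (abs_nonneg _) zero_le_one)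
              (mul_nonneg p0 (abs_nonneg _)) zero_le_one
        _ = C3 := by ring
    have x4 : |θ * (ρ / 2) ^ θ * B ρ| ≤ C1 := by
      rw [mul_assoc, abs_mul, abs_of_pos hθ]
      calc θ * |(ρ / 2) ^ θ * B ρ| ≤ 1 * C1 := mul_le_mul hθ1 x1 (abs_nonneg _) zero_le_one
        _ = C1 := one_mul _
    have x5 : |θ * (ρ / 2) ^ θ * deriv B ρ| ≤ C2 := by
      rw [mul_assoc, abs_mul, abs_mul, abs_of_pos hθ, abs_of_nonneg p0]
      calc θ * ((ρ / 2) ^ θ * |deriv B ρ|) ≤ 1 * (1 * C2) :=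
            mul_le_mul hθ1 (mul_le_mul p1 a2 (abs_nonneg _) zero_le_one)
              (mul_nonneg p0 (abs_nonneg _)) zero_le_one
        _ = C2 := by ring
    have x6 : |1 / 2 * θ * (θ - 1) * (ρ / 2) ^ (θ - 1) * B ρ| ≤ C1 * (2 * ρ ^ (θ - 1)) := by
      rw [abs_mul, abs_mul, abs_of_nonneg q0]
      have y1 : |1 / 2 * θ * (θ - 1)| ≤ 1 := by
        rw [abs_le]
        constructor <;> nlinarith only [hθ, hθ1]
      calc |1 / 2 * θ * (θ - 1)| * (ρ / 2) ^ (θ - 1) * |B ρ|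
          ≤ 1 * (2 * ρ ^ (θ - 1)) * C1 :=
            mul_le_mul (mul_le_mul y1 q2 q0 zero_le_one) hBn (abs_nonneg _) (by positivity)
        _ = C1 * (2 * ρ ^ (θ - 1)) := by ring
    have x7 : |(ρ / 2) ^ (θ - 1) * B ρ| ≤ C1 * (2 * ρ ^ (θ - 1)) := by
      rw [abs_mul, abs_of_nonneg q0]
      calc (ρ / 2) ^ (θ - 1) * |B ρ| ≤ 2 * ρ ^ (θ - 1) * C1 :=
            mul_le_mul q2 hBn (abs_nonneg _) (by positivity)
        _ = C1 * (2 * ρ ^ (θ - 1)) := by ring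
    have m1 : C1 ≤ C1 * ρ ^ (θ - 1) := le_mul_of_one_le_right h1 q1
    have m2 : C2 ≤ C2 * ρ ^ (θ - 1) := le_mul_of_one_le_right h2 q1
    have m3 : C3 ≤ C3 * ρ ^ (θ - 1) := le_mul_of_one_le_right h3 q1
    refine ⟨?_, ?_, ?_, ?_⟩
    · rw [hY]
      exact x1.trans (by linarith)
    · rw [e1 ρ hρ]
      have f1 : ρ * (1 / 2 * θ * (ρ / 2) ^ (θ - 1) * B ρ + (ρ / 2) ^ θ * deriv B ρ)
          = θ * (ρ / 2) ^ θ * B ρ + ρ * ((ρ / 2) ^ θ * deriv B ρ) := by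
        rw [← r3]; ring
      rw [f1]
      exact (abs_add_le _ _).trans (by linarith)
    · rw [e2 ρ hρ]
      have f2 : ρ * (1 / 2 * θ * (1 / 2 * (θ - 1) * (ρ / 2) ^ (θ - 1 - 1)) * B ρ
          + 1 / 2 * θ * (ρ / 2) ^ (θ - 1) * deriv B ρ
          + (1 / 2 * θ * (ρ / 2) ^ (θ - 1) * deriv B ρ + (ρ / 2) ^ θ * deriv (deriv B) ρ))
          = 1 / 2 * θ * (θ - 1) * (ρ / 2) ^ (θ - 1) * B ρ
            + (θ * (ρ / 2) ^ θ * deriv B ρ + θ * (ρ / 2) ^ θ * deriv B ρ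
            + ρ * ((ρ / 2) ^ θ * deriv (deriv B) ρ)) := by
        rw [← r3, ← r4]; ring
      rw [f2]
      have g1 := abs_add_le (1 / 2 * θ * (θ - 1) * (ρ / 2) ^ (θ - 1) * B ρ)
        (θ * (ρ / 2) ^ θ * deriv B ρ + θ * (ρ / 2) ^ θ * deriv B ρ
            + ρ * ((ρ / 2) ^ θ * deriv (deriv B) ρ))
      have g2 := abs_add_le (θ * (ρ / 2) ^ θ * deriv B ρ + θ * (ρ / 2) ^ θ * deriv B ρ)
        (ρ * ((ρ / 2) ^ θ * deriv (deriv B) ρ))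
      have g3 := abs_add_le (θ * (ρ / 2) ^ θ * deriv B ρ) (θ * (ρ / 2) ^ θ * deriv B ρ)
      linarith only [mul_nonneg h1 hr0, mul_nonneg h2 hr0, mul_nonneg h3 hr0, h1, h2, h3, x3, x5, x6, m1, m2, m3, g1, g2, g3]
    · rw [hY]
      refine x7.trans ?_
      linarith only [mul_nonneg h1 hr0, mul_nonneg h2 hr0, mul_nonneg h3 hr0, h1, h2, h3, m1, m2, m3]
  · push Not at hle
    obtain ⟨z1, z2, z3⟩ := Y2_zero θ (ρ := ρ) (by linarith)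
    obtain ⟨z4, _, _⟩ := Y2_zero (θ - 1) (ρ := ρ) (by linarith)
    rw [z1, z2, z3, z4, mul_zero, abs_zero]
    have : 0 ≤ 5 * (C1 + C2 + C3) * ρ ^ (θ - 1) := mul_nonneg (by linarith) hr0
    exact ⟨by linarith, by linarith, this, this⟩

end Pool.Agent.H37.EP
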