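import Pool.Agent.H94.EP.DyB
import Pool.Agent.H94.EP.DyY
import Pool.Agent.H94.EP.DyQ
import Pool.Agent.H94.EP.DyM
import Pool.Agent.H87.NS.EVe
import Pool.Agent.H87.NS.EvInt

/-
ROW DyO (MP_09540e_EP). Continuity in time of the one-point functionals.
-/

set_option autoImplicit false

open Set Filter Topology MeasureTheory
open scoped ContDiff

namespace Pool.Agent.H37.EP

open Pool.Agent.H16 Pool.Agent.H87.NS Pool.Agent.H72.CC Pool.Agent.H16.TU Pool.Agent.H94.EP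

variable {T : ℝ} {u : ℝ → E3 → E3} {p : ℝ → E3 → ℝ} {f G : ℝ → E3 → ℝ}

/-- Functions dominated off the axis by the height weight, zero far from the axis. -/
private theorem DyO_gen {Φ : ℝ → E3 → ℝ} {L a : ℝ} (hL : 0 < L)
    (hm : ∀ t ∈ Ico 0 T, AEStronglyMeasurable (Φ t) volume)
    (hb : ∀ b < T, ∃ K : ℝ, 0 ≤ K ∧ ∀ t ∈ Icc 0 b, ∀ x, 0 < rsq x →
      |Φ t x| ≤ K * ph L a (x 2) ∧ (1 / 2 < rsq x → Φ t x = 0))
    (hc : ∀ x, ContinuousOn (fun t => Φ t x) (Ico 0 T)) :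
    ContinuousOn (fun t => ∫ x, Φ t x) (Ico 0 T) ∧ ∀ t ∈ Ico 0 T, Integrable (Φ t) := by
  have hg : Integrable (dm 1 L a) := dm_int one_pos hL a
  have hb' : ∀ b < T, ∃ K : ℝ, ∀ t ∈ Icc 0 b, ∀ᵐ x, |Φ t x| ≤ K * dm 1 L a x := by
    intro b hbT
    obtain ⟨K, hK0, hK⟩ := hb b hbT
    refine ⟨K, fun t ht => ?_⟩
    filter_upwards [ae_off] with x hx
    obtain ⟨h1, h2⟩ := hK t ht x hx
    rcases lt_or_ge (rsq x) 1 with h | h
    · exact h1.trans (mul_le_mul_of_nonneg_left (dm_1 le_rfl L a hx h).1 hK0)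
    · rw [h2 (by linarith), abs_zero]
      exact mul_nonneg hK0 (dm_nn _ _ _ _)
  refine ⟨ct1 hg hm hb' (Filter.Eventually.of_forall hc), fun t ht => ?_⟩
  obtain ⟨K, hK⟩ := hb' t ht.2
  refine (hg.const_mul K).mono' (hm t ht) ?_
  filter_upwards [hK t ⟨ht.1, le_rfl⟩] with x hx
  rwa [Real.norm_eq_abs]

private theorem DyO_ct {g : ℝ → E3 → ℝ} (hg : JC T g) (x : E3) : ContinuousOn (fun t => g t x) (Ico 0 T) := by
  have h : ContinuousOn (fun t : ℝ => ((t, x) : ℝ × E3)) (Ico 0 T) := by fun_prop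
  exact ContinuousOn.comp (g := fun q : ℝ × E3 => g q.1 q.2) (f := fun t : ℝ => (t, x)) hg h
    fun t ht => ⟨ht, mem_univ _⟩

private theorem DyO_genJ {Φ : ℝ → E3 → ℝ} {L a : ℝ} (hL : 0 < L) (hJ : JC T Φ)
    (hb : ∀ b < T, ∃ K : ℝ, 0 ≤ K ∧ ∀ t ∈ Icc 0 b, ∀ x, 0 < rsq x →
      |Φ t x| ≤ K * ph L a (x 2) ∧ (1 / 2 < rsq x → Φ t x = 0)) :
    ContinuousOn (fun t => ∫ x, Φ t x) (Ico 0 T) ∧ ∀ t ∈ Ico 0 T, Integrable (Φ t) :=
  DyO_gen hL (fun _ ht => (EVe_cx hJ ht).aestronglyMeasurable) hb (DyO_ct hJ)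

private theorem DyO_rc : Continuous (rsq : E3 → ℝ) := EVe_rsq_smooth.continuous

private theorem DyO_2c : Continuous (fun x : E3 => x 2) :=
  (EuclideanSpace.proj 2 : E3 →L[ℝ] ℝ).continuous

private theorem DyO_A1 (L a : ℝ) : Continuous (A1 L a) := by
  have h : A1 L a = fun x => Y1 (rsq x) * ph L a (x 2) := A1_pw L a
  rw [h]
  exact (Y1_sm.continuous.comp DyO_rc).mul ((P_sm L a 0).1.continuous.comp DyO_2c)

/-- Bounds of the weight off the axis. -/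
private theorem DyO_A1b : ∃ C : ℝ, 0 ≤ C ∧ ∀ {L : ℝ}, 1 ≤ L → ∀ (a : ℝ) (x : E3), 0 < rsq x →
    |A1 L a x| ≤ C * ph L a (x 2) ∧ (1 / 2 < rsq x → A1 L a x = 0) := by
  obtain ⟨C, hC0, hC⟩ := Y1_bd
  refine ⟨C, hC0, fun {L} hL a x hx => ?_⟩
  have h : A1 L a x = Y1 (rsq x) * ph L a (x 2) := congrFun (A1_pw L a) x
  have hp : 0 < ph L a (x 2) := (P_bd hL a (h := 0) (by simp) (x 2)).1
  rw [h]
  refine ⟨?_, fun h1 => ?_⟩
  · rw [abs_mul, abs_of_pos hp]
    exact mul_le_mul_of_nonneg_right (hC _ hx).1 hp.le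
  · rw [(Y1_zero h1).1, zero_mul]

private theorem DyO_gsqJC (hf : Evo T u f G) : JC T (fun t => gsq (f t)) := by
  have h0 : ∀ i : Fin 3, JC T (fun t x => pd i (f t) x * pd i (f t) x) :=
    fun i => JC_mul (hf.contd i) (hf.contd i)
  have h1 := JC_add (JC_add (h0 0) (h0 1)) (h0 2)
  have h2 : (fun t => gsq (f t)) = fun t x => pd 0 (f t) x * pd 0 (f t) x +
      pd 1 (f t) x * pd 1 (f t) x + pd 2 (f t) x * pd 2 (f t) x := by
    funext t x
    simp only [gsq, Fin.sum_univ_three, pow_two]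
  rw [h2]
  exact h1

private theorem DyO_gsqb {g : E3 → ℝ} {x : E3} {K : ℝ} (h : ∀ i, |pd i g x| ≤ K) :
    |gsq g x| ≤ 3 * K ^ 2 := by
  have h1 : ∀ i, pd i g x ^ 2 ≤ K ^ 2 := fun i => by
    rw [← sq_abs]
    exact pow_le_pow_left₀ (abs_nonneg _) (h i) 2
  rw [abs_of_nonneg (gsq_nonneg g x)]
  unfold gsq
  rw [Fin.sum_univ_three]
  linarith [h1 0, h1 1, h1 2]

/-- Bounds from `Evo`. -/
private theorem DyO_K (hf : Evo T u f G) {b : ℝ} (hb : b < T) : ∃ K : ℝ, 0 ≤ K ∧ ∀ t ∈ Icc 0 b, ∀ x,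
    |f t x| ≤ K ∧ (∀ i, |pd i (f t) x| ≤ K) ∧ |G t x| ≤ K := by
  obtain ⟨K, hK⟩ := hf.bd b hb
  refine ⟨|K|, abs_nonneg _, fun t ht x => ?_⟩
  obtain ⟨h1, h2⟩ := hK t ht
  exact ⟨((DB_BL h1).1 x).trans (le_abs_self _), fun i => ((DB_BL (DB_pd (n := 0) h1 i)).1 x).trans (le_abs_self _),
    (h2.1 x).trans (le_abs_self _)⟩

private theorem DyO_f2b {s K : ℝ} (h : |s| ≤ K) : |s ^ 2| ≤ K ^ 2 := by
  rw [abs_pow]
  exact pow_le_pow_left₀ (abs_nonneg _) h 2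

theorem c_f2 (hf : Evo T u f G) {L : ℝ} (hL : 1 ≤ L) (a : ℝ) :
    ContinuousOn (fun t => ∫ x, A1 L a x * f t x ^ 2) (Ico 0 T) ∧ ∀ t ∈ Ico 0 T, Integrable (fun x => A1 L a x * f t x ^ 2) := by
  refine DyO_genJ (Φ := fun t x => A1 L a x * f t x ^ 2) (L := L) (a := a) (by linarith)
    (JC_mul (JC_const (DyO_A1 L a)) (JC_comp hf.cont (H := fun s => s ^ 2) (by fun_prop))) fun b hb => ?_
  obtain ⟨K, hK0, hK⟩ := DyO_K hf hb
  obtain ⟨C, hC0, hC⟩ := DyO_A1b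
  refine ⟨C * K ^ 2, by positivity, fun t ht x hx => ⟨?_, fun h => ?_⟩⟩
  · have h1 := (hC hL a x hx).1
    have hp : 0 < ph L a (x 2) := (P_bd hL a (h := 0) (by simp) (x 2)).1
    rw [abs_mul]
    calc |A1 L a x| * |f t x ^ 2| ≤ (C * ph L a (x 2)) * K ^ 2 :=
          mul_le_mul h1 (DyO_f2b (hK t ht x).1) (abs_nonneg _) (by positivity)
      _ = C * K ^ 2 * ph L a (x 2) := by ring
  · rw [(hC hL a x hx).2 h, zero_mul]

theorem c_g2 (hf : Evo T u f G) {L : ℝ} (hL : 1 ≤ L) (a : ℝ) :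
    ContinuousOn (fun t => ∫ x, A1 L a x * gsq (f t) x) (Ico 0 T) ∧ ∀ t ∈ Ico 0 T, Integrable (fun x => A1 L a x * gsq (f t) x) := by
  refine DyO_genJ (Φ := fun t x => A1 L a x * gsq (f t) x) (L := L) (a := a) (by linarith)
    (JC_mul (JC_const (DyO_A1 L a)) (DyO_gsqJC hf)) fun b hb => ?_
  obtain ⟨K, hK0, hK⟩ := DyO_K hf hb
  obtain ⟨C, hC0, hC⟩ := DyO_A1b
  refine ⟨C * (3 * K ^ 2), by positivity, fun t ht x hx => ⟨?_, fun h => ?_⟩⟩
  · have h1 := (hC hL a x hx).1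
    have hp : 0 < ph L a (x 2) := (P_bd hL a (h := 0) (by simp) (x 2)).1
    rw [abs_mul]
    calc |A1 L a x| * |gsq (f t) x| ≤ (C * ph L a (x 2)) * (3 * K ^ 2) :=
          mul_le_mul h1 (DyO_gsqb (hK t ht x).2.1) (abs_nonneg _) (by positivity)
      _ = C * (3 * K ^ 2) * ph L a (x 2) := by ring
  · rw [(hC hL a x hx).2 h, zero_mul]

/-- The formula for `evJ` off the axis. -/
private noncomputable def DyO_F (L a : ℝ) (W : ℝ → E3 → ℝ) (v : ℝ → E3 → ℝ) (f G : ℝ → E3 → ℝ) (g : ℝ → E3 → ℝ)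
    (t : ℝ) (x : E3) : ℝ :=
  2 * (f t x * G t x + -g t x) * (Y1 (rsq x) * ph L a (x 2)) +
      f t x ^ 2 * (2 * W t x * (rsq x * deriv Y1 (rsq x)) * ph L a (x 2) + v t x * (Y1 (rsq x) * deriv (ph L a) (x 2)) +
        4 * (rsq x * deriv (deriv Y1) (rsq x)) * ph L a (x 2) + Y1 (rsq x) * deriv (deriv (ph L a)) (x 2))

private theorem DyO_FJC {L a : ℝ} {W v f G g : ℝ → E3 → ℝ} (hW : JC T W) (hv : JC T v) (hf : JC T f)
    (hG : JC T G) (hg : JC T g) : JC T (DyO_F L a W v f G g) := by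
  have dY : ContDiff ℝ ∞ (deriv Y1) := (contDiff_infty_iff_deriv.1 Y1_sm).2
  have ddY : ContDiff ℝ ∞ (deriv (deriv Y1)) := (contDiff_infty_iff_deriv.1 dY).2
  have P0 := (P_sm L a 0).1
  have dP : ContDiff ℝ ∞ (deriv (ph L a)) := (contDiff_infty_iff_deriv.1 P0).2
  have ddP : ContDiff ℝ ∞ (deriv (deriv (ph L a))) := (contDiff_infty_iff_deriv.1 dP).2
  have y0 : JC T (fun _ x => Y1 (rsq x)) := JC_const (Y1_sm.continuous.comp DyO_rc)
  have y1 : JC T (fun _ x => rsq x * deriv Y1 (rsq x)) := JC_const (DyO_rc.mul (dY.continuous.comp DyO_rc))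
  have y2 : JC T (fun _ x => rsq x * deriv (deriv Y1) (rsq x)) := JC_const (DyO_rc.mul (ddY.continuous.comp DyO_rc))
  have p0 : JC T (fun _ x => ph L a (x 2)) := JC_const (P0.continuous.comp DyO_2c)
  have p1 : JC T (fun _ x => deriv (ph L a) (x 2)) := JC_const (dP.continuous.comp DyO_2c)
  have p2 : JC T (fun _ x => deriv (deriv (ph L a)) (x 2)) := JC_const (ddP.continuous.comp DyO_2c)
  have cc : ∀ c : ℝ, JC T (fun _ _ => c) := fun c => JC_const continuous_const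
  have gn : JC T (fun t x => -g t x) := JC_comp hg (H := fun s => -s) continuous_neg
  have f2 : JC T (fun t x => f t x ^ 2) := JC_comp hf (H := fun s => s ^ 2) (by fun_prop)
  exact JC_add (JC_mul (JC_mul (cc 2) (JC_add (JC_mul hf hG) gn)) (JC_mul y0 p0))
    (JC_mul f2 (JC_add (JC_add (JC_add (JC_mul (JC_mul (JC_mul (cc 2) hW) y1) p0) (JC_mul hv (JC_mul y0 p1)))
      (JC_mul (JC_mul (cc 4) y2) p0)) (JC_mul y0 p2)))

private theorem DyO_Fb {f G g W v Y0 Y' Y'' P0 P1 P2 K C : ℝ} (hK : 0 ≤ K) (hC : 0 ≤ C)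
    (hf : |f| ≤ K) (hG : |G| ≤ K) (hg : |g| ≤ 3 * K ^ 2) (hW : |W| ≤ K) (hv : |v| ≤ K)
    (h0 : |Y0| ≤ C) (h1 : |Y'| ≤ C) (h2 : |Y''| ≤ C) (p0 : 0 < P0) (p1 : |P1| ≤ P0) (p2 : |P2| ≤ 10 * P0) :
    |2 * (f * G + -g) * (Y0 * P0) + f ^ 2 * (2 * W * Y' * P0 + v * (Y0 * P1) + 4 * Y'' * P0 + Y0 * P2)| ≤
      (8 * K ^ 2 * C + K ^ 2 * (3 * (K * C) + 14 * C)) * P0 := by
  have a0 : |Y0 * P0| ≤ C * P0 := by
    rw [abs_mul, abs_of_pos p0]
    exact mul_le_mul_of_nonneg_right h0 p0.le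
  have a1 : |Y' * P0| ≤ C * P0 := by
    rw [abs_mul, abs_of_pos p0]
    exact mul_le_mul_of_nonneg_right h1 p0.le
  have a2 : |Y'' * P0| ≤ C * P0 := by
    rw [abs_mul, abs_of_pos p0]
    exact mul_le_mul_of_nonneg_right h2 p0.le
  have a3 : |Y0 * P1| ≤ C * P0 := by
    rw [abs_mul]
    exact mul_le_mul h0 p1 (abs_nonneg _) hC
  have a4 : |Y0 * P2| ≤ C * (10 * P0) := by
    rw [abs_mul]
    exact mul_le_mul h0 p2 (abs_nonneg _) hC
  have b1 : |f * G + -g| ≤ 4 * K ^ 2 := by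
    have h3 : |f * G| ≤ K * K := by
      rw [abs_mul]
      exact mul_le_mul hf hG (abs_nonneg _) hK
    have h4 := abs_add_le (f * G) (-g)
    rw [abs_neg] at h4
    nlinarith
  have b2 : |2 * (f * G + -g) * (Y0 * P0)| ≤ 8 * K ^ 2 * C * P0 := by
    rw [abs_mul, abs_mul, abs_of_pos (two_pos : (0:ℝ) < 2)]
    calc 2 * |f * G + -g| * |Y0 * P0| ≤ 2 * (4 * K ^ 2) * (C * P0) :=
          mul_le_mul (by linarith) a0 (abs_nonneg _) (by positivity)
      _ = 8 * K ^ 2 * C * P0 := by ring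
  have b3 : |2 * W * Y' * P0| ≤ 2 * (K * (C * P0)) := by
    have h3 : 2 * W * Y' * P0 = 2 * (W * (Y' * P0)) := by ring
    rw [h3, abs_mul, abs_of_pos (two_pos : (0:ℝ) < 2), abs_mul]
    exact mul_le_mul_of_nonneg_left (mul_le_mul hW a1 (abs_nonneg _) hK) two_pos.le
  have b4 : |v * (Y0 * P1)| ≤ K * (C * P0) := by
    rw [abs_mul]
    exact mul_le_mul hv a3 (abs_nonneg _) hK
  have b5 : |4 * Y'' * P0| ≤ 4 * (C * P0) := by
    have h3 : 4 * Y'' * P0 = 4 * (Y'' * P0) := by ring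
    rw [h3, abs_mul, abs_of_pos (by norm_num : (0:ℝ) < 4)]
    linarith
  have c1 := abs_add_le (2 * W * Y' * P0 + v * (Y0 * P1) + 4 * Y'' * P0) (Y0 * P2)
  have c2 := abs_add_le (2 * W * Y' * P0 + v * (Y0 * P1)) (4 * Y'' * P0)
  have c3 := abs_add_le (2 * W * Y' * P0) (v * (Y0 * P1))
  have c4 : |2 * W * Y' * P0 + v * (Y0 * P1) + 4 * Y'' * P0 + Y0 * P2| ≤ (3 * (K * C) + 14 * C) * P0 := by
    have h3 : (3 * (K * C) + 14 * C) * P0 = 2 * (K * (C * P0)) + K * (C * P0) + 4 * (C * P0) + C * (10 * P0) := by ring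
    linarith
  have c5 : |f ^ 2 * (2 * W * Y' * P0 + v * (Y0 * P1) + 4 * Y'' * P0 + Y0 * P2)| ≤
      K ^ 2 * ((3 * (K * C) + 14 * C) * P0) := by
    rw [abs_mul]
    exact mul_le_mul (DyO_f2b hf) c4 (abs_nonneg _) (by positivity)
  have c6 := abs_add_le (2 * (f * G + -g) * (Y0 * P0))
    (f ^ 2 * (2 * W * Y' * P0 + v * (Y0 * P1) + 4 * Y'' * P0 + Y0 * P2))
  have c7 : (8 * K ^ 2 * C + K ^ 2 * (3 * (K * C) + 14 * C)) * P0 =
      8 * K ^ 2 * C * P0 + K ^ 2 * ((3 * (K * C) + 14 * C) * P0) := by ring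
  linarith

theorem c_ev (h : IsHInfAxisymNS T u p) (hf : Evo T u f G) {L : ℝ} (hL : 1 ≤ L) (a : ℝ) :
    ContinuousOn (fun t => ∫ x, evJ sqf (u t) (f t) (G t) (A1 L a) x) (Ico 0 T) ∧
      ∀ t ∈ Ico 0 T, Integrable (evJ sqf (u t) (f t) (G t) (A1 L a)) := by
  have hns := h.ns
  have hF : ∀ t ∈ Ico 0 T, ∀ x, 0 < rsq x → evJ sqf (u t) (f t) (G t) (A1 L a) x =
      DyO_F L a (fun t => sW (u t)) (fun t x => u t x 2) f G (fun t => gsq (f t)) t x := by
    intro t ht x hx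
    rw [A1_pw, pw_ev Y1_sm.contDiffOn (P_sm L a 0).1 (axF_of hns ht) (f t) (G t) hx]
    unfold DyO_F
    ring
  have hae : ∀ t ∈ Ico 0 T, DyO_F L a (fun t => sW (u t)) (fun t x => u t x 2) f G (fun t => gsq (f t)) t =ᵐ[volume]
      evJ sqf (u t) (f t) (G t) (A1 L a) := by
    intro t ht
    filter_upwards [ae_off] with x hx
    exact (hF t ht x hx).symm
  have hmain : ContinuousOn (fun t => ∫ x, DyO_F L a (fun t => sW (u t)) (fun t x => u t x 2) f G (fun t => gsq (f t)) t x) (Ico 0 T) ∧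
      ∀ t ∈ Ico 0 T, Integrable (DyO_F L a (fun t => sW (u t)) (fun t x => u t x 2) f G (fun t => gsq (f t)) t) := by
    refine DyO_genJ (L := L) (a := a) (by linarith)
      (DyO_FJC (jcW hns) (jcu hns 2) hf.cont hf.contG (DyO_gsqJC hf)) fun b hb => ?_
    obtain ⟨K1, hK10, hK1⟩ := DyO_K hf hb
    obtain ⟨K2, hK20, hK2⟩ := bds h hb 0
    obtain ⟨C, hC0, hC⟩ := Y1_bd
    refine ⟨8 * (K1 + K2) ^ 2 * C + (K1 + K2) ^ 2 * (3 * ((K1 + K2) * C) + 14 * C), by positivity,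
      fun t ht x hx => ⟨?_, fun hx2 => ?_⟩⟩
    · obtain ⟨k1, k2, k3⟩ := hK1 t ht x
      obtain ⟨_, w1, _, w2, _⟩ := hK2 t ht
      obtain ⟨q1, q2, q3, q4, _, _, _⟩ := P_bd hL a (h := 0) (by simp) (x 2)
      obtain ⟨y1, y2, y3⟩ := hC _ hx
      have hg2 : |gsq (f t) x| ≤ 3 * (K1 + K2) ^ 2 := DyO_gsqb fun i => (k2 i).trans (by linarith)
      have w1' : |sW (u t) x| ≤ K2 := (DB_BL w1).1 x
      have w2' : |u t x 2| ≤ K2 := (DB_BL (w2 2)).1 x
      unfold DyO_F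
      exact DyO_Fb (by positivity) hC0 (by linarith) (by linarith) hg2 (by linarith) (by linarith) y1 y2 y3 q1 q3 q4
    · obtain ⟨z0, z1, z2⟩ := Y1_zero hx2
      unfold DyO_F
      rw [z0, z1, z2]
      ring
  refine ⟨hmain.1.congr fun t ht => ?_, fun t ht => (hmain.2 t ht).congr (hae t ht)⟩
  exact (integral_congr_ae (hae t ht)).symm

theorem c_GG (h : IsHInfAxisymNS T u p) {L : ℝ} (hL : 1 ≤ L) (a : ℝ) : ContinuousOn (fun t => GG L a (u t)) (Ico 0 T) := by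
  have hns := h.ns
  have hms : MeasurableSet {x : E3 | rsq x < 1 / 2} := measurableSet_lt DyO_rc.measurable measurable_const
  have hJ : JC T (fun t x => ph L a (x 2) * gv (u t) x) := by
    have h0 : ∀ j i : Fin 3, JC T (fun t x => pd i (fun y => u t y j) x * pd i (fun y => u t y j) x) :=
      fun j i => JC_mul (jcdu hns i j) (jcdu hns i j)
    have h1 : ∀ j : Fin 3, JC T (fun t => gsq (fun y => u t y j)) := by
      intro j
      have h2 : (fun t => gsq (fun y => u t y j)) = fun t x => pd 0 (fun y => u t y j) x * pd 0 (fun y => u t y j) x +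
          pd 1 (fun y => u t y j) x * pd 1 (fun y => u t y j) x + pd 2 (fun y => u t y j) x * pd 2 (fun y => u t y j) x := by
        funext t x
        simp only [gsq, Fin.sum_univ_three, pow_two]
      rw [h2]
      exact JC_add (JC_add (h0 j 0) (h0 j 1)) (h0 j 2)
    have h3 : (fun (t : ℝ) (x : E3) => ph L a (x 2) * gv (u t) x) = fun t x => ph L a (x 2) *
        (gsq (fun y => u t y 0) x + gsq (fun y => u t y 1) x + gsq (fun y => u t y 2) x) := by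
      funext t x
      simp only [gv, Fin.sum_univ_three]
    rw [h3]
    exact JC_mul (JC_const ((P_sm L a 0).1.continuous.comp DyO_2c)) (JC_add (JC_add (h1 0) (h1 1)) (h1 2))
  have hmain := DyO_gen (T := T) (Φ := fun t => {x : E3 | rsq x < 1 / 2}.indicator fun x => ph L a (x 2) * gv (u t) x)
    (L := L) (a := a) (by linarith) (fun t ht => ((EVe_cx hJ ht).aestronglyMeasurable).indicator hms) (fun b hb => ?_)
    (fun x => ?_)
  · refine hmain.1.congr fun t ht => ?_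
    show GG L a (u t) = _
    unfold GG
    exact (integral_indicator hms).symm
  · obtain ⟨K, hK0, hK⟩ := bds h hb 1
    refine ⟨9 * K ^ 2, by positivity, fun t ht x hx => ⟨?_, fun hx2 => ?_⟩⟩
    · obtain ⟨q1, _⟩ := P_bd hL a (h := 0) (by simp) (x 2)
      have hb0 : 0 ≤ 9 * K ^ 2 * ph L a (x 2) := by positivity
      by_cases hx3 : x ∈ {x : E3 | rsq x < 1 / 2}
      · rw [indicator_of_mem hx3]
        obtain ⟨_, _, _, w, _⟩ := hK t ht
        have hg : ∀ j : Fin 3, |gsq (fun y => u t y j) x| ≤ 3 * K ^ 2 := fun j =>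
          DyO_gsqb fun i => (DB_BL (DB_pd (n := 0) (w j) i)).1 x
        have hgv : |gv (u t) x| ≤ 9 * K ^ 2 := by
          have e1 : gv (u t) x = gsq (fun y => u t y 0) x + gsq (fun y => u t y 1) x + gsq (fun y => u t y 2) x := by
            simp only [gv, Fin.sum_univ_three]
          rw [e1]
          have e2 := abs_add_le (gsq (fun y => u t y 0) x + gsq (fun y => u t y 1) x) (gsq (fun y => u t y 2) x)
          have e3 := abs_add_le (gsq (fun y => u t y 0) x) (gsq (fun y => u t y 1) x)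
          linarith [hg 0, hg 1, hg 2]
        rw [abs_mul, abs_of_pos q1, mul_comm]
        exact mul_le_mul_of_nonneg_right hgv q1.le
      · rw [indicator_of_notMem hx3, abs_zero]
        exact hb0
    · refine indicator_of_notMem (fun hx3 => ?_) _
      have hx4 : rsq x < 1 / 2 := hx3
      linarith
  · by_cases hx3 : x ∈ {x : E3 | rsq x < 1 / 2}
    · have e1 : (fun t => {x : E3 | rsq x < 1 / 2}.indicator (fun x => ph L a (x 2) * gv (u t) x) x) =
          fun t => ph L a (x 2) * gv (u t) x := by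
        funext t
        exact indicator_of_mem hx3 _
      show ContinuousOn (fun t => {x : E3 | rsq x < 1 / 2}.indicator (fun x => ph L a (x 2) * gv (u t) x) x) (Ico 0 T)
      rw [e1]
      exact DyO_ct hJ x
    · have e1 : (fun t => {x : E3 | rsq x < 1 / 2}.indicator (fun x => ph L a (x 2) * gv (u t) x) x) =
          fun _ => (0 : ℝ) := by
        funext t
        exact indicator_of_notMem hx3 _
      show ContinuousOn (fun t => {x : E3 | rsq x < 1 / 2}.indicator (fun x => ph L a (x 2) * gv (u t) x) x) (Ico 0 T)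
      rw [e1]
      exact continuousOn_const

end Pool.Agent.H37.EP
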