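import Pool.Agent.H94.EP.Defs
import Pool.Agent.H87.NS.Bds2

/-
Bounds of all orders and joint continuity of second derivatives.
-/

set_option autoImplicit false

open Set Filter Topology MeasureTheory
open scoped ContDiff

namespace Pool.Agent.H37.EP

open Pool.Agent.H16 Pool.Agent.H87.NS Pool.Agent.H72.CC Pool.Agent.H16.TU Pool.Agent.H94.EP

variable {T : ℝ} {u : ℝ → E3 → E3} {p : ℝ → E3 → ℝ}

theorem uDBn (h : IsHInfAxisymNS T u p) {T' : ℝ} (hT' : T' < T) (n : ℕ) :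
    ∃ K : ℝ, ∀ t ∈ Icc 0 T', ∀ j : Fin 3, DB n K (fun x => u t x j) := by
  choose K hK using h.reg T' hT'
  refine ⟨∑ m ∈ Finset.range (n + 1), |K m|, fun t ht j => ?_⟩
  have ht' : t ∈ Ico 0 T := ⟨ht.1, lt_of_le_of_lt ht.2 hT'⟩
  refine reg_DB (h.ns.slice ht') (N := n) (fun m hm => ?_) j
  have h1 : K m ≤ ∑ m ∈ Finset.range (n + 1), |K m| :=
    (le_abs_self _).trans (Finset.single_le_sum (f := fun m => |K m|)
      (fun i _ => abs_nonneg _) (Finset.mem_range.2 (by omega)))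
  obtain ⟨h2, h3, h4⟩ := hK m t ht
  exact ⟨fun x => (h2 x).trans h1, h3, h4.trans h1⟩

theorem DyB_sW (h : IsAxisymNS T u p) {t : ℝ} (ht : t ∈ Ico 0 T) :
    sW (u t) = avk 1 (fun y => - pd 2 (fun z => u t z 2) y) := by
  rw [← Bds1_div (h.slice ht)]
  rfl

/-- a derivative of an average is an average of the derivative -/
theorem DyB_avk {g : ℝ → E3 → ℝ} (hg : JS T g) (i : Fin 3) (k : ℕ) :
    ∃ k' : ℕ, ∀ t ∈ Ico 0 T, pd i (avk k (g t)) = avk k' (pd i (g t)) := by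
  by_cases hi : i = 2
  · subst hi
    exact ⟨k, fun t ht => avk_pd_two (JS_slice hg ht) k⟩
  · exact ⟨k + 1, fun t ht => avk_pd_hor (JS_slice hg ht) k hi⟩

theorem bds (h : IsHInfAxisymNS T u p) {T' : ℝ} (hT' : T' < T) (n : ℕ) :
    ∃ K : ℝ, 0 ≤ K ∧ ∀ t ∈ Icc 0 T', DB n K (sV (u t)) ∧ DB n K (sW (u t)) ∧ DB n K (sO (u t)) ∧
      (∀ j : Fin 3, DB n K (fun x => u t x j)) ∧ DB n K (fun x => curl (u t) x 2) := by
  obtain ⟨K1, hK1⟩ := uDBn h hT' (n + 2)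
  obtain ⟨K, hK0, hKK⟩ : ∃ K : ℝ, 0 ≤ K ∧ K1 ≤ K := ⟨max K1 0, le_max_right _ _, le_max_left _ _⟩
  have hK : ∀ t ∈ Icc 0 T', ∀ j : Fin 3, DB (n + 2) K (fun x => u t x j) :=
    fun t ht j => DB_mono (hK1 t ht j) le_rfl hKK
  refine ⟨72 * K, by linarith, fun t ht => ?_⟩
  have ht' : t ∈ Ico 0 T := ⟨ht.1, lt_of_le_of_lt ht.2 hT'⟩
  have hs := h.ns.slice ht'
  have h1 : ∀ j : Fin 3, DB (n + 1) (6 * K) (fun x => curl (u t) x j) :=
    fun j => Bds1_curl_DB hs (hK t ht) j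
  have h2 : ∀ j : Fin 3, DB n (6 * (6 * K)) (fun x => curl (curl (u t)) x j) :=
    fun j => Bds1_curl_DB (curl_smooth hs) h1 j
  refine ⟨?_, ?_, ?_, fun j => DB_mono (hK t ht j) (by omega) (by linarith),
    DB_mono (h1 2) (by omega) (by linarith)⟩
  · exact DB_mono (avk_DB (f := fun y => curl (u t) y 2) (Bds1_proj_smooth (curl_smooth hs) 2)
      (k := 1) le_rfl (h1 2)) (by omega) (by linarith)
  · rw [DyB_sW h.ns ht']
    exact DB_mono (avk_DB (pd_smooth (Bds1_proj_smooth hs 2) 2).neg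
      (k := 1) le_rfl (Bds1_neg_DB (DB_pd (hK t ht 2) 2))) (by omega) (by linarith)
  · exact DB_mono (avk_DB (f := fun y => curl (curl (u t)) y 2)
      (Bds1_proj_smooth (curl_smooth (curl_smooth hs)) 2)
      (k := 1) le_rfl (h2 2)) le_rfl (by linarith)

theorem vs_of (h : IsHInfAxisymNS T u p) {t : ℝ} (ht : t ∈ Ico 0 T) : Vs (u t) := by
  refine ⟨axF_of h.ns ht, fun n => ?_⟩
  obtain ⟨K, hK⟩ := uDBn h ht.2 n
  exact ⟨K, fun j => hK t ⟨ht.1, le_rfl⟩ j⟩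

theorem jcu (h : IsAxisymNS T u p) (j : Fin 3) : JC T (fun t x => u t x j) :=
  JS_JC (js_u h j)

theorem jcdu (h : IsAxisymNS T u p) (i j : Fin 3) : JC T (fun t => pd i (fun x => u t x j)) :=
  JS_JC (JS_pd (js_u h j) i)

theorem jcc (h : IsAxisymNS T u p) : JC T (fun t x => curl (u t) x 2) :=
  JS_JC (js_curl h 2)

theorem jcdW (h : IsAxisymNS T u p) (i : Fin 3) : JC T (fun t => pd i (sW (u t))) := by
  have hg : JS T (fun t y => - pd 2 (fun z => u t z 2) y) :=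
    ContDiffOn.neg (JS_pd (js_u h 2) 2)
  obtain ⟨k, hk⟩ := DyB_avk hg i 1
  refine Bds2_JC_congr (g := fun t => avk k (pd i (fun y => - pd 2 (fun z => u t z 2) y)))
    (fun t ht x => ?_) (avk_JC (JS_JC (JS_pd hg i)) k)
  rw [DyB_sW h ht, hk t ht]

theorem jcddV (h : IsAxisymNS T u p) (i j : Fin 3) : JC T (fun t => pd i (pd j (sV (u t)))) := by
  have hg : JS T (fun t y => curl (u t) y 2) := js_curl h 2
  obtain ⟨k, hk⟩ := DyB_avk hg j 1
  obtain ⟨k', hk'⟩ := DyB_avk (JS_pd hg j) i k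
  refine Bds2_JC_congr (g := fun t => avk k' (pd i (pd j (fun y => curl (u t) y 2))))
    (fun t ht x => ?_) (avk_JC (JS_JC (JS_pd (JS_pd hg j) i)) k')
  have h1 : sV (u t) = avk 1 (fun y => curl (u t) y 2) := rfl
  rw [h1, hk t ht, hk' t ht]

end Pool.Agent.H37.EP
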