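import Pool.Agent.H94.EP.Defs

/-! Time and space derivatives commute off the axis. -/

set_option autoImplicit false

open Set Filter Topology MeasureTheory
open scoped ContDiff

namespace Pool.Agent.H37.EP

open Pool.Agent.H16 Pool.Agent.H87.NS Pool.Agent.H72.CC Pool.Agent.H16.TU Pool.Agent.H94.EP

variable {T : ℝ} {f : ℝ → E3 → ℝ}

lemma DyX_two_le : minSmoothness ℝ 2 ≤ ∞ := by
  rw [minSmoothness_of_isRCLikeNormedField]
  exact ENat.LEInfty.out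

lemma DyX_openx : IsOpen {x : E3 | 0 < rsq x} := by
  have h1 : Continuous (rsq : E3 → ℝ) := by
    unfold rsq
    fun_prop
  exact isOpen_lt continuous_const h1

lemma DyX_open (T : ℝ) : IsOpen (Ioo 0 T ×ˢ {x : E3 | 0 < rsq x}) :=
  isOpen_Ioo.prod DyX_openx

lemma DyX_cda (hf : ContDiffOn ℝ ∞ (fun q : ℝ × E3 => f q.1 q.2) (Ioo 0 T ×ˢ {x | 0 < rsq x}))
    {t : ℝ} (ht : t ∈ Ioo 0 T) {x : E3} (hx : 0 < rsq x) :
    ContDiffAt ℝ ∞ (fun q : ℝ × E3 => f q.1 q.2) (t, x) :=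
  hf.contDiffAt ((DyX_open T).mem_nhds ⟨ht, hx⟩)

lemma DyX_line (t : ℝ) (x : E3) : HasDerivAt (fun s : ℝ => (s, x)) ((1 : ℝ), (0 : E3)) t :=
  (hasDerivAt_id t).prodMk (hasDerivAt_const t x)

lemma DyX_time (hf : ContDiffOn ℝ ∞ (fun q : ℝ × E3 => f q.1 q.2) (Ioo 0 T ×ˢ {x | 0 < rsq x}))
    {t : ℝ} (ht : t ∈ Ioo 0 T) {x : E3} (hx : 0 < rsq x) :
    HasDerivAt (fun s => f s x) (fderiv ℝ (fun q : ℝ × E3 => f q.1 q.2) (t, x) (1, 0)) t := by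
  have h1 := ((DyX_cda hf ht hx).differentiableAt (by simp)).hasFDerivAt
  exact h1.comp_hasDerivAt t (DyX_line t x)

lemma DyX_space (hf : ContDiffOn ℝ ∞ (fun q : ℝ × E3 => f q.1 q.2) (Ioo 0 T ×ˢ {x | 0 < rsq x}))
    {t : ℝ} (ht : t ∈ Ioo 0 T) {x : E3} (hx : 0 < rsq x) :
    HasFDerivAt (f t) ((fderiv ℝ (fun q : ℝ × E3 => f q.1 q.2) (t, x)).comp
      (ContinuousLinearMap.inr ℝ ℝ E3)) x := by
  have h1 := ((DyX_cda hf ht hx).differentiableAt (by simp)).hasFDerivAt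
  have h2 : HasFDerivAt (fun y : E3 => (t, y)) (ContinuousLinearMap.inr ℝ ℝ E3) x :=
    hasFDerivAt_prodMk_right t x
  exact HasFDerivAt.comp x h1 h2

lemma DyX_pd (hf : ContDiffOn ℝ ∞ (fun q : ℝ × E3 => f q.1 q.2) (Ioo 0 T ×ˢ {x | 0 < rsq x}))
    {t : ℝ} (ht : t ∈ Ioo 0 T) {x : E3} (hx : 0 < rsq x) (i : Fin 3) :
    pd i (f t) x = fderiv ℝ (fun q : ℝ × E3 => f q.1 q.2) (t, x) (0, e i) := by
  rw [pd, (DyX_space hf ht hx).fderiv]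
  simp

lemma DyX_fd (hf : ContDiffOn ℝ ∞ (fun q : ℝ × E3 => f q.1 q.2) (Ioo 0 T ×ˢ {x | 0 < rsq x})) :
    ContDiffOn ℝ ∞ (fderiv ℝ (fun q : ℝ × E3 => f q.1 q.2)) (Ioo 0 T ×ˢ {x | 0 < rsq x}) :=
  hf.fderiv_of_isOpen (DyX_open T) (by norm_cast)

theorem joint_pd (hf : ContDiffOn ℝ ∞ (fun q : ℝ × E3 => f q.1 q.2) (Ioo 0 T ×ˢ {x | 0 < rsq x})) (i : Fin 3) :
    ContDiffOn ℝ ∞ (fun q : ℝ × E3 => pd i (f q.1) q.2) (Ioo 0 T ×ˢ {x | 0 < rsq x}) := by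
  have h2 : ContDiffOn ℝ ∞ (fun q : ℝ × E3 => fderiv ℝ (fun q : ℝ × E3 => f q.1 q.2) q (0, e i))
      (Ioo 0 T ×ˢ {x | 0 < rsq x}) := (DyX_fd hf).clm_apply contDiffOn_const
  exact h2.congr fun q hq => DyX_pd hf hq.1 hq.2 i

theorem joint_dt (hf : ContDiffOn ℝ ∞ (fun q : ℝ × E3 => f q.1 q.2) (Ioo 0 T ×ˢ {x | 0 < rsq x})) :
    ContDiffOn ℝ ∞ (fun q : ℝ × E3 => deriv (fun s => f s q.2) q.1) (Ioo 0 T ×ˢ {x | 0 < rsq x}) := by
  have h2 : ContDiffOn ℝ ∞ (fun q : ℝ × E3 => fderiv ℝ (fun q : ℝ × E3 => f q.1 q.2) q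
      ((1 : ℝ), (0 : E3))) (Ioo 0 T ×ˢ {x | 0 < rsq x}) := (DyX_fd hf).clm_apply contDiffOn_const
  exact h2.congr fun q hq => (DyX_time hf hq.1 hq.2).deriv

theorem comm_loc (hf : ContDiffOn ℝ ∞ (fun q : ℝ × E3 => f q.1 q.2) (Ioo 0 T ×ˢ {x | 0 < rsq x})) {t : ℝ} (ht : t ∈ Ioo 0 T)
    {x : E3} (hx : 0 < rsq x) (i : Fin 3) :
    DifferentiableAt ℝ (fun s => f s x) t ∧ DifferentiableAt ℝ (f t) x ∧ DifferentiableAt ℝ (fun y => deriv (fun s => f s y) t) x ∧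
      pd i (fun y => deriv (fun s => f s y) t) x = deriv (fun s => pd i (f s) x) t := by
  set F : ℝ × E3 → ℝ := fun q => f q.1 q.2 with hF
  have hc : ContDiffAt ℝ ∞ (fderiv ℝ F) (t, x) :=
    (DyX_cda hf ht hx).fderiv_right (m := ∞) (by norm_cast)
  have hd : HasFDerivAt (fderiv ℝ F) (fderiv ℝ (fderiv ℝ F) (t, x)) (t, x) :=
    (hc.differentiableAt (by simp)).hasFDerivAt
  have h2 : HasFDerivAt (fun y : E3 => (t, y)) (ContinuousLinearMap.inr ℝ ℝ E3) x :=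
    hasFDerivAt_prodMk_right t x
  have h3 := HasFDerivAt.comp x hd h2
  have h4 : HasFDerivAt (fun y : E3 => fderiv ℝ F (t, y) (1, 0))
      ((ContinuousLinearMap.apply ℝ ℝ ((1 : ℝ), (0 : E3))).comp
        ((fderiv ℝ (fderiv ℝ F) (t, x)).comp (ContinuousLinearMap.inr ℝ ℝ E3))) x :=
    (ContinuousLinearMap.apply ℝ ℝ ((1 : ℝ), (0 : E3))).hasFDerivAt.comp x h3
  have e1 : (fun y => deriv (fun s => f s y) t) =ᶠ[𝓝 x] fun y => fderiv ℝ F (t, y) (1, 0) := by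
    filter_upwards [DyX_openx.mem_nhds hx] with y hy using (DyX_time hf ht hy).deriv
  have h5 := h4.congr_of_eventuallyEq e1
  refine ⟨(DyX_time hf ht hx).differentiableAt, (DyX_space hf ht hx).differentiableAt,
    h5.differentiableAt, ?_⟩
  have e2 : pd i (fun y => deriv (fun s => f s y) t) x
      = fderiv ℝ (fderiv ℝ F) (t, x) (0, e i) (1, 0) := by
    rw [pd, h5.fderiv]
    simp
  have h6 := hd.comp_hasDerivAt t (DyX_line t x)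
  have h7 : HasDerivAt (fun s : ℝ => fderiv ℝ F (s, x) (0, e i))
      (fderiv ℝ (fderiv ℝ F) (t, x) (1, 0) (0, e i)) t :=
    (ContinuousLinearMap.apply ℝ ℝ ((0 : ℝ), e i)).hasFDerivAt.comp_hasDerivAt t h6
  have h8 : (fun s => pd i (f s) x) =ᶠ[𝓝 t] fun s => fderiv ℝ F (s, x) (0, e i) := by
    filter_upwards [Ioo_mem_nhds ht.1 ht.2] with s hs using DyX_pd hf hs hx i
  rw [e2, (h7.congr_of_eventuallyEq h8).deriv]
  exact ((DyX_cda hf ht hx).isSymmSndFDerivAt DyX_two_le) _ _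

end Pool.Agent.H37.EP
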