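import Pool.Agent.H94.EP.DyI
import Pool.Agent.H94.EP.DyB
import Pool.Agent.H94.EP.DyX
import Pool.Agent.H87.NS.VEq
import Pool.Agent.H87.NS.FlowOf

/-
The evolution equation of `Z = pd 2 (sV u)`.
-/

set_option autoImplicit false

open Set Filter Topology MeasureTheory
open scoped ContDiff

namespace Pool.Agent.H37.EP

open Pool.Agent.H16 Pool.Agent.H87.NS Pool.Agent.H72.CC Pool.Agent.H16.TU Pool.Agent.H94.EP

variable {T : ℝ} {u : ℝ → E3 → E3} {p : ℝ → E3 → ℝ}

private theorem DyZ_coord (k : Fin 3) (hk : k ≠ 2) (x : E3) : pd 2 (fun y : E3 => y k) x = 0 := by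
  unfold pd
  have h : HasFDerivAt (fun y : E3 => y k) (EuclideanSpace.proj k : E3 →L[ℝ] ℝ) x :=
    (EuclideanSpace.proj k : E3 →L[ℝ] ℝ).hasFDerivAt
  rw [h.fderiv]
  change (e 2) k = _
  rw [e_apply, if_neg hk]

private theorem DyZ_add {a b : E3 → ℝ} (ha : ContDiff ℝ ∞ a) (hb : ContDiff ℝ ∞ b) (i : Fin 3) (x : E3) :
    pd i (fun y => a y + b y) x = pd i a x + pd i b x := by
  unfold pd
  rw [fderiv_fun_add (ha.differentiable (by simp) x) (hb.differentiable (by simp) x)]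
  rfl

private theorem DyZ_sub {a b : E3 → ℝ} (ha : ContDiff ℝ ∞ a) (hb : ContDiff ℝ ∞ b) (i : Fin 3) (x : E3) :
    pd i (fun y => a y - b y) x = pd i a x - pd i b x := by
  unfold pd
  rw [fderiv_fun_sub (ha.differentiable (by simp) x) (hb.differentiable (by simp) x)]
  rfl

private theorem DyZ_const {a : E3 → ℝ} (ha : ContDiff ℝ ∞ a) (c : ℝ) (i : Fin 3) (x : E3) :
    pd i (fun y => c * a y) x = c * pd i a x := by
  unfold pd
  rw [fderiv_const_mul (ha.differentiable (by simp) x)]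
  rfl

private theorem DyZ_mulAt {a b : E3 → ℝ} {x : E3} (ha : DifferentiableAt ℝ a x) (hb : DifferentiableAt ℝ b x)
    (i : Fin 3) : pd i (fun y => a y * b y) x = pd i a x * b x + a x * pd i b x := by
  unfold pd
  rw [fderiv_fun_mul ha hb]
  simp
  ring

private theorem DyZ_rsq (x : E3) : pd 2 rsq x = 0 := by
  rw [EVe_pd_rsq]
  simp [e_apply]

private theorem DyZ_rdr {f : E3 → ℝ} (hf : ContDiff ℝ ∞ f) :
    ContDiff ℝ ∞ (rdr f) ∧ ∀ x, pd 2 (rdr f) x = rdr (pd 2 f) x := by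
  have h0 := pd_smooth hf 0
  have h1 := pd_smooth hf 1
  have he : rdr f = fun y => y 0 * pd 0 f y + y 1 * pd 1 f y := rfl
  refine ⟨?_, fun x => ?_⟩
  · rw [he]
    exact ((VRep_x 0).mul h0).add ((VRep_x 1).mul h1)
  · rw [he, DyZ_add ((VRep_x 0).mul h0) ((VRep_x 1).mul h1), EVe_pd_mul (VRep_x 0) h0,
      EVe_pd_mul (VRep_x 1) h1, DyZ_coord 0 (by decide), DyZ_coord 1 (by decide),
      Vort_comm hf 2 0, Vort_comm hf 2 1]
    unfold rdr
    ring

private theorem DyZ_lap {f : E3 → ℝ} (hf : ContDiff ℝ ∞ f) :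
    ContDiff ℝ ∞ (lap f) ∧ ∀ x, pd 2 (lap f) x = lap (pd 2 f) x := by
  have hs : ∀ i : Fin 3, ContDiff ℝ ∞ (pd i (pd i f)) := fun i => pd_smooth (pd_smooth hf i) i
  have he : lap f = fun y => (pd 0 (pd 0 f) y + pd 1 (pd 1 f) y) + pd 2 (pd 2 f) y := by
    funext y
    unfold lap
    rw [Fin.sum_univ_three]
  refine ⟨?_, fun x => ?_⟩
  · rw [he]
    exact ((hs 0).add (hs 1)).add (hs 2)
  · rw [he, DyZ_add ((hs 0).add (hs 1)) (hs 2), DyZ_add (hs 0) (hs 1)]
    unfold lap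
    rw [Fin.sum_univ_three, Vort_comm (pd_smooth hf 0) 2 0, Vort_comm hf 2 0,
      Vort_comm (pd_smooth hf 1) 2 1, Vort_comm hf 2 1]

private theorem DyZ_adv {v : E3 → E3} (hv : ContDiff ℝ ∞ v) {f : E3 → ℝ} (hf : ContDiff ℝ ∞ f) :
    ContDiff ℝ ∞ (fun y => adv (v y) f y) ∧ ∀ x, pd 2 (fun y => adv (v y) f y) x =
      (∑ i, pd 2 (fun y => v y i) x * pd i f x) + adv (v x) (pd 2 f) x := by
  have hc := fun k : Fin 3 => VRep_coord hv k
  have hd := fun k : Fin 3 => pd_smooth hf k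
  have he : (fun y => adv (v y) f y) = fun y => (v y 0 * pd 0 f y + v y 1 * pd 1 f y) + v y 2 * pd 2 f y := by
    funext y
    unfold adv
    rw [Fin.sum_univ_three]
  refine ⟨?_, fun x => ?_⟩
  · rw [he]
    exact (((hc 0).mul (hd 0)).add ((hc 1).mul (hd 1))).add ((hc 2).mul (hd 2))
  · rw [he, DyZ_add (((hc 0).mul (hd 0)).add ((hc 1).mul (hd 1))) ((hc 2).mul (hd 2)),
      DyZ_add ((hc 0).mul (hd 0)) ((hc 1).mul (hd 1)), EVe_pd_mul (hc 0) (hd 0),
      EVe_pd_mul (hc 1) (hd 1), EVe_pd_mul (hc 2) (hd 2)]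
    unfold adv
    rw [Fin.sum_univ_three, Fin.sum_univ_three, Vort_comm hf 2 0, Vort_comm hf 2 1]
    ring

theorem Z_eq (h : IsHInfAxisymNS T u p) {t : ℝ} (ht : t ∈ Ioo 0 T) {x : E3} (hx : 0 < rsq x) :
    deriv (fun s => Zz (u s) x) t + adv (u t x) (Zz (u t)) x = lap (Zz (u t)) x + 2 / rsq x * rdr (Zz (u t)) x + GZ (u t) x := by
  have ht' : t ∈ Ico 0 T := ⟨ht.1.le, ht.2⟩
  have hA := axF_of h.ns ht'
  obtain ⟨hV, hW, -⟩ := sm_V hA
  have hu := hA.smooth
  obtain ⟨-, -, hF, hcomm⟩ := comm_loc (f := fun s => sV (u s)) (jointV h.ns) ht hx 2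
  obtain ⟨hr, hr2⟩ := DyZ_rdr hV
  obtain ⟨hl, hl2⟩ := DyZ_lap hV
  obtain ⟨ha, ha2⟩ := DyZ_adv hu hV
  have hadvz := advz hA hx
  have hw : ContDiff ℝ ∞ (fun y => -2 * (sW (u t) y * sV (u t) y)) := contDiff_const.mul (hW.mul hV)
  have hq : ContDiff ℝ ∞ (fun y => (lap (sV (u t)) y + -2 * (sW (u t) y * sV (u t) y)) - adv (u t y) (sV (u t)) y) :=
    (hl.add hw).sub ha
  have hrr : ContDiff ℝ ∞ (fun y => 2 * rdr (sV (u t)) y) := contDiff_const.mul hr
  have heq : (fun y => rsq y * deriv (fun s => sV (u s) y) t) =ᶠ[𝓝 x] fun y =>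
      rsq y * ((lap (sV (u t)) y + -2 * (sW (u t) y * sV (u t) y)) - adv (u t y) (sV (u t)) y)
        + 2 * rdr (sV (u t)) y := by
    have ho : {y : E3 | 0 < rsq y} ∈ 𝓝 x :=
      (isOpen_lt continuous_const EVe_rsq_smooth.continuous).mem_nhds hx
    filter_upwards [ho] with y hy
    have h1 := V_eq h.ns ht y hy
    have hy' : rsq y ≠ 0 := ne_of_gt hy
    have h2 : rsq y * (2 / rsq y) = 2 := by
      rw [mul_div_assoc', mul_div_cancel_left₀ _ hy']
    linear_combination rsq y * h1 + rdr (sV (u t)) y * h2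
  have h3 := congrArg (fun A : E3 →L[ℝ] ℝ => A (e 2)) heq.fderiv_eq
  have h4 : pd 2 (fun y => rsq y * deriv (fun s => sV (u s) y) t) x = pd 2 (fun y =>
      rsq y * ((lap (sV (u t)) y + -2 * (sW (u t) y * sV (u t) y)) - adv (u t y) (sV (u t)) y)
        + 2 * rdr (sV (u t)) y) x := h3
  rw [DyZ_mulAt (EVe_rsq_smooth.differentiable (by simp) x) hF, hcomm,
    DyZ_add (EVe_rsq_smooth.mul hq) hrr, EVe_pd_mul EVe_rsq_smooth hq, DyZ_const hr, hr2,
    DyZ_sub (hl.add hw) ha, DyZ_rsq, ha2, DyZ_add hl hw, hl2, DyZ_const (hW.mul hV),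
    EVe_pd_mul hW hV, hadvz] at h4
  have h5 : (fun s => Zz (u s) x) = fun s => pd 2 (sV (u s)) x := rfl
  have hx' : rsq x ≠ 0 := ne_of_gt hx
  have h6 : rsq x * (2 / rsq x) = 2 := by
    rw [mul_div_assoc', mul_div_cancel_left₀ _ hx']
  have h7 : Zz (u t) = pd 2 (sV (u t)) := rfl
  rw [h5]
  apply mul_left_cancel₀ hx'
  unfold GZ
  rw [h7] at h4 ⊢
  linear_combination h4 - rdr (pd 2 (sV (u t))) x * h6

theorem evoZ (h : IsHInfAxisymNS T u p) : Evo T u (fun t => Zz (u t)) (fun t => GZ (u t)) := by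
  have hns := h.ns
  refine ⟨fun t ht => pd_smooth (sm_V (axF_of hns ht)).1 2, ?_, jcdV hns 2, fun i => jcddV hns i 2, ?_, ?_,
    fun t ht x hx => Z_eq h ht hx⟩
  · exact joint_pd (f := fun s => sV (u s)) (jointV hns) 2
  · refine Bds2_JC_congr (g := fun t x => (- pd 2 (fun y => u t y 2) x + -2 * sW (u t) x) * pd 2 (sV (u t)) x
        + (- pd 2 (sW (u t)) x) * curl (u t) x 2) (fun t ht x => ?_) ?_
    · have h1 := GZeq (axF_of hns ht) x
      have h2 : Zz (u t) x = pd 2 (sV (u t)) x := rfl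
      rw [h2] at h1
      show GZ (u t) x = _
      rw [h1]
      ring
    · have k1 : JC T (fun t x => - pd 2 (fun y => u t y 2) x) :=
        JC_comp (jcdu hns 2 2) (H := fun s => - s) continuous_neg
      have k2 : JC T (fun t x => -2 * sW (u t) x) := JC_mul (JC_const continuous_const) (jcW hns)
      have k3 : JC T (fun t x => - pd 2 (sW (u t)) x) := JC_comp (jcdW hns 2) (H := fun s => - s) continuous_neg
      exact JC_add (JC_mul (JC_add k1 k2) (jcdV hns 2)) (JC_mul k3 (jcc hns))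
  · intro T' hT'
    obtain ⟨K, hK0, hK⟩ := bds h hT' 2
    have hbd : ∀ t ∈ Icc 0 T', DB 1 K (Zz (u t)) ∧
        BL (6 * (3 * K * K + (3 * K) ^ 2 * K)) (GZ (u t)) := by
      intro t ht
      have ht' : t ∈ Ico 0 T := ⟨ht.1, lt_of_le_of_lt ht.2 hT'⟩
      have hA := axF_of hns ht'
      obtain ⟨hV, hW, -, hu, hc⟩ := hK t ht
      obtain ⟨sV', sW', -⟩ := sm_V hA
      have su := Bds1_proj_smooth hA.smooth 2
      have sc := Bds1_proj_smooth (curl_smooth hA.smooth) 2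
      have hZ : DB 1 K (Zz (u t)) := DB_pd hV 2
      have hZs : Continuous (Zz (u t)) := (pd_smooth sV' 2).continuous
      have hg1 : Continuous (fun x => - pd 2 (fun y => u t y 2) x - 2 * sW (u t) x) :=
        ((pd_smooth su 2).continuous.neg).sub (continuous_const.mul sW'.continuous)
      have hdW : DB 1 K (pd 2 (sW (u t))) := DB_pd hW 2
      have hg2 : Continuous (pd 2 (sW (u t))) := (pd_smooth sW' 2).continuous
      have hdu : DB 1 K (pd 2 (fun y => u t y 2)) := DB_pd (hu 2) 2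
      have b1 : BL (3 * K * K + (3 * K) ^ 2 * K)
          (fun x => (- pd 2 (fun y => u t y 2) x - 2 * sW (u t) x) * Zz (u t) x) := by
        refine mul_BL hZs hg1 (DB_BL hZ) fun x => ?_
        have e1 := (DB_BL hdu).1 x
        have e2 := (DB_BL hW).1 x
        rw [abs_le] at e1 e2 ⊢
        constructor <;> linarith [e1.1, e1.2, e2.1, e2.2]
      have b2 : BL (3 * K * K + (3 * K) ^ 2 * K) (fun x => pd 2 (sW (u t)) x * curl (u t) x 2) := by
        refine BL_mono (mul_BL sc.continuous hg2 (DB_BL hc) (DB_BL hdW).1) ?_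
        nlinarith [mul_nonneg hK0 hK0, mul_nonneg hK0 (mul_nonneg hK0 hK0)]
      have b3 := Bds1_sub_BL (hg1.mul hZs) (hg2.mul sc.continuous) b1 b2
      refine ⟨hZ, ?_⟩
      have e3 : GZ (u t) = fun x => (- pd 2 (fun y => u t y 2) x - 2 * sW (u t) x) * Zz (u t) x
          - pd 2 (sW (u t)) x * curl (u t) x 2 := by
        funext x
        exact GZeq hA x
      rw [e3]
      exact b3
    refine ⟨max K (6 * (3 * K * K + (3 * K) ^ 2 * K)), fun t ht => ⟨?_, ?_⟩⟩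
    · exact DB_mono (hbd t ht).1 le_rfl (le_max_left _ _)
    · exact BL_mono (hbd t ht).2 (le_max_right _ _)

/-- The equation of `O` in the same form. -/
theorem evoO (h : IsHInfAxisymNS T u p) : Evo T u (fun t => sO (u t)) (fun t => GO (u t)) := (flow_of h).evO

end Pool.Agent.H37.EP
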