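import Pool.Agent.H94.EP.Defs

/-!
Row CoS (MP_09540e_EP). Signs.
-/

set_option autoImplicit false

open Set Filter Topology MeasureTheory
open scoped ContDiff

namespace Pool.Agent.H94.EP

open Pool.Agent.H16 Pool.Agent.H87.NS Pool.Agent.H72.CC Pool.Agent.H16.TU

private theorem CoS_ph (L a s : ℝ) : 0 ≤ ph L a s := by
  unfold ph
  exact inv_nonneg.2 (add_nonneg zero_le_one (div_nonneg (sq_nonneg _) (sq_nonneg _)))

private theorem CoS_rsq (x : E3) : 0 ≤ rsq x := add_nonneg (sq_nonneg _) (sq_nonneg _)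

private theorem CoS_c1 (x : E3) : 0 ≤ c1 x := Real.smoothTransition.nonneg _

private theorem CoS_c2 (x : E3) : 0 ≤ c2 x := Real.smoothTransition.nonneg _

private theorem CoS_A1 (L a : ℝ) (x : E3) : 0 ≤ A1 L a x :=
  mul_nonneg (pow_nonneg (CoS_c1 x) 4) (CoS_ph L a _)

private theorem CoS_gv (v : E3 → E3) (x : E3) : 0 ≤ gv v x :=
  Finset.sum_nonneg fun _ _ => gsq_nonneg _ _

private theorem CoS_kh {θ : ℝ} (hθ : 0 < θ) (h : ℝ) : 0 ≤ kh θ h :=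
  mul_nonneg (mul_nonneg hθ.le (Real.rpow_nonneg (abs_nonneg h) _)) (sq_nonneg _)

private theorem CoS_kx (s L a h : ℝ) (x : E3) : 0 ≤ kx s L a h x :=
  mul_nonneg (mul_nonneg (Real.rpow_nonneg (div_nonneg (CoS_rsq x) zero_le_two) _)
    (pow_nonneg (CoS_c2 x) 4)) (CoS_ph L a _)

theorem NJ_nn (L a : ℝ) (v : E3 → E3) : 0 ≤ NJ L a v :=
  integral_nonneg fun x => mul_nonneg (CoS_A1 L a x) (sq_nonneg _)

theorem NO_nn (L a : ℝ) (v : E3 → E3) : 0 ≤ NO L a v :=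
  integral_nonneg fun x => mul_nonneg (CoS_A1 L a x) (sq_nonneg _)

theorem DJ_nn (L a : ℝ) (v : E3 → E3) : 0 ≤ DJ L a v :=
  integral_nonneg fun x => mul_nonneg (CoS_A1 L a x) (gsq_nonneg _ _)

theorem DO_nn (L a : ℝ) (v : E3 → E3) : 0 ≤ DO L a v :=
  integral_nonneg fun x => mul_nonneg (CoS_A1 L a x) (gsq_nonneg _ _)

theorem GG_nn (L a : ℝ) (v : E3 → E3) : 0 ≤ GG L a v :=
  integral_nonneg fun x => mul_nonneg (CoS_ph L a _) (CoS_gv v x)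

theorem YY_nn (κ L a : ℝ) (v : E3 → E3) : 0 ≤ YY κ L a v :=
  integral_nonneg fun x => div_nonneg (mul_nonneg (CoS_ph L a _) (sq_nonneg _)) (CoS_rsq x)

theorem BB_nn {θ : ℝ} (hθ : 0 < θ) (L a : ℝ) (v : E3 → E3) : 0 ≤ BB θ L a v :=
  integral_nonneg fun h => mul_nonneg (CoS_kh hθ h)
    (integral_nonneg fun x => mul_nonneg (CoS_kx θ L a h x) (sq_nonneg _))

theorem DB2_nn {θ : ℝ} (hθ : 0 < θ) (L a : ℝ) (v : E3 → E3) : 0 ≤ DB2 θ L a v :=
  integral_nonneg fun h => mul_nonneg (CoS_kh hθ h)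
    (integral_nonneg fun x => mul_nonneg (CoS_kx θ L a h x) (gsq_nonneg _ _))

theorem GB_nn {θ : ℝ} (hθ : 0 < θ) (hθ1 : θ ≤ 1) (L a : ℝ) (v : E3 → E3) : 0 ≤ GB θ L a v :=
  mul_nonneg (mul_nonneg hθ.le (sub_nonneg.2 hθ1))
    (integral_nonneg fun h => mul_nonneg (CoS_kh hθ h)
      (integral_nonneg fun x => mul_nonneg (CoS_kx (θ - 1) L a h x) (sq_nonneg _)))

end Pool.Agent.H94.EP
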