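import Pool.Agent.H94.EP.DyM

/-
ROW DyH (MP_09540e_EP). The kernel `kh θ s = θ * |s| ^ (θ - 3) * zh s ^ 2`: integrability, continuity, Fubini.
-/

set_option autoImplicit false

open Set Filter Topology MeasureTheory
open scoped ContDiff

namespace Pool.Agent.H37.EP

open Pool.Agent.H16 Pool.Agent.H87.NS Pool.Agent.H72.CC Pool.Agent.H16.TU Pool.Agent.H94.EP

variable {T : ℝ}

theorem zh_bd (s : ℝ) : 0 ≤ zh s ∧ zh s ≤ 1 :=
  ⟨Real.smoothTransition.nonneg _, Real.smoothTransition.le_one _⟩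

theorem kh_nn {θ : ℝ} (hθ : 0 ≤ θ) (s : ℝ) : 0 ≤ kh θ s := by
  unfold kh
  exact mul_nonneg (mul_nonneg hθ (Real.rpow_nonneg (abs_nonneg s) _)) (sq_nonneg _)

theorem kh_z (θ : ℝ) {s : ℝ} (hs : 1 / 8 < |s|) : kh θ s = 0 := by
  have h1 : (1 / 8 : ℝ) ^ 2 < s ^ 2 := by
    rw [← sq_abs s]
    exact pow_lt_pow_left₀ hs (by norm_num) (by norm_num)
  have h2 : zh s = 0 := Real.smoothTransition.zero_of_nonpos (by nlinarith)
  simp [kh, h2]

private theorem DyH_out {s : ℝ} (hs : s ∉ Icc (-1 : ℝ) 1) : 1 / 8 < |s| := by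
  by_contra hc
  have h1 : |s| ≤ 1 := by linarith
  exact hs (abs_le.1 h1)

private theorem DyH_zc : Continuous zh := by
  unfold zh
  exact Real.smoothTransition.continuous.comp (by fun_prop)

theorem kh_m (θ : ℝ) : Measurable (kh θ) := by
  unfold kh
  exact (measurable_const.mul (continuous_abs.measurable.pow_const _)).mul
    (DyH_zc.measurable.pow_const 2)

private theorem DyH_ai {r : ℝ} (hr : -1 < r) :
    IntegrableOn (fun s : ℝ => |s| ^ r) (Icc (-1) 1) := by
  have h1 : IntervalIntegrable (fun s : ℝ => |s| ^ r) volume 0 1 := by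
    have h0 : IntervalIntegrable (fun s : ℝ => s ^ r) volume 0 1 :=
      intervalIntegral.intervalIntegrable_rpow' hr
    refine h0.congr ?_
    intro s hs
    rw [uIoc_of_le zero_le_one] at hs
    simp only
    rw [abs_of_pos hs.1]
  have h2 : IntervalIntegrable (fun s : ℝ => |s| ^ r) volume (-1) 0 := by
    have h3 := (IntervalIntegrable.iff_comp_neg (by simp)).1 h1
    simp only [abs_neg, neg_zero] at h3
    exact h3.symm
  have h3 := h2.trans h1
  rw [intervalIntegrable_iff_integrableOn_Icc_of_le (by norm_num)] at h3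
  exact h3

private theorem DyH_le {θ : ℝ} (hθ : 0 < θ) (s : ℝ) :
    kh θ s * s ^ 2 ≤ (Icc (-1 : ℝ) 1).indicator (fun s => θ * |s| ^ (θ - 1)) s := by
  by_cases hs : s ∈ Icc (-1 : ℝ) 1
  · rw [indicator_of_mem hs]
    by_cases h0 : s = 0
    · subst h0
      simp only [ne_eq, OfNat.ofNat_ne_zero, not_false_eq_true, zero_pow, mul_zero]
      exact mul_nonneg hθ.le (Real.rpow_nonneg (abs_nonneg _) _)
    · have hp : 0 < |s| := abs_pos.2 h0
      have h1 : |s| ^ (θ - 3) * s ^ 2 = |s| ^ (θ - 1) := by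
        rw [← sq_abs s, ← Real.rpow_natCast |s| 2, ← Real.rpow_add hp]
        congr 1
        push_cast
        ring
      have h2 : zh s ^ 2 ≤ 1 := by
        have := zh_bd s
        nlinarith [this.1, this.2]
      unfold kh
      calc θ * |s| ^ (θ - 3) * zh s ^ 2 * s ^ 2 = θ * (|s| ^ (θ - 3) * s ^ 2) * zh s ^ 2 := by ring
        _ = θ * |s| ^ (θ - 1) * zh s ^ 2 := by rw [h1]
        _ ≤ θ * |s| ^ (θ - 1) * 1 := by
          apply mul_le_mul_of_nonneg_left h2
          exact mul_nonneg hθ.le (Real.rpow_nonneg (abs_nonneg _) _)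
        _ = θ * |s| ^ (θ - 1) := mul_one _
  · rw [indicator_of_notMem hs]
    have h1 : 1 / 8 < |s| := DyH_out hs
    rw [kh_z θ h1, zero_mul]

theorem kh_i {θ : ℝ} (hθ : 0 < θ) : Integrable (fun s => kh θ s * s ^ 2) := by
  have h1 : Integrable ((Icc (-1 : ℝ) 1).indicator (fun s => θ * |s| ^ (θ - 1))) := by
    rw [integrable_indicator_iff measurableSet_Icc]
    exact (DyH_ai (by linarith)).const_mul θ
  refine h1.mono' ((kh_m θ).mul (by fun_prop)).aestronglyMeasurable ?_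
  refine Eventually.of_forall fun s => ?_
  rw [Real.norm_eq_abs, abs_of_nonneg (mul_nonneg (kh_nn hθ.le s) (sq_nonneg s))]
  exact DyH_le hθ s

private theorem DyH_ind (θ : ℝ) (I : ℝ × ℝ → ℝ) (t s : ℝ) :
    kh θ s * I (t, s) = kh θ s * (Icc (-1 : ℝ) 1).indicator (fun s => I (t, s)) s := by
  by_cases hs : s ∈ Icc (-1 : ℝ) 1
  · rw [indicator_of_mem hs]
  · have h1 : 1 / 8 < |s| := DyH_out hs
    rw [kh_z θ h1, zero_mul, zero_mul]

private theorem DyH_asm {I : ℝ × ℝ → ℝ} (hI : Nice T I) (θ : ℝ) {t : ℝ}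
    (ht : t ∈ Ico 0 T) : AEStronglyMeasurable (fun s => kh θ s * I (t, s)) volume := by
  have h0 : (fun s => kh θ s * I (t, s)) =
      fun s => kh θ s * (Icc (-1 : ℝ) 1).indicator (fun s => I (t, s)) s :=
    funext fun s => DyH_ind θ I t s
  rw [h0]
  refine (kh_m θ).aestronglyMeasurable.mul ?_
  rw [aestronglyMeasurable_indicator_iff measurableSet_Icc]
  refine ContinuousOn.aestronglyMeasurable ?_ measurableSet_Icc
  refine hI.1.comp (by fun_prop) ?_
  intro s hs
  exact ⟨ht, hs⟩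

private theorem DyH_bd {θ : ℝ} (hθ : 0 < θ) {I : ℝ × ℝ → ℝ} {K t : ℝ}
    (hK : ∀ s ∈ Icc (-1 : ℝ) 1, |I (t, s)| ≤ K * s ^ 2) (s : ℝ) :
    ‖kh θ s * I (t, s)‖ ≤ K * (kh θ s * s ^ 2) := by
  rw [Real.norm_eq_abs, abs_mul, abs_of_nonneg (kh_nn hθ.le s)]
  by_cases hs : s ∈ Icc (-1 : ℝ) 1
  · calc kh θ s * |I (t, s)| ≤ kh θ s * (K * s ^ 2) :=
        mul_le_mul_of_nonneg_left (hK s hs) (kh_nn hθ.le s)
      _ = K * (kh θ s * s ^ 2) := by ring
  · have h1 : 1 / 8 < |s| := DyH_out hs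
    rw [kh_z θ h1]
    simp

theorem kh_ct {θ : ℝ} (hθ : 0 < θ) {I : ℝ × ℝ → ℝ} (hI : Nice T I) :
    ContinuousOn (fun t => ∫ s, kh θ s * I (t, s)) (Ico 0 T) ∧ ∀ t ∈ Ico 0 T, Integrable (fun s => kh θ s * I (t, s)) := by
  constructor
  · intro t₀ ht₀
    have hb : (t₀ + T) / 2 < T := by linarith [ht₀.2]
    have hb' : t₀ < (t₀ + T) / 2 := by linarith [ht₀.2]
    obtain ⟨K, hK0, hK⟩ := hI.2 _ hb
    have hev : ∀ᶠ t in 𝓝[Ico 0 T] t₀, t ∈ Ico 0 T ∧ t < (t₀ + T) / 2 := by
      refine (eventually_mem_nhdsWithin).and ?_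
      exact (gt_mem_nhds hb').filter_mono nhdsWithin_le_nhds
    refine continuousWithinAt_of_dominated (bound := fun s => K * (kh θ s * s ^ 2)) ?_ ?_
      ((kh_i hθ).const_mul K) ?_
    · filter_upwards [hev] with t ht
      exact DyH_asm hI θ ht.1
    · filter_upwards [hev] with t ht
      exact Eventually.of_forall fun s => DyH_bd hθ (hK t ⟨ht.1.1, ht.2.le⟩) s
    · refine Eventually.of_forall fun s => ?_
      by_cases hs : s ∈ Icc (-1 : ℝ) 1
      · have h1 : ContinuousOn (fun t => I (t, s)) (Ico 0 T) := by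
          refine hI.1.comp (by fun_prop) ?_
          intro t ht
          exact ⟨ht, hs⟩
        exact (h1 t₀ ht₀).const_mul (kh θ s)
      · have h1 : 1 / 8 < |s| := DyH_out hs
        simp only [kh_z θ h1, zero_mul]
        exact continuousWithinAt_const
  · intro t ht
    obtain ⟨K, hK0, hK⟩ := hI.2 t ht.2
    exact ((kh_i hθ).const_mul K).mono' (DyH_asm hI θ ht)
      (Eventually.of_forall fun s => DyH_bd hθ (hK t ⟨ht.1, le_rfl⟩) s)

private theorem DyH_prod {θ : ℝ} (hθ : 0 < θ) {I : ℝ × ℝ → ℝ} (hI : Nice T I) {a b : ℝ}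
    (ha : 0 ≤ a) (hb : b < T) :
    Integrable (Function.uncurry fun (t s : ℝ) => kh θ s * I (t, s))
      ((volume.restrict (Ioc a b)).prod volume) := by
  obtain ⟨K, hK0, hK⟩ := hI.2 b hb
  have hbd : Integrable (fun q : ℝ × ℝ => K * (kh θ q.2 * q.2 ^ 2))
      ((volume.restrict (Ioc a b)).prod volume) :=
    ((kh_i hθ).const_mul K).comp_snd (volume.restrict (Ioc a b))
  have hae : ∀ᵐ q ∂((volume.restrict (Ioc a b)).prod (volume : Measure ℝ)), q.1 ∈ Ioc a b := by
    have h1 : (volume.restrict (Ioc a b)).prod (volume : Measure ℝ) =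
        ((volume : Measure ℝ).prod (volume : Measure ℝ)).restrict (Ioc a b ×ˢ univ) := by
      rw [← Measure.prod_restrict, Measure.restrict_univ]
    rw [h1]
    filter_upwards [ae_restrict_mem (measurableSet_Ioc.prod MeasurableSet.univ)] with q hq
    exact hq.1
  refine hbd.mono' ?_ ?_
  · have hJ : AEStronglyMeasurable ((Ico 0 T ×ˢ Icc (-1 : ℝ) 1).indicator I)
        ((volume.restrict (Ioc a b)).prod volume) := by
      rw [aestronglyMeasurable_indicator_iff (measurableSet_Ico.prod measurableSet_Icc)]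
      exact hI.1.aestronglyMeasurable (measurableSet_Ico.prod measurableSet_Icc)
    have h2 : AEStronglyMeasurable
        (fun q : ℝ × ℝ => kh θ q.2 * (Ico 0 T ×ˢ Icc (-1 : ℝ) 1).indicator I q)
        ((volume.restrict (Ioc a b)).prod volume) :=
      ((kh_m θ).comp measurable_snd).aestronglyMeasurable.mul hJ
    refine h2.congr ?_
    filter_upwards [hae] with q hq
    obtain ⟨t, s⟩ := q
    simp only [Function.uncurry_apply_pair]
    have ht : t ∈ Ico 0 T := ⟨ha.trans hq.1.le, lt_of_le_of_lt hq.2 hb⟩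
    by_cases hs : s ∈ Icc (-1 : ℝ) 1
    · rw [indicator_of_mem (show (t, s) ∈ Ico 0 T ×ˢ Icc (-1 : ℝ) 1 from ⟨ht, hs⟩)]
    · have h1 : 1 / 8 < |s| := DyH_out hs
      rw [kh_z θ h1, zero_mul, zero_mul]
  · filter_upwards [hae] with q hq
    obtain ⟨t, s⟩ := q
    simp only [Function.uncurry_apply_pair]
    exact DyH_bd hθ (hK t ⟨ha.trans hq.1.le, hq.2⟩) s

theorem kh_fub {θ : ℝ} (hθ : 0 < θ) {I : ℝ × ℝ → ℝ} (hI : Nice T I) {a b : ℝ} (ha : 0 ≤ a) (hab : a ≤ b) (hb : b < T) :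
    (∫ t in a..b, ∫ s, kh θ s * I (t, s)) = (∫ s, kh θ s * ∫ t in a..b, I (t, s)) ∧ Integrable (fun s => kh θ s * ∫ t in a..b, I (t, s)) := by
  have hP := DyH_prod hθ hI ha hb
  have h1 : ∀ s, (∫ t in Ioc a b, kh θ s * I (t, s)) = kh θ s * ∫ t in a..b, I (t, s) := by
    intro s
    rw [MeasureTheory.integral_const_mul, intervalIntegral.integral_of_le hab]
  constructor
  · rw [intervalIntegral.integral_of_le hab]
    rw [MeasureTheory.integral_integral_swap hP]
    exact integral_congr_ae (Eventually.of_forall h1)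
  · have h2 := hP.integral_prod_right
    refine h2.congr (Eventually.of_forall fun s => ?_)
    exact h1 s

end Pool.Agent.H37.EP
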