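import Pool.Agent.H94.EP.DyK
import Pool.Agent.H94.EP.DyY
import Pool.Agent.H94.EP.DyQ
import Pool.Agent.H94.EP.DyM

/-
ROW DyR (MP_09540e_EP). The rate of the two-point functional is `Nice` (row DyM).
-/

set_option autoImplicit false

open Set Filter Topology MeasureTheory
open scoped ContDiff

namespace Pool.Agent.H37.EP

open Pool.Agent.H16 Pool.Agent.H87.NS Pool.Agent.H72.CC Pool.Agent.H16.TU Pool.Agent.H94.EP

variable {T : ℝ} {u : ℝ → E3 → E3} {p : ℝ → E3 → ℝ}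

/-- the integrand off the axis -/
noncomputable def DyR_F (u : ℝ → E3 → E3) (θ L a : ℝ) (q : ℝ × ℝ) (x : E3) : ℝ :=
  2 * (fh q.2 (u q.1) x * Gh q.2 (u q.1) x - gsq (fh q.2 (u q.1)) x) * (Y2 θ (rsq x) * Ph L a q.2 (x 2)) +
    fh q.2 (u q.1) x ^ 2 * (2 * sW (u q.1) x * (rsq x * deriv (Y2 θ) (rsq x)) * Ph L a q.2 (x 2) +
      u q.1 x 2 * (Y2 θ (rsq x) * deriv (Ph L a q.2) (x 2)) +
      4 * (rsq x * deriv (deriv (Y2 θ)) (rsq x)) * Ph L a q.2 (x 2) +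
      Y2 θ (rsq x) * deriv (deriv (Ph L a q.2)) (x 2))

theorem DyR_eq (h : IsHInfAxisymNS T u p) (θ L a : ℝ) {t : ℝ} (ht : t ∈ Ico 0 T) (s : ℝ) :
    ∀ᵐ x : E3, evJ sqf (u t) (fh s (u t)) (Gh s (u t)) (kx θ L a s) x = DyR_F u θ L a (t, s) x := by
  filter_upwards [ae_off] with x hx
  rw [kx_pw]
  exact pw_ev (Y2_sm θ) (P_sm L a s).2 (axF_of h.ns ht) (fh s (u t)) (Gh s (u t)) hx

theorem DyR_rsq : Continuous (fun x : E3 => rsq x) := EVe_rsq_smooth.continuous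

theorem DyR_x2 : Continuous (fun x : E3 => x 2) := continuous_coord 2

theorem DyR_Y2 (θ : ℝ) : Measurable (Y2 θ) := by
  unfold Y2
  have h1 : Measurable (fun ρ : ℝ => (ρ / 2) ^ θ) := (measurable_id.div_const 2).pow_const θ
  have h2 : Continuous (fun ρ : ℝ => Real.smoothTransition (2 - 16 * ρ) ^ 4) :=
    (Real.smoothTransition.continuous.comp (continuous_const.sub (continuous_const.mul continuous_id))).pow 4
  exact h1.mul h2.measurable

theorem DyR_meas (h : IsHInfAxisymNS T u p) (θ L a : ℝ) {t : ℝ} (ht : t ∈ Ico 0 T) (s : ℝ) :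
    Measurable (DyR_F u θ L a (t, s)) := by
  obtain ⟨c1, c2, c3, c4, c5⟩ := jc_fh h
  have hg : Continuous (fun x : E3 => ((t, s, x) : ℝ × ℝ × E3)) :=
    continuous_const.prodMk (continuous_const.prodMk continuous_id)
  have hm : ∀ x : E3, ((t, s, x) : ℝ × ℝ × E3) ∈ {q : ℝ × ℝ × E3 | q.1 ∈ Ico 0 T} := fun _ => ht
  have m1 : Measurable (fun x => fh s (u t) x) := (c1.comp_continuous hg hm).measurable
  have m2 : Measurable (fun x => gsq (fh s (u t)) x) := (c2.comp_continuous hg hm).measurable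
  have m3 : Measurable (fun x => Gh s (u t) x) := (c3.comp_continuous hg hm).measurable
  have m4 : Measurable (fun x => sW (u t) x) := (c4.comp_continuous hg hm).measurable
  have m5 : Measurable (fun x => u t x 2) := (c5.comp_continuous hg hm).measurable
  have r : Measurable (fun x : E3 => rsq x) := DyR_rsq.measurable
  have z : Measurable (fun x : E3 => x 2) := DyR_x2.measurable
  have y0 : Measurable (fun x : E3 => Y2 θ (rsq x)) := (DyR_Y2 θ).comp r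
  have y1 : Measurable (fun x : E3 => deriv (Y2 θ) (rsq x)) := (measurable_deriv (Y2 θ)).comp r
  have y2 : Measurable (fun x : E3 => deriv (deriv (Y2 θ)) (rsq x)) := (measurable_deriv (deriv (Y2 θ))).comp r
  have p0 : Measurable (fun x : E3 => Ph L a s (x 2)) := ((P_sm L a s).2.continuous.measurable).comp z
  have p1 : Measurable (fun x : E3 => deriv (Ph L a s) (x 2)) := (measurable_deriv (Ph L a s)).comp z
  have p2 : Measurable (fun x : E3 => deriv (deriv (Ph L a s)) (x 2)) :=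
    (measurable_deriv (deriv (Ph L a s))).comp z
  unfold DyR_F
  exact (((m1.mul m3).sub m2).const_mul 2 |>.mul (y0.mul p0)).add
    ((m1.pow_const 2).mul (((((m4.const_mul 2).mul (r.mul y1)).mul p0).add (m5.mul (y0.mul p1))).add
      (((r.mul y2).const_mul 4).mul p0) |>.add (y0.mul p2)))

theorem DyR_num {K C s2 f G g y0 y1 y2 p0 p1 p2 w u2 φ ρt d : ℝ} (hK : 0 ≤ K) (hC : 0 ≤ C) (hs : 0 ≤ s2)
    (hφ : 0 ≤ φ) (hφd : φ ≤ d) (hρ : ρt * φ = d) (hρ0 : 0 ≤ ρt)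
    (hf : f ^ 2 ≤ K * s2) (hfG : |f * G| ≤ K * s2) (hg : g ≤ K * s2) (hg0 : 0 ≤ g) (hw : |w| ≤ K) (hu : |u2| ≤ K)
    (hy0 : |y0| ≤ C) (hy1 : |y1| ≤ C) (hy2 : |y2| ≤ C * ρt) (hp0 : |p0| ≤ 3 * φ) (hp1 : |p1| ≤ 3 * φ)
    (hp2 : |p2| ≤ 30 * φ) :
    |2 * (f * G - g) * (y0 * p0) + f ^ 2 * (2 * w * y1 * p0 + u2 * (y0 * p1) + 4 * y2 * p0 + y0 * p2)|
      ≤ (54 * C * K + 9 * C * K ^ 2) * s2 * d := by
  have hd : 0 ≤ d := hφ.trans hφd
  have e1 : |y0 * p0| ≤ C * (3 * φ) := by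
    rw [abs_mul]; exact mul_le_mul hy0 hp0 (abs_nonneg _) hC
  have e2 : |f * G - g| ≤ 2 * (K * s2) := by
    have h1 := abs_sub (f * G) g
    rw [abs_of_nonneg hg0] at h1
    linarith
  have e3 : |2 * (f * G - g) * (y0 * p0)| ≤ 12 * C * K * s2 * d := by
    rw [abs_mul, abs_mul, abs_two]
    have h1 : |f * G - g| * |y0 * p0| ≤ (2 * (K * s2)) * (C * (3 * φ)) :=
      mul_le_mul e2 e1 (abs_nonneg _) (by positivity)
    have h2 : (2 * (K * s2)) * (C * (3 * φ)) ≤ (2 * (K * s2)) * (C * (3 * d)) :=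
      mul_le_mul_of_nonneg_left (mul_le_mul_of_nonneg_left (by linarith) hC) (by positivity)
    linarith only [h1, h2]
  have e4 : |2 * w * y1 * p0| ≤ 6 * K * C * d := by
    rw [abs_mul, abs_mul, abs_mul, abs_two]
    have h1 : |w| * |y1| ≤ K * C := mul_le_mul hw hy1 (abs_nonneg _) hK
    have h2 : |w| * |y1| * |p0| ≤ K * C * (3 * φ) := mul_le_mul h1 hp0 (abs_nonneg _) (by positivity)
    have h3 : K * C * (3 * φ) ≤ K * C * (3 * d) := mul_le_mul_of_nonneg_left (by linarith) (by positivity)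
    linarith only [h2, h3]
  have e5 : |u2 * (y0 * p1)| ≤ 3 * K * C * d := by
    rw [abs_mul, abs_mul]
    have h1 : |y0| * |p1| ≤ C * (3 * φ) := mul_le_mul hy0 hp1 (abs_nonneg _) hC
    have h2 : |u2| * (|y0| * |p1|) ≤ K * (C * (3 * φ)) := mul_le_mul hu h1 (by positivity) hK
    have h3 : K * (C * (3 * φ)) ≤ K * (C * (3 * d)) :=
      mul_le_mul_of_nonneg_left (mul_le_mul_of_nonneg_left (by linarith) hC) hK
    linarith only [h2, h3]
  have e6 : |4 * y2 * p0| ≤ 12 * C * d := by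
    have h4 : |(4 : ℝ)| = 4 := by norm_num
    rw [abs_mul, abs_mul, h4]
    have h1 : |y2| * |p0| ≤ C * ρt * (3 * φ) := mul_le_mul hy2 hp0 (abs_nonneg _) (by positivity)
    have h2 : C * ρt * (3 * φ) = 3 * C * d := by rw [← hρ]; ring
    linarith only [h1, h2]
  have e7 : |y0 * p2| ≤ 30 * C * d := by
    rw [abs_mul]
    have h1 : |y0| * |p2| ≤ C * (30 * φ) := mul_le_mul hy0 hp2 (abs_nonneg _) hC
    have h2 : C * (30 * φ) ≤ C * (30 * d) := mul_le_mul_of_nonneg_left (by linarith) hC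
    linarith
  have e8 : |2 * w * y1 * p0 + u2 * (y0 * p1) + 4 * y2 * p0 + y0 * p2| ≤ (9 * K * C + 42 * C) * d := by
    have h1 := abs_add_le (2 * w * y1 * p0 + u2 * (y0 * p1) + 4 * y2 * p0) (y0 * p2)
    have h2 := abs_add_le (2 * w * y1 * p0 + u2 * (y0 * p1)) (4 * y2 * p0)
    have h3 := abs_add_le (2 * w * y1 * p0) (u2 * (y0 * p1))
    linarith
  have e9 : |f ^ 2 * (2 * w * y1 * p0 + u2 * (y0 * p1) + 4 * y2 * p0 + y0 * p2)|
      ≤ (K * s2) * ((9 * K * C + 42 * C) * d) := by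
    rw [abs_mul, abs_of_nonneg (sq_nonneg f)]
    exact mul_le_mul hf e8 (abs_nonneg _) (by positivity)
  have h1 := abs_add_le (2 * (f * G - g) * (y0 * p0))
    (f ^ 2 * (2 * w * y1 * p0 + u2 * (y0 * p1) + 4 * y2 * p0 + y0 * p2))
  linarith only [e3, e9, h1]

theorem DyR_bd (h : IsHInfAxisymNS T u p) {θ L : ℝ} (a : ℝ) (hθ : 0 < θ) (hθ1 : θ ≤ 1) (hL : 1 ≤ L) {b : ℝ} (hb : b < T) :
    ∃ K : ℝ, ∀ t ∈ Icc 0 b, ∀ s ∈ Icc (-1 : ℝ) 1, ∀ᵐ x : E3, |DyR_F u θ L a (t, s) x| ≤ K * s ^ 2 * dm θ L a x := by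
  obtain ⟨K, hK0, hK⟩ := fhK h hb
  obtain ⟨C, hC0, hC⟩ := Y2_bd hθ hθ1
  refine ⟨54 * C * K + 9 * C * K ^ 2, fun t ht s hs => ?_⟩
  filter_upwards [ae_off] with x hx
  obtain ⟨-, -, -, hf, hg, hfG, hw, hu⟩ := hK t ht s x
  obtain ⟨c0, c1, c2, -⟩ := hC (rsq x) hx
  obtain ⟨q1, -, -, -, q5, q6, q7⟩ := P_bd hL a (abs_le.mpr hs) (x 2)
  have hd := dm_nn θ L a x
  by_cases h1 : rsq x < 1
  · obtain ⟨d1, d2⟩ := dm_1 hθ1 L a hx h1
    have h2 := DyR_num (K := K) (C := C) (s2 := s ^ 2) (φ := ph L a (x 2)) (ρt := rsq x ^ (θ - 1)) (d := dm θ L a x)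
      (f := fh s (u t) x) (G := Gh s (u t) x) (g := gsq (fh s (u t)) x) (y0 := Y2 θ (rsq x))
      (y1 := rsq x * deriv (Y2 θ) (rsq x)) (y2 := rsq x * deriv (deriv (Y2 θ)) (rsq x))
      (p0 := Ph L a s (x 2)) (p1 := deriv (Ph L a s) (x 2)) (p2 := deriv (deriv (Ph L a s)) (x 2))
      (w := sW (u t) x) (u2 := u t x 2)
      hK0 hC0 (sq_nonneg s) q1.le d1 d2 (Real.rpow_nonneg hx.le _) hf hfG hg (gsq_nonneg _ _) hw hu c0 c1 c2 q5 q6 q7
    exact h2
  · obtain ⟨z0, z1, z2⟩ := Y2_zero θ (ρ := rsq x) (by push Not at h1; linarith)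
    have h2 : DyR_F u θ L a (t, s) x = 0 := by
      unfold DyR_F
      rw [z0, z1, z2]
      ring
    rw [h2, abs_zero]
    have h3 : 0 ≤ 54 * C * K + 9 * C * K ^ 2 := by positivity
    positivity

theorem DyR_c0 (L a z : ℝ) : Continuous (fun q : ℝ × ℝ => Ph L a q.2 z) := by
  have hph := (P_sm L a 0).1
  have hz : Continuous (fun q : ℝ × ℝ => z + q.2 / 2) := continuous_const.add (continuous_snd.div_const 2)
  exact hph.continuous.comp hz

theorem DyR_c1 (L a z : ℝ) : Continuous (fun q : ℝ × ℝ => deriv (Ph L a q.2) z) := by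
  have hph := (P_sm L a 0).1
  have hph1 : ContDiff ℝ ∞ (deriv (ph L a)) := (contDiff_infty_iff_deriv.mp hph).2
  have hz : Continuous (fun q : ℝ × ℝ => z + q.2 / 2) := continuous_const.add (continuous_snd.div_const 2)
  have e : (fun q : ℝ × ℝ => deriv (Ph L a q.2) z) = fun q => deriv (ph L a) (z + q.2 / 2) := by
    funext q
    exact (P_d L a q.2 z).1
  rw [e]
  exact hph1.continuous.comp hz

theorem DyR_c2 (L a z : ℝ) : Continuous (fun q : ℝ × ℝ => deriv (deriv (Ph L a q.2)) z) := by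
  have hph := (P_sm L a 0).1
  have hph1 : ContDiff ℝ ∞ (deriv (ph L a)) := (contDiff_infty_iff_deriv.mp hph).2
  have hph2 : ContDiff ℝ ∞ (deriv (deriv (ph L a))) := (contDiff_infty_iff_deriv.mp hph1).2
  have hz : Continuous (fun q : ℝ × ℝ => z + q.2 / 2) := continuous_const.add (continuous_snd.div_const 2)
  have e : (fun q : ℝ × ℝ => deriv (deriv (Ph L a q.2)) z) = fun q => deriv (deriv (ph L a)) (z + q.2 / 2) := by
    funext q
    exact (P_d L a q.2 z).2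
  rw [e]
  exact hph2.continuous.comp hz

theorem DyR_alg {S : Set (ℝ × ℝ)} {f g G w v p0 p1 p2 : ℝ × ℝ → ℝ} (hf : ContinuousOn f S) (hg : ContinuousOn g S)
    (hG : ContinuousOn G S) (hw : ContinuousOn w S) (hv : ContinuousOn v S) (h0 : Continuous p0) (h1 : Continuous p1)
    (h2 : Continuous p2) (y0 y1 y2 : ℝ) : ContinuousOn (fun q => 2 * (f q * G q - g q) * (y0 * p0 q) +
      f q ^ 2 * (2 * w q * y1 * p0 q + v q * (y0 * p1 q) + 4 * y2 * p0 q + y0 * p2 q)) S := by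
  have h0' := h0.continuousOn (s := S)
  have h1' := h1.continuousOn (s := S)
  have h2' := h2.continuousOn (s := S)
  fun_prop

theorem DyR_sub {F : ℝ × ℝ × E3 → ℝ} (hF : ContinuousOn F {q | q.1 ∈ Ico 0 T}) (x : E3) :
    ContinuousOn (fun q : ℝ × ℝ => F (q.1, q.2, x)) (Ico 0 T ×ˢ Icc (-1) 1) := by
  have hg : ContinuousOn (fun q : ℝ × ℝ => ((q.1, q.2, x) : ℝ × ℝ × E3)) (Ico 0 T ×ˢ Icc (-1) 1) :=
    (continuous_fst.prodMk (continuous_snd.prodMk continuous_const)).continuousOn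
  have hm : MapsTo (fun q : ℝ × ℝ => ((q.1, q.2, x) : ℝ × ℝ × E3)) (Ico 0 T ×ˢ Icc (-1) 1)
      {q : ℝ × ℝ × E3 | q.1 ∈ Ico 0 T} := fun q hq => hq.1
  exact hF.comp hg hm

theorem DyR_cont (h : IsHInfAxisymNS T u p) (θ L a : ℝ) (x : E3) :
    ContinuousOn (fun q => DyR_F u θ L a q x) (Ico 0 T ×ˢ Icc (-1) 1) := by
  obtain ⟨c1, c2, c3, c4, c5⟩ := jc_fh h
  have m1 := DyR_sub c1 x
  have m2 := DyR_sub c2 x
  have m3 := DyR_sub c3 x
  have m4 := DyR_sub c4 x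
  have m5 := DyR_sub c5 x
  dsimp only at m1 m2 m3 m4 m5
  have := DyR_alg m1 m2 m3 m4 m5 (DyR_c0 L a (x 2)) (DyR_c1 L a (x 2)) (DyR_c2 L a (x 2)) (Y2 θ (rsq x))
    (rsq x * deriv (Y2 θ) (rsq x)) (rsq x * deriv (deriv (Y2 θ)) (rsq x))
  exact this

theorem nE (h : IsHInfAxisymNS T u p) {θ L : ℝ} (a : ℝ) (hθ : 0 < θ) (hθ1 : θ ≤ 1) (hL : 1 ≤ L) :
    Nice T (fun q => ∫ x, evJ sqf (u q.1) (fh q.2 (u q.1)) (Gh q.2 (u q.1)) (kx θ L a q.2) x) ∧
    ∀ t ∈ Ico 0 T, ∀ s ∈ Icc (-1 : ℝ) 1, Integrable (evJ sqf (u t) (fh s (u t)) (Gh s (u t)) (kx θ L a s)) := by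
  have hL0 : 0 < L := by linarith
  have hg := dm_int (θ := θ) (L := L) hθ hL0 a
  have hN : Nice T (fun q => ∫ x, DyR_F u θ L a q x) := by
    refine ct2 hg (fun t ht s _ => (DyR_meas h θ L a ht s).aestronglyMeasurable) (fun b hb => ?_) ?_
    · exact DyR_bd h a hθ hθ1 hL hb
    · exact Filter.Eventually.of_forall fun x => DyR_cont h θ L a x
  have heq : ∀ t ∈ Ico 0 T, ∀ s : ℝ, ∫ x, evJ sqf (u t) (fh s (u t)) (Gh s (u t)) (kx θ L a s) x =
      ∫ x, DyR_F u θ L a (t, s) x := fun t ht s => integral_congr_ae (DyR_eq h θ L a ht s)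
  refine ⟨⟨?_, ?_⟩, ?_⟩
  · refine hN.1.congr fun q hq => ?_
    exact heq q.1 hq.1 q.2
  · intro b hb
    obtain ⟨K, hK0, hK⟩ := hN.2 b hb
    refine ⟨K, hK0, fun t ht s hs => ?_⟩
    have h1 := hK t ht s hs
    have h2 := heq t ⟨ht.1, ht.2.trans_lt hb⟩ s
    show |∫ x, evJ sqf (u t) (fh s (u t)) (Gh s (u t)) (kx θ L a s) x| ≤ K * s ^ 2
    rw [h2]
    exact h1
  · intro t ht s hs
    obtain ⟨K, hK⟩ := DyR_bd h a hθ hθ1 hL ht.2
    have h1 : Integrable (DyR_F u θ L a (t, s)) := by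
      refine Integrable.mono' (hg.const_mul (K * s ^ 2)) (DyR_meas h θ L a ht s).aestronglyMeasurable ?_
      filter_upwards [hK t ⟨ht.1, le_rfl⟩ s hs] with x hx
      rw [Real.norm_eq_abs]
      exact hx
    refine h1.congr ?_
    filter_upwards [DyR_eq h θ L a ht s] with x hx
    exact hx.symm

end Pool.Agent.H37.EP
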