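import Pool.Agent.H94.EP.DyC
import Pool.Agent.H94.EP.DyR
import Pool.Agent.H94.EP.DyO
import Pool.Agent.H94.EP.DyH
import Pool.Agent.H94.EP.DyZ

/-
ROW DyN (MP_09540e_EP). `p2c`: continuity in time of all functionals. PROOF. NJ, NO, DJ, DO: c_f2, c_g2 for evoZ h, evoO h (unfold the functionals; they are literally the integrals). GG: c_GG. RJ, RO: c_ev for evoZ, evoO. BB: kh_ct applied to nB; DB2: nD; GB: nG and multiplication by the constant
`θ * (1 - θ)`; RB: nE. FF: sums and products with constants. (`θ ≤ 1` from `θ ≤ 1/2`.)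
-/

set_option autoImplicit false

open Set Filter Topology MeasureTheory
open scoped ContDiff

namespace Pool.Agent.H37.EP

open Pool.Agent.H16 Pool.Agent.H87.NS Pool.Agent.H72.CC Pool.Agent.H16.TU Pool.Agent.H94.EP

theorem p2c {T : ℝ} {u : ℝ → E3 → E3} {p : ℝ → E3 → ℝ} (h : IsHInfAxisymNS T u p) {θ l L a : ℝ} (hθ : 0 < θ) (hθ1 : θ ≤ 1 / 2)
    (hL : 1 ≤ L) :
    ContinuousOn (fun t => DJ L a (u t)) (Ico 0 T) ∧ ContinuousOn (fun t => DO L a (u t)) (Ico 0 T) ∧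
    ContinuousOn (fun t => GG L a (u t)) (Ico 0 T) ∧ ContinuousOn (fun t => DB2 θ L a (u t)) (Ico 0 T) ∧
    ContinuousOn (fun t => GB θ L a (u t)) (Ico 0 T) ∧ ContinuousOn (fun t => FF θ l L a (u t)) (Ico 0 T) ∧
    ContinuousOn (fun t => RJ L a (u t)) (Ico 0 T) ∧ ContinuousOn (fun t => RO L a (u t)) (Ico 0 T) ∧
    ContinuousOn (fun t => RB θ L a (u t)) (Ico 0 T) := by
  have e : ∀ t, NJ L a (u t) = ∫ x, A1 L a x * Zz (u t) x ^ 2 := fun _ => rfl
  have hJ := evoZ h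
  have hO := evoO h
  have hθ' : θ ≤ 1 := by linarith
  have cNJ : ContinuousOn (fun t => NJ L a (u t)) (Ico 0 T) := (c_f2 hJ hL a).1
  have cNO : ContinuousOn (fun t => NO L a (u t)) (Ico 0 T) := (c_f2 hO hL a).1
  have cBB : ContinuousOn (fun t => BB θ L a (u t)) (Ico 0 T) := (kh_ct hθ (nB h a hθ hθ' hL).1).1
  refine ⟨(c_g2 hJ hL a).1, (c_g2 hO hL a).1, c_GG h hL a, (kh_ct hθ (nD h a hθ hθ' hL).1).1, ?_, ?_, (c_ev h hJ hL a).1, (c_ev h hO hL a).1,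
    (kh_ct hθ (nE h a hθ hθ' hL).1).1⟩
  · exact ((kh_ct hθ (nG h a hθ hθ' hL).1).1).const_smul (θ * (1 - θ))
  · exact ((cNJ.add cBB).add (cNO.const_smul l)).div_const 2

end Pool.Agent.H37.EP
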