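import Pool.Agent.H94.EP.DyK
import Pool.Agent.H94.EP.DyY
import Pool.Agent.H94.EP.DyQ
import Pool.Agent.H94.EP.DyM

/-
The inner integrals of the two-point functionals are `Nice`.
-/

set_option autoImplicit false

open Set Filter Topology MeasureTheory
open scoped ContDiff

namespace Pool.Agent.H37.EP

open Pool.Agent.H16 Pool.Agent.H87.NS Pool.Agent.H72.CC Pool.Agent.H16.TU Pool.Agent.H94.EP

variable {T : ℝ} {u : ℝ → E3 → E3} {p : ℝ → E3 → ℝ}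

private theorem DyC_Ph (L a z : ℝ) : Continuous (fun s : ℝ => Ph L a s z) := by
  have h1 : Continuous (ph L a) := (P_sm L a 0).1.continuous
  unfold Ph
  exact h1.comp (by fun_prop)

private theorem DyC_kx {θ L : ℝ} (a : ℝ) (hθ1 : θ ≤ 1) (hL : 1 ≤ L) {σ C : ℝ} (hC : 0 ≤ C)
    (hY : ∀ ρ, 0 < ρ → ρ < 1 → |Y2 σ ρ| ≤ C * ρ ^ (θ - 1)) {s : ℝ} (hs : s ∈ Icc (-1 : ℝ) 1)
    {x : E3} (hx : 0 < rsq x) : |kx σ L a s x| ≤ 3 * C * dm θ L a x := by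
  have h0 : kx σ L a s x = Y2 σ (rsq x) * Ph L a s (x 2) := rfl
  rw [h0, abs_mul]
  by_cases h1 : rsq x < 1
  · obtain ⟨p0, -, -, -, p1, -, -⟩ := P_bd hL a (abs_le.2 ⟨hs.1, hs.2⟩) (x 2)
    have h2 := (dm_1 hθ1 L a hx h1).2
    rw [← h2]
    calc |Y2 σ (rsq x)| * |Ph L a s (x 2)| ≤ (C * rsq x ^ (θ - 1)) * (3 * ph L a (x 2)) :=
          mul_le_mul (hY _ hx h1) p1 (abs_nonneg _) (mul_nonneg hC (Real.rpow_nonneg hx.le _))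
      _ = 3 * C * (rsq x ^ (θ - 1) * ph L a (x 2)) := by ring
  · rw [(Y2_zero σ (ρ := rsq x) (by linarith)).1, abs_zero, zero_mul]
    exact mul_nonneg (by linarith) (dm_nn θ L a x)

private theorem DyC_m (σ L a s : ℝ) : Measurable (kx σ L a s) := by
  have h1 : Measurable (rsq : E3 → ℝ) := EVe_rsq_smooth.continuous.measurable
  have h2 : Measurable (Y2 σ) := by
    unfold Y2
    exact ((measurable_id.div_const 2).pow_const σ).mul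
      ((Real.smoothTransition.continuous.comp (by fun_prop)).pow 4).measurable
  have h3 : Continuous (fun x : E3 => Ph L a s (x 2)) := (P_sm L a s).2.continuous.comp (by fun_prop)
  exact (h2.comp h1).mul h3.measurable

private theorem DyC_gen {θ L : ℝ} (a : ℝ) (hθ : 0 < θ) (hθ1 : θ ≤ 1) (hL : 1 ≤ L) {σ C : ℝ} (hC : 0 ≤ C)
    (hY : ∀ ρ, 0 < ρ → ρ < 1 → |Y2 σ ρ| ≤ C * ρ ^ (θ - 1))
    {F : ℝ × ℝ × E3 → ℝ} (hF : ContinuousOn F {q | q.1 ∈ Ico 0 T})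
    (hb : ∀ b < T, ∃ K : ℝ, 0 ≤ K ∧ ∀ t ∈ Icc 0 b, ∀ (s : ℝ) (x : E3), |F (t, s, x)| ≤ K * s ^ 2) :
    Nice T (fun q => ∫ x, kx σ L a q.2 x * F (q.1, q.2, x)) ∧
    ∀ t ∈ Ico 0 T, ∀ s ∈ Icc (-1 : ℝ) 1, Integrable (fun x => kx σ L a s x * F (t, s, x)) := by
  have hg : Integrable (dm θ L a) := dm_int hθ (by linarith) a
  have hm : ∀ t ∈ Ico 0 T, ∀ s ∈ Icc (-1 : ℝ) 1,
      AEStronglyMeasurable (fun x => kx σ L a s x * F (t, s, x)) volume := by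
    intro t ht s _
    have c1 : Continuous (fun x : E3 => F (t, s, x)) := by
      rw [← continuousOn_univ]
      exact hF.comp (f := fun x : E3 => (t, s, x)) (by fun_prop) fun x _ => ht
    exact (DyC_m σ L a s).aestronglyMeasurable.mul c1.aestronglyMeasurable
  have hbb : ∀ b < T, ∃ K : ℝ, 0 ≤ K ∧ ∀ t ∈ Icc 0 b, ∀ s ∈ Icc (-1 : ℝ) 1,
      ∀ᵐ x, |kx σ L a s x * F (t, s, x)| ≤ K * s ^ 2 * dm θ L a x := by
    intro b hbT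
    obtain ⟨K, K0, hK⟩ := hb b hbT
    refine ⟨3 * C * K, by positivity, fun t ht s hs => ?_⟩
    filter_upwards [ae_off] with x hx
    rw [abs_mul]
    calc |kx σ L a s x| * |F (t, s, x)| ≤ (3 * C * dm θ L a x) * (K * s ^ 2) :=
          mul_le_mul (DyC_kx a hθ1 hL hC hY hs hx) (hK t ht s x) (abs_nonneg _)
            (mul_nonneg (by linarith) (dm_nn θ L a x))
      _ = 3 * C * K * s ^ 2 * dm θ L a x := by ring
  constructor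
  · refine ct2 (Φ := fun q x => kx σ L a q.2 x * F (q.1, q.2, x)) (g := dm θ L a) hg hm ?_ ?_
    · intro b hbT
      obtain ⟨K, _, hK⟩ := hbb b hbT
      exact ⟨K, hK⟩
    · refine Eventually.of_forall fun x => ?_
      have c1 : ContinuousOn (fun q : ℝ × ℝ => F (q.1, q.2, x)) (Ico 0 T ×ˢ Icc (-1) 1) :=
        hF.comp (f := fun q : ℝ × ℝ => (q.1, q.2, x)) (by fun_prop) fun q hq => hq.1
      have c2 : Continuous (fun q : ℝ × ℝ => kx σ L a q.2 x) :=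
        continuous_const.mul ((DyC_Ph L a (x 2)).comp continuous_snd)
      exact c2.continuousOn.mul c1
  · intro t ht s hs
    obtain ⟨K, _, hK⟩ := hbb t ht.2
    refine Integrable.mono' (hg.const_mul (K * s ^ 2)) (hm t ht s hs) ?_
    exact hK t ⟨ht.1, le_rfl⟩ s hs

private theorem DyC_Y {θ : ℝ} (hθ : 0 < θ) (hθ1 : θ ≤ 1) : ∃ C : ℝ, 0 ≤ C ∧
    (∀ ρ, 0 < ρ → ρ < 1 → |Y2 θ ρ| ≤ C * ρ ^ (θ - 1)) ∧ ∀ ρ, 0 < ρ → ρ < 1 → |Y2 (θ - 1) ρ| ≤ C * ρ ^ (θ - 1) := by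
  obtain ⟨C, C0, hC⟩ := Y2_bd hθ hθ1
  refine ⟨C, C0, fun ρ h0 h1 => ?_, fun ρ h0 _ => (hC ρ h0).2.2.2⟩
  exact (hC ρ h0).1.trans (le_mul_of_one_le_right C0
    (Real.one_le_rpow_of_pos_of_le_one_of_nonpos h0 h1.le (by linarith)))

private theorem DyC_f (h : IsHInfAxisymNS T u p) : ContinuousOn (fun q : ℝ × ℝ × E3 => fh q.2.1 (u q.1) q.2.2 ^ 2)
      {q | q.1 ∈ Ico 0 T} ∧ ∀ b < T, ∃ K : ℝ, 0 ≤ K ∧ ∀ t ∈ Icc 0 b, ∀ (s : ℝ) (x : E3),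
      |fh s (u t) x ^ 2| ≤ K * s ^ 2 := by
  refine ⟨(jc_fh h).1.pow 2, fun b hb => ?_⟩
  obtain ⟨K, K0, hK⟩ := fhK h hb
  refine ⟨K, K0, fun t ht s x => ?_⟩
  rw [abs_of_nonneg (sq_nonneg _)]
  exact (hK t ht s x).2.2.2.1

theorem nB (h : IsHInfAxisymNS T u p) {θ L : ℝ} (a : ℝ) (hθ : 0 < θ) (hθ1 : θ ≤ 1) (hL : 1 ≤ L) :
    Nice T (fun q => ∫ x, kx θ L a q.2 x * fh q.2 (u q.1) x ^ 2) ∧
    ∀ t ∈ Ico 0 T, ∀ s ∈ Icc (-1 : ℝ) 1, Integrable (fun x => kx θ L a s x * fh s (u t) x ^ 2) := by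
  obtain ⟨C, C0, hC, _⟩ := DyC_Y hθ hθ1
  exact DyC_gen a hθ hθ1 hL C0 hC (DyC_f h).1 (DyC_f h).2

theorem nD (h : IsHInfAxisymNS T u p) {θ L : ℝ} (a : ℝ) (hθ : 0 < θ) (hθ1 : θ ≤ 1) (hL : 1 ≤ L) :
    Nice T (fun q => ∫ x, kx θ L a q.2 x * gsq (fh q.2 (u q.1)) x) ∧
    ∀ t ∈ Ico 0 T, ∀ s ∈ Icc (-1 : ℝ) 1, Integrable (fun x => kx θ L a s x * gsq (fh s (u t)) x) := by
  obtain ⟨C, C0, hC, _⟩ := DyC_Y hθ hθ1
  refine DyC_gen a hθ hθ1 hL C0 hC (F := fun q : ℝ × ℝ × E3 => gsq (fh q.2.1 (u q.1)) q.2.2) (jc_fh h).2.1 fun b hb => ?_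
  obtain ⟨K, K0, hK⟩ := fhK h hb
  refine ⟨K, K0, fun t ht s x => ?_⟩
  have h1 : 0 ≤ gsq (fh s (u t)) x := Finset.sum_nonneg fun i _ => sq_nonneg _
  rw [abs_of_nonneg h1]
  exact (hK t ht s x).2.2.2.2.1

theorem nG (h : IsHInfAxisymNS T u p) {θ L : ℝ} (a : ℝ) (hθ : 0 < θ) (hθ1 : θ ≤ 1) (hL : 1 ≤ L) :
    Nice T (fun q => ∫ x, kx (θ - 1) L a q.2 x * fh q.2 (u q.1) x ^ 2) ∧
    ∀ t ∈ Ico 0 T, ∀ s ∈ Icc (-1 : ℝ) 1, Integrable (fun x => kx (θ - 1) L a s x * fh s (u t) x ^ 2) := by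
  obtain ⟨C, C0, _, hC⟩ := DyC_Y hθ hθ1
  exact DyC_gen a hθ hθ1 hL C0 hC (DyC_f h).1 (DyC_f h).2

end Pool.Agent.H37.EP
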