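import Pool.Agent.H94.EP.DyS
import Pool.Agent.H94.EP.DyB
import Pool.Agent.H94.EP.DyX
import Pool.Agent.H87.NS.VEq
import Pool.Agent.H87.NS.FlowOf

/-
ROW DyF (MP_09540e_EP). The evolution equation of the increments `fh s`.
-/

set_option autoImplicit false

open Set Filter Topology MeasureTheory
open scoped ContDiff

namespace Pool.Agent.H37.EP

open Pool.Agent.H16 Pool.Agent.H87.NS Pool.Agent.H72.CC Pool.Agent.H16.TU Pool.Agent.H94.EP

variable {T : ℝ} {u : ℝ → E3 → E3} {p : ℝ → E3 → ℝ}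

theorem F_eq (h : IsHInfAxisymNS T u p) (s : ℝ) {t : ℝ} (ht : t ∈ Ioo 0 T) {x : E3} (hx : 0 < rsq x) :
    deriv (fun τ => fh s (u τ) x) t + adv (u t x) (fh s (u t)) x = lap (fh s (u t)) x + 2 / rsq x * rdr (fh s (u t)) x + Gh s (u t) x := by
  have ht' : t ∈ Ico 0 T := ⟨ht.1.le, ht.2⟩
  have hax := axF_of h.ns ht'
  have hry : rsq (sh2 s x) = rsq x := (sh_rsq s x).1
  have hy : 0 < rsq (sh2 s x) := by rw [hry]; exact hx
  have e1 := V_eq h.ns ht (sh2 s x) hy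
  have e2 := V_eq h.ns ht x hx
  rw [hry] at e1
  have d1 := (comm_loc (f := fun τ => sV (u τ)) (jointV h.ns) ht hy 0).1
  have d2 := (comm_loc (f := fun τ => sV (u τ)) (jointV h.ns) ht hx 0).1
  have hD : deriv (fun τ => fh s (u τ) x) t
      = deriv (fun τ => sV (u τ) (sh2 s x)) t - deriv (fun τ => sV (u τ) x) t := by
    have h1 : (fun τ => fh s (u τ) x) = fun τ => sV (u τ) (sh2 s x) - sV (u τ) x := rfl
    rw [h1]
    exact deriv_fun_sub d1 d2
  rw [hD, fh_lap hax, fh_rdr hax]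
  have hA : adv (u t x) (fh s (u t)) x = adv (u t x) (sV (u t)) (sh2 s x) - adv (u t x) (sV (u t)) x := by
    unfold adv
    simp only [Fin.sum_univ_three, fh_pd hax]
    ring
  have hB : adv (u t (sh2 s x) - u t x) (sV (u t)) (sh2 s x)
      = adv (u t (sh2 s x)) (sV (u t)) (sh2 s x) - adv (u t x) (sV (u t)) (sh2 s x) := by
    unfold adv
    simp only [Fin.sum_univ_three, PiLp.sub_apply]
    ring
  rw [hA, Gh, hB]
  linear_combination e1 - e2

theorem DyF_Gh (s : ℝ) (v : E3 → E3) (x : E3) : Gh s v x =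
    -2 * (sW v (sh2 s x) * sV v (sh2 s x) - sW v x * sV v x)
      - ((v (sh2 s x) 0 - v x 0) * pd 0 (sV v) (sh2 s x) + (v (sh2 s x) 1 - v x 1) * pd 1 (sV v) (sh2 s x)
        + (v (sh2 s x) 2 - v x 2) * pd 2 (sV v) (sh2 s x)) := by
  unfold Gh adv
  simp only [Fin.sum_univ_three, PiLp.sub_apply]

theorem DyF_JC (h : IsHInfAxisymNS T u p) (s : ℝ) : JC T (fun t => Gh s (u t)) := by
  have hns := h.ns
  have jV := jcV hns
  have jW := jcW hns
  have jVs := sh_JC jV s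
  have jWs := sh_JC jW s
  have ju : ∀ i : Fin 3, JC T (fun t x => u t (sh2 s x) i - u t x i) := fun i =>
    ContinuousOn.sub (sh_JC (jcu hns i) s) (jcu hns i)
  have jd : ∀ i : Fin 3, JC T (fun t x => pd i (sV (u t)) (sh2 s x)) := fun i => sh_JC (jcdV hns i) s
  have j1 : JC T (fun t x => -2 * (sW (u t) (sh2 s x) * sV (u t) (sh2 s x) - sW (u t) x * sV (u t) x)) :=
    JC_mul (JC_const continuous_const) (ContinuousOn.sub (JC_mul jWs jVs) (JC_mul jW jV))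
  have j2 : JC T (fun t x => (u t (sh2 s x) 0 - u t x 0) * pd 0 (sV (u t)) (sh2 s x)
      + (u t (sh2 s x) 1 - u t x 1) * pd 1 (sV (u t)) (sh2 s x)
        + (u t (sh2 s x) 2 - u t x 2) * pd 2 (sV (u t)) (sh2 s x)) :=
    JC_add (JC_add (JC_mul (ju 0) (jd 0)) (JC_mul (ju 1) (jd 1))) (JC_mul (ju 2) (jd 2))
  refine Bds2_JC_congr (fun t _ x => DyF_Gh s (u t) x) ?_
  exact ContinuousOn.sub j1 j2

theorem DyF_bd {K : ℝ} {v : E3 → E3} (hv : AxF v) (hVs : ContDiff ℝ ∞ (sV v))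
    (hWs : ContDiff ℝ ∞ (sW v)) (hV : DB 1 K (sV v)) (hW : DB 1 K (sW v))
    (hu : ∀ j : Fin 3, DB 1 K (fun x => v x j)) (s : ℝ) :
    BL (6 * max ((|(-2 : ℝ)| + (-2 : ℝ) ^ 2) * (6 * (K * K + K ^ 2 * K)))
      (2 * (2 * ((2 * K * K + (2 * K) ^ 2 * K) + (2 * K * K + (2 * K) ^ 2 * K)) + (2 * K * K + (2 * K) ^ 2 * K))))
      (Gh s v) := by
  have cV : Continuous (sV v) := hVs.continuous
  have cW : Continuous (sW v) := hWs.continuous
  have cVs : Continuous (fun x => sV v (sh2 s x)) := (sh_sm hVs s).continuous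
  have cWs : Continuous (fun x => sW v (sh2 s x)) := (sh_sm hWs s).continuous
  have cd : ∀ i : Fin 3, Continuous (fun x => pd i (sV v) (sh2 s x)) := fun i =>
    (sh_sm (pd_smooth hVs i) s).continuous
  have cu : ∀ i : Fin 3, ContDiff ℝ ∞ (fun x => v x i) := fun i => Bds1_proj_smooth hv.smooth i
  have cus : ∀ i : Fin 3, Continuous (fun x => v (sh2 s x) i - v x i) := fun i =>
    (sh_sm (cu i) s).continuous.sub (cu i).continuous
  have b1 : BL (K * K + K ^ 2 * K) (fun x => sW v x * sV v x) :=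
    mul_BL cV cW (DB_BL hV) (DB_BL hW).1
  have b2 : BL (K * K + K ^ 2 * K) (fun x => sW v (sh2 s x) * sV v (sh2 s x)) := sh_BL b1 s
  have b3 : BL (6 * (K * K + K ^ 2 * K))
      (fun x => sW v (sh2 s x) * sV v (sh2 s x) - sW v x * sV v x) :=
    Bds1_sub_BL (cWs.mul cVs) (cW.mul cV) b2 b1
  have b4 : BL ((|(-2 : ℝ)| + (-2 : ℝ) ^ 2) * (6 * (K * K + K ^ 2 * K)))
      (fun x => -2 * (sW v (sh2 s x) * sV v (sh2 s x) - sW v x * sV v x)) := smul_BL b3 (-2)
  have t : ∀ i : Fin 3, BL (2 * K * K + (2 * K) ^ 2 * K)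
      (fun x => (v (sh2 s x) i - v x i) * pd i (sV v) (sh2 s x)) := by
    intro i
    refine mul_BL (cd i) (cus i) (sh_BL (DB_BL (DB_pd (n := 0) hV i)) s)
      (g := fun x => v (sh2 s x) i - v x i) (K' := 2 * K) fun x => ?_
    have h1 : |v (sh2 s x) i| ≤ K := (DB_BL (hu i)).1 (sh2 s x)
    have h2 : |v x i| ≤ K := (DB_BL (hu i)).1 x
    have h3 := abs_sub (v (sh2 s x) i) (v x i)
    linarith
  have c : ∀ i : Fin 3, Continuous (fun x => (v (sh2 s x) i - v x i) * pd i (sV v) (sh2 s x)) :=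
    fun i => (cus i).mul (cd i)
  have b5 := add_BL ((c 0).add (c 1)) (c 2) (add_BL (c 0) (c 1) (t 0) (t 1)) (t 2)
  have b6 := Bds1_sub_BL (continuous_const.mul ((cWs.mul cVs).sub (cW.mul cV)))
    (((c 0).add (c 1)).add (c 2))
    (BL_mono b4 (le_max_left _ _)) (BL_mono b5 (le_max_right _ _))
  have e : Gh s v = fun x => -2 * (sW v (sh2 s x) * sV v (sh2 s x) - sW v x * sV v x)
      - ((v (sh2 s x) 0 - v x 0) * pd 0 (sV v) (sh2 s x) + (v (sh2 s x) 1 - v x 1) * pd 1 (sV v) (sh2 s x)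
        + (v (sh2 s x) 2 - v x 2) * pd 2 (sV v) (sh2 s x)) := funext fun x => DyF_Gh s v x
  rw [e]
  exact b6

theorem evoF (h : IsHInfAxisymNS T u p) (s : ℝ) : Evo T u (fun t => fh s (u t)) (fun t => Gh s (u t)) := by
  have hns := h.ns
  refine ⟨fun t ht => fh_smooth (axF_of hns ht) s, ?_, ?_, ?_, DyF_JC h s, ?_, fun t ht x hx => F_eq h s ht hx⟩
  · exact (sh_joint (f := fun t => sV (u t)) (jointV hns) s).sub (jointV hns)
  · exact ContinuousOn.sub (sh_JC (jcV hns) s) (jcV hns)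
  · intro i
    refine Bds2_JC_congr (g := fun t x => pd i (sV (u t)) (sh2 s x) - pd i (sV (u t)) x)
      (fun t ht x => fh_pd (axF_of hns ht) s i x) ?_
    exact ContinuousOn.sub (sh_JC (jcdV hns i) s) (jcdV hns i)
  · intro T' hT'
    obtain ⟨K, _, hK⟩ := bds h hT' 1
    refine ⟨max (6 * K) (6 * max ((|(-2 : ℝ)| + (-2 : ℝ) ^ 2) * (6 * (K * K + K ^ 2 * K)))
      (2 * (2 * ((2 * K * K + (2 * K) ^ 2 * K) + (2 * K * K + (2 * K) ^ 2 * K)) + (2 * K * K + (2 * K) ^ 2 * K)))),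
      fun t ht => ?_⟩
    have ht' : t ∈ Ico 0 T := ⟨ht.1, lt_of_le_of_lt ht.2 hT'⟩
    obtain ⟨hV, hW, _, hu, _⟩ := hK t ht
    obtain ⟨sV', sW', _⟩ := svw_smooth hns ht'
    refine ⟨?_, ?_⟩
    · have h1 := Bds1_sub_DB (sh_sm sV' s) sV' (sh_DB hV s) hV
      exact DB_mono h1 le_rfl (le_max_left _ _)
    · exact BL_mono (DyF_bd (axF_of hns ht') sV' sW' hV hW hu s) (le_max_right _ _)

end Pool.Agent.H37.EP
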