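import Pool.Agent.H94.EP.EvF
import Pool.Agent.H94.EP.DyZ
import Pool.Agent.H94.EP.DyF
import Pool.Agent.H94.EP.DyH
import Pool.Agent.H94.EP.DyC
import Pool.Agent.H94.EP.DyR
import Pool.Agent.H94.EP.DyO

/-
ROW EvP (MP_09540e_EP). The energy inequality of the total functional. Aux lemmas prefixed EvP_ . PROOF. Let `t₁ ≤ t₂ < T`.
`pJ`: evA with evoZ (DyZ). `pO`: evA with the second component of flow_of: `(flow_of h).evO : Evo T u (fun t => sO (u t)) (fun t x => 2 * sV (u t) x * pd 2 (sV (u t)) x)`, and `GO (u t) x` is the same by rfl (GO, Zz).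
`pB`: let `B (t, s) = ∫ x, kx θ L a s x * fh s (u t) x ^ 2` and `E (t, s) = ∫ x, evJ sqf (u t) (fh s (u t)) (Gh s (u t)) (kx θ L a s) x` (nB, nE: both `Nice`). For every `s`: `kh θ s * B (t₂, s) ≤ kh θ s * B (t₁, s) + kh θ s * ∫ t in t₁..t₂, E (t, s)`:
  if `1/8 < |s|`, `kh θ s = 0` (kh_z); otherwise evK with evoF (`|s| ≤ 1`), kh_nn. Integrate over `s` (integral_mono, integral_add): integrability from kh_ct (second part, nB) at `t₂` and `t₁`, and kh_fub (second part, nE); kh_fub (first part) turns `∫ s, kh θ s * ∫ t in t₁..t₂, E` into `∫ t in t₁..t₂, ∫ s, kh θ s * E = ∫ t in t₁..t₂, RB θ L a (u t)`.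
`p2`: FF = (NJ + BB + l NO) / 2: `(pJ + pB + l * pO) / 2` (linarith after `mul_le_mul_of_nonneg_left pO hl`); the integral of the sum is the sum of the integrals: `RJ`, `RO`, `RB` are continuous in `t` on `Ico 0 T ⊇ uIcc t₁ t₂` (c_ev with evoZ and evO; kh_ct with nE), hence interval integrable (ContinuousOn.intervalIntegrable);
  intervalIntegral.integral_add, integral_const_mul / integral_div.
-/

set_option autoImplicit false

open Set Filter Topology MeasureTheory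
open scoped ContDiff

namespace Pool.Agent.H16.EP

open Pool.Agent.H16 Pool.Agent.H87.NS Pool.Agent.H72.CC Pool.Agent.H16.TU Pool.Agent.H94.EP Pool.Agent.H37.EP

variable {T : ℝ} {u : ℝ → E3 → E3} {p : ℝ → E3 → ℝ}

theorem pJ (h : IsHInfAxisymNS T u p) {L : ℝ} (hL : 1 ≤ L) (a : ℝ) {t₁ t₂ : ℝ} (h1 : 0 ≤ t₁) (h12 : t₁ ≤ t₂) (h2 : t₂ < T) :
    NJ L a (u t₂) ≤ NJ L a (u t₁) + ∫ s in t₁..t₂, RJ L a (u s) :=
  evA h (evoZ h) hL a h1 h12 h2

theorem pO (h : IsHInfAxisymNS T u p) {L : ℝ} (hL : 1 ≤ L) (a : ℝ) {t₁ t₂ : ℝ} (h1 : 0 ≤ t₁) (h12 : t₁ ≤ t₂) (h2 : t₂ < T) :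
    NO L a (u t₂) ≤ NO L a (u t₁) + ∫ s in t₁..t₂, RO L a (u s) :=
  evA h (evoO h) hL a h1 h12 h2

theorem pB (h : IsHInfAxisymNS T u p) {θ L : ℝ} (hθ : 0 < θ) (hθ1 : θ ≤ 1) (hL : 1 ≤ L) (a : ℝ) {t₁ t₂ : ℝ} (h1 : 0 ≤ t₁) (h12 : t₁ ≤ t₂) (h2 : t₂ < T) :
    BB θ L a (u t₂) ≤ BB θ L a (u t₁) + ∫ s in t₁..t₂, RB θ L a (u s) := by
  have hB := (nB h a hθ hθ1 hL).1
  have hE := (nE h a hθ hθ1 hL).1
  have hc := kh_ct hθ hB
  have hi2 := hc.2 t₂ ⟨h1.trans h12, h2⟩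
  have hi1 := hc.2 t₁ ⟨h1, lt_of_le_of_lt h12 h2⟩
  obtain ⟨hf, hi3⟩ := kh_fub hθ hE h1 h12 h2
  have hpt : ∀ s : ℝ, kh θ s * (∫ x, kx θ L a s x * fh s (u t₂) x ^ 2)
      ≤ kh θ s * (∫ x, kx θ L a s x * fh s (u t₁) x ^ 2)
        + kh θ s * ∫ t in t₁..t₂, ∫ x, evJ sqf (u t) (fh s (u t)) (Gh s (u t)) (kx θ L a s) x := by
    intro s
    rcases lt_or_ge (1 / 8) |s| with hs | hs
    · rw [kh_z θ hs]; simp
    · have hs1 : |s| ≤ 1 := by linarith
      have hk := evK h (evoF h s) hθ hθ1 hL a hs1 h1 h12 h2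
      have := mul_le_mul_of_nonneg_left hk (kh_nn hθ.le s)
      linarith
  have hmono := integral_mono hi2 (hi1.add hi3) hpt
  have hadd := integral_add hi1 hi3
  have e1 : BB θ L a (u t₂) = ∫ s, kh θ s * (∫ x, kx θ L a s x * fh s (u t₂) x ^ 2) := rfl
  have e2 : BB θ L a (u t₁) = ∫ s, kh θ s * (∫ x, kx θ L a s x * fh s (u t₁) x ^ 2) := rfl
  have e3 : (∫ s in t₁..t₂, RB θ L a (u s)) = ∫ t in t₁..t₂, ∫ s, kh θ s *
      (∫ x, evJ sqf (u t) (fh s (u t)) (Gh s (u t)) (kx θ L a s) x) := rfl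
  rw [e1, e2, e3, hf]
  refine hmono.trans (le_of_eq ?_)
  exact hadd

theorem p2 (h : IsHInfAxisymNS T u p) {θ l L a : ℝ} (hθ : 0 < θ) (hθ1 : θ ≤ 1 / 2)
    (hL : 1 ≤ L) (hl : 0 ≤ l) {t₁ t₂ : ℝ} (h1 : 0 ≤ t₁) (h12 : t₁ ≤ t₂) (h2 : t₂ < T) :
    FF θ l L a (u t₂) ≤ FF θ l L a (u t₁) +
      ∫ s in t₁..t₂, (RJ L a (u s) / 2 + RB θ L a (u s) / 2 + l * (RO L a (u s) / 2)) := by
  have hθ' : θ ≤ 1 := by linarith
  have hsub : uIcc t₁ t₂ ⊆ Ico 0 T := by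
    rw [uIcc_of_le h12]
    intro t ht
    exact ⟨h1.trans ht.1, lt_of_le_of_lt ht.2 h2⟩
  have iJ : IntervalIntegrable (fun s => RJ L a (u s)) volume t₁ t₂ :=
    ((c_ev h (evoZ h) hL a).1.mono hsub).intervalIntegrable
  have iO : IntervalIntegrable (fun s => RO L a (u s)) volume t₁ t₂ :=
    ((c_ev h (evoO h) hL a).1.mono hsub).intervalIntegrable
  have iB : IntervalIntegrable (fun s => RB θ L a (u s)) volume t₁ t₂ :=
    ((kh_ct hθ (nE h a hθ hθ' hL).1).1.mono hsub).intervalIntegrable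
  have hJ := pJ h hL a h1 h12 h2
  have hO := mul_le_mul_of_nonneg_left (pO h hL a h1 h12 h2) hl
  have hB := pB h hθ hθ' hL a h1 h12 h2
  have e : (∫ s in t₁..t₂, (RJ L a (u s) / 2 + RB θ L a (u s) / 2 + l * (RO L a (u s) / 2)))
      = (∫ s in t₁..t₂, RJ L a (u s)) / 2 + (∫ s in t₁..t₂, RB θ L a (u s)) / 2
        + l * ((∫ s in t₁..t₂, RO L a (u s)) / 2) := by
    rw [intervalIntegral.integral_add ((iJ.div_const 2).add (iB.div_const 2)) ((iO.div_const 2).const_mul l),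
      intervalIntegral.integral_add (iJ.div_const 2) (iB.div_const 2),
      intervalIntegral.integral_const_mul, intervalIntegral.integral_div,
      intervalIntegral.integral_div, intervalIntegral.integral_div]
  rw [e]
  simp only [FF]
  linarith

end Pool.Agent.H16.EP
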