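import Pool.Agent.H94.EP.CoP
import Pool.Agent.H94.EP.CoS

/-! ROW Co2 (MP_09540e_EP, sub-PI helper67): algebra of the rates.

PROOF. Let `C₁ ≥ 1` be the maximum of the constants of p1a, p1b, p1c, p1g, p1h (all these statements stay true with a larger constant because the
quantities DJ, DO, GG, DB2, GB, YY are nonnegative: CoS; `L * K ≥ 0`; one may also keep the five constants apart and take the sum `C₁`), `S = Sc κ ≥ 20`
(`κ ≥ 1`), `θ = l = 1 / S`, `μ = 1 / (8 C₁)`. Final constant `C = 1000 C₁ ^ 3` or larger. From `C ε S ≤ 1`, `0 < ε ≤ 1`: `ε² S ≤ 1` and `80 C₁² (ε S)² ≤ 1`.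
p1a: `RJ/2 ≤ -DJ/2 + C₁(ε² S DO + K² GG)`.
p1c: `RB/2 ≤ -(DB2 + GB)/2 + DJ/16 + C₁(ε² S DO + (1+K) GG + ε² L K)`.
l times p1b: `l RO/2 ≤ -l DO/2 + (1/(8 C₁ S)) (YY + DJ + GG) + (8 C₁²/S) ε² (S² DO + S GG) + (C₁ K² / S) GG`, and p1g: `YY ≤ C₁ (S GB + DJ / S)`, so
`(1/(8 C₁ S)) YY ≤ GB/8 + DJ/(8 S²)`.
Sum: coefficient of DJ: `-1/2 + 1/16 + 1/(8 S²) + 1/(8 C₁ S) ≤ -1/4`; of DB2: `-1/2`; of GB: `-1/2 + 1/8`; of DO: `2 C₁ ε² S + 8 C₁² ε² S - 1/(2S) ≤ -1/(4S)`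
(`10 C₁² (ε S)² ≤ 1/8`). Rest `≤ 12 C₁² (K² GG + L K)` roughly (`K ≥ 2`). So the left side is `≤ -(1/4)(D3 + DO/S) + C₂ (K² GG + L K)`, and by p1h
`(1/8)(D3 + DO / S) ≥ (FF - 2 C₁ GG) / (8 C₁ S)`. -/

set_option autoImplicit false

open Set Filter Topology MeasureTheory
open scoped ContDiff

namespace Pool.Agent.H94.EP

open Pool.Agent.H16 Pool.Agent.H87.NS Pool.Agent.H72.CC Pool.Agent.H16.TU

theorem sc_ge {κ : ℝ} (h : 1 ≤ κ) : 20 ≤ Sc κ := by
  unfold Sc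
  have := Real.log_nonneg h
  linarith

/-- The algebra. -/
theorem Co2_alg {C S t ε K L J O G B2 Gb Y F rj rb ro : ℝ} (hC : 1 ≤ C) (hS : 20 ≤ S) (hts : t * S = 1)
    (ht0 : 0 < t) (hε : 0 < ε) (hε1 : ε ≤ 1) (hK : 2 ≤ K) (hLK : 0 ≤ L * K)
    (hp : 1000 * C ^ 2 * (ε * S) ≤ 1) (hJ : 0 ≤ J) (hO : 0 ≤ O) (hG : 0 ≤ G) (hB : 0 ≤ B2) (hGb : 0 ≤ Gb)
    (hF : 0 ≤ F)
    (ha : rj ≤ - (1 / 2) * J + C * (ε ^ 2 * S * O + K ^ 2 * G))
    (hb : ro ≤ - (1 / 2) * O + 1 / (8 * C) * (Y + J + G) + 8 * C ^ 2 * ε ^ 2 * (S ^ 2 * O + S * G) + C * K ^ 2 * G)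
    (hc : rb ≤ - (1 / 2) * (B2 + Gb) + 1 / 16 * J + C * (ε ^ 2 * S * O + (1 + K) * G + ε ^ 2 * L * K))
    (hg : Y ≤ C * (S * Gb + J * t))
    (hh : F ≤ C * S * (J + B2 + Gb + t * O) + 2 * C * G) :
    rj + rb + t * ro ≤ - (1 / (1000 * C ^ 2) * t) * F - 1 / 8 * t * O + 1000 * C ^ 2 * (K ^ 2 * G + L * K) := by
  have hC0 : 0 < C := by linarith
  have hC2 : 1 ≤ C ^ 2 := one_le_pow₀ hC
  have hCC : C ≤ C ^ 2 := by nlinarith only [hC, hC2]
  have ht1 : t ≤ 1 / 20 := by nlinarith only [hS, hts, ht0]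
  have hS0 : 0 < S := by linarith
  obtain ⟨p, hpdef⟩ : ∃ p, p = ε * S := ⟨_, rfl⟩
  have hp0 : 0 < p := by rw [hpdef]; positivity
  rw [← hpdef] at hp
  have hp1 : p ≤ 1 := by
    have := mul_le_mul_of_nonneg_right hC2 hp0.le
    linarith
  have hp2 : C ^ 2 * p ^ 2 ≤ 1 / 1000 := by
    have h1 : C ^ 2 * p ≤ 1 / 1000 := by linarith
    have h2 : C ^ 2 * p ^ 2 = (C ^ 2 * p) * p := by ring
    rw [h2]
    have h3 : C ^ 2 * p * p ≤ C ^ 2 * p * 1 := mul_le_mul_of_nonneg_left hp1 (by positivity)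
    linarith only [hp, h3]
  have hp3 : C * p ^ 2 ≤ 1 / 1000 := by
    have := mul_le_mul_of_nonneg_right hCC (sq_nonneg p)
    linarith
  have hεS : ε ^ 2 * S = p ^ 2 * t := by
    rw [hpdef]
    have : (ε * S) ^ 2 * t = ε ^ 2 * S * (t * S) := by ring
    rw [this, hts, mul_one]
  have hε2 : ε ^ 2 ≤ 1 := pow_le_one₀ hε.le hε1
  have htO : 0 ≤ t * O := by positivity
  -- the terms with O
  have o1 : C * (ε ^ 2 * S * O) ≤ 1 / 1000 * (t * O) := by
    have e : C * (ε ^ 2 * S * O) = (C * p ^ 2) * (t * O) := by rw [hεS]; ring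
    rw [e]
    exact mul_le_mul_of_nonneg_right hp3 htO
  have o2 : t * (8 * C ^ 2 * ε ^ 2 * (S ^ 2 * O + S * G)) ≤ 8 / 1000 * (t * O) + 8 * C ^ 2 * G := by
    have e : t * (8 * C ^ 2 * ε ^ 2 * (S ^ 2 * O + S * G)) =
        8 * (C ^ 2 * (ε ^ 2 * S)) * ((t * S) * O) + 8 * C ^ 2 * ε ^ 2 * ((t * S) * G) := by ring
    rw [e, hts, hεS]
    have e1 : 8 * (C ^ 2 * (p ^ 2 * t)) * (1 * O) = 8 * (C ^ 2 * p ^ 2) * (t * O) := by ring
    rw [e1]
    have e2 : 8 * (C ^ 2 * p ^ 2) * (t * O) ≤ 8 / 1000 * (t * O) :=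
      mul_le_mul_of_nonneg_right (by linarith only [hp2]) htO
    have e3 : 8 * C ^ 2 * ε ^ 2 * (1 * G) ≤ 8 * C ^ 2 * G := by
      have h1 : 8 * C ^ 2 * ε ^ 2 ≤ 8 * C ^ 2 * 1 := mul_le_mul_of_nonneg_left hε2 (by positivity)
      have h2 := mul_le_mul_of_nonneg_right h1 hG
      linarith only [h2]
    linarith only [e2, e3]
  -- Y
  have y1 : t * (1 / (8 * C) * (Y + J + G)) ≤ 1 / 8 * Gb + 1 / 20 * J + G := by
    have h1 : 1 / (8 * C) * Y ≤ 1 / 8 * (S * Gb + J * t) := by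
      have : 1 / (8 * C) * Y ≤ 1 / (8 * C) * (C * (S * Gb + J * t)) :=
        mul_le_mul_of_nonneg_left hg (by positivity)
      refine this.trans (le_of_eq ?_)
      field_simp
    have h2 : 1 / (8 * C) ≤ 1 / 8 := one_div_le_one_div_of_le (by norm_num) (by linarith only [hC])
    have h3 : 1 / (8 * C) * (J + G) ≤ 1 / 8 * (J + G) :=
      mul_le_mul_of_nonneg_right h2 (by linarith only [hJ, hG])
    have h4 : t * (1 / (8 * C) * (Y + J + G)) ≤ t * (1 / 8 * (S * Gb + J * t) + 1 / 8 * (J + G)) := by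
      refine mul_le_mul_of_nonneg_left ?_ ht0.le
      have : 1 / (8 * C) * (Y + J + G) = 1 / (8 * C) * Y + 1 / (8 * C) * (J + G) := by ring
      rw [this]
      linarith only [h1, h3]
    have h5 : t * (1 / 8 * (S * Gb + J * t) + 1 / 8 * (J + G)) =
        1 / 8 * ((t * S) * Gb) + 1 / 8 * (t * t) * J + 1 / 8 * t * J + 1 / 8 * t * G := by ring
    rw [h5, hts, one_mul] at h4
    have h6 : t * t ≤ 1 / 20 := by nlinarith only [hS, hts, ht0, ht1]
    have h7 : t * t * J ≤ 1 / 20 * J := mul_le_mul_of_nonneg_right h6 hJ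
    have h8 : t * J ≤ 1 / 20 * J := mul_le_mul_of_nonneg_right ht1 hJ
    have h9 : t * G ≤ 1 / 20 * G := mul_le_mul_of_nonneg_right ht1 hG
    linarith only [hJ, hG, h4, h7, h8, h9]
  have g1 : t * (C * K ^ 2 * G) ≤ C ^ 2 * (K ^ 2 * G) := by
    have h1 : 0 ≤ C * K ^ 2 * G := by positivity
    have h2 : t * (C * K ^ 2 * G) ≤ 1 * (C * K ^ 2 * G) := mul_le_mul_of_nonneg_right (by linarith only [ht0, ht1]) h1
    have h3 : C * K ^ 2 * G ≤ C ^ 2 * (K ^ 2 * G) := by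
      have : C * (K ^ 2 * G) ≤ C ^ 2 * (K ^ 2 * G) := mul_le_mul_of_nonneg_right hCC (by positivity)
      linarith only [this]
    linarith only [h2, h3]
  have e4 : t * ro ≤ - (1 / 2) * (t * O) + (1 / 8 * Gb + 1 / 20 * J + G) +
      (8 / 1000 * (t * O) + 8 * C ^ 2 * G) + C ^ 2 * (K ^ 2 * G) := by
    have h1 := mul_le_mul_of_nonneg_left hb ht0.le
    have h2 : t * (- (1 / 2) * O + 1 / (8 * C) * (Y + J + G) + 8 * C ^ 2 * ε ^ 2 * (S ^ 2 * O + S * G) + C * K ^ 2 * G)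
        = - (1 / 2) * (t * O) + t * (1 / (8 * C) * (Y + J + G)) +
          t * (8 * C ^ 2 * ε ^ 2 * (S ^ 2 * O + S * G)) + t * (C * K ^ 2 * G) := by ring
    rw [h2] at h1
    linarith only [o2, y1, g1, h1]
  -- G and LK
  have hGK : 0 ≤ K ^ 2 * G := by positivity
  have hKK : K ≤ K ^ 2 := by nlinarith only [hC, hS, hε, hK, ht1, hp3, hεS]
  have gK : K * G ≤ K ^ 2 * G := mul_le_mul_of_nonneg_right hKK hG
  have gG : G ≤ 1 / 2 * (K ^ 2 * G) := by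
    have := mul_le_mul_of_nonneg_right hK hG
    linarith only [gK, this]
  have g2 : C ^ 2 * G ≤ C ^ 2 * (K ^ 2 * G) := mul_le_mul_of_nonneg_left (by linarith only [hGK, gG]) (by positivity)
  have g3 : C * G ≤ C ^ 2 * (K ^ 2 * G) := by
    have h1 : C * G ≤ C ^ 2 * G := mul_le_mul_of_nonneg_right hCC hG
    linarith only [g2, h1]
  have g4 : C * (K ^ 2 * G) ≤ C ^ 2 * (K ^ 2 * G) := mul_le_mul_of_nonneg_right hCC hGK
  have g6 : C * (K * G) ≤ C ^ 2 * (K ^ 2 * G) := by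
    have h1 : C * (K * G) ≤ C * (K ^ 2 * G) := mul_le_mul_of_nonneg_left gK hC0.le
    linarith only [g4, h1]
  have g5 : G ≤ C ^ 2 * (K ^ 2 * G) := by
    have : 1 * (K ^ 2 * G) ≤ C ^ 2 * (K ^ 2 * G) := mul_le_mul_of_nonneg_right hC2 hGK
    linarith only [hGK, gG, this]
  have l1 : C * (ε ^ 2 * L * K) ≤ C ^ 2 * (L * K) := by
    have h1 : ε ^ 2 * (L * K) ≤ 1 * (L * K) := mul_le_mul_of_nonneg_right hε2 hLK
    have h2 : C * (ε ^ 2 * (L * K)) ≤ C * (1 * (L * K)) := mul_le_mul_of_nonneg_left h1 hC0.le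
    have h3 : C * (L * K) ≤ C ^ 2 * (L * K) := mul_le_mul_of_nonneg_right hCC hLK
    have h4 : C * (ε ^ 2 * L * K) = C * (ε ^ 2 * (L * K)) := by ring
    rw [h4]
    linarith only [h2, h3]
  -- F
  have f1 : 1 / (1000 * C ^ 2) * t * F ≤ 1 / 8 * (J + B2 + Gb + t * O) + G := by
    have h1 : t * F ≤ C * (J + B2 + Gb + t * O) + 2 * C * (t * G) := by
      have h2 := mul_le_mul_of_nonneg_left hh ht0.le
      have h3 : t * (C * S * (J + B2 + Gb + t * O) + 2 * C * G) =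
          C * ((t * S) * (J + B2 + Gb + t * O)) + 2 * C * (t * G) := by ring
      rw [h3, hts, one_mul] at h2
      exact h2
    have h2 : 0 ≤ t * F := by positivity
    have h3 : 1 / (1000 * C ^ 2) ≤ 1 / (8 * C) := by
      refine one_div_le_one_div_of_le (by positivity) ?_
      linarith only [ht0, hC2, hCC, ht1]
    calc 1 / (1000 * C ^ 2) * t * F = 1 / (1000 * C ^ 2) * (t * F) := by ring
      _ ≤ 1 / (8 * C) * (t * F) := mul_le_mul_of_nonneg_right h3 h2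
      _ ≤ 1 / (8 * C) * (C * (J + B2 + Gb + t * O) + 2 * C * (t * G)) :=
          mul_le_mul_of_nonneg_left h1 (by positivity)
      _ = 1 / 8 * (J + B2 + Gb + t * O) + 1 / 4 * (t * G) := by
          field_simp
          ring
      _ ≤ 1 / 8 * (J + B2 + Gb + t * O) + G := by
          have : t * G ≤ 1 / 20 * G := mul_le_mul_of_nonneg_right ht1 hG
          linarith only [hG, this]
  have m1 : C * (ε ^ 2 * S * O + K ^ 2 * G) = C * (ε ^ 2 * S * O) + C * (K ^ 2 * G) := by ring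
  have m2 : C * (ε ^ 2 * S * O + (1 + K) * G + ε ^ 2 * L * K) =
      C * (ε ^ 2 * S * O) + (C * G + C * (K * G)) + C * (ε ^ 2 * L * K) := by ring
  rw [m1] at ha
  rw [m2] at hc
  have n1 : 0 ≤ C ^ 2 * (K ^ 2 * G) := by positivity
  have n2 : 0 ≤ C ^ 2 * (L * K) := by positivity
  have n3 : 1000 * C ^ 2 * (K ^ 2 * G + L * K) = 1000 * (C ^ 2 * (K ^ 2 * G)) + 1000 * (C ^ 2 * (L * K)) := by ring
  rw [n3]
  linarith

theorem co_rate (h1a : P1a) (h1b : P1b) (h1c : P1c) (h1g : P1g) (h1h : P1h) : ∃ C : ℝ, 1 ≤ C ∧ ∀ (ε K κ L a : ℝ) (v : E3 → E3), Sl ε K κ v → C * K ≤ L → C * (ε * Sc κ) ≤ 1 →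
    RJ L a v / 2 + RB (1 / Sc κ) L a v / 2 + (1 / Sc κ) * (RO L a v / 2) ≤
      - (1 / (C * Sc κ)) * FF (1 / Sc κ) (1 / Sc κ) L a v - (1 / (8 * Sc κ)) * DO L a v +
        C * (K ^ 2 * GG L a v + L * K) := by
  obtain ⟨Ca, hCa, Ha⟩ := h1a
  obtain ⟨Cb, hCb, Hb⟩ := h1b
  obtain ⟨Cc, hCc, Hc⟩ := h1c
  obtain ⟨Cg, hCg, Hg⟩ := h1g
  obtain ⟨Ch, hCh, Hh⟩ := h1h
  obtain ⟨C, hCdef⟩ : ∃ C, C = Ca + Cb + Cc + Cg + Ch := ⟨_, rfl⟩
  have hC : 1 ≤ C := by linarith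
  have hC2 : 1 ≤ C ^ 2 := one_le_pow₀ hC
  have hCC : C ≤ 1000 * C ^ 2 := by nlinarith only [hCa, hCb, hCc, hCg, hCh, hCdef, hC2]
  refine ⟨1000 * C ^ 2, by linarith, ?_⟩
  intro ε K κ L a v hv hL hp
  have hS := sc_ge hv.k1
  obtain ⟨S, hSdef⟩ : ∃ S, S = Sc κ := ⟨_, rfl⟩
  have hε := hv.e0
  have hε1 := hv.e1
  have hK := hv.K2
  have hK0 : (0 : ℝ) ≤ K := by linarith
  have hL' : ∀ D : ℝ, D ≤ C → D * K ≤ L := fun D hD =>
    (mul_le_mul_of_nonneg_right (hD.trans hCC) hK0).trans hL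
  have hL1 : ∀ D : ℝ, 1 ≤ D → D ≤ C → D ≤ L := fun D hD1 hD => by
    have := hL' D hD
    nlinarith only [hC2, hCC, hL, hK, hD]
  have hL0 : 0 ≤ L := by linarith [hL1 C hC le_rfl]
  have hS' : 20 ≤ S := by rw [hSdef]; exact hS
  have hS0 : 0 < S := by linarith
  have ht0 : 0 < 1 / S := by positivity
  have hts : 1 / S * S = 1 := by field_simp
  have ht1 : 1 / S ≤ 1 := by
    rw [div_le_one hS0]; linarith
  have hεS : ε ^ 2 * S ≤ 1 := by
    have h1 : ε * S ≤ 1 := by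
      have : 1 * (ε * S) ≤ 1000 * C ^ 2 * (ε * S) :=
        mul_le_mul_of_nonneg_right (by linarith) (by positivity)
      rw [← hSdef] at hp
      linarith
    have : ε ^ 2 * S = ε * (ε * S) := by ring
    rw [this]
    nlinarith only [mul_pos hε hS0, hS, hSdef, hε, h1]
  have hJ := DJ_nn L a v
  have hO := DO_nn L a v
  have hG := GG_nn L a v
  have hB := DB2_nn (θ := 1 / Sc κ) (by rw [← hSdef]; exact ht0) L a v
  have hGb := GB_nn (θ := 1 / Sc κ) (by rw [← hSdef]; exact ht0) (by rw [← hSdef]; exact ht1) L a v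
  have hF : 0 ≤ FF (1 / Sc κ) (1 / Sc κ) L a v := by
    unfold FF
    have h1 := NJ_nn L a v
    have h2 := BB_nn (θ := 1 / Sc κ) (by rw [← hSdef]; exact ht0) L a v
    have h3 := NO_nn L a v
    have h4 : 0 ≤ 1 / Sc κ * NO L a v := mul_nonneg (by rw [← hSdef]; exact ht0.le) h3
    linarith
  have ha := Ha ε K κ L a v hv (hL' Ca (by linarith)) (by rw [← hSdef]; exact hεS)
  have hb := Hb ε K κ L a (1 / (8 * C)) v hv (hL' Cb (by linarith)) (by positivity)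
  have hc := Hc ε K κ L a v hv (hL' Cc (by linarith)) (by rw [← hSdef]; exact hεS)
  have hg := Hg ε K κ L a v hv (hL1 Cg hCg (by linarith only [hCa, hCb, hCc, hCh, hCdef]))
  have hh := Hh ε K κ L a (1 / Sc κ) v hv (hL1 Ch hCh (by linarith)) (by rw [← hSdef]; exact ht0.le)
  rw [← hSdef] at hp ha hb hc hg hh hB hGb hF ⊢
  have hLK : 0 ≤ L * K := by positivity
  have hY : 0 ≤ S * GB (1 / S) L a v + DJ L a v / S := by positivity
  have key := Co2_alg (C := C) (S := S) (t := 1 / S) (ε := ε) (K := K) (L := L) (J := DJ L a v) (O := DO L a v)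
    (G := GG L a v) (B2 := DB2 (1 / S) L a v) (Gb := GB (1 / S) L a v) (Y := YY κ L a v)
    (F := FF (1 / S) (1 / S) L a v) (rj := RJ L a v / 2) (rb := RB (1 / S) L a v / 2) (ro := RO L a v / 2)
    hC hS' hts ht0 hε hε1 hK hLK hp hJ hO hG hB hGb hF ?_ ?_ ?_ ?_ ?_
  · refine key.trans (le_of_eq ?_)
    have e1 : 1 / (1000 * C ^ 2 * S) = 1 / (1000 * C ^ 2) * (1 / S) := by
      rw [one_div_mul_one_div]
    have e2 : 1 / (8 * S) = 1 / 8 * (1 / S) := by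
      rw [one_div_mul_one_div]
    rw [e1, e2]
  · refine ha.trans ?_
    have : 0 ≤ ε ^ 2 * S * DO L a v + K ^ 2 * GG L a v := by positivity
    have := mul_le_mul_of_nonneg_right (show Ca ≤ C by linarith only [hCb, hCc, hCg, hCh, hCdef]) this
    linarith only [this]
  · refine hb.trans ?_
    have h1 : Cb * ε ^ 2 / (1 / (8 * C)) = 8 * (C * Cb) * ε ^ 2 := by
      field_simp
    have h2 : 8 * (C * Cb) * ε ^ 2 ≤ 8 * C ^ 2 * ε ^ 2 := by
      have : C * Cb ≤ C ^ 2 := by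
        rw [pow_two]
        exact mul_le_mul_of_nonneg_left (by linarith only [hCa, hCc, hCg, hCh, hCdef]) (by linarith only [hCa, hCb, hCc, hCg, hCh, hCdef])
      have := mul_le_mul_of_nonneg_right this (sq_nonneg ε)
      linarith only [this]
    have h3 : 0 ≤ S ^ 2 * DO L a v + S * GG L a v := by positivity
    have h4 := mul_le_mul_of_nonneg_right h2 h3
    have h5 : Cb * K ^ 2 * GG L a v ≤ C * K ^ 2 * GG L a v :=
      mul_le_mul_of_nonneg_right (mul_le_mul_of_nonneg_right (by linarith only [hCa, hCc, hCg, hCh, hCdef]) (sq_nonneg K)) hG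
    rw [h1]
    linarith only [h4, h5]
  · refine hc.trans ?_
    have : 0 ≤ ε ^ 2 * S * DO L a v + (1 + K) * GG L a v + ε ^ 2 * L * K := by positivity
    have := mul_le_mul_of_nonneg_right (show Cc ≤ C by linarith only [hCa, hCb, hCg, hCh, hCdef]) this
    linarith only [this]
  · refine hg.trans ?_
    have h1 := mul_le_mul_of_nonneg_right (show Cg ≤ C by linarith only [hCa, hCb, hCc, hCh, hCdef]) hY
    have h2 : DJ L a v / S = DJ L a v * (1 / S) := by rw [div_eq_mul_one_div]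
    rw [h2] at h1 ⊢
    exact h1
  · refine hh.trans ?_
    have h1 : 0 ≤ D3 (1 / S) L a v + 1 / S * DO L a v := by
      unfold D3
      positivity
    have h2 : Ch * S * (D3 (1 / S) L a v + 1 / S * DO L a v) ≤ C * S * (D3 (1 / S) L a v + 1 / S * DO L a v) :=
      mul_le_mul_of_nonneg_right (mul_le_mul_of_nonneg_right (by linarith only [hCa, hCb, hCc, hCg, hCdef]) hS0.le) h1
    have h3 : Ch * (1 + 1 / S) * GG L a v ≤ 2 * C * GG L a v := by
      refine mul_le_mul_of_nonneg_right ?_ hG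
      nlinarith only [hCa, hCb, hCc, hCg, hCh, hCdef, ht1]
    unfold D3 at h2 ⊢
    linarith only [h2, h3]

end Pool.Agent.H94.EP
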