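import Pool.Agent.H94.EP.Defs
import Pool.Agent.H16.TU.Cg

/-!
ROW CoB (MP_09540e_EP). Windows of the local dissipation, from unit balls on the axis.
-/

set_option autoImplicit false

open Set Filter Topology MeasureTheory
open scoped ContDiff

namespace Pool.Agent.H94.EP

open Pool.Agent.H16 Pool.Agent.H87.NS Pool.Agent.H72.CC Pool.Agent.H16.TU

private theorem CoB_ph_nonneg (L a s : ℝ) : 0 ≤ ph L a s := by
  unfold ph
  positivity

private theorem CoB_ph_le_one (L a s : ℝ) : ph L a s ≤ 1 := by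
  unfold ph
  apply inv_le_one_of_one_le₀
  have : 0 ≤ (s - a) ^ 2 / L ^ 2 := by positivity
  linarith

private theorem CoB_ph_cont (L a : ℝ) : Continuous (ph L a) := by
  unfold ph
  refine Continuous.inv₀ (by fun_prop) (fun s => ?_)
  have : 0 ≤ (s - a) ^ 2 / L ^ 2 := by positivity
  linarith

private theorem CoB_ph_two {L : ℝ} (hL : 1 ≤ L) (a x z : ℝ) (h : |x - z| ≤ 1 / 2) :
    ph L a x ≤ 2 * ph L a z := by
  unfold ph
  have hL0 : 0 < L ^ 2 := by positivity
  have h1 : (x - z) ^ 2 ≤ 1 / 4 := by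
    have := sq_le_sq' (by linarith [neg_abs_le (x - z)] : -(1/2) ≤ x - z) ((le_abs_self _).trans h)
    linarith
  have h2 : (z - a) ^ 2 ≤ 2 * (x - a) ^ 2 + 1 / 2 := by nlinarith [sq_nonneg ((z - x) - (x - a))]
  have h3 : (z - a) ^ 2 / L ^ 2 ≤ 2 * ((x - a) ^ 2 / L ^ 2) + 1 / 2 := by
    have h4 : (z - a) ^ 2 / L ^ 2 ≤ (2 * (x - a) ^ 2 + 1 / 2) / L ^ 2 :=
      div_le_div_of_nonneg_right h2 hL0.le
    have h5 : (2 * (x - a) ^ 2 + 1 / 2) / L ^ 2 = 2 * ((x - a) ^ 2 / L ^ 2) + (1 / 2) / L ^ 2 := by ring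
    have h6 : (1 / 2 : ℝ) / L ^ 2 ≤ 1 / 2 := by
      apply div_le_self (by norm_num)
      nlinarith
    linarith
  have hp : 0 < 1 + (x - a) ^ 2 / L ^ 2 := by positivity
  have hq : 0 < 1 + (z - a) ^ 2 / L ^ 2 := by positivity
  rw [← div_eq_mul_inv, inv_eq_one_div, div_le_div_iff₀ hp hq]
  linarith

private noncomputable def CoB_A (L a z : ℝ) : ℝ := L * Real.arctan ((z - a) / L)

private theorem CoB_A_deriv {L : ℝ} (hL : 1 ≤ L) (a z : ℝ) : HasDerivAt (CoB_A L a) (ph L a z) z := by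
  have hL0 : L ≠ 0 := by linarith
  unfold CoB_A
  have h1 : HasDerivAt (fun z : ℝ => (z - a) / L) (1 / L) z := ((hasDerivAt_id z).sub_const a).div_const L
  have h2 := (h1.arctan).const_mul L
  refine h2.congr_deriv ?_
  unfold ph
  field_simp

private theorem CoB_mv {L : ℝ} (hL : 1 ≤ L) (a w : ℝ) :
    ph L a (w + 1 / 4) ≤ 4 * (CoB_A L a (w + 1 / 2) - CoB_A L a w) := by
  obtain ⟨c, hc, hc2⟩ := exists_hasDerivAt_eq_slope (CoB_A L a) (ph L a) (by linarith : w < w + 1 / 2)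
    (fun x _ => (CoB_A_deriv hL a x).continuousAt.continuousWithinAt) (fun x _ => CoB_A_deriv hL a x)
  have h1 : ph L a (w + 1 / 4) ≤ 2 * ph L a c := by
    apply CoB_ph_two hL
    rw [abs_le]
    constructor <;> linarith [hc.1, hc.2]
  rw [hc2] at h1
  have h2 : (w + 1 / 2 - w : ℝ) = 1 / 2 := by ring
  rw [h2] at h1
  linarith

private theorem CoB_A_bd {L : ℝ} (hL : 1 ≤ L) (a z w : ℝ) : CoB_A L a z - CoB_A L a w ≤ 4 * L := by
  unfold CoB_A
  have h1 := (Real.arctan_lt_pi_div_two ((z - a) / L)).le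
  have h2 := (Real.neg_pi_div_two_lt_arctan ((w - a) / L)).le
  have h3 := Real.pi_le_four
  have h4 : Real.arctan ((z - a) / L) - Real.arctan ((w - a) / L) ≤ 4 := by linarith
  nlinarith

/-- the heights of the balls -/
private noncomputable def CoB_z (N i : ℕ) : ℝ := ((i : ℝ) - N) / 2 + 1 / 4

private theorem CoB_sum {L : ℝ} (hL : 1 ≤ L) (a : ℝ) (N : ℕ) :
    ∑ i ∈ Finset.range (2 * N), ph L a (CoB_z N i) ≤ 16 * L := by
  have h1 : ∀ i ∈ Finset.range (2 * N), ph L a (CoB_z N i) ≤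
      4 * (CoB_A L a ((((i + 1 : ℕ) : ℝ) - N) / 2) - CoB_A L a (((i : ℝ) - N) / 2)) := by
    intro i _
    have h2 := CoB_mv hL a (((i : ℝ) - N) / 2)
    have h3 : (((i + 1 : ℕ) : ℝ) - N) / 2 = ((i : ℝ) - N) / 2 + 1 / 2 := by push_cast; ring
    rw [h3]
    exact h2
  refine (Finset.sum_le_sum h1).trans ?_
  rw [← Finset.mul_sum, Finset.sum_range_sub (fun i : ℕ => CoB_A L a (((i : ℝ) - N) / 2))]
  have h4 := CoB_A_bd hL a ((((2 * N : ℕ) : ℝ) - N) / 2) (((0 : ℕ) : ℝ) / 2 - N / 2)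
  have h5 : ((((0 : ℕ) : ℝ) - N) / 2) = (((0 : ℕ) : ℝ) / 2 - N / 2) := by ring
  rw [h5]
  linarith

private theorem CoB_dist {x : E3} {z : ℝ} : ‖x - axp z‖ ^ 2 = rsq x + (x 2 - z) ^ 2 := by
  rw [EuclideanSpace.real_norm_sq_eq, Fin.sum_univ_three]
  unfold rsq axp
  simp

private theorem CoB_mem {x : E3} {z : ℝ} (hx : rsq x < 1 / 2) (hz : |x 2 - z| ≤ 1 / 4) :
    x ∈ Metric.ball (axp z) 1 := by
  rw [mem_ball_iff_norm]
  have h1 : (x 2 - z) ^ 2 ≤ 1 / 16 := by
    have := sq_le_sq' (by linarith [neg_abs_le (x 2 - z)] : -(1/4) ≤ x 2 - z) ((le_abs_self _).trans hz)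
    linarith
  have h2 : ‖x - axp z‖ ^ 2 < 1 := by
    rw [CoB_dist]; linarith
  have h3 := norm_nonneg (x - axp z)
  nlinarith

private theorem CoB_find (N : ℕ) (s : ℝ) (h1 : -((N : ℝ) / 2) ≤ s) (h2 : s < (N : ℝ) / 2) :
    ∃ i ∈ Finset.range (2 * N), |s - CoB_z N i| ≤ 1 / 4 := by
  refine ⟨⌊2 * s + N⌋₊, ?_, ?_⟩
  · rw [Finset.mem_range, Nat.floor_lt (by linarith)]
    push_cast
    linarith
  · have h3 := Nat.floor_le (by linarith : 0 ≤ 2 * s + N)
    have h4 := Nat.lt_floor_add_one (2 * s + N)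
    unfold CoB_z
    rw [abs_le]
    constructor <;> linarith

private theorem CoB_gv_nonneg (v : E3 → E3) (x : E3) : 0 ≤ gv v x := by
  unfold gv gsq
  positivity

private theorem CoB_slice {L a : ℝ} (hL : 1 ≤ L) {v : E3 → E3} (hv : Integrable (gv v)) {M : ℝ}
    (hM : ∫ x, gv v x ≤ M) (N : ℕ) {ε : ℝ} (hε : 0 ≤ ε)
    (hN : ∀ s : ℝ, (s < -((N : ℝ) / 2) ∨ (N : ℝ) / 2 ≤ s) → ph L a s ≤ ε) :
    GG L a v ≤ ∑ i ∈ Finset.range (2 * N), 2 * ph L a (CoB_z N i) *
      (∫ x in Metric.ball (axp (CoB_z N i)) 1, gv v x) + ε * M := by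
  have hS : MeasurableSet {x : E3 | rsq x < 1 / 2} := by
    have hc : Continuous rsq := by
      unfold rsq
      fun_prop
    exact (isOpen_lt hc continuous_const).measurableSet
  unfold GG
  rw [← integral_indicator hS]
  have hF1 : ∀ i ∈ Finset.range (2 * N), Integrable (fun x => 2 * ph L a (CoB_z N i) *
      (Metric.ball (axp (CoB_z N i)) 1).indicator (gv v) x) := by
    intro i _
    exact (hv.indicator measurableSet_ball).const_mul _
  have hF : Integrable (fun x => (∑ i ∈ Finset.range (2 * N), 2 * ph L a (CoB_z N i) *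
      (Metric.ball (axp (CoB_z N i)) 1).indicator (gv v) x) + ε * gv v x) :=
    (integrable_finsetSum _ hF1).add (hv.const_mul ε)
  have hle : ∀ x, {x : E3 | rsq x < 1 / 2}.indicator (fun x => ph L a (x 2) * gv v x) x ≤
      (∑ i ∈ Finset.range (2 * N), 2 * ph L a (CoB_z N i) *
      (Metric.ball (axp (CoB_z N i)) 1).indicator (gv v) x) + ε * gv v x := by
    intro x
    have hg := CoB_gv_nonneg v x
    have hnn : ∀ i ∈ Finset.range (2 * N), 0 ≤ 2 * ph L a (CoB_z N i) *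
        (Metric.ball (axp (CoB_z N i)) 1).indicator (gv v) x := by
      intro i _
      refine mul_nonneg (mul_nonneg (by norm_num) (CoB_ph_nonneg _ _ _)) ?_
      exact indicator_nonneg (fun x _ => CoB_gv_nonneg v x) x
    have hsn := Finset.sum_nonneg hnn
    have hen : 0 ≤ ε * gv v x := mul_nonneg hε hg
    by_cases hx : rsq x < 1 / 2
    · rw [indicator_of_mem (show x ∈ {x : E3 | rsq x < 1 / 2} from hx)]
      by_cases hw : -((N : ℝ) / 2) ≤ x 2 ∧ x 2 < (N : ℝ) / 2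
      · obtain ⟨i, hi, hi2⟩ := CoB_find N (x 2) hw.1 hw.2
        have h1 := Finset.single_le_sum hnn hi
        rw [indicator_of_mem (CoB_mem hx hi2)] at h1
        have h2 := CoB_ph_two hL a (x 2) (CoB_z N i) (by linarith)
        have h3 := mul_le_mul_of_nonneg_right h2 hg
        linarith
      · have h4 : ph L a (x 2) ≤ ε := by
          apply hN
          by_contra hcon
          push Not at hcon
          exact hw ⟨hcon.1, hcon.2⟩
        have h5 := mul_le_mul_of_nonneg_right h4 hg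
        linarith
    · rw [indicator_of_notMem (show x ∉ {x : E3 | rsq x < 1 / 2} from hx)]
      linarith
  have h0 : ∀ x, 0 ≤ {x : E3 | rsq x < 1 / 2}.indicator (fun x => ph L a (x 2) * gv v x) x := by
    intro x
    exact indicator_nonneg (fun x _ => mul_nonneg (CoB_ph_nonneg _ _ _) (CoB_gv_nonneg v x)) x
  refine (integral_mono_of_nonneg (Eventually.of_forall h0) hF (Eventually.of_forall hle)).trans ?_
  rw [integral_add (integrable_finsetSum _ hF1) (hv.const_mul ε), integral_finsetSum _ hF1,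
    integral_const_mul]
  have h6 : ∀ i ∈ Finset.range (2 * N), ∫ x, 2 * ph L a (CoB_z N i) *
      (Metric.ball (axp (CoB_z N i)) 1).indicator (gv v) x = 2 * ph L a (CoB_z N i) *
      (∫ x in Metric.ball (axp (CoB_z N i)) 1, gv v x) := by
    intro i _
    rw [integral_const_mul, integral_indicator measurableSet_ball]
  rw [Finset.sum_congr rfl h6]
  have h7 := mul_le_mul_of_nonneg_left hM hε
  linarith

private theorem CoB_BC {T : ℝ} {u : ℝ → E3 → E3} {p : ℝ → E3 → ℝ} (h : IsHInfAxisymNS T u p) :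
    Cg_BC T (fun t => gv (u t)) := by
  have h1 : ∀ j : Fin 3, Cg_BC T (fun t x => ∑ i : Fin 3, (pd i (fun y => u t y j) x) ^ 2) := fun j =>
    Cg_sum fun i => Cg_comp (Cg_pu h i j) (H := fun s : ℝ => s ^ 2) (by fun_prop)
  exact Cg_sum h1

private theorem CoB_int {T : ℝ} {u : ℝ → E3 → E3} {p : ℝ → E3 → ℝ} (h : IsHInfAxisymNS T u p) {b : ℝ}
    (hb : b < T) : ∃ M : ℝ, 0 ≤ M ∧ ∀ t ∈ Icc 0 b, Integrable (gv (u t)) ∧ ∫ x, gv (u t) x ≤ M := by
  obtain ⟨K, hK⟩ := uDB h hb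
  refine ⟨|3 * K + 3 * K + 3 * K|, abs_nonneg _, fun t ht => ?_⟩
  have h1 := fun j : Fin 3 => gsq_int (DB_mono (hK t ht j) (m := 1) (by norm_num) le_rfl)
  have h2 : gv (u t) = fun x => gsq (fun y => u t y 0) x + gsq (fun y => u t y 1) x +
      gsq (fun y => u t y 2) x := by
    funext x
    unfold gv
    rw [Fin.sum_univ_three]
  rw [h2]
  have h01 : Integrable (fun x => gsq (fun y => u t y 0) x + gsq (fun y => u t y 1) x) :=
    (h1 0).1.add (h1 1).1
  refine ⟨h01.add (h1 2).1, ?_⟩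
  rw [integral_add h01 (h1 2).1, integral_add (h1 0).1 (h1 1).1]
  exact (add_le_add (add_le_add (h1 0).2 (h1 1).2) (h1 2).2).trans (le_abs_self _)

private theorem CoB_comp {T : ℝ} {F : ℝ → E3 → ℝ} (hF : JC T F) {s t : ℝ} {x : E3}
    (h1 : ContinuousOn (fun r : ℝ => ((r, x) : ℝ × E3)) (Icc s t))
    (h2 : ∀ r ∈ Icc s t, ((r, x) : ℝ × E3) ∈ Ico 0 T ×ˢ (univ : Set E3)) :
    ContinuousOn (fun r => F r x) (Icc s t) :=
  ContinuousOn.comp (g := fun q : ℝ × E3 => F q.1 q.2) hF h1 h2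

private theorem CoB_ball {T : ℝ} {u : ℝ → E3 → E3} {p : ℝ → E3 → ℝ} (h : IsHInfAxisymNS T u p) {s t : ℝ}
    (hs : 0 ≤ s) (hst : s ≤ t) (ht : t < T) (z : ℝ) :
    IntervalIntegrable (fun r => ∫ x in Metric.ball (axp z) 1, gv (u r) x) volume s t := by
  obtain ⟨hJ, hB⟩ := CoB_BC h
  obtain ⟨K, hK⟩ := hB t ht
  have hc : ContinuousOn (fun r => ∫ x in Metric.ball (axp z) 1, gv (u r) x) (Icc s t) := by
    refine continuousOn_of_dominated (F := fun r x => gv (u r) x) (bound := fun _ => K) ?_ ?_ ?_ ?_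
    · intro r hr
      exact (Cg_slice hJ ⟨hs.trans hr.1, lt_of_le_of_lt hr.2 ht⟩).aestronglyMeasurable
    · intro r hr
      exact ae_of_all _ fun x => hK r ⟨hs.trans hr.1, hr.2⟩ x
    · have hfin : IsFiniteMeasure ((volume : Measure E3).restrict (Metric.ball (axp z) 1)) :=
        ⟨by rw [Measure.restrict_apply_univ]; exact measure_ball_lt_top⟩
      exact integrable_const K
    · refine ae_of_all _ fun x => ?_
      have h1 : ContinuousOn (fun r : ℝ => ((r, x) : ℝ × E3)) (Icc s t) := by fun_prop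
      exact CoB_comp (F := fun r => gv (u r)) hJ h1 (fun r hr => ⟨⟨hs.trans hr.1, lt_of_le_of_lt hr.2 ht⟩, mem_univ _⟩)
  exact hc.intervalIntegrable_of_Icc hst

private theorem CoB_tail {L : ℝ} (hL : 1 ≤ L) (a : ℝ) {ε : ℝ} (hε : 0 < ε) :
    ∃ N : ℕ, ∀ s : ℝ, (s < -((N : ℝ) / 2) ∨ (N : ℝ) / 2 ≤ s) → ph L a s ≤ ε := by
  obtain ⟨N, hN⟩ := exists_nat_ge (2 * (|a| + L ^ 2 / ε + 1))
  refine ⟨N, fun s hs => ?_⟩
  have hL2 : 1 ≤ L ^ 2 := by nlinarith
  have hq : 0 ≤ L ^ 2 / ε := by positivity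
  have h1 : L ^ 2 / ε + 1 ≤ |s - a| := by
    rcases hs with h | h
    · have h2 := neg_abs_le a
      have h3 := neg_abs_le (s - a)
      have h4 := neg_le_abs (s - a)
      linarith
    · have h2 := le_abs_self a
      have h4 := le_abs_self (s - a)
      linarith
  have h5 : L ^ 2 / ε ≤ (s - a) ^ 2 := by
    rw [← sq_abs (s - a)]
    nlinarith
  have h6 : 1 / ε ≤ (s - a) ^ 2 / L ^ 2 := by
    rw [le_div_iff₀ (by positivity)]
    calc 1 / ε * L ^ 2 = L ^ 2 / ε := by ring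
      _ ≤ _ := h5
  unfold ph
  have h7 : 1 / ε ≤ 1 + (s - a) ^ 2 / L ^ 2 := by linarith
  calc (1 + (s - a) ^ 2 / L ^ 2)⁻¹ ≤ (1 / ε)⁻¹ := inv_anti₀ (by positivity) h7
    _ = ε := by rw [one_div, inv_inv]

theorem gg_win : ∃ C : ℝ, 1 ≤ C ∧ ∀ (T : ℝ) (u : ℝ → E3 → E3) (p : ℝ → E3 → ℝ), IsHInfAxisymNS T u p → ∀ K L a s t : ℝ, 1 ≤ L →
    0 ≤ s → s ≤ t → t < T → (∀ z, ∫ r in s..t, ∫ x in Metric.ball (axp z) 1, gv (u r) x ≤ K) →
    ∫ r in s..t, GG L a (u r) ≤ C * (L * K) := by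
  refine ⟨32, by norm_num, ?_⟩
  intro T u p h K L a s t hL hs hst ht hK
  have hK0 : 0 ≤ K := by
    refine le_trans ?_ (hK 0)
    exact intervalIntegral.integral_nonneg hst fun r _ => integral_nonneg fun x => CoB_gv_nonneg _ x
  have hL0 : 0 ≤ L := by linarith
  by_cases hI : IntervalIntegrable (fun r => GG L a (u r)) volume s t
  swap
  · rw [intervalIntegral.integral_undef hI]
    positivity
  obtain ⟨M, hM0, hM⟩ := CoB_int h ht
  refine le_of_forall_pos_le_add fun δ hδ => ?_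
  have hd : 0 < (t - s) * M + 1 := by
    have : 0 ≤ (t - s) * M := mul_nonneg (by linarith) hM0
    linarith
  obtain ⟨N, hN⟩ := CoB_tail hL a (div_pos hδ hd)
  set ε : ℝ := δ / ((t - s) * M + 1) with hεdef
  have hε : 0 ≤ ε := (div_pos hδ hd).le
  have hgi : ∀ i ∈ Finset.range (2 * N), IntervalIntegrable (fun r => 2 * ph L a (CoB_z N i) *
      (∫ x in Metric.ball (axp (CoB_z N i)) 1, gv (u r) x)) volume s t := fun i _ =>
    (CoB_ball h hs hst ht _).const_mul _
  have hsum : IntervalIntegrable (fun r => ∑ i ∈ Finset.range (2 * N), 2 * ph L a (CoB_z N i) *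
      (∫ x in Metric.ball (axp (CoB_z N i)) 1, gv (u r) x)) volume s t := by
    have h1 := IntervalIntegrable.sum (Finset.range (2 * N)) hgi
    refine h1.congr (fun r _ => ?_)
    simp only [Finset.sum_apply]
  have hmono : ∫ r in s..t, GG L a (u r) ≤ ∫ r in s..t, (∑ i ∈ Finset.range (2 * N), 2 * ph L a (CoB_z N i) *
      (∫ x in Metric.ball (axp (CoB_z N i)) 1, gv (u r) x)) + ε * M := by
    refine intervalIntegral.integral_mono_on hst hI (hsum.add intervalIntegrable_const) fun r hr => ?_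
    have hr' : r ∈ Icc 0 t := ⟨hs.trans hr.1, hr.2⟩
    exact CoB_slice hL (hM r hr').1 (hM r hr').2 N hε hN
  refine hmono.trans ?_
  rw [intervalIntegral.integral_add hsum intervalIntegrable_const, intervalIntegral.integral_finsetSum hgi,
    intervalIntegral.integral_const]
  have h2 : ∀ i ∈ Finset.range (2 * N), ∫ r in s..t, 2 * ph L a (CoB_z N i) *
      (∫ x in Metric.ball (axp (CoB_z N i)) 1, gv (u r) x) ≤ ph L a (CoB_z N i) * (2 * K) := by
    intro i _
    rw [intervalIntegral.integral_const_mul]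
    have h3 := mul_le_mul_of_nonneg_left (hK (CoB_z N i)) (CoB_ph_nonneg L a (CoB_z N i))
    linarith
  have h4 := Finset.sum_le_sum h2
  rw [← Finset.sum_mul] at h4
  have h5 := mul_le_mul_of_nonneg_right (CoB_sum hL a N) (by positivity : 0 ≤ 2 * K)
  have h6 : (t - s) • (ε * M) ≤ δ := by
    rw [smul_eq_mul]
    have h7 : ε * ((t - s) * M + 1) = δ := by
      rw [hεdef]; field_simp
    nlinarith
  linarith

end Pool.Agent.H94.EP
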