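import Pool.Agent.H94.EP.DyI
import Pool.Agent.H94.EP.DyB
import Pool.Agent.H94.EP.DyX
import Pool.Agent.H87.NS.VEq

/-
ROW DyL (MP_09540e_EP). `V = sV (u t)` is bounded and Lipschitz in time. Aux lemmas prefixed DyL_ . PROOF. `b < T`, `bds h hb 2` gives K.
`rdr_bd`: for smooth rotation invariant `f` with all second derivatives bounded by K: `|rdr f x| ≤ 4 K * rsq x`. By `ang`, `pd 0 f` and `pd 1 f` vanish on the axis [at a point `y` of the axis `hor`/`ang` give nothing, argue by differentiating `ang`: apply `pd 0` to `x 0 * pd 1 f x - x 1 * pd 0 f x = 0`: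
  at the axis `pd 1 f y = 0`; apply `pd 1`: `- pd 0 f y = 0`]. With `y = sq 0 x` (same `x 2`, on the axis), mean value inequality on the segment from `y` to `x`: `|pd i f x| ≤ 2 K * √(rsq x)` for `i = 0, 1` (the derivative of `τ ↦ pd i f (sq τ x)` is
  `x 0 * pd 0 (pd i f) + x 1 * pd 1 (pd i f)`, bounded by `K (|x 0| + |x 1|) ≤ 2 K √(rsq x)`), so `|rdr f x| ≤ (|x 0| + |x 1|) * 2 K √(rsq x) ≤ 4 K rsq x` (EVe_x0, EVe_x1 style: |x i| ≤ √(rsq x)).
`v_lip`: off the axis and for `t ∈ Ioo 0 T`, `t ≤ b`: `deriv (fun s => sV (u s) x) t = - adv (u t x) V x + lap V x + 2 / rsq x * rdr V x - 2 * W * V` (V_eq), `≤ 3 K² + 3 K + 8 K + 2 K²` in absolute value (rdr_bd with sV_rot). `t ↦ sV (u t) x` is continuous on `Icc 0 b` (jcV) and differentiable on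
  `Ioo 0 T` off the axis (comm_loc, jointV): mean value inequality (image_norm_le_of_norm_deriv_right_le_deriv_boundary or Convex.norm_image_sub_le_of_norm_deriv_le on the interior + continuity; or exists_deriv_eq_slope) gives the Lipschitz bound for `x` off the axis; on the axis
  take the limit: `x_n = x + (1/n) • e 0` has `rsq x_n > 0`, `sV (u t)` is continuous (le_of_tendsto). `B = max` of all constants.
-/

set_option autoImplicit false

open Set Filter Topology MeasureTheory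
open scoped ContDiff

namespace Pool.Agent.H37.EP

open Pool.Agent.H16 Pool.Agent.H87.NS Pool.Agent.H72.CC Pool.Agent.H16.TU Pool.Agent.H94.EP

private theorem DyL_axis {f : E3 → ℝ} (hf : ContDiff ℝ ∞ f) (hr : ∀ θ x, f (rot θ x) = f x) {y : E3}
    (h0 : y 0 = 0) (h1 : y 1 = 0) (i : Fin 3) (hi : i ≠ 2) : pd i f y = 0 := by
  have key : ∀ c : ℝ, HasDerivAt (fun s : ℝ => f (y + (c * s) • e i)) (c * pd i f y) 0 := by
    intro c
    have hd : HasDerivAt (fun s : ℝ => y + (c * s) • e i) (c • e i) 0 := by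
      have h2 : HasDerivAt (fun s : ℝ => c * s) c 0 := by
        simpa using (hasDerivAt_id (0:ℝ)).const_mul c
      exact (h2.smul_const (e i)).const_add y
    have h3 := ((hf.differentiable (by simp)) (y + (c * (0:ℝ)) • e i)).hasFDerivAt.comp_hasDerivAt (0:ℝ) hd
    have h4 : y + (c * (0:ℝ)) • e i = y := by simp
    rw [h4, map_smul] at h3
    exact h3
  have hs : (fun s : ℝ => f (y + ((1:ℝ) * s) • e i)) = fun s : ℝ => f (y + ((-1:ℝ) * s) • e i) := by
    funext s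
    rw [← hr Real.pi (y + ((1:ℝ) * s) • e i)]
    congr 1
    fin_cases i
    · apply ext3 <;> simp [e_apply, h0, h1]
    · apply ext3 <;> simp [e_apply, h0, h1]
    · exact absurd rfl hi
  have h5 := key 1
  rw [hs] at h5
  have h6 := h5.unique (key (-1))
  linarith

private theorem DyL_ray {g : E3 → ℝ} (hg : ContDiff ℝ ∞ g) {K : ℝ} (hK : ∀ j x, |pd j g x| ≤ K) (x : E3)
    (h0 : g (sq 0 x) = 0) : |g x| ≤ 2 * K * √(rsq x) := by
  have hK0 : 0 ≤ K := (abs_nonneg _).trans (hK 0 x)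
  have hd : ∀ τ : ℝ, HasDerivAt (fun s : ℝ => sq s x) (x 0 • e 0 + x 1 • e 1) τ := by
    intro τ
    apply hasDerivAt_e3
    intro i
    fin_cases i
    · have h2 : HasDerivAt (fun s : ℝ => s * x 0) (1 * x 0) τ := (hasDerivAt_id τ).mul_const (x 0)
      refine h2.congr_deriv ?_
      simp [e_apply]
    · have h2 : HasDerivAt (fun s : ℝ => s * x 1) (1 * x 1) τ := (hasDerivAt_id τ).mul_const (x 1)
      refine h2.congr_deriv ?_
      simp [e_apply]
    · have h2 : HasDerivAt (fun _ : ℝ => x 2) 0 τ := hasDerivAt_const τ (x 2)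
      refine h2.congr_deriv ?_
      simp [e_apply]
  have h1 : ∀ τ : ℝ, HasDerivAt (fun s : ℝ => g (sq s x)) (x 0 * pd 0 g (sq τ x) + x 1 * pd 1 g (sq τ x)) τ := by
    intro τ
    have h2 := ((hg.differentiable (by simp)) (sq τ x)).hasFDerivAt.comp_hasDerivAt τ (hd τ)
    refine h2.congr_deriv ?_
    rw [map_add, map_smul, map_smul]
    rfl
  have h3 : ‖g (sq 1 x) - g (sq 0 x)‖ ≤ 2 * K * √(rsq x) * ‖(1:ℝ) - 0‖ := by
    refine Convex.norm_image_sub_le_of_norm_hasDerivWithin_le (f := fun s : ℝ => g (sq s x)) (s := univ)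
      (fun τ _ => (h1 τ).hasDerivWithinAt) (fun τ _ => ?_) convex_univ (mem_univ _) (mem_univ _)
    rw [Real.norm_eq_abs]
    refine (abs_add_le _ _).trans ?_
    rw [abs_mul, abs_mul]
    have a0 := mul_le_mul (EVe_x0 x) (hK 0 (sq τ x)) (abs_nonneg _) (Real.sqrt_nonneg _)
    have a1 := mul_le_mul (EVe_x1 x) (hK 1 (sq τ x)) (abs_nonneg _) (Real.sqrt_nonneg _)
    linarith
  have h4 : sq 1 x = x := by
    apply ext3
    · show 1 * x 0 = x 0
      ring
    · show 1 * x 1 = x 1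
      ring
    · rfl
  rw [h4, h0, sub_zero, sub_zero, norm_one, mul_one, Real.norm_eq_abs] at h3
  exact h3

theorem rdr_bd {f : E3 → ℝ} (hf : ContDiff ℝ ∞ f) (hr : ∀ θ x, f (rot θ x) = f x) {K : ℝ} (hK : ∀ i j x, |pd i (pd j f) x| ≤ K) (x : E3) :
    |rdr f x| ≤ 4 * K * rsq x := by
  have h0 : (sq 0 x) 0 = 0 := by
    show (0:ℝ) * x 0 = 0
    ring
  have h1 : (sq 0 x) 1 = 0 := by
    show (0:ℝ) * x 1 = 0
    ring
  have a0 := DyL_ray (pd_smooth hf 0) (fun j y => hK j 0 y) x (DyL_axis hf hr h0 h1 0 (by decide))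
  have a1 := DyL_ray (pd_smooth hf 1) (fun j y => hK j 1 y) x (DyL_axis hf hr h0 h1 1 (by decide))
  have b0 := mul_le_mul (EVe_x0 x) a0 (abs_nonneg _) (Real.sqrt_nonneg _)
  have b1 := mul_le_mul (EVe_x1 x) a1 (abs_nonneg _) (Real.sqrt_nonneg _)
  have hs : √(rsq x) * √(rsq x) = rsq x := Real.mul_self_sqrt (EVe_rsq_nonneg x)
  unfold rdr
  refine (abs_add_le _ _).trans ?_
  rw [abs_mul, abs_mul]
  have c0 : √(rsq x) * (2 * K * √(rsq x)) = 2 * K * rsq x := by
    linear_combination 2 * K * hs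
  rw [c0] at b0 b1
  linarith

variable {T : ℝ} {u : ℝ → E3 → E3} {p : ℝ → E3 → ℝ}

private theorem DyL_off (h : IsHInfAxisymNS T u p) {b K : ℝ} (hb : b < T) (hK0 : 0 ≤ K)
    (hV : ∀ t ∈ Icc 0 b, DB 2 K (sV (u t))) (hW : ∀ t ∈ Icc 0 b, DB 2 K (sW (u t)))
    (hu : ∀ t ∈ Icc 0 b, ∀ j : Fin 3, DB 2 K (fun x => u t x j)) {x : E3} (hx : 0 < rsq x) {t : ℝ}
    (ht : t ∈ Ioc 0 b) : DifferentiableAt ℝ (fun s => sV (u s) x) t ∧
      |deriv (fun s => sV (u s) x) t| ≤ 5 * K ^ 2 + 12 * K := by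
  have htT : t ∈ Ioo 0 T := ⟨ht.1, ht.2.trans_lt hb⟩
  have htI : t ∈ Icc 0 b := ⟨ht.1.le, ht.2⟩
  have htC : t ∈ Ico 0 T := ⟨ht.1.le, ht.2.trans_lt hb⟩
  refine ⟨(comm_loc (f := fun t => sV (u t)) (jointV h.ns) htT hx 0).1, ?_⟩
  have heq := V_eq h.ns htT x hx
  have hv := hV t htI
  have a1 : |sV (u t) x| ≤ K := hv.1.1 x
  have a2 : |sW (u t) x| ≤ K := (hW t htI).1.1 x
  have a3 : ∀ j, |u t x j| ≤ K := fun j => (hu t htI j).1.1 x
  have a4 : ∀ i, |pd i (sV (u t)) x| ≤ K := fun i => (hv.2 i).1.1 x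
  have a5 : ∀ i j y, |pd i (pd j (sV (u t))) y| ≤ K := fun i j y => ((hv.2 j).2 i).1 y
  have b1 : |adv (u t x) (sV (u t)) x| ≤ 3 * (K * K) := EVe_sum3 (fun i => u t x i) (fun i => pd i (sV (u t)) x) hK0 a3 a4
  have b2 : |lap (sV (u t)) x| ≤ 3 * K := by
    have h1 : lap (sV (u t)) x = ∑ i : Fin 3, (1:ℝ) * pd i (pd i (sV (u t))) x := by
      simp [lap]
    rw [h1]
    have h2 := EVe_sum3 (fun _ => (1:ℝ)) (fun i => pd i (pd i (sV (u t))) x) (K := 1) (P := K) (by norm_num)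
      (fun _ => by simp) (fun i => a5 i i x)
    simpa using h2
  have b3 : |2 / rsq x * rdr (sV (u t)) x| ≤ 8 * K := by
    have h1 := rdr_bd (svw_smooth h.ns htC).1 (sV_rot (axF_of h.ns htC)) a5 x
    rw [abs_mul, abs_of_pos (by positivity : 0 < 2 / rsq x)]
    have h2 := mul_le_mul_of_nonneg_left h1 (by positivity : 0 ≤ 2 / rsq x)
    have h3 : 2 / rsq x * (4 * K * rsq x) = 8 * K := by
      field_simp
      ring
    linarith
  have b4 : |-2 * sW (u t) x * sV (u t) x| ≤ 2 * (K * K) := by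
    have h1 := mul_le_mul a2 a1 (abs_nonneg _) hK0
    rw [abs_mul, abs_mul, abs_neg, abs_two]
    linarith
  have c1 := abs_le.1 b1
  have c2 := abs_le.1 b2
  have c3 := abs_le.1 b3
  have c4 := abs_le.1 b4
  rw [abs_le]
  constructor
  · linarith only [c1.1, c1.2, c2.1, c2.2, c3.1, c3.2, c4.1, c4.2, hK0, heq]
  · linarith only [c1.1, c1.2, c2.1, c2.2, c3.1, c3.2, c4.1, c4.2, hK0, heq]

private theorem DyL_mv {g : ℝ → ℝ} {b B : ℝ} (hc : ContinuousOn g (Icc 0 b))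
    (hd : ∀ t ∈ Ioc 0 b, DifferentiableAt ℝ g t ∧ |deriv g t| ≤ B) {s t : ℝ} (hs : s ∈ Icc 0 b) (ht : t ∈ Icc 0 b)
    (hst : s < t) : |g t - g s| ≤ B * (t - s) := by
  have hsub : Icc s t ⊆ Icc 0 b := Icc_subset_Icc hs.1 ht.2
  obtain ⟨c, hc1, hc2⟩ := exists_deriv_eq_slope g hst (hc.mono hsub)
    (fun r hr => (hd r ⟨hs.1.trans_lt hr.1, hr.2.le.trans ht.2⟩).1.differentiableWithinAt)
  have h1 := (hd c ⟨hs.1.trans_lt hc1.1, hc1.2.le.trans ht.2⟩).2
  have h2 : 0 < t - s := by linarith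
  rw [hc2, abs_div, abs_of_pos h2, div_le_iff₀ h2] at h1
  exact h1

theorem v_lip (h : IsHInfAxisymNS T u p) {b : ℝ} (hb : b < T) :
    ∃ B : ℝ, 0 ≤ B ∧ (∀ t ∈ Icc 0 b, ∀ x, |sV (u t) x| ≤ B) ∧
      ∀ s ∈ Icc 0 b, ∀ t ∈ Icc 0 b, ∀ x, |sV (u t) x - sV (u s) x| ≤ B * |t - s| := by
  obtain ⟨K, hK0, hK⟩ := bds h hb 2
  refine ⟨5 * K ^ 2 + 12 * K, by positivity, ?_, ?_⟩
  · intro t ht x
    have h1 : |sV (u t) x| ≤ K := (hK t ht).1.1.1 x
    nlinarith [sq_nonneg K]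
  · have hoff : ∀ x : E3, 0 < rsq x → ∀ s ∈ Icc 0 b, ∀ t ∈ Icc 0 b,
        |sV (u t) x - sV (u s) x| ≤ (5 * K ^ 2 + 12 * K) * |t - s| := by
      intro x hx s hs t ht
      have hc : ContinuousOn (fun t => sV (u t) x) (Icc 0 b) := EVe_ct (jcV h.ns) hb x
      have hd := fun t (ht : t ∈ Ioc 0 b) => DyL_off h hb hK0 (fun t ht => (hK t ht).1) (fun t ht => (hK t ht).2.1)
        (fun t ht => (hK t ht).2.2.2.1) hx ht
      rcases lt_trichotomy s t with h1 | h1 | h1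
      · have h2 := DyL_mv hc hd hs ht h1
        rw [abs_of_pos (by linarith : 0 < t - s)]
        exact h2
      · rw [h1]
        simp
      · have h2 := DyL_mv hc hd ht hs h1
        rw [abs_sub_comm, abs_sub_comm t s, abs_of_pos (by linarith : 0 < s - t)]
        exact h2
    intro s hs t ht x
    rcases lt_or_ge 0 (rsq x) with hx | hx
    · exact hoff x hx s hs t ht
    · have hx3 : x 0 ^ 2 + x 1 ^ 2 ≤ 0 := hx
      have h0 : x 0 = 0 := by nlinarith only [sq_nonneg (x 0), sq_nonneg (x 1), hx3]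
      have h1 : x 1 = 0 := by nlinarith only [sq_nonneg (x 0), sq_nonneg (x 1), hx3]
      have hV : ∀ r ∈ Icc 0 b, Continuous (sV (u r)) := fun r hr =>
        (svw_smooth h.ns ⟨hr.1, hr.2.trans_lt hb⟩).1.continuous
      have hlim : Tendsto (fun n : ℕ => x + ((1:ℝ) / (n + 1)) • e 0) atTop (𝓝 x) := by
        have h2 := (tendsto_one_div_add_atTop_nhds_zero_nat (𝕜 := ℝ)).smul_const (e 0)
        have h3 := h2.const_add x
        simpa using h3
      have hcont : Continuous (fun y => |sV (u t) y - sV (u s) y|) := ((hV t ht).sub (hV s hs)).abs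
      refine le_of_tendsto ((hcont.tendsto x).comp hlim) (Eventually.of_forall fun n => ?_)
      apply hoff _ _ s hs t ht
      have h4 : rsq (x + ((1:ℝ) / (n + 1)) • e 0) = ((1:ℝ) / (n + 1)) ^ 2 := by
        simp [rsq, e_apply, h0, h1]
      rw [h4]
      positivity

end Pool.Agent.H37.EP
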