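import Pool.Agent.H94.EP.Co7
import Pool.Agent.H94.EP.DyN
import Pool.Agent.H94.EP.DyL
import Pool.Agent.H94.EP.EvP
import Pool.Agent.H42.EP.Ba
import Pool.Agent.H87.EP.G
import Pool.Agent.H90.EP.PA
import Pool.Agent.H88.EP.TwC
import Pool.Agent.H88.EP.TwG
import Pool.Agent.H88.EP.TwU
import Pool.Agent.H88.EP.TwF

/-! The statements of the parts of the proof, and the assembly at scale one. -/

set_option autoImplicit false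

open Set Filter Topology MeasureTheory
open scoped ContDiff

namespace Pool.Agent.H94.EP.Spec

open Pool.Agent.H16 Pool.Agent.H87.NS Pool.Agent.H72.CC Pool.Agent.H16.TU Pool.Agent.H94.EP

/-! ### Static part (fixed time) -/

/-- P1w (helper87): sup bounds near the axis. -/
theorem p1w : ∃ C : ℝ, 1 ≤ C ∧ ∀ (ε K κ L a : ℝ) (v : E3 → E3), Sl ε K κ v → C ≤ L → ∀ x, rsq x ≤ 1 / 4 → |x 2 - a| ≤ L →
    sW v x ^ 2 ≤ C * (DO L a v + GG L a v) ∧ v x 2 ^ 2 ≤ C * (L * K + DO L a v + GG L a v) := Pool.Agent.H87.EP.p1w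

/-- P1a (helper90): the one-point functional of `Z`. -/
theorem p1a : ∃ C : ℝ, 1 ≤ C ∧ ∀ (ε K κ L a : ℝ) (v : E3 → E3), Sl ε K κ v → C * K ≤ L → ε ^ 2 * Sc κ ≤ 1 →
    RJ L a v / 2 ≤ - (1 / 2) * DJ L a v + C * (ε ^ 2 * Sc κ * DO L a v + K ^ 2 * GG L a v) := Pool.Agent.H90.EP.p1a

/-- P1b (helper90): the one-point functional of `O`. -/
theorem p1b : ∃ C : ℝ, 1 ≤ C ∧ ∀ (ε K κ L a μ : ℝ) (v : E3 → E3), Sl ε K κ v → C * K ≤ L → 0 < μ →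
    RO L a v / 2 ≤ - (1 / 2) * DO L a v + μ * (YY κ L a v + DJ L a v + GG L a v) +
      C * ε ^ 2 / μ * (Sc κ ^ 2 * DO L a v + Sc κ * GG L a v) + C * K ^ 2 * GG L a v := Pool.Agent.H90.EP.p1b

/-- P1c (helper88): the two-point functional. -/
theorem p1c : ∃ C : ℝ, 1 ≤ C ∧ ∀ (ε K κ L a : ℝ) (v : E3 → E3), Sl ε K κ v → C * K ≤ L → ε ^ 2 * Sc κ ≤ 1 →
    RB (1 / Sc κ) L a v / 2 ≤ - (1 / 2) * (DB2 (1 / Sc κ) L a v + GB (1 / Sc κ) L a v) + 1 / 16 * DJ L a v +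
      C * (ε ^ 2 * Sc κ * DO L a v + (1 + K) * GG L a v + ε ^ 2 * L * K) := Pool.Agent.H88.EP.p1c

/-- P1g (helper88): the gain controls `∫ Z² / y`. -/
theorem p1g : ∃ C : ℝ, 1 ≤ C ∧ ∀ (ε K κ L a : ℝ) (v : E3 → E3), Sl ε K κ v → C ≤ L →
    YY κ L a v ≤ C * (Sc κ * GB (1 / Sc κ) L a v + DJ L a v / Sc κ) := Pool.Agent.H88.EP.p1g

/-- P1h (helper88): the dissipation controls the functional. -/
theorem p1h : ∃ C : ℝ, 1 ≤ C ∧ ∀ (ε K κ L a l : ℝ) (v : E3 → E3), Sl ε K κ v → C ≤ L → 0 ≤ l →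
    FF (1 / Sc κ) l L a v ≤ C * Sc κ * (D3 (1 / Sc κ) L a v + l * DO L a v) + C * (1 + l) * GG L a v := Pool.Agent.H88.EP.p1h

/-- P1n (helper88): the two-point functional is controlled by the one-point functional. -/
theorem p1n : ∃ C : ℝ, 1 ≤ C ∧ ∀ (κ L a : ℝ) (v : E3 → E3), Vs v → 1 ≤ κ → 1 ≤ L →
    BB (1 / Sc κ) L a v ≤ C * NJ L a v := Pool.Agent.H88.EP.p1n

/-! ### Dynamic part -/

/-- P2c (helper16, helper37): continuity in time. -/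
theorem p2c {T : ℝ} {u : ℝ → E3 → E3} {p : ℝ → E3 → ℝ} (h : IsHInfAxisymNS T u p) {θ l L a : ℝ} (hθ : 0 < θ) (hθ1 : θ ≤ 1 / 2)
    (hL : 1 ≤ L) :
    ContinuousOn (fun t => DJ L a (u t)) (Ico 0 T) ∧ ContinuousOn (fun t => DO L a (u t)) (Ico 0 T) ∧
    ContinuousOn (fun t => GG L a (u t)) (Ico 0 T) ∧ ContinuousOn (fun t => DB2 θ L a (u t)) (Ico 0 T) ∧
    ContinuousOn (fun t => GB θ L a (u t)) (Ico 0 T) ∧ ContinuousOn (fun t => FF θ l L a (u t)) (Ico 0 T) ∧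
    ContinuousOn (fun t => RJ L a (u t)) (Ico 0 T) ∧ ContinuousOn (fun t => RO L a (u t)) (Ico 0 T) ∧
    ContinuousOn (fun t => RB θ L a (u t)) (Ico 0 T) := Pool.Agent.H37.EP.p2c h hθ hθ1 hL

/-- P2 (helper16, helper37): the energy inequality. -/
theorem p2 {T : ℝ} {u : ℝ → E3 → E3} {p : ℝ → E3 → ℝ} (h : IsHInfAxisymNS T u p) {θ l L a : ℝ} (hθ : 0 < θ) (hθ1 : θ ≤ 1 / 2)
    (hL : 1 ≤ L) (hl : 0 ≤ l) {t₁ t₂ : ℝ} (h1 : 0 ≤ t₁) (h12 : t₁ ≤ t₂) (h2 : t₂ < T) :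
    FF θ l L a (u t₂) ≤ FF θ l L a (u t₁) +
      ∫ s in t₁..t₂, (RJ L a (u s) / 2 + RB θ L a (u s) / 2 + l * (RO L a (u s) / 2)) := Pool.Agent.H16.EP.p2 h hθ hθ1 hL hl h1 h12 h2

/-- P2v: slices. -/
theorem vs_of {T : ℝ} {u : ℝ → E3 → E3} {p : ℝ → E3 → ℝ} (h : IsHInfAxisymNS T u p) {t : ℝ} (ht : t ∈ Ico 0 T) : Vs (u t) := Pool.Agent.H37.EP.vs_of h ht

/-- P2l: `V` is Lipschitz in time. -/
theorem v_lip {T : ℝ} {u : ℝ → E3 → E3} {p : ℝ → E3 → ℝ} (h : IsHInfAxisymNS T u p) {b : ℝ} (hb : b < T) :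
    ∃ B : ℝ, 0 ≤ B ∧ (∀ t ∈ Icc 0 b, ∀ x, |sV (u t) x| ≤ B) ∧
      ∀ s ∈ Icc 0 b, ∀ t ∈ Icc 0 b, ∀ x, |sV (u t) x - sV (u s) x| ≤ B * |t - s| := Pool.Agent.H37.EP.v_lip h hb

/-! ### The barrier -/

/-- P3 (helper42). -/
theorem barrier : ∃ C : ℝ, 1 ≤ C ∧ ∀ (T : ℝ) (u : ℝ → E3 → E3) (p : ℝ → E3 → ℝ), IsHInfAxisymNS T u p →
    ∀ ε > 0, ∀ t₀ t₁ : ℝ, 0 ≤ t₀ → t₀ ≤ t₁ → t₁ < T →
    (∀ t ∈ Icc t₀ t₁, ∀ x, rad x < 1 → |circ (u t) x| ≤ ε) →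
    ∀ P : ℝ, 1 ≤ P → (∀ x, rad x < 1 → |sV (u t₀) x| ≤ ε * P) → ∀ (a : ℝ) (q : ℝ → ℝ), ContinuousOn q (Icc t₀ t₁) → (∀ t, 0 ≤ q t) →
    (∀ t ∈ Icc t₀ t₁, ∀ x, rsq x ≤ 1 / 4 → |x 2 - a| ≤ 1 → sW (u t) x ^ 2 ≤ q t ∧ u t x 2 ^ 2 ≤ q t) →
    (∀ s t : ℝ, t₀ ≤ s → s ≤ t → t ≤ t₁ → t ≤ s + 1 → ∫ r in s..t, q r ≤ P) →
    ∀ x, rad x < 1 → x 2 = a → |circ (u t₁) x| ≤ C * ε * √P * rad x := Pool.Agent.H42.EP.barrier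

/-! ### Assembly (helper94) -/

/-- Scale one. -/
theorem core : ∃ c K₀ : ℝ, 0 < c ∧ 2 ≤ K₀ ∧ ∀ (K ε : ℝ), K₀ ≤ K → 0 < ε → ε * Real.log K ≤ c →
    ∃ C : ℝ, ∀ (T : ℝ) (u : ℝ → E3 → E3) (p : ℝ → E3 → ℝ), IsHInfAxisymNS T u p → ∀ t₀ ∈ Ico 0 T,
    (∀ t ∈ Ico t₀ T, ∀ x, rad x < 1 → |circ (u t) x| ≤ ε) →
    (∀ t ∈ Ico t₀ T, ∀ z, ∫ x in Metric.ball (axp z) 1, ‖u t x‖ ^ 2 ≤ K) →
    (∀ s t : ℝ, t₀ ≤ s → s ≤ t → t < T → t ≤ s + 1 → ∀ z, ∫ r in s..t, ∫ x in Metric.ball (axp z) 1, gv (u r) x ≤ K) →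
    (∀ x, rad x < 1 → |sV (u t₀) x| ≤ ε * K ^ 7) → (∀ a, NJ (K ^ 8) a (u t₀) + NO (K ^ 8) a (u t₀) ≤ K ^ 11) →
    ∀ t ∈ Ico t₀ T, ∀ x, rad x < 1 → |circ (u t) x| ≤ C * rad x :=
  co_core p1w p1a p1b p1c p1g p1h p1n
    (fun _ _ _ h _ _ _ _ h1 h2 h3 => p2c h h1 h2 h3)
    (fun _ _ _ h _ _ _ _ h1 h2 h3 h4 _ _ h5 h6 h7 => p2 h h1 h2 h3 h4 h5 h6 h7)
    (fun _ _ _ h _ ht => vs_of h ht) (fun _ _ _ h _ hb => v_lip h hb) barrier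

end Pool.Agent.H94.EP.Spec
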