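import Pool.Agent.H94.EP.Defs
import Pool.Agent.H16.TU.Cg

/-!
ROW CoK (MP_09540e_EP). Energy bounds on balls, square integrability. PROOF. `h.energy` and nonnegativity; `gv v x = ∑ i, ‖fderiv ℝ v x (e i)‖²` (both are `∑ i j, (∂_i v_j)²`; H16.TU.Ba or EnT may have it); slices: `‖u t‖²`, `gv (u t)` integrable (h.reg, n = 0, 1);
`∫ τ in s..t, ∫ x in ball, gv (u τ) x ≤ ∫ τ in 0..t, ∫ x, gv (u τ) x` : interval integrability in time by H87.NS.ti_int (TI.lean; JC of gv (u t) x, `∫ gv` bounded on [0, t]) for the whole space and by boundedness + continuity (continuousOn_of_dominated) for the ball.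
sq_int: `flow_of h : Flow T u (sV ∘ u) ..`, evV.bd and evO.bd give `DB 1 K (sV (u t))`, `DB 1 K (sO (u t))`; `Zz = pd 2 (sV v)`.
-/

set_option autoImplicit false

open Set Filter Topology MeasureTheory
open scoped ContDiff

namespace Pool.Agent.H94.EP

open Pool.Agent.H16 Pool.Agent.H87.NS Pool.Agent.H72.CC Pool.Agent.H16.TU

private theorem CoK_gvint {v : E3 → E3} {K : ℝ} (h : ∀ j : Fin 3, DB 4 K (fun x => v x j)) :
    ∫ x, |gv v x| ≤ 9 * K := by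
  have hb : ∀ i j : Fin 3, BL K (pd i (fun y => v y j)) := fun i j => DB_BL (DB_pd (h j) i)
  have h0 : ∀ x, |gv v x| = ∑ j : Fin 3, ∑ i : Fin 3, pd i (fun y => v y j) x ^ 2 := by
    intro x
    rw [abs_of_nonneg (ba_gv (v := v) x 0 0).1]
    rfl
  have h1 : ∫ x, |gv v x| = ∑ j : Fin 3, ∑ i : Fin 3, ∫ x, pd i (fun y => v y j) x ^ 2 := by
    rw [integral_congr_ae (ae_of_all _ h0), integral_finsetSum _ fun j _ =>
      integrable_finsetSum _ fun i _ => (hb i j).2.1]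
    refine Finset.sum_congr rfl fun j _ => ?_
    rw [integral_finsetSum _ fun i _ => (hb i j).2.1]
  rw [h1]
  calc ∑ j : Fin 3, ∑ i : Fin 3, ∫ x, pd i (fun y => v y j) x ^ 2
      ≤ ∑ j : Fin 3, ∑ i : Fin 3, K :=
        Finset.sum_le_sum fun j _ => Finset.sum_le_sum fun i _ => (hb i j).2.2
    _ = 9 * K := by
        simp only [Finset.sum_const, Finset.card_univ, Fintype.card_fin]
        ring

theorem en_le {T : ℝ} {u : ℝ → E3 → E3} {p : ℝ → E3 → ℝ} (h : IsHInfAxisymNS T u p) {t : ℝ} (ht : t ∈ Ico 0 T) (z r : ℝ) :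
    ∫ x in Metric.ball (axp z) r, ‖u t x‖ ^ 2 ≤ ∫ x, ‖u 0 x‖ ^ 2 := by
  obtain ⟨K, _, _, h1, _⟩ := ba_vf (vf_u h ht)
  refine le_trans ?_ (en_glob h ht).1
  exact setIntegral_le_integral h1 (ae_of_all _ fun x => by positivity)

theorem di_le {T : ℝ} {u : ℝ → E3 → E3} {p : ℝ → E3 → ℝ} (h : IsHInfAxisymNS T u p) {s t : ℝ} (hs : 0 ≤ s) (hst : s ≤ t) (ht : t < T) (z r : ℝ) :
    ∫ τ in s..t, ∫ x in Metric.ball (axp z) r, gv (u τ) x ≤ ∫ x, ‖u 0 x‖ ^ 2 := by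
  have hE0 : 0 ≤ ∫ x, ‖u 0 x‖ ^ 2 := integral_nonneg fun x => by positivity
  by_cases hI : IntervalIntegrable (fun τ => ∫ x in Metric.ball (axp z) r, gv (u τ) x) volume s t
  swap
  · rw [intervalIntegral.integral_undef hI]
    exact hE0
  have ht0 : 0 ≤ t := hs.trans hst
  obtain ⟨K, hK⟩ := uDB h ht
  have hint : ∀ τ ∈ Icc 0 t, Integrable (gv (u τ)) ∧ ∫ x, |gv (u τ) x| ≤ 9 * K := by
    intro τ hτ
    obtain ⟨_, _, _, _, h2⟩ := ba_vf (vf_u h ⟨hτ.1, lt_of_le_of_lt hτ.2 ht⟩)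
    exact ⟨h2, CoK_gvint (hK τ hτ)⟩
  have hJ := Ta_gvJC h
  have i1 : IntervalIntegrable (fun τ => ∫ x, gv (u τ) x) volume 0 s :=
    ti_int hJ (b := s) (K := 9 * K) (lt_of_le_of_lt hst ht) (fun τ hτ => hint τ ⟨hτ.1, hτ.2.trans hst⟩)
      le_rfl hs
  have i2 : IntervalIntegrable (fun τ => ∫ x, gv (u τ) x) volume s t :=
    ti_int hJ (b := t) (K := 9 * K) ht hint hs hst
  have h1 : ∫ τ in s..t, ∫ x in Metric.ball (axp z) r, gv (u τ) x ≤ ∫ τ in s..t, ∫ x, gv (u τ) x := by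
    refine intervalIntegral.integral_mono_on hst hI i2 fun τ hτ => ?_
    exact setIntegral_le_integral (hint τ ⟨hs.trans hτ.1, hτ.2⟩).1
      (ae_of_all _ fun x => (ba_gv (v := u τ) x 0 0).1)
  have h2 : ∫ τ in (0:ℝ)..t, ∫ x, gv (u τ) x
      = (∫ τ in (0:ℝ)..s, ∫ x, gv (u τ) x) + ∫ τ in s..t, ∫ x, gv (u τ) x :=
    (intervalIntegral.integral_add_adjacent_intervals i1 i2).symm
  have h3 : 0 ≤ ∫ τ in (0:ℝ)..s, ∫ x, gv (u τ) x :=
    intervalIntegral.integral_nonneg hs fun τ _ => integral_nonneg fun x => (ba_gv (v := u τ) x 0 0).1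
  have h4 := (en_glob h ⟨ht0, ht⟩).2
  linarith

theorem sq_int {T : ℝ} {u : ℝ → E3 → E3} {p : ℝ → E3 → ℝ} (h : IsHInfAxisymNS T u p) {t : ℝ} (ht : t ∈ Ico 0 T) :
    Integrable (fun x => Zz (u t) x ^ 2) ∧ Integrable (fun x => sO (u t) x ^ 2) := by
  obtain ⟨K, hK⟩ := svwDB h ht.2
  obtain ⟨h1, _, h3⟩ := hK t ⟨ht.1, le_rfl⟩
  exact ⟨(DB_BL (DB_pd h1 2)).2.1, (DB_BL h3).2.1⟩

end Pool.Agent.H94.EP
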