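import Mathlib

/-! ROW Co1 (MP_09540e_EP, sub-PI helper67): Gronwall over unit windows (real functions only).

PROOF. (0) co_long: for `t₀ ≤ s ≤ t ≤ t₁`: `∫ s..t g ≤ (t - s + 1) M` (induction on a natural number `n` with `t ≤ s + n`: the claim
`∫ s..t g ≤ (t - s + 1) M` for `t ≤ s + n`; if `t ≤ s + 1` it is the window bound, as `M ≤ (t - s + 1) M`; otherwise split at `s + 1`:
`∫ s..(s+1) ≤ M` and `∫ (s+1)..t ≤ (t - s - 1 + 1) M`; interval integrability from continuity).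
(1) For all `t` in `[t₀, t₁]`: `y t ≤ Θ + M`, `Θ := max (y t₀) (M / α)`. Suppose not; let `τ := sSup {s ∈ [t₀, t] | y s ≤ Θ}` (the set is compact and
contains `t₀`, so `τ` belongs to it: IsCompact.sSup_mem, or IsCompact.exists_isMaxOn of the identity). On `(τ, t]` one has `y > Θ ≥ M / α`, so
`y t ≤ y τ + ∫ τ..t (g - α y - d) ≤ Θ + ∫ τ..t (g - M) ≤ Θ + (t - τ + 1) M - (t - τ) M = Θ + M` (monotonicity of the integral: on Ioc, or on Icc because
`y τ = Θ` may be assumed: on Ioo is enough, intervalIntegral.integral_mono_on_of_le_Ioo; `d ≥ 0`), contradiction.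
(2) `∫ s..t d ≤ y s - y t + ∫ s..t g - α ∫ s..t y ≤ y s + M` (`y ≥ 0` at `t` and under the integral) `≤ y t₀ + M / α + 2 M ≤ y t₀ + 3 M / α`. -/

set_option autoImplicit false

open Set Filter Topology MeasureTheory

namespace Pool.Agent.H94.EP

theorem co_long {g : ℝ → ℝ} {t₀ t₁ M : ℝ} (hM : 0 ≤ M) (hg : ContinuousOn g (Icc t₀ t₁))
    (hw : ∀ s t : ℝ, t₀ ≤ s → s ≤ t → t ≤ t₁ → t ≤ s + 1 → ∫ r in s..t, g r ≤ M) :
    ∀ s t : ℝ, t₀ ≤ s → s ≤ t → t ≤ t₁ → ∫ r in s..t, g r ≤ (t - s + 1) * M := by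
  have hint : ∀ s t : ℝ, t₀ ≤ s → s ≤ t → t ≤ t₁ → IntervalIntegrable g volume s t := by
    intro s t h1 h2 h3
    exact (hg.mono (Icc_subset_Icc h1 h3)).intervalIntegrable_of_Icc h2
  have key : ∀ n : ℕ, ∀ s t : ℝ, t₀ ≤ s → s ≤ t → t ≤ t₁ → t ≤ s + n + 1 →
      ∫ r in s..t, g r ≤ (t - s + 1) * M := by
    intro n
    induction n with
    | zero =>
      intro s t h1 h2 h3 h4
      have h5 := hw s t h1 h2 h3 (by simpa using h4)
      nlinarith [mul_nonneg (sub_nonneg.2 h2) hM]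
    | succ n ih =>
      intro s t h1 h2 h3 h4
      by_cases h5 : t ≤ s + 1
      · have h6 := hw s t h1 h2 h3 h5
        nlinarith [mul_nonneg (sub_nonneg.2 h2) hM]
      · push Not at h5
        have e1 := hw s (s + 1) h1 (by linarith) (by linarith) le_rfl
        have e2 := ih (s + 1) t (by linarith) h5.le h3 (by push_cast at h4; linarith)
        have e3 := intervalIntegral.integral_add_adjacent_intervals
          (hint s (s + 1) h1 (by linarith) (by linarith)) (hint (s + 1) t (by linarith) h5.le h3)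
        rw [← e3]
        linarith
  intro s t h1 h2 h3
  obtain ⟨n, hn⟩ := exists_nat_ge (t - s)
  exact key n s t h1 h2 h3 (by linarith)

theorem co_gron {y d g : ℝ → ℝ} {t₀ t₁ α M : ℝ} (hα : 0 < α) (hα1 : α ≤ 1) (hM : 0 ≤ M)
    (hy : ContinuousOn y (Icc t₀ t₁)) (hd : ContinuousOn d (Icc t₀ t₁)) (hg : ContinuousOn g (Icc t₀ t₁))
    (hy0 : ∀ t ∈ Icc t₀ t₁, 0 ≤ y t) (hd0 : ∀ t ∈ Icc t₀ t₁, 0 ≤ d t)
    (hin : ∀ s t : ℝ, t₀ ≤ s → s ≤ t → t ≤ t₁ → y t ≤ y s + ∫ r in s..t, (g r - α * y r - d r))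
    (hw : ∀ s t : ℝ, t₀ ≤ s → s ≤ t → t ≤ t₁ → t ≤ s + 1 → ∫ r in s..t, g r ≤ M) :
    ∀ s t : ℝ, t₀ ≤ s → s ≤ t → t ≤ t₁ → t ≤ s + 1 → ∫ r in s..t, d r ≤ y t₀ + 3 * M / α := by
  have hiy : ∀ s t : ℝ, t₀ ≤ s → s ≤ t → t ≤ t₁ → IntervalIntegrable y volume s t := fun s t h1 h2 h3 =>
    (hy.mono (Icc_subset_Icc h1 h3)).intervalIntegrable_of_Icc h2
  have hid : ∀ s t : ℝ, t₀ ≤ s → s ≤ t → t ≤ t₁ → IntervalIntegrable d volume s t := fun s t h1 h2 h3 =>
    (hd.mono (Icc_subset_Icc h1 h3)).intervalIntegrable_of_Icc h2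
  have hig : ∀ s t : ℝ, t₀ ≤ s → s ≤ t → t ≤ t₁ → IntervalIntegrable g volume s t := fun s t h1 h2 h3 =>
    (hg.mono (Icc_subset_Icc h1 h3)).intervalIntegrable_of_Icc h2
  have hMα : M ≤ M / α := by
    rw [le_div_iff₀ hα]
    nlinarith
  have hb : ∀ t ∈ Icc t₀ t₁, y t ≤ max (y t₀) (M / α) + M := by
    intro t ht
    by_contra hcon
    push Not at hcon
    have hcl : IsClosed (Icc t₀ t ∩ y ⁻¹' Iic (max (y t₀) (M / α))) :=
      (hy.mono (Icc_subset_Icc le_rfl ht.2)).preimage_isClosed_of_isClosed isClosed_Icc isClosed_Iic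
    have hco : IsCompact (Icc t₀ t ∩ y ⁻¹' Iic (max (y t₀) (M / α))) :=
      isCompact_Icc.of_isClosed_subset hcl inter_subset_left
    have hne : (Icc t₀ t ∩ y ⁻¹' Iic (max (y t₀) (M / α))).Nonempty :=
      ⟨t₀, ⟨le_rfl, ht.1⟩, show y t₀ ≤ _ from le_max_left _ _⟩
    have hτ := hco.sSup_mem hne
    have hgt : ∀ r, r ∈ Icc t₀ t → sSup (Icc t₀ t ∩ y ⁻¹' Iic (max (y t₀) (M / α))) < r →
        max (y t₀) (M / α) < y r := by
      intro r hr hlt
      by_contra hle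
      push Not at hle
      exact absurd (le_csSup hco.bddAbove ⟨hr, hle⟩) (not_le.2 hlt)
    generalize hτdef : sSup (Icc t₀ t ∩ y ⁻¹' Iic (max (y t₀) (M / α))) = τ at hτ hgt
    obtain ⟨⟨hτ1, hτ2⟩, hτ3⟩ := hτ
    have hτ3' : y τ ≤ max (y t₀) (M / α) := hτ3
    have e1 := hin τ t hτ1 hτ2 ht.2
    have e2 : ∫ r in τ..t, (g r - α * y r - d r) ≤ ∫ r in τ..t, (g r - M) := by
      refine intervalIntegral.integral_mono_on_of_le_Ioo hτ2 ?_ ?_ ?_
      · exact ((hig τ t hτ1 hτ2 ht.2).sub ((hiy τ t hτ1 hτ2 ht.2).const_mul α)).sub (hid τ t hτ1 hτ2 ht.2)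
      · exact (hig τ t hτ1 hτ2 ht.2).sub intervalIntegrable_const
      · intro r hr
        have h1 := hgt r ⟨hτ1.trans hr.1.le, hr.2.le⟩ hr.1
        have h2 := hd0 r ⟨hτ1.trans hr.1.le, hr.2.le.trans ht.2⟩
        have h3 : M / α < y r := lt_of_le_of_lt (le_max_right _ _) h1
        rw [div_lt_iff₀ hα] at h3
        linarith
    have e3 := co_long hM hg hw τ t hτ1 hτ2 ht.2
    rw [intervalIntegral.integral_sub (hig τ t hτ1 hτ2 ht.2) intervalIntegrable_const,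
      intervalIntegral.integral_const, smul_eq_mul] at e2
    nlinarith
  intro s t h1 h2 h3 h4
  have hs : s ∈ Icc t₀ t₁ := ⟨h1, h2.trans h3⟩
  have ht : t ∈ Icc t₀ t₁ := ⟨h1.trans h2, h3⟩
  have e1 := hin s t h1 h2 h3
  rw [intervalIntegral.integral_sub ((hig s t h1 h2 h3).sub ((hiy s t h1 h2 h3).const_mul α))
    (hid s t h1 h2 h3), intervalIntegral.integral_sub (hig s t h1 h2 h3)
    ((hiy s t h1 h2 h3).const_mul α), intervalIntegral.integral_const_mul] at e1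
  have e2 := hw s t h1 h2 h3 h4
  have e3 : 0 ≤ ∫ r in s..t, y r :=
    intervalIntegral.integral_nonneg h2 fun r hr => hy0 r ⟨h1.trans hr.1, hr.2.trans h3⟩
  have e4 := hy0 t ht
  have e5 := hb s hs
  have e6 : max (y t₀) (M / α) ≤ y t₀ + M / α := by
    refine max_le ?_ ?_
    · have : 0 ≤ M / α := by positivity
      linarith
    · have := hy0 t₀ ⟨le_rfl, h1.trans (h2.trans h3)⟩
      linarith
  have e7 : 0 ≤ α * ∫ r in s..t, y r := mul_nonneg hα.le e3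
  have e8 : 3 * M / α = M / α + M / α + M / α := by ring
  rw [e8]
  linarith

end Pool.Agent.H94.EP
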