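import Pool.Agent.H94.EP.Co1
import Pool.Agent.H94.EP.Co2
import Pool.Agent.H94.EP.CoB

/-! Row Co5 (MP_09540e_EP): the windows of the dissipation. -/

set_option autoImplicit false

open Set Filter Topology MeasureTheory
open scoped ContDiff

namespace Pool.Agent.H94.EP

open Pool.Agent.H16 Pool.Agent.H87.NS Pool.Agent.H72.CC Pool.Agent.H16.TU

/-- The constants. -/
private theorem Co5_num {C₁ C₂ C₃ S L K X G y0 : ℝ} (h1 : 1 ≤ C₁) (h2 : 1 ≤ C₂) (h3 : 1 ≤ C₃)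
    (hS : 20 ≤ S) (hL : 1 ≤ L) (hK : 2 ≤ K)
    (hX : 1 / (8 * S) * X ≤ y0 + 3 * (2 * C₁ * C₂ * (L * K ^ 3)) / (1 / (C₁ * S)))
    (hy : y0 ≤ C₃ * (L * K ^ 3)) (hG : G ≤ C₂ * (L * K)) :
    X + G ≤ 100 * C₁ ^ 2 * C₂ * C₃ * S ^ 2 * L * K ^ 3 := by
  have hS0 : 0 < S := by linarith
  have hC0 : 0 < C₁ := by linarith
  obtain ⟨W, hW⟩ : ∃ W, W = L * K ^ 3 := ⟨_, rfl⟩
  have hK3 : K ≤ K ^ 3 := by
    have : K ^ 3 - K = K * (K ^ 2 - 1) := by ring
    linarith only [mul_nonneg (by linarith : (0 : ℝ) ≤ K) (by nlinarith : (0 : ℝ) ≤ K ^ 2 - 1), hK]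
  have hW0 : 0 ≤ W := by rw [hW]; positivity
  have hLK : L * K ≤ W := by
    rw [hW]
    exact mul_le_mul_of_nonneg_left hK3 (by linarith)
  rw [← hW] at hX hy
  have e1 : 3 * (2 * C₁ * C₂ * W) / (1 / (C₁ * S)) = 6 * C₁ ^ 2 * C₂ * S * W := by
    field_simp
    ring
  rw [e1] at hX
  have e2 : X ≤ 8 * S * (C₃ * W + 6 * C₁ ^ 2 * C₂ * S * W) := by
    have h := mul_le_mul_of_nonneg_left (hX.trans (add_le_add_left hy _)) (by positivity : 0 ≤ 8 * S)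
    have e : 8 * S * (1 / (8 * S) * X) = X := by
      field_simp
    rw [e] at h
    linarith
  have hC1 : 1 ≤ C₁ ^ 2 := one_le_pow₀ h1
  obtain ⟨P, hP⟩ : ∃ P, P = C₁ ^ 2 * C₂ * C₃ := ⟨_, rfl⟩
  have hP3 : C₃ ≤ P := by
    rw [hP]
    have h5 : 1 ≤ C₁ ^ 2 * C₂ := by nlinarith only [h2, hC1]
    nlinarith only [h3, h5]
  have hP2 : C₁ ^ 2 * C₂ ≤ P := by
    rw [hP]
    have h5 : 0 ≤ C₁ ^ 2 * C₂ := by positivity
    nlinarith only [h3, h5]
  have hP4 : C₂ ≤ P := by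
    have : C₂ ≤ C₁ ^ 2 * C₂ := by nlinarith only [h2, hC1]
    linarith
  have hP0 : 0 ≤ P := by linarith
  have hS2 : S ≤ S ^ 2 := by nlinarith only [hS]
  have hS3 : 1 ≤ S ^ 2 := by linarith only [hS, hS2]
  have a1 : 8 * S * (C₃ * W) ≤ 8 * (P * S ^ 2 * W) := by
    have h5 : C₃ * S ≤ P * S ^ 2 := mul_le_mul hP3 hS2 hS0.le hP0
    have h6 := mul_le_mul_of_nonneg_right h5 hW0
    linarith
  have a2 : 8 * S * (6 * C₁ ^ 2 * C₂ * S * W) ≤ 48 * (P * S ^ 2 * W) := by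
    have h5 : C₁ ^ 2 * C₂ * (S ^ 2 * W) ≤ P * (S ^ 2 * W) :=
      mul_le_mul_of_nonneg_right hP2 (by positivity)
    have h6 : 8 * S * (6 * C₁ ^ 2 * C₂ * S * W) = 48 * (C₁ ^ 2 * C₂ * (S ^ 2 * W)) := by ring
    rw [h6]
    linarith
  have a3 : G ≤ P * S ^ 2 * W := by
    have h5 : C₂ * (L * K) ≤ C₂ * W := mul_le_mul_of_nonneg_left hLK (by linarith)
    have h6 : C₂ * W ≤ P * W := mul_le_mul_of_nonneg_right hP4 hW0
    have h7 : P * W ≤ P * W * S ^ 2 := by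
      have : 0 ≤ P * W := by positivity
      nlinarith only [h2, hS, hL, hK, hW0, hLK, hS2, h6, this]
    linarith
  have a4 : 0 ≤ P * S ^ 2 * W := by positivity
  have a5 : 100 * C₁ ^ 2 * C₂ * C₃ * S ^ 2 * L * K ^ 3 = 100 * (P * S ^ 2 * W) := by
    rw [hP, hW]
    ring
  rw [a5]
  linarith

theorem co_energy (h1a : P1a) (h1b : P1b) (h1c : P1c) (h1g : P1g) (h1h : P1h) (h1n : P1n) (h2c : P2c) (h2 : P2) :
    ∃ C : ℝ, 1 ≤ C ∧ ∀ (T : ℝ) (u : ℝ → E3 → E3) (p : ℝ → E3 → ℝ), IsHInfAxisymNS T u p →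
    ∀ (ε K κ L t₀ t₁ : ℝ), 0 ≤ t₀ → t₀ ≤ t₁ → t₁ < T → C * K ≤ L → C * (ε * Sc κ) ≤ 1 →
    (∀ t ∈ Icc t₀ t₁, Sl ε K κ (u t)) →
    (∀ s t : ℝ, t₀ ≤ s → s ≤ t → t ≤ t₁ → t ≤ s + 1 → ∀ z, ∫ r in s..t, ∫ x in Metric.ball (axp z) 1, gv (u r) x ≤ K) →
    ∀ a, NJ L a (u t₀) + NO L a (u t₀) ≤ L * K ^ 3 →
    ∀ s t : ℝ, t₀ ≤ s → s ≤ t → t ≤ t₁ → t ≤ s + 1 →
      ∫ r in s..t, (DO L a (u r) + GG L a (u r)) ≤ C * Sc κ ^ 2 * L * K ^ 3 := by
  obtain ⟨C₁, hC₁, H₁⟩ := co_rate h1a h1b h1c h1g h1h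
  obtain ⟨C₂, hC₂, H₂⟩ := gg_win
  obtain ⟨C₃, hC₃, H₃⟩ := h1n
  have hq1 : 1 ≤ C₁ ^ 2 := one_le_pow₀ hC₁
  have hq2 : C₁ ≤ C₁ ^ 2 := by nlinarith
  have hq3 : C₁ ^ 2 ≤ C₁ ^ 2 * C₂ := by nlinarith
  have hq4 : C₁ ^ 2 * C₂ ≤ C₁ ^ 2 * C₂ * C₃ := by nlinarith
  have hCC : C₁ ≤ 100 * C₁ ^ 2 * C₂ * C₃ := by
    have : 100 * C₁ ^ 2 * C₂ * C₃ = 100 * (C₁ ^ 2 * C₂ * C₃) := by ring
    rw [this]
    linarith
  refine ⟨100 * C₁ ^ 2 * C₂ * C₃, by linarith, ?_⟩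
  intro T u p hNS ε K κ L t₀ t₁ h0 h01 h1T hLC hεC hSl hen a hinit s t hs hst ht1 hts
  have hSl0 := hSl t₀ ⟨le_rfl, h01⟩
  have hK : 2 ≤ K := hSl0.K2
  have hκ : 1 ≤ κ := hSl0.k1
  have hε : 0 < ε := hSl0.e0
  have hS : 20 ≤ Sc κ := sc_ge hκ
  have hS0 : 0 < Sc κ := by linarith
  have hC10 : 0 < C₁ := by linarith
  have hL1 : C₁ * K ≤ L := by
    have : C₁ * K ≤ 100 * C₁ ^ 2 * C₂ * C₃ * K := mul_le_mul_of_nonneg_right hCC (by linarith)
    linarith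
  have hL : 1 ≤ L := by nlinarith only [hC₁, hK, hL1]
  have hε1 : C₁ * (ε * Sc κ) ≤ 1 := by
    have : C₁ * (ε * Sc κ) ≤ 100 * C₁ ^ 2 * C₂ * C₃ * (ε * Sc κ) :=
      mul_le_mul_of_nonneg_right hCC (by positivity)
    linarith
  have hθ : 0 < 1 / Sc κ := by positivity
  have hθ1 : 1 / Sc κ ≤ 1 / 2 := one_div_le_one_div_of_le (by norm_num) (by linarith)
  have hsub : Icc t₀ t₁ ⊆ Ico 0 T := fun r hr => ⟨h0.trans hr.1, lt_of_le_of_lt hr.2 h1T⟩
  obtain ⟨cDJ, cDO, cGG, cDB, cGB, cFF, cRJ, cRO, cRB⟩ := h2c T u p hNS (1 / Sc κ) (1 / Sc κ) L a hθ hθ1 hL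
  have kDO := cDO.mono hsub
  have kGG := cGG.mono hsub
  have kFF := cFF.mono hsub
  have kRJ := cRJ.mono hsub
  have kRO := cRO.mono hsub
  have kRB := cRB.mono hsub
  have hgc : ContinuousOn (fun r => C₁ * (K ^ 2 * GG L a (u r) + L * K)) (Icc t₀ t₁) :=
    continuousOn_const.mul ((continuousOn_const.mul kGG).add continuousOn_const)
  have hdc : ContinuousOn (fun r => 1 / (8 * Sc κ) * DO L a (u r)) (Icc t₀ t₁) :=
    continuousOn_const.mul kDO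
  have hα : 0 < 1 / (C₁ * Sc κ) := by positivity
  have hα1 : 1 / (C₁ * Sc κ) ≤ 1 := by
    rw [div_le_one (by positivity)]
    nlinarith only [hC₁, hS, hθ, hθ1]
  have hM : 0 ≤ 2 * C₁ * C₂ * (L * K ^ 3) := by positivity
  have hFF0 : ∀ r, 0 ≤ FF (1 / Sc κ) (1 / Sc κ) L a (u r) := by
    intro r
    unfold FF
    have e1 := NJ_nn L a (u r)
    have e2 := BB_nn hθ L a (u r)
    have e3 : 0 ≤ 1 / Sc κ * NO L a (u r) := mul_nonneg hθ.le (NO_nn L a (u r))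
    linarith
  have key := co_gron (y := fun r => FF (1 / Sc κ) (1 / Sc κ) L a (u r))
    (d := fun r => 1 / (8 * Sc κ) * DO L a (u r))
    (g := fun r => C₁ * (K ^ 2 * GG L a (u r) + L * K)) (t₀ := t₀) (t₁ := t₁) hα hα1 hM kFF hdc hgc
    (fun r _ => hFF0 r) (fun r _ => mul_nonneg (by positivity) (DO_nn L a (u r))) ?_ ?_
    s t hs hst ht1 hts
  · -- the conclusion
    have i1 : IntervalIntegrable (fun r => DO L a (u r)) volume s t :=
      (kDO.mono (Icc_subset_Icc hs ht1)).intervalIntegrable_of_Icc hst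
    have i2 : IntervalIntegrable (fun r => GG L a (u r)) volume s t :=
      (kGG.mono (Icc_subset_Icc hs ht1)).intervalIntegrable_of_Icc hst
    rw [intervalIntegral.integral_add i1 i2]
    simp only [intervalIntegral.integral_const_mul] at key
    have hG := H₂ T u p hNS K L a s t hL (h0.trans hs) hst (lt_of_le_of_lt ht1 h1T)
      (hen s t hs hst ht1 hts)
    refine Co5_num hC₁ hC₂ hC₃ hS hL hK key ?_ hG
    unfold FF
    have e1 := H₃ κ L a (u t₀) hSl0.vs hκ hL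
    have e2 := NJ_nn L a (u t₀)
    have e3 := NO_nn L a (u t₀)
    have e4 : 1 / Sc κ * NO L a (u t₀) ≤ 1 * NO L a (u t₀) :=
      mul_le_mul_of_nonneg_right (by linarith) e3
    have e5 : C₃ * (NJ L a (u t₀) + NO L a (u t₀)) ≤ C₃ * (L * K ^ 3) :=
      mul_le_mul_of_nonneg_left hinit (by linarith)
    have e6 : NJ L a (u t₀) ≤ C₃ * NJ L a (u t₀) := by nlinarith only [hC₃, e2]
    have e7 : NO L a (u t₀) ≤ C₃ * NO L a (u t₀) := by nlinarith only [hC₃, e3]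
    linarith
  · -- the inequality
    intro s t h3 h4 h5
    have e1 := h2 T u p hNS (1 / Sc κ) (1 / Sc κ) L a hθ hθ1 hL hθ.le s t (h0.trans h3) h4
      (lt_of_le_of_lt h5 h1T)
    refine e1.trans (add_le_add le_rfl ?_)
    have hss : Icc s t ⊆ Icc t₀ t₁ := Icc_subset_Icc h3 h5
    refine intervalIntegral.integral_mono_on h4 ?_ ?_ ?_
    · refine ContinuousOn.intervalIntegrable_of_Icc h4 ?_
      exact (((kRJ.div_const 2).add (kRB.div_const 2)).add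
        (continuousOn_const.mul (kRO.div_const 2))).mono hss
    · refine ContinuousOn.intervalIntegrable_of_Icc h4 ?_
      exact ((hgc.sub (continuousOn_const.mul kFF)).sub hdc).mono hss
    · intro r hr
      have e2 := H₁ ε K κ L a (u r) (hSl r (hss hr)) hL1 hε1
      linarith
  · -- the windows
    intro s t h3 h4 h5 h6
    have hG := H₂ T u p hNS K L a s t hL (h0.trans h3) h4 (lt_of_le_of_lt h5 h1T)
      (hen s t h3 h4 h5 h6)
    have i2 : IntervalIntegrable (fun r => GG L a (u r)) volume s t :=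
      (kGG.mono (Icc_subset_Icc h3 h5)).intervalIntegrable_of_Icc h4
    have e1 : ∫ r in s..t, C₁ * (K ^ 2 * GG L a (u r) + L * K) =
        C₁ * (K ^ 2 * (∫ r in s..t, GG L a (u r)) + (t - s) * (L * K)) := by
      rw [intervalIntegral.integral_const_mul, intervalIntegral.integral_add (i2.const_mul _)
        intervalIntegrable_const, intervalIntegral.integral_const_mul,
        intervalIntegral.integral_const, smul_eq_mul]
    rw [e1]
    have hLK : 0 ≤ L * K := by positivity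
    have hK2 : 0 ≤ K ^ 2 := by positivity
    have e2 : K ^ 2 * (∫ r in s..t, GG L a (u r)) ≤ C₂ * (L * K ^ 3) := by
      have := mul_le_mul_of_nonneg_left hG hK2
      have e : K ^ 2 * (C₂ * (L * K)) = C₂ * (L * K ^ 3) := by ring
      linarith
    have e3 : (t - s) * (L * K) ≤ C₂ * (L * K ^ 3) := by
      have a1 : (t - s) * (L * K) ≤ 1 * (L * K) := mul_le_mul_of_nonneg_right (by linarith) hLK
      have a2 : L * K ≤ L * K ^ 3 := by
        refine mul_le_mul_of_nonneg_left ?_ (by linarith)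
        have : 0 ≤ K * (K ^ 2 - 1) := mul_nonneg (by linarith) (by nlinarith only [hK, hθ, hθ1])
        linarith
      have a3 : 1 * (L * K ^ 3) ≤ C₂ * (L * K ^ 3) :=
        mul_le_mul_of_nonneg_right hC₂ (by positivity)
      linarith
    have e4 := mul_le_mul_of_nonneg_left (add_le_add e2 e3) hC10.le
    linarith

end Pool.Agent.H94.EP
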