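import Pool.Agent.H94.EP.Defs
import Pool.Agent.H16.TU.Ed
import Pool.Agent.H16.TU.Ee
import Pool.Agent.H87.NS.VRep
import Pool.Agent.H87.NS.AxId
import Pool.Agent.H87.NS.Avk

/-!
ROW CoA (MP_09540e_EP). Scaling of slices. PROOF. `w = fun y => ρ • v (axp 0 + ρ • y)`, `axp 0 = 0`. `fderiv w x i = ρ² • fderiv v (ρ • x) i` (H16.TU.Ed_fd), so
`curl w x = ρ² • curl v (ρ • x)`, `curl (curl w) x = ρ³ • ...`; `sq s (ρ • x) = ρ • sq s x`, so avk commutes with the dilation: sc_sV, sc_sO; `pd 2 (f ∘ (ρ • ·)) x = ρ * pd 2 f (ρ • x)`: sc_Zz, sc_gv.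
sc_N: `A1 ≤ 1` (`0 ≤ c1 ≤ 1`, `0 ≤ ph ≤ 1`: Real.smoothTransition.le_one etc.), `∫ (ρ³ f (ρ • x))² = ρ⁶ ρ⁻³ ∫ f²` (H16.TU.Ed_int). The functions `Zz v = pd 2 (sV v)`, `sO v` are square integrable: hypotheses hZ, hO.
sc_ball: `∫ x in ball (axp z) 1, F (ρ • x) = (ρ³)⁻¹ ∫ x in ball (axp (ρ z)) ρ, F x`: Ed_int applied to the indicator function (`ρ • x ∈ ball (axp (ρ * z)) ρ ↔ x ∈ ball (axp z) 1`).
-/

set_option autoImplicit false

open Set Filter Topology MeasureTheory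
open scoped ContDiff

namespace Pool.Agent.H94.EP

open Pool.Agent.H16 Pool.Agent.H87.NS Pool.Agent.H72.CC Pool.Agent.H16.TU

/-- The rescaled slice. -/
noncomputable def scl (ρ : ℝ) (v : E3 → E3) : E3 → E3 := fun y => ρ • v (axp 0 + ρ • y)

theorem us_scl (ρ : ℝ) (u : ℝ → E3 → E3) (t : ℝ) : us ρ 0 u t = scl ρ (u (ρ ^ 2 * t)) := rfl

private lemma CoA_ext {a b : E3} (h0 : a 0 = b 0) (h1 : a 1 = b 1) (h2 : a 2 = b 2) : a = b := by
  ext i
  fin_cases i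
  · exact h0
  · exact h1
  · exact h2

private lemma CoA_axp : axp 0 = (0 : E3) := by
  refine CoA_ext ?_ ?_ ?_ <;> simp [axp]

private lemma CoA_sq (ρ s : ℝ) (x : E3) : axp 0 + ρ • Pool.Agent.H87.NS.sq s x = Pool.Agent.H87.NS.sq s (axp 0 + ρ • x) := by
  rw [CoA_axp, zero_add, zero_add]
  refine CoA_ext ?_ ?_ ?_
  · show ρ * (s * x 0) = s * (ρ * x 0)
    ring
  · show ρ * (s * x 1) = s * (ρ * x 1)
    ring
  · rfl

private lemma CoA_fd {f : E3 → E3} (hf : ContDiff ℝ ∞ f) (c ρ : ℝ) (x w : E3) :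
    fderiv ℝ (fun x => c • f (axp 0 + ρ • x)) x w = (c * ρ) • fderiv ℝ f (axp 0 + ρ • x) w := by
  have hd : DifferentiableAt ℝ f (axp 0 + ρ • x) := (hf.differentiable (by simp)) _
  have h1 : HasFDerivAt (fun x : E3 => axp 0 + ρ • x) (ρ • ContinuousLinearMap.id ℝ E3) x :=
    ((hasFDerivAt_id x).const_smul ρ).const_add (axp 0)
  have h2 := (hd.hasFDerivAt.comp x h1).const_smul c
  have h3 : fderiv ℝ (fun x => c • f (axp 0 + ρ • x)) x = _ := h2.fderiv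
  rw [h3, _root_.smul_apply, ContinuousLinearMap.comp_apply,
    _root_.smul_apply, ContinuousLinearMap.id_apply, map_smul, smul_smul]

private lemma CoA_curl {f : E3 → E3} (hf : ContDiff ℝ ∞ f) (c ρ : ℝ) (x : E3) :
    curl (fun x => c • f (axp 0 + ρ • x)) x = (c * ρ) • curl f (axp 0 + ρ • x) := by
  unfold curl
  simp only [CoA_fd hf]
  refine CoA_ext ?_ ?_ ?_
  · exact (mul_sub _ _ _).symm
  · exact (mul_sub _ _ _).symm
  · exact (mul_sub _ _ _).symm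

private lemma CoA_avk (k : ℕ) (g : E3 → ℝ) (c ρ : ℝ) (x : E3) :
    avk k (fun y => c * g (axp 0 + ρ • y)) x = c * avk k g (axp 0 + ρ • x) := by
  unfold avk
  rw [← intervalIntegral.integral_const_mul]
  refine intervalIntegral.integral_congr fun s _ => ?_
  simp only []
  rw [CoA_sq]
  ring

private lemma CoA_pd {f : E3 → ℝ} (hf : ContDiff ℝ ∞ f) (c ρ : ℝ) (i : Fin 3) (x : E3) :
    pd i (fun x => c * f (axp 0 + ρ • x)) x = (c * ρ) * pd i f (axp 0 + ρ • x) := by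
  have hd : DifferentiableAt ℝ f (axp 0 + ρ • x) := (hf.differentiable (by simp)) _
  have h0 : HasFDerivAt (fun x : E3 => axp 0 + ρ • x) (ρ • ContinuousLinearMap.id ℝ E3) x :=
    ((hasFDerivAt_id x).const_smul ρ).const_add (axp 0)
  have h2 := (hd.hasFDerivAt.comp x h0).const_mul c
  have h3 : fderiv ℝ (fun x => c * f (axp 0 + ρ • x)) x = _ := h2.fderiv
  unfold pd
  rw [h3]
  simp only [_root_.smul_apply, ContinuousLinearMap.comp_apply,
    ContinuousLinearMap.id_apply, map_smul, smul_eq_mul]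
  ring

private lemma CoA_z (ρ : ℝ) (x : E3) : axp 0 + ρ • x = ρ • x := by rw [CoA_axp, zero_add]

theorem sc_circ (ρ : ℝ) (v : E3 → E3) (x : E3) : circ (scl ρ v) x = circ v (ρ • x) := by
  unfold circ scl
  rw [CoA_z]
  show x 0 * (ρ * v (ρ • x) 1) - x 1 * (ρ * v (ρ • x) 0) = (ρ * x 0) * v (ρ • x) 1 - (ρ * x 1) * v (ρ • x) 0
  ring

theorem sc_sV {v : E3 → E3} (hv : ContDiff ℝ ∞ v) (ρ : ℝ) (x : E3) : sV (scl ρ v) x = ρ ^ 2 * sV v (ρ • x) := by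
  unfold sV
  have h : (fun y => curl (scl ρ v) y 2) = fun y => (ρ ^ 2) * (fun y => curl v y 2) (axp 0 + ρ • y) := by
    funext y
    unfold scl
    rw [CoA_curl hv]
    show (ρ * ρ) * curl v (axp 0 + ρ • y) 2 = _
    ring
  rw [h, CoA_avk 1 (fun y => curl v y 2), CoA_z]

theorem sc_sO {v : E3 → E3} (hv : ContDiff ℝ ∞ v) (ρ : ℝ) (x : E3) : sO (scl ρ v) x = ρ ^ 3 * sO v (ρ • x) := by
  unfold sO
  have h1 : curl (scl ρ v) = fun y => (ρ * ρ) • curl v (axp 0 + ρ • y) := by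
    funext y
    unfold scl
    rw [CoA_curl hv]
  have h : (fun y => curl (curl (scl ρ v)) y 2) = fun y => (ρ ^ 3) * (fun y => curl (curl v) y 2) (axp 0 + ρ • y) := by
    funext y
    rw [h1, CoA_curl (curl_smooth hv)]
    show (ρ * ρ * ρ) * curl (curl v) (axp 0 + ρ • y) 2 = _
    ring
  rw [h, CoA_avk 1 (fun y => curl (curl v) y 2), CoA_z]

private lemma CoA_sVs {v : E3 → E3} (hv : ContDiff ℝ ∞ v) : ContDiff ℝ ∞ (sV v) :=
  avk_smooth (VRep_coord (curl_smooth hv) 2) 1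

theorem sc_Zz {v : E3 → E3} (hv : ContDiff ℝ ∞ v) (ρ : ℝ) (x : E3) : Zz (scl ρ v) x = ρ ^ 3 * Zz v (ρ • x) := by
  unfold Zz
  have h : sV (scl ρ v) = fun x => (ρ ^ 2) * sV v (axp 0 + ρ • x) := by
    funext y
    rw [sc_sV hv, CoA_z]
  rw [h, CoA_pd (CoA_sVs hv), CoA_z]
  ring

theorem sc_gv {v : E3 → E3} (hv : ContDiff ℝ ∞ v) (ρ : ℝ) (x : E3) : gv (scl ρ v) x = ρ ^ 4 * gv v (ρ • x) := by
  unfold gv gsq
  rw [Finset.mul_sum]
  refine Finset.sum_congr rfl fun j _ => ?_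
  rw [Finset.mul_sum]
  refine Finset.sum_congr rfl fun i _ => ?_
  have h3 := CoA_pd (VRep_coord hv j) ρ ρ i x
  have h4 : pd i (fun y => scl ρ v y j) x = (ρ * ρ) * pd i (fun y => v y j) (axp 0 + ρ • x) := h3
  rw [h4, CoA_z]
  ring

private lemma CoA_A1 (L a : ℝ) (x : E3) : 0 ≤ A1 L a x ∧ A1 L a x ≤ 1 := by
  have h1 : 0 ≤ c1 x := Real.smoothTransition.nonneg _
  have h2 : c1 x ≤ 1 := Real.smoothTransition.le_one _
  have h3 : (0:ℝ) ≤ (x 2 - a) ^ 2 / L ^ 2 := by positivity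
  have h4 : 0 ≤ ph L a (x 2) := by
    unfold ph
    positivity
  have h5 : ph L a (x 2) ≤ 1 := by
    unfold ph
    exact inv_le_one_of_one_le₀ (by linarith)
  unfold A1
  refine ⟨mul_nonneg (pow_nonneg h1 4) h4, ?_⟩
  exact mul_le_one₀ (pow_le_one₀ h1 h2) h4 h5

private lemma CoA_N {f g : E3 → ℝ} {ρ : ℝ} (hρ : 0 < ρ) (hg : Integrable (fun x => g x ^ 2))
    (hf : ∀ x, f x = ρ ^ 3 * g (ρ • x)) (L a : ℝ) :
    ∫ x, A1 L a x * f x ^ 2 ≤ ρ ^ 3 * ∫ x, g x ^ 2 := by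
  have h1 : (fun x : E3 => f x ^ 2) = fun x => ρ ^ 6 * (fun y => g y ^ 2) (axp 0 + ρ • x) := by
    funext x
    rw [hf x, CoA_z]
    ring
  have h2 : Integrable (fun x : E3 => f x ^ 2) := by
    rw [h1]
    exact (Ed_integrable hg (axp 0) hρ).const_mul _
  have h3 : ∫ x, f x ^ 2 = ρ ^ 3 * ∫ x, g x ^ 2 := by
    rw [h1, integral_const_mul, Ed_int (fun y => g y ^ 2) (axp 0) hρ, ← mul_assoc]
    congr 1
    field_simp
  rw [← h3]
  refine integral_mono_of_nonneg (Eventually.of_forall fun x => ?_) h2 (Eventually.of_forall fun x => ?_)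
  · exact mul_nonneg (CoA_A1 L a x).1 (sq_nonneg _)
  · exact mul_le_of_le_one_left (sq_nonneg _) (CoA_A1 L a x).2

theorem sc_N {v : E3 → E3} (hv : ContDiff ℝ ∞ v) {ρ : ℝ} (hρ : 0 < ρ) (hZ : Integrable (fun x => Zz v x ^ 2))
    (hO : Integrable (fun x => sO v x ^ 2)) (L a : ℝ) :
    NJ L a (scl ρ v) ≤ ρ ^ 3 * ∫ x, Zz v x ^ 2 ∧ NO L a (scl ρ v) ≤ ρ ^ 3 * ∫ x, sO v x ^ 2 :=
  ⟨CoA_N hρ hZ (sc_Zz hv ρ) L a, CoA_N hρ hO (sc_sO hv ρ) L a⟩

theorem sc_ball {ρ : ℝ} (hρ : 0 < ρ) (F : E3 → ℝ) (z : ℝ) :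
    ∫ x in Metric.ball (axp z) 1, F (ρ • x) = (ρ ^ 3)⁻¹ * ∫ x in Metric.ball (axp (ρ * z)) ρ, F x := by
  have h0 : axp (ρ * z) = ρ • axp z := by
    refine CoA_ext ?_ ?_ ?_ <;> simp [axp]
  rw [← integral_indicator Metric.isOpen_ball.measurableSet, ← integral_indicator Metric.isOpen_ball.measurableSet,
    ← Ed_int ((Metric.ball (axp (ρ * z)) ρ).indicator F) (axp 0) hρ]
  congr 1
  funext x
  rw [CoA_z]
  have h1 : x ∈ Metric.ball (axp z) 1 ↔ ρ • x ∈ Metric.ball (axp (ρ * z)) ρ := by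
    rw [Metric.mem_ball, Metric.mem_ball, h0, dist_smul₀, Real.norm_eq_abs, abs_of_pos hρ]
    constructor
    · intro h
      nlinarith
    · intro h
      by_contra hc
      push Not at hc
      nlinarith
  by_cases h : x ∈ Metric.ball (axp z) 1
  · rw [indicator_of_mem h, indicator_of_mem (h1.1 h)]
  · rw [indicator_of_notMem h, indicator_of_notMem (fun h' => h (h1.2 h'))]

end Pool.Agent.H94.EP
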