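import Pool.Agent.H94.EP.Defs
import Pool.Agent.H87.NS.EVe

/-
Identities for axially symmetric fields (static).
-/

set_option autoImplicit false

open Set Filter Topology MeasureTheory
open scoped ContDiff

namespace Pool.Agent.H37.EP

open Pool.Agent.H16 Pool.Agent.H87.NS Pool.Agent.H72.CC Pool.Agent.H16.TU Pool.Agent.H94.EP

private theorem DyI_pd_coord (k : Fin 3) (hk : k ≠ 2) (x : E3) : pd 2 (fun y : E3 => y k) x = 0 := by
  unfold pd
  have h : HasFDerivAt (fun y : E3 => y k) (EuclideanSpace.proj k : E3 →L[ℝ] ℝ) x :=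
    (EuclideanSpace.proj k : E3 →L[ℝ] ℝ).hasFDerivAt
  rw [h.fderiv]
  change (e 2) k = _
  rw [e_apply, if_neg hk]

private theorem DyI_pd_add {a b : E3 → ℝ} (ha : ContDiff ℝ ∞ a) (hb : ContDiff ℝ ∞ b) (i : Fin 3) (x : E3) :
    pd i (fun y => a y + b y) x = pd i a x + pd i b x := by
  unfold pd
  have h := ((ha.differentiable (by simp) x).hasFDerivAt.add (hb.differentiable (by simp) x).hasFDerivAt).fderiv
  have h' : fderiv ℝ (fun y => a y + b y) x = fderiv ℝ a x + fderiv ℝ b x := h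
  rw [h']
  rfl

private theorem DyI_axis {g : E3 → ℝ} {x : E3} (h0 : x 0 = 0) (h1 : x 1 = 0) : avk 1 g x = g x / 2 := by
  have h2 : ∀ s : ℝ, sq s x = x := by
    intro s
    apply ext3
    · show s * x 0 = x 0
      rw [h0, mul_zero]
    · show s * x 1 = x 1
      rw [h1, mul_zero]
    · rfl
  unfold avk
  simp only [h2]
  rw [intervalIntegral.integral_mul_const, integral_pow]
  norm_num
  ring

private theorem DyI_gen {g : E3 → ℝ} (hA : ContDiff ℝ ∞ (avk 1 g)) {x : E3}
    (h : rdr (fun y => rsq y * avk 1 g y) x = rsq x * g x) : rdr (avk 1 g) x = g x - 2 * avk 1 g x := by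
  by_cases hx : rsq x = 0
  · have h3 : x 0 ^ 2 + x 1 ^ 2 = 0 := hx
    have h0 : x 0 = 0 := by nlinarith [sq_nonneg (x 0), sq_nonneg (x 1)]
    have h1 : x 1 = 0 := by nlinarith [sq_nonneg (x 0), sq_nonneg (x 1)]
    rw [DyI_axis h0 h1]
    unfold rdr
    rw [h0, h1]
    ring
  · rw [rdr_rsq hA] at h
    have h1 : rsq x * rdr (avk 1 g) x = rsq x * (g x - 2 * avk 1 g x) := by linear_combination h
    exact mul_left_cancel₀ hx h1

/-- The angular derivative of a rotation invariant function vanishes. -/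
theorem ang {f : E3 → ℝ} (hf : ContDiff ℝ ∞ f) (hr : ∀ θ x, f (rot θ x) = f x) (x : E3) : x 0 * pd 1 f x = x 1 * pd 0 f x := by
  have h1 : HasDerivAt (fun s => f (rot s x)) (fderiv ℝ f x (rotGen x)) 0 := by
    have h0 := ((hf.differentiable (by simp)) (rot 0 x)).hasFDerivAt.comp_hasDerivAt (0:ℝ) (hasDerivAt_rot 0 x)
    simp only [rot_zero_angle] at h0
    exact h0
  have h2 : HasDerivAt (fun s => f (rot s x)) 0 0 := by
    simp only [hr]
    exact hasDerivAt_const _ _
  have h3 := h1.unique h2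
  have h4 : rotGen x = (- x 1) • e 0 + x 0 • e 1 := by
    apply ext3 <;> simp [e_apply]
  rw [h4, map_add, map_smul, map_smul] at h3
  have h5 : (- x 1) * pd 0 f x + x 0 * pd 1 f x = 0 := h3
  linarith

theorem hor {f : E3 → ℝ} (hf : ContDiff ℝ ∞ f) (hr : ∀ θ x, f (rot θ x) = f x) (x : E3) :
    rsq x * pd 0 f x = x 0 * rdr f x ∧ rsq x * pd 1 f x = x 1 * rdr f x := by
  have h := ang hf hr x
  unfold rsq rdr
  constructor
  · linear_combination (- x 1) * h
  · linear_combination (x 0) * h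

theorem sm_V {v : E3 → E3} (h : AxF v) : ContDiff ℝ ∞ (sV v) ∧ ContDiff ℝ ∞ (sW v) ∧ ContDiff ℝ ∞ (sO v) := by
  have hs := h.smooth
  refine ⟨?_, ?_, ?_⟩
  · exact avk_smooth (f := fun y => curl v y 2) (Bds1_proj_smooth (curl_smooth hs) 2) 1
  · have h1 : sW v = avk 1 (fun y => - pd 2 (fun z => v z 2) y) := by
      rw [← Bds1_div hs]
      rfl
    rw [h1]
    exact avk_smooth (pd_smooth (Bds1_proj_smooth hs 2) 2).neg 1
  · exact avk_smooth (f := fun y => curl (curl v) y 2)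
      (Bds1_proj_smooth (curl_smooth (curl_smooth hs)) 2) 1

theorem rdrV {v : E3 → E3} (h : AxF v) (x : E3) : rdr (sV v) x = curl v x 2 - 2 * sV v x := by
  have h1 : circ v = fun y => rsq y * avk 1 (fun z => curl v z 2) y := by
    funext y
    exact circ_eq h y
  have h2 := rdr_circ h x
  rw [h1] at h2
  exact DyI_gen (g := fun z => curl v z 2) (sm_V h).1 h2

theorem rdrW {v : E3 → E3} (h : AxF v) (x : E3) : rdr (sW v) x = - pd 2 (fun y => v y 2) x - 2 * sW v x := by
  have h1 : radFlux v = fun y => rsq y * avk 1 (fun z => - fderiv ℝ v z (e 2) 2) y := by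
    funext y
    exact flux_eq h y
  have h2 := rdr_radFlux h x
  rw [h1] at h2
  have h3 := DyI_gen (g := fun z => - fderiv ℝ v z (e 2) 2) (sm_V h).2.1 h2
  have h4 : - fderiv ℝ v x (e 2) 2 = - pd 2 (fun y => v y 2) x := congrFun (Bds1_div h.smooth) x
  rw [← h4]
  exact h3

theorem fluxz {v : E3 → E3} (h : AxF v) (x : E3) :
    x 0 * pd 2 (fun y => v y 0) x + x 1 * pd 2 (fun y => v y 1) x = rsq x * pd 2 (sW v) x := by
  have h1 : radFlux v = fun y => rsq y * sW v y := by
    funext y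
    exact flux_eq h y
  have h2 : radFlux v = fun y => y 0 * v y 0 + y 1 * v y 1 := rfl
  have hc := fun k : Fin 3 => VRep_coord h.smooth k
  have h3 : pd 2 (radFlux v) x = x 0 * pd 2 (fun y => v y 0) x + x 1 * pd 2 (fun y => v y 1) x := by
    rw [h2, DyI_pd_add ((VRep_x 0).mul (hc 0)) ((VRep_x 1).mul (hc 1)), EVe_pd_mul (VRep_x 0) (hc 0),
      EVe_pd_mul (VRep_x 1) (hc 1), DyI_pd_coord 0 (by decide), DyI_pd_coord 1 (by decide)]
    ring
  rw [← h3, h1, EVe_pd_mul EVe_rsq_smooth (sm_V h).2.1, EVe_pd_rsq]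
  simp [e_apply]

theorem advz {v : E3 → E3} (h : AxF v) {x : E3} (hx : 0 < rsq x) :
    ∑ i, pd 2 (fun y => v y i) x * pd i (sV v) x = pd 2 (sW v) x * rdr (sV v) x - (2 * sW v x + rdr (sW v) x) * Zz v x := by
  obtain ⟨h1, h2⟩ := hor (sm_V h).1 (sV_rot h) x
  have h3 := fluxz h x
  have h4 := rdrW h x
  have h5 : pd 2 (fun y => v y 0) x * pd 0 (sV v) x + pd 2 (fun y => v y 1) x * pd 1 (sV v) x
      = pd 2 (sW v) x * rdr (sV v) x := by
    apply mul_left_cancel₀ hx.ne'
    linear_combination pd 2 (fun y => v y 0) x * h1 + pd 2 (fun y => v y 1) x * h2 + rdr (sV v) x * h3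
  have h6 : Zz v x = pd 2 (sV v) x := rfl
  rw [Fin.sum_univ_three, h6]
  linear_combination h5 + pd 2 (sV v) x * h4

theorem GZeq {v : E3 → E3} (h : AxF v) (x : E3) :
    GZ v x = (- pd 2 (fun y => v y 2) x - 2 * sW v x) * Zz v x - pd 2 (sW v) x * curl v x 2 := by
  unfold GZ
  rw [rdrW h, rdrV h]
  ring

end Pool.Agent.H37.EP
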