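import Pool.Agent.H94.EP.CoE
import Pool.Agent.H94.EP.DyI
import Pool.Agent.H87.NS.S1

/-! The criterion at one scale, in terms of the velocity and the vorticity (MP_09540e_EP). -/

set_option autoImplicit false

open Set Filter Topology MeasureTheory
open scoped ContDiff

namespace Pool.Agent.H94.EP

open Pool.Agent.H16 Pool.Agent.H87.NS Pool.Agent.H72.CC Pool.Agent.H16.TU

private theorem CoF_coord (k : Fin 3) (hk : k ≠ 2) (x : E3) : pd 2 (fun y : E3 => y k) x = 0 := by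
  have h : HasFDerivAt (fun y : E3 => y k) (EuclideanSpace.proj k : E3 →L[ℝ] ℝ) x :=
    (EuclideanSpace.proj k : E3 →L[ℝ] ℝ).hasFDerivAt
  unfold pd
  rw [h.fderiv]
  show e 2 k = 0
  rw [e_apply]
  simp [hk]

theorem circz {v : E3 → E3} (h : AxF v) (x : E3) :
    x 0 * pd 2 (fun y => v y 1) x - x 1 * pd 2 (fun y => v y 0) x = rsq x * Zz v x := by
  have h1 : circ v = fun y => rsq y * sV v y := by
    funext y
    exact circ_eq h y
  have h2 : circ v = fun y => y 0 * v y 1 + (-1 : ℝ) * (y 1 * v y 0) := by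
    funext y
    show y 0 * v y 1 - y 1 * v y 0 = _
    ring
  have hc := fun k : Fin 3 => VRep_coord h.smooth k
  have e0 : ContDiff ℝ ∞ (fun y : E3 => y 1 * v y 0) := (VRep_x 1).mul (hc 0)
  have e1 : ContDiff ℝ ∞ (fun y : E3 => y 0 * v y 1) := (VRep_x 0).mul (hc 1)
  have h3 : pd 2 (circ v) x = x 0 * pd 2 (fun y => v y 1) x - x 1 * pd 2 (fun y => v y 0) x := by
    have h4 : pd 2 (fun y => y 0 * v y 1 + (-1 : ℝ) * (y 1 * v y 0)) x =
        pd 2 (fun y => y 0 * v y 1) x + (-1 : ℝ) * pd 2 (fun y => y 1 * v y 0) x := by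
      unfold pd
      have d1 : DifferentiableAt ℝ (fun y : E3 => y 0 * v y 1) x := (e1.differentiable (by simp)) x
      have d0 : DifferentiableAt ℝ (fun y : E3 => y 1 * v y 0) x := (e0.differentiable (by simp)) x
      have d2 : HasFDerivAt (fun y : E3 => y 0 * v y 1 + (-1 : ℝ) * (y 1 * v y 0))
          (fderiv ℝ (fun y : E3 => y 0 * v y 1) x + (-1 : ℝ) • fderiv ℝ (fun y : E3 => y 1 * v y 0) x) x :=
        d1.hasFDerivAt.add (d0.hasFDerivAt.const_mul (-1 : ℝ))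
      rw [d2.fderiv]
      rfl
    rw [h2, h4, EVe_pd_mul (VRep_x 0) (hc 1), EVe_pd_mul (VRep_x 1) (hc 0), CoF_coord 0 (by decide),
      CoF_coord 1 (by decide)]
    ring
  rw [← h3, h1, EVe_pd_mul EVe_rsq_smooth (Pool.Agent.H37.EP.sm_V h).1, EVe_pd_rsq]
  simp [e_apply, Zz]

/-- `ω_r² + ω_θ² = r² (Z² + O²)`. -/
theorem curl_sq {v : E3 → E3} (hv : AxF v) {x : E3} (hx : 0 < rsq x) :
    (curl v x 0 ^ 2 + curl v x 1 ^ 2) / rsq x = Zz v x ^ 2 + sO v x ^ 2 := by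
  obtain ⟨R0, R1, R2⟩ := ax_id hv x
  have c0 : curl v x 0 = fderiv ℝ v x (e 1) 2 - fderiv ℝ v x (e 2) 1 := rfl
  have c1 : curl v x 1 = fderiv ℝ v x (e 2) 0 - fderiv ℝ v x (e 0) 2 := rfl
  have hz := circz hv x
  rw [pd_comp hv.smooth, pd_comp hv.smooth] at hz
  have ho : x 0 * curl v x 1 - x 1 * curl v x 0 = rsq x * sO v x := om_eq hv x
  have hr : x 0 * curl v x 0 + x 1 * curl v x 1 = - (rsq x * Zz v x) := by
    rw [c0, c1]
    linear_combination R2 - hz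
  have hs : rsq x = x 0 ^ 2 + x 1 ^ 2 := rfl
  rw [div_eq_iff hx.ne']
  have key : rsq x * (curl v x 0 ^ 2 + curl v x 1 ^ 2) = rsq x * ((Zz v x ^ 2 + sO v x ^ 2) * rsq x) := by
    calc rsq x * (curl v x 0 ^ 2 + curl v x 1 ^ 2)
        = (x 0 * curl v x 0 + x 1 * curl v x 1) ^ 2 + (x 0 * curl v x 1 - x 1 * curl v x 0) ^ 2 := by
          rw [hs]; ring
      _ = (- (rsq x * Zz v x)) ^ 2 + (rsq x * sO v x) ^ 2 := by rw [hr, ho]
      _ = _ := by ring
  exact mul_left_cancel₀ hx.ne' key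

/-- The criterion at one scale. -/
theorem two : ∃ c : ℝ, 0 < c ∧ ∀ (T : ℝ) (u : ℝ → E3 → E3) (p : ℝ → E3 → ℝ), IsHInfAxisymNS T u p → ∀ t₀ r K : ℝ,
    0 ≤ t₀ → t₀ < T → 0 < r → 0 ≤ K →
    (∀ t ∈ Ico t₀ T, ∀ x, rad x < r → |circ (u t) x| ≤ c / Real.log (2 + K)) →
    (∫ x, ‖u 0 x‖ ^ 2 ≤ K * r ∨
      (∀ t ∈ Ico t₀ T, ∀ z, ∫ x in Metric.ball (axp z) r, ‖u t x‖ ^ 2 ≤ K * r) ∧
      (∀ s t : ℝ, t₀ ≤ s → s ≤ t → t < T → t ≤ s + r ^ 2 → ∀ z,
        ∫ τ in s..t, ∫ x in Metric.ball (axp z) r, gv (u τ) x ≤ K * r)) →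
    (∀ x, rad x < r → |circ (u t₀) x| ≤ K * (rad x / r) ^ 2) →
    (∀ z, ∫ x in Metric.ball (axp z) r, (curl (u t₀) x 0 ^ 2 + curl (u t₀) x 1 ^ 2) / rsq x ≤ K / r ^ 3) →
    ∃ C : ℝ, ∀ t ∈ Ico t₀ T, ∀ x, rad x < r → |circ (u t) x| ≤ C * rad x := by
  obtain ⟨c, hc, H⟩ := one
  refine ⟨c, hc, fun T u p h t₀ r K ht₀ htT hr hK hΓ hen hV hω => ?_⟩
  have hmem : t₀ ∈ Ico 0 T := ⟨ht₀, htT⟩
  have hv : AxF (u t₀) := axF_of h.ns hmem
  have hr2 : 0 < r ^ 2 := pow_pos hr 2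
  have hr3 : 0 < r ^ 3 := pow_pos hr 3
  refine H T u p h t₀ hmem r K hr hK hΓ ?_ ?_ ?_ ?_
  · intro t ht z
    rcases hen with hen | hen
    · exact (en_le h ⟨ht₀.trans ht.1, ht.2⟩ z r).trans hen
    · exact hen.1 t ht z
  · intro s t hs hst ht hts z
    rcases hen with hen | hen
    · exact (di_le h (ht₀.trans hs) hst ht z r).trans hen
    · exact hen.2 s t hs hst ht hts z
  · -- the bound of `V` by continuity
    have hc : Continuous (sV (u t₀)) := (Pool.Agent.H37.EP.sm_V hv).1.continuous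
    have hoff : ∀ x, 0 < rsq x → rad x < r → r ^ 2 * |sV (u t₀) x| ≤ K := by
      intro x hx hxr
      have h1 := hV x hxr
      rw [circ_eq hv, abs_mul, abs_of_pos hx, div_pow, rad_sq', mul_div_assoc', le_div_iff₀ hr2] at h1
      have h2 : rsq x * (r ^ 2 * |sV (u t₀) x|) ≤ rsq x * K := by linarith
      exact le_of_mul_le_mul_left h2 hx
    intro x hxr
    by_cases hx : 0 < rsq x
    · exact hoff x hx hxr
    have h0 : x 0 ^ 2 + x 1 ^ 2 = 0 := le_antisymm (not_lt.1 hx) (by positivity)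
    have hx0 : x 0 = 0 := by nlinarith [sq_nonneg (x 0), sq_nonneg (x 1)]
    have hx1 : x 1 = 0 := by nlinarith [sq_nonneg (x 0), sq_nonneg (x 1)]
    have hrs : ∀ s : ℝ, rsq (x + s • e 0) = s ^ 2 := by
      intro s
      have h1 : (x + s • e 0 : E3) 0 = s := by
        show x 0 + s * e 0 0 = s
        rw [hx0, e_apply]; simp
      have h2 : (x + s • e 0 : E3) 1 = 0 := by
        show x 1 + s * e 0 1 = 0
        rw [hx1, e_apply]; simp
      unfold rsq
      rw [h1, h2]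
      ring
    have hcs : Continuous (fun s : ℝ => r ^ 2 * |sV (u t₀) (x + s • e 0)|) :=
      continuous_const.mul ((hc.comp (continuous_const.add (continuous_id.smul continuous_const))).abs)
    have hlim : Tendsto (fun s : ℝ => r ^ 2 * |sV (u t₀) (x + s • e 0)|) (𝓝[>] 0) (𝓝 (r ^ 2 * |sV (u t₀) x|)) := by
      have h1 := (hcs.tendsto 0).mono_left (nhdsWithin_le_nhds (s := Ioi (0 : ℝ)))
      simpa using h1
    refine le_of_tendsto hlim ?_
    have hev : ∀ᶠ s : ℝ in 𝓝[>] 0, s ∈ Ioo (0 : ℝ) r := Ioo_mem_nhdsGT hr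
    filter_upwards [hev] with s hs
    have h1 : 0 < rsq (x + s • e 0) := by
      rw [hrs]
      exact pow_pos hs.1 2
    refine hoff _ h1 ?_
    have h2 : rad (x + s • e 0) ^ 2 = s ^ 2 := by rw [rad_sq', hrs]
    have h3 : 0 ≤ rad (x + s • e 0) := Real.sqrt_nonneg _
    have h4 : rad (x + s • e 0) = s := by
      have := hs.1
      nlinarith
    rw [h4]
    exact hs.2
  · intro z
    have h1 := hω z
    have h2 : ∫ x in Metric.ball (axp z) r, (Zz (u t₀) x ^ 2 + sO (u t₀) x ^ 2) =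
        ∫ x in Metric.ball (axp z) r, (curl (u t₀) x 0 ^ 2 + curl (u t₀) x 1 ^ 2) / rsq x := by
      refine integral_congr_ae (ae_restrict_of_ae ?_)
      filter_upwards [Pool.Agent.H87.NS.axis_null] with x hx
      have hx' : 0 < rsq x := by
        rw [← rad_sq']
        positivity
      exact (curl_sq hv hx').symm
    rw [h2]
    calc r ^ 3 * _ ≤ r ^ 3 * (K / r ^ 3) := mul_le_mul_of_nonneg_left h1 hr3.le
      _ = K := by field_simp

end Pool.Agent.H94.EP
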