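import Pool.Agent.H94.EP.Defs

/-! The statements of the interface (Spec) as propositions, used as hypotheses of the assembly. -/

set_option autoImplicit false

open Set Filter Topology MeasureTheory
open scoped ContDiff

namespace Pool.Agent.H94.EP

open Pool.Agent.H16 Pool.Agent.H87.NS Pool.Agent.H72.CC Pool.Agent.H16.TU

/-- Sup bounds near the axis. -/
def P1w : Prop := ∃ C : ℝ, 1 ≤ C ∧ ∀ (ε K κ L a : ℝ) (v : E3 → E3), Sl ε K κ v → C ≤ L → ∀ x, rsq x ≤ 1 / 4 → |x 2 - a| ≤ L →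
    sW v x ^ 2 ≤ C * (DO L a v + GG L a v) ∧ v x 2 ^ 2 ≤ C * (L * K + DO L a v + GG L a v)

/-- The one-point functional of `Z`. -/
def P1a : Prop := ∃ C : ℝ, 1 ≤ C ∧ ∀ (ε K κ L a : ℝ) (v : E3 → E3), Sl ε K κ v → C * K ≤ L → ε ^ 2 * Sc κ ≤ 1 →
    RJ L a v / 2 ≤ - (1 / 2) * DJ L a v + C * (ε ^ 2 * Sc κ * DO L a v + K ^ 2 * GG L a v)

/-- The one-point functional of `O`. -/
def P1b : Prop := ∃ C : ℝ, 1 ≤ C ∧ ∀ (ε K κ L a μ : ℝ) (v : E3 → E3), Sl ε K κ v → C * K ≤ L → 0 < μ →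
    RO L a v / 2 ≤ - (1 / 2) * DO L a v + μ * (YY κ L a v + DJ L a v + GG L a v) +
      C * ε ^ 2 / μ * (Sc κ ^ 2 * DO L a v + Sc κ * GG L a v) + C * K ^ 2 * GG L a v

/-- The two-point functional. -/
def P1c : Prop := ∃ C : ℝ, 1 ≤ C ∧ ∀ (ε K κ L a : ℝ) (v : E3 → E3), Sl ε K κ v → C * K ≤ L → ε ^ 2 * Sc κ ≤ 1 →
    RB (1 / Sc κ) L a v / 2 ≤ - (1 / 2) * (DB2 (1 / Sc κ) L a v + GB (1 / Sc κ) L a v) + 1 / 16 * DJ L a v +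
      C * (ε ^ 2 * Sc κ * DO L a v + (1 + K) * GG L a v + ε ^ 2 * L * K)

/-- The gain controls `∫ Z² / y`. -/
def P1g : Prop := ∃ C : ℝ, 1 ≤ C ∧ ∀ (ε K κ L a : ℝ) (v : E3 → E3), Sl ε K κ v → C ≤ L →
    YY κ L a v ≤ C * (Sc κ * GB (1 / Sc κ) L a v + DJ L a v / Sc κ)

/-- The dissipation controls the functional. -/
def P1h : Prop := ∃ C : ℝ, 1 ≤ C ∧ ∀ (ε K κ L a l : ℝ) (v : E3 → E3), Sl ε K κ v → C ≤ L → 0 ≤ l →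
    FF (1 / Sc κ) l L a v ≤ C * Sc κ * (D3 (1 / Sc κ) L a v + l * DO L a v) + C * (1 + l) * GG L a v

/-- The two-point functional is controlled by the one-point functional. -/
def P1n : Prop := ∃ C : ℝ, 1 ≤ C ∧ ∀ (κ L a : ℝ) (v : E3 → E3), Vs v → 1 ≤ κ → 1 ≤ L →
    BB (1 / Sc κ) L a v ≤ C * NJ L a v

/-- Continuity in time. -/
def P2c : Prop := ∀ (T : ℝ) (u : ℝ → E3 → E3) (p : ℝ → E3 → ℝ), IsHInfAxisymNS T u p → ∀ θ l L a : ℝ, 0 < θ → θ ≤ 1 / 2 → 1 ≤ L →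
    ContinuousOn (fun t => DJ L a (u t)) (Ico 0 T) ∧ ContinuousOn (fun t => DO L a (u t)) (Ico 0 T) ∧
    ContinuousOn (fun t => GG L a (u t)) (Ico 0 T) ∧ ContinuousOn (fun t => DB2 θ L a (u t)) (Ico 0 T) ∧
    ContinuousOn (fun t => GB θ L a (u t)) (Ico 0 T) ∧ ContinuousOn (fun t => FF θ l L a (u t)) (Ico 0 T) ∧
    ContinuousOn (fun t => RJ L a (u t)) (Ico 0 T) ∧ ContinuousOn (fun t => RO L a (u t)) (Ico 0 T) ∧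
    ContinuousOn (fun t => RB θ L a (u t)) (Ico 0 T)

/-- The energy inequality. -/
def P2 : Prop := ∀ (T : ℝ) (u : ℝ → E3 → E3) (p : ℝ → E3 → ℝ), IsHInfAxisymNS T u p → ∀ θ l L a : ℝ, 0 < θ → θ ≤ 1 / 2 → 1 ≤ L → 0 ≤ l →
    ∀ t₁ t₂ : ℝ, 0 ≤ t₁ → t₁ ≤ t₂ → t₂ < T →
    FF θ l L a (u t₂) ≤ FF θ l L a (u t₁) +
      ∫ s in t₁..t₂, (RJ L a (u s) / 2 + RB θ L a (u s) / 2 + l * (RO L a (u s) / 2))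

/-- Slices. -/
def P2v : Prop := ∀ (T : ℝ) (u : ℝ → E3 → E3) (p : ℝ → E3 → ℝ), IsHInfAxisymNS T u p → ∀ t ∈ Ico 0 T, Vs (u t)

/-- `V` is Lipschitz in time. -/
def P2l : Prop := ∀ (T : ℝ) (u : ℝ → E3 → E3) (p : ℝ → E3 → ℝ), IsHInfAxisymNS T u p → ∀ b < T,
    ∃ B : ℝ, 0 ≤ B ∧ (∀ t ∈ Icc 0 b, ∀ x, |sV (u t) x| ≤ B) ∧
      ∀ s ∈ Icc 0 b, ∀ t ∈ Icc 0 b, ∀ x, |sV (u t) x - sV (u s) x| ≤ B * |t - s|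

/-- The barrier. -/
def P3 : Prop := ∃ C : ℝ, 1 ≤ C ∧ ∀ (T : ℝ) (u : ℝ → E3 → E3) (p : ℝ → E3 → ℝ), IsHInfAxisymNS T u p →
    ∀ ε > 0, ∀ t₀ t₁ : ℝ, 0 ≤ t₀ → t₀ ≤ t₁ → t₁ < T →
    (∀ t ∈ Icc t₀ t₁, ∀ x, rad x < 1 → |circ (u t) x| ≤ ε) →
    ∀ P : ℝ, 1 ≤ P → (∀ x, rad x < 1 → |sV (u t₀) x| ≤ ε * P) → ∀ (a : ℝ) (q : ℝ → ℝ), ContinuousOn q (Icc t₀ t₁) → (∀ t, 0 ≤ q t) →
    (∀ t ∈ Icc t₀ t₁, ∀ x, rsq x ≤ 1 / 4 → |x 2 - a| ≤ 1 → sW (u t) x ^ 2 ≤ q t ∧ u t x 2 ^ 2 ≤ q t) →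
    (∀ s t : ℝ, t₀ ≤ s → s ≤ t → t ≤ t₁ → t ≤ s + 1 → ∫ r in s..t, q r ≤ P) →
    ∀ x, rad x < 1 → x 2 = a → |circ (u t₁) x| ≤ C * ε * √P * rad x

end Pool.Agent.H94.EP
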