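import Pool.Agent.H16.TU.Defs4

/-! Circulation small against the logarithm of the local energy: definitions. -/

set_option autoImplicit false

open Set Filter Topology MeasureTheory
open scoped ContDiff

namespace Pool.Agent.H94.EP

open Pool.Agent.H16 Pool.Agent.H87.NS Pool.Agent.H72.CC Pool.Agent.H16.TU

/-! `V = sV v = u_θ / r`, `W = sW v = u_r / r`, `O = sO v = ω_θ / r`, `circ v = rsq * V`, `Z = ∂₂ V`. -/

/-- The height weight. -/
noncomputable def ph (L a s : ℝ) : ℝ := (1 + (s - a) ^ 2 / L ^ 2)⁻¹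

/-- Horizontal cutoff: `1` for `rsq ≤ 1/4`, `0` for `rsq ≥ 1/2`. -/
noncomputable def c1 (x : E3) : ℝ := Real.smoothTransition (2 - 4 * rsq x)

/-- Horizontal cutoff: `1` for `rsq ≤ 1/16`, `0` for `rsq ≥ 1/8`. -/
noncomputable def c2 (x : E3) : ℝ := Real.smoothTransition (2 - 16 * rsq x)

/-- Cutoff of the shifts: `1` for `|h| ≤ 1/16`, `0` for `h² ≥ 1/128`. -/
noncomputable def zh (h : ℝ) : ℝ := Real.smoothTransition (2 - 256 * h ^ 2)

/-- The weight of the one-point functionals. -/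
noncomputable def A1 (L a : ℝ) (x : E3) : ℝ := c1 x ^ 4 * ph L a (x 2)

/-- `∂_z (u_θ / r)`. -/
noncomputable def Zz (v : E3 → E3) : E3 → ℝ := pd 2 (sV v)

/-- The shift along the axis. -/
noncomputable def sh2 (h : ℝ) (x : E3) : E3 := x + h • e 2

/-- The increment of `V` along the axis. -/
noncomputable def fh (h : ℝ) (v : E3 → E3) (x : E3) : ℝ := sV v (sh2 h x) - sV v x

/-- The source of the equation of `Z`. -/
noncomputable def GZ (v : E3 → E3) (x : E3) : ℝ :=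
  rdr (sW v) x * Zz v x - pd 2 (sW v) x * (2 * sV v x + rdr (sV v) x)

/-- The source of the equation of `O`. -/
noncomputable def GO (v : E3 → E3) (x : E3) : ℝ := 2 * sV v x * Zz v x

/-- The source of the equation of `fh h`. -/
noncomputable def Gh (h : ℝ) (v : E3 → E3) (x : E3) : ℝ :=
  -2 * (sW v (sh2 h x) * sV v (sh2 h x) - sW v x * sV v x) - adv (v (sh2 h x) - v x) (sV v) (sh2 h x)

/-- The kernel in `h`. -/
noncomputable def kh (θ h : ℝ) : ℝ := θ * |h| ^ (θ - 3) * zh h ^ 2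

/-- The weight in `x` of the two-point functional, with the exponent `s` of `y = rsq / 2`. -/
noncomputable def kx (s L a h : ℝ) (x : E3) : ℝ := (rsq x / 2) ^ s * c2 x ^ 4 * ph L a (x 2 + h / 2)

/-! ## Functionals -/

/-- `∫ Z²`. -/
noncomputable def NJ (L a : ℝ) (v : E3 → E3) : ℝ := ∫ x, A1 L a x * Zz v x ^ 2

/-- `∫ O²`. -/
noncomputable def NO (L a : ℝ) (v : E3 → E3) : ℝ := ∫ x, A1 L a x * sO v x ^ 2

/-- Dissipation of `Z`. -/
noncomputable def DJ (L a : ℝ) (v : E3 → E3) : ℝ := ∫ x, A1 L a x * gsq (Zz v) x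

/-- Dissipation of `O`. -/
noncomputable def DO (L a : ℝ) (v : E3 → E3) : ℝ := ∫ x, A1 L a x * gsq (sO v) x

/-- Local dissipation of energy. -/
noncomputable def GG (L a : ℝ) (v : E3 → E3) : ℝ := ∫ x in {x : E3 | rsq x < 1 / 2}, ph L a (x 2) * gv v x

/-- The two-point functional. -/
noncomputable def BB (θ L a : ℝ) (v : E3 → E3) : ℝ := ∫ h, kh θ h * ∫ x, kx θ L a h x * fh h v x ^ 2

/-- Its dissipation. -/
noncomputable def DB2 (θ L a : ℝ) (v : E3 → E3) : ℝ := ∫ h, kh θ h * ∫ x, kx θ L a h x * gsq (fh h v) x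

/-- Its gain. -/
noncomputable def GB (θ L a : ℝ) (v : E3 → E3) : ℝ :=
  θ * (1 - θ) * ∫ h, kh θ h * ∫ x, kx (θ - 1) L a h x * fh h v x ^ 2

/-- `∫ Z² / y` away from the axis. -/
noncomputable def YY (κ L a : ℝ) (v : E3 → E3) : ℝ :=
  ∫ x in {x : E3 | 1 ≤ κ * rad x ∧ rsq x ≤ 1 / 16}, ph L a (x 2) * Zz v x ^ 2 / rsq x

/-- The total functional. -/
noncomputable def FF (θ l L a : ℝ) (v : E3 → E3) : ℝ := (NJ L a v + BB θ L a v + l * NO L a v) / 2

/-- The total dissipation without the part of `O`. -/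
noncomputable def D3 (θ L a : ℝ) (v : E3 → E3) : ℝ := DJ L a v + DB2 θ L a v + GB θ L a v

/-! ## Rates -/

/-- The square. -/
def sqf (s : ℝ) : ℝ := s ^ 2

/-- The rate of `NJ`. -/
noncomputable def RJ (L a : ℝ) (v : E3 → E3) : ℝ := ∫ x, evJ sqf (v) (Zz v) (GZ v) (A1 L a) x

/-- The rate of `NO`. -/
noncomputable def RO (L a : ℝ) (v : E3 → E3) : ℝ := ∫ x, evJ sqf (v) (sO v) (GO v) (A1 L a) x

/-- The rate of `BB`. -/
noncomputable def RB (θ L a : ℝ) (v : E3 → E3) : ℝ :=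
  ∫ h, kh θ h * ∫ x, evJ sqf (v) (fh h v) (Gh h v) (kx θ L a h) x

/-- Smooth axially symmetric fields, bounded and square integrable with all derivatives. -/
structure Vs (v : E3 → E3) : Prop where
  ax : AxF v
  db : ∀ n, ∃ B : ℝ, ∀ j : Fin 3, DB n B (fun x => v x j)

/-- Slices of the flow at scale one: circulation at most `ε min (1, κ r)`, energy of unit balls at most `K`. -/
structure Sl (ε K κ : ℝ) (v : E3 → E3) : Prop where
  vs : Vs v
  e0 : 0 < ε
  e1 : ε ≤ 1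
  k1 : 1 ≤ κ
  K2 : 2 ≤ K
  gam : ∀ x, rad x < 1 → |circ v x| ≤ ε * min 1 (κ * rad x)
  en : ∀ z, ∫ x in Metric.ball (axp z) 1, ‖v x‖ ^ 2 ≤ K

/-- The number of scales. -/
noncomputable def Sc (κ : ℝ) : ℝ := 20 + 4 * Real.log κ

end Pool.Agent.H94.EP
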