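import Pool.Agent.H94.EP.DyS
import Pool.Agent.H94.EP.DyB

/-
The increments along the axis are Lipschitz in the shift, and jointly continuous in time, shift and space.
-/

set_option autoImplicit false

open Set Filter Topology MeasureTheory
open scoped ContDiff

namespace Pool.Agent.H37.EP

open Pool.Agent.H16 Pool.Agent.H87.NS Pool.Agent.H72.CC Pool.Agent.H16.TU Pool.Agent.H94.EP

theorem sh_lip {f : E3 → ℝ} (hf : Differentiable ℝ f) {K : ℝ} (hK : ∀ x, |pd 2 f x| ≤ K) (s : ℝ) (x : E3) : |f (sh2 s x) - f x| ≤ K * |s| := by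
  have hd : ∀ τ ∈ (univ : Set ℝ), HasDerivWithinAt (fun τ : ℝ => f (x + τ • e 2)) (pd 2 f (x + τ • e 2)) univ τ := by
    intro τ _
    have h1 : HasDerivAt (fun τ : ℝ => x + τ • e 2) (e 2) τ := by
      have h2 := ((hasDerivAt_id τ).smul_const (e 2)).const_add x
      rw [one_smul] at h2
      exact h2
    exact ((hf (x + τ • e 2)).hasFDerivAt.comp_hasDerivAt τ h1).hasDerivWithinAt
  have h := convex_univ.norm_image_sub_le_of_norm_hasDerivWithin_le hd (C := K)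
    (fun τ _ => hK _) (mem_univ 0) (mem_univ s)
  simp only [zero_smul, add_zero, sub_zero, Real.norm_eq_abs] at h
  exact h

variable {T : ℝ} {u : ℝ → E3 → E3} {p : ℝ → E3 → ℝ}

private theorem DyK_mul {a b c d K t : ℝ} (hK : 0 ≤ K) (ht : 0 ≤ t) (ha : |a| ≤ K) (hd : |d| ≤ K)
    (hab : |a - c| ≤ K * t) (hbd : |b - d| ≤ K * t) : |a * b - c * d| ≤ 2 * K ^ 2 * t := by
  have h1 : a * b - c * d = a * (b - d) + (a - c) * d := by ring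
  have h0 : 0 ≤ K * t := mul_nonneg hK ht
  rw [h1]
  calc |a * (b - d) + (a - c) * d| ≤ |a * (b - d)| + |(a - c) * d| := abs_add_le _ _
    _ = |a| * |b - d| + |a - c| * |d| := by rw [abs_mul, abs_mul]
    _ ≤ K * (K * t) + (K * t) * K :=
        add_le_add (mul_le_mul ha hbd (abs_nonneg _) hK) (mul_le_mul hab hd (abs_nonneg _) h0)
    _ = 2 * K ^ 2 * t := by ring

theorem fhK (h : IsHInfAxisymNS T u p) {b : ℝ} (hb : b < T) : ∃ K : ℝ, 0 ≤ K ∧ ∀ t ∈ Icc 0 b, ∀ (s : ℝ) (x : E3),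
    |fh s (u t) x| ≤ K * |s| ∧ (∀ i, |pd i (fh s (u t)) x| ≤ K * |s|) ∧ |Gh s (u t) x| ≤ K * |s| ∧
      fh s (u t) x ^ 2 ≤ K * s ^ 2 ∧ gsq (fh s (u t)) x ≤ K * s ^ 2 ∧ |fh s (u t) x * Gh s (u t) x| ≤ K * s ^ 2 ∧
      |sW (u t) x| ≤ K ∧ |u t x 2| ≤ K := by
  obtain ⟨K, hK0, hK⟩ := bds h hb 3
  have hK2 : 0 ≤ K ^ 2 := by positivity
  have hK3 : 0 ≤ K ^ 3 := by positivity
  refine ⟨K + 7 * K ^ 2 + 7 * K ^ 3, by positivity, fun t ht s x => ?_⟩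
  have ht' : t ∈ Ico 0 T := ⟨ht.1, lt_of_le_of_lt ht.2 hb⟩
  have hA : AxF (u t) := axF_of h.ns ht'
  obtain ⟨hV, hW, -, hu, -⟩ := hK t ht
  obtain ⟨sV', sW', -⟩ := sm_V hA
  have hs : 0 ≤ |s| := abs_nonneg s
  have hs2 : |s| * |s| = s ^ 2 := by rw [abs_mul_abs_self, _root_.sq]
  have hV1 : ∀ i y, |pd i (sV (u t)) y| ≤ K := fun i y => (hV.2 i).1.1 y
  have hV2 : ∀ i j y, |pd j (pd i (sV (u t))) y| ≤ K := fun i j y => ((hV.2 i).2 j).1.1 y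
  have hW1 : ∀ i y, |pd i (sW (u t)) y| ≤ K := fun i y => (hW.2 i).1.1 y
  have hu1 : ∀ (j i : Fin 3) y, |pd i (fun z => u t z j) y| ≤ K := fun j i y => ((hu j).2 i).1.1 y
  have lV : |sV (u t) (sh2 s x) - sV (u t) x| ≤ K * |s| := sh_lip (sV'.differentiable (by simp)) (hV1 2) s x
  have lW : |sW (u t) (sh2 s x) - sW (u t) x| ≤ K * |s| := sh_lip (sW'.differentiable (by simp)) (hW1 2) s x
  have ldV : ∀ i, |pd i (sV (u t)) (sh2 s x) - pd i (sV (u t)) x| ≤ K * |s| := fun i =>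
    sh_lip ((pd_smooth sV' i).differentiable (by simp)) (hV2 i 2) s x
  have lu : ∀ j : Fin 3, |u t (sh2 s x) j - u t x j| ≤ K * |s| := fun j =>
    sh_lip (f := fun z => u t z j) ((Bds1_proj_smooth hA.smooth j).differentiable (by simp)) (hu1 j 2) s x
  have hfh : |fh s (u t) x| ≤ K * |s| := lV
  have hpd : ∀ i, |pd i (fh s (u t)) x| ≤ K * |s| := by
    intro i
    rw [fh_pd hA]
    exact ldV i
  have hG : |Gh s (u t) x| ≤ 7 * K ^ 2 * |s| := by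
    have h1 : |sW (u t) (sh2 s x) * sV (u t) (sh2 s x) - sW (u t) x * sV (u t) x| ≤ 2 * K ^ 2 * |s| :=
      DyK_mul hK0 hs (hW.1.1 _) (hV.1.1 _) lW lV
    have h2 : ∀ i : Fin 3, |(u t (sh2 s x) i - u t x i) * pd i (sV (u t)) (sh2 s x)| ≤ K ^ 2 * |s| := by
      intro i
      rw [abs_mul]
      calc |u t (sh2 s x) i - u t x i| * |pd i (sV (u t)) (sh2 s x)| ≤ (K * |s|) * K :=
            mul_le_mul (lu i) (hV1 i _) (abs_nonneg _) (mul_nonneg hK0 hs)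
        _ = K ^ 2 * |s| := by ring
    have h3 : |adv (u t (sh2 s x) - u t x) (sV (u t)) (sh2 s x)| ≤ 3 * (K ^ 2 * |s|) := by
      have h4 : adv (u t (sh2 s x) - u t x) (sV (u t)) (sh2 s x)
          = ∑ i : Fin 3, (u t (sh2 s x) i - u t x i) * pd i (sV (u t)) (sh2 s x) := rfl
      rw [h4]
      calc |∑ i : Fin 3, (u t (sh2 s x) i - u t x i) * pd i (sV (u t)) (sh2 s x)|
          ≤ ∑ i : Fin 3, |(u t (sh2 s x) i - u t x i) * pd i (sV (u t)) (sh2 s x)| :=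
            Finset.abs_sum_le_sum_abs _ _
        _ ≤ ∑ _i : Fin 3, K ^ 2 * |s| := Finset.sum_le_sum fun i _ => h2 i
        _ = 3 * (K ^ 2 * |s|) := by simp
    unfold Gh
    rw [abs_le] at h1 h3 ⊢
    constructor <;> nlinarith [h1.1, h1.2, h3.1, h3.2]
  have hC : K ≤ K + 7 * K ^ 2 + 7 * K ^ 3 := by linarith
  have hC2 : 7 * K ^ 2 ≤ K + 7 * K ^ 2 + 7 * K ^ 3 := by linarith
  have hs0 : 0 ≤ s ^ 2 := sq_nonneg s
  have hsq : ∀ a : ℝ, |a| ≤ K * |s| → a ^ 2 ≤ K ^ 2 * s ^ 2 := by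
    intro a ha
    calc a ^ 2 = |a| * |a| := by rw [abs_mul_abs_self, _root_.sq]
      _ ≤ (K * |s|) * (K * |s|) := mul_le_mul ha ha (abs_nonneg _) (mul_nonneg hK0 hs)
      _ = K ^ 2 * (|s| * |s|) := by ring
      _ = K ^ 2 * s ^ 2 := by rw [hs2]
  refine ⟨hfh.trans (mul_le_mul_of_nonneg_right hC hs),
    fun i => (hpd i).trans (mul_le_mul_of_nonneg_right hC hs),
    hG.trans (mul_le_mul_of_nonneg_right hC2 hs), ?_, ?_, ?_, (hW.1.1 x).trans hC, ((hu 2).1.1 x).trans hC⟩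
  · exact (hsq _ hfh).trans (mul_le_mul_of_nonneg_right (by linarith) hs0)
  · have h1 : gsq (fh s (u t)) x ≤ 3 * (K ^ 2 * s ^ 2) := by
      unfold gsq
      calc ∑ i, pd i (fh s (u t)) x ^ 2 ≤ ∑ _i : Fin 3, K ^ 2 * s ^ 2 :=
            Finset.sum_le_sum fun i _ => hsq _ (hpd i)
        _ = 3 * (K ^ 2 * s ^ 2) := by simp
    have h2 : 0 ≤ K ^ 2 * s ^ 2 := mul_nonneg hK2 hs0
    have h3 : 0 ≤ K * s ^ 2 := mul_nonneg hK0 hs0
    have h4 : 0 ≤ K ^ 3 * s ^ 2 := mul_nonneg hK3 hs0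
    calc gsq (fh s (u t)) x ≤ 3 * (K ^ 2 * s ^ 2) := h1
      _ ≤ K * s ^ 2 + 7 * (K ^ 2 * s ^ 2) + 7 * (K ^ 3 * s ^ 2) := by linarith
      _ = (K + 7 * K ^ 2 + 7 * K ^ 3) * s ^ 2 := by ring
  · rw [abs_mul]
    have h3 : 0 ≤ K * s ^ 2 := mul_nonneg hK0 hs0
    have h2 : 0 ≤ K ^ 2 * s ^ 2 := mul_nonneg hK2 hs0
    calc |fh s (u t) x| * |Gh s (u t) x| ≤ (K * |s|) * (7 * K ^ 2 * |s|) :=
          mul_le_mul hfh hG (abs_nonneg _) (mul_nonneg hK0 hs)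
      _ = 7 * (K ^ 3 * (|s| * |s|)) := by ring
      _ = 7 * (K ^ 3 * s ^ 2) := by rw [hs2]
      _ ≤ K * s ^ 2 + 7 * (K ^ 2 * s ^ 2) + 7 * (K ^ 3 * s ^ 2) := by linarith
      _ = (K + 7 * K ^ 2 + 7 * K ^ 3) * s ^ 2 := by ring

private theorem DyK_sh {f : ℝ → E3 → ℝ} (hf : JC T f) :
    ContinuousOn (fun q : ℝ × ℝ × E3 => f q.1 (sh2 q.2.1 q.2.2)) {q | q.1 ∈ Ico 0 T} := by
  have hc : Continuous (fun q : ℝ × ℝ × E3 => ((q.1, q.2.2 + q.2.1 • e 2) : ℝ × E3)) := by fun_prop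
  have h1 := ContinuousOn.comp (g := fun q : ℝ × E3 => f q.1 q.2) hf hc.continuousOn
    (s := {q : ℝ × ℝ × E3 | q.1 ∈ Ico 0 T}) (fun q hq => ⟨hq, mem_univ _⟩)
  exact h1

private theorem DyK_id {f : ℝ → E3 → ℝ} (hf : JC T f) :
    ContinuousOn (fun q : ℝ × ℝ × E3 => f q.1 q.2.2) {q | q.1 ∈ Ico 0 T} := by
  have hc : Continuous (fun q : ℝ × ℝ × E3 => ((q.1, q.2.2) : ℝ × E3)) := by fun_prop
  have h1 := ContinuousOn.comp (g := fun q : ℝ × E3 => f q.1 q.2) hf hc.continuousOn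
    (s := {q : ℝ × ℝ × E3 | q.1 ∈ Ico 0 T}) (fun q hq => ⟨hq, mem_univ _⟩)
  exact h1

theorem jc_fh (h : IsHInfAxisymNS T u p) :
    ContinuousOn (fun q : ℝ × ℝ × E3 => fh q.2.1 (u q.1) q.2.2) {q | q.1 ∈ Ico 0 T} ∧
    ContinuousOn (fun q : ℝ × ℝ × E3 => gsq (fh q.2.1 (u q.1)) q.2.2) {q | q.1 ∈ Ico 0 T} ∧
    ContinuousOn (fun q : ℝ × ℝ × E3 => Gh q.2.1 (u q.1) q.2.2) {q | q.1 ∈ Ico 0 T} ∧
    ContinuousOn (fun q : ℝ × ℝ × E3 => sW (u q.1) q.2.2) {q | q.1 ∈ Ico 0 T} ∧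
    ContinuousOn (fun q : ℝ × ℝ × E3 => u q.1 q.2.2 2) {q | q.1 ∈ Ico 0 T} := by
  have hV := jcV h.ns
  have hW := jcW h.ns
  have hdV := fun i => jcdV h.ns i
  have hu := fun j => jcu h.ns j
  refine ⟨?_, ?_, ?_, DyK_id hW, DyK_id (hu 2)⟩
  · exact (DyK_sh hV).sub (DyK_id hV)
  · have h1 : ContinuousOn (fun q : ℝ × ℝ × E3 => ∑ i : Fin 3,
        (pd i (sV (u q.1)) (sh2 q.2.1 q.2.2) - pd i (sV (u q.1)) q.2.2) ^ 2) {q | q.1 ∈ Ico 0 T} :=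
      continuousOn_finsetSum _ fun i _ => ((DyK_sh (hdV i)).sub (DyK_id (hdV i))).pow 2
    refine h1.congr ?_
    rintro ⟨t, s, x⟩ ht
    have hA : AxF (u t) := axF_of h.ns ht
    show gsq (fh s (u t)) x = ∑ i : Fin 3, (pd i (sV (u t)) (sh2 s x) - pd i (sV (u t)) x) ^ 2
    unfold gsq
    exact Finset.sum_congr rfl fun i _ => by rw [fh_pd hA]
  · have h1 : ContinuousOn (fun q : ℝ × ℝ × E3 => -2 * (sW (u q.1) (sh2 q.2.1 q.2.2) *
          sV (u q.1) (sh2 q.2.1 q.2.2) - sW (u q.1) q.2.2 * sV (u q.1) q.2.2) -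
        ∑ i : Fin 3, (u q.1 (sh2 q.2.1 q.2.2) i - u q.1 q.2.2 i) * pd i (sV (u q.1)) (sh2 q.2.1 q.2.2))
        {q | q.1 ∈ Ico 0 T} := by
      refine ContinuousOn.sub (continuousOn_const.mul ?_) ?_
      · exact ((DyK_sh hW).mul (DyK_sh hV)).sub ((DyK_id hW).mul (DyK_id hV))
      · exact continuousOn_finsetSum _ fun i _ =>
          ((DyK_sh (hu i)).sub (DyK_id (hu i))).mul (DyK_sh (hdV i))
    exact h1

end Pool.Agent.H37.EP
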