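import Pool.Agent.H94.EP.Defs
import Pool.Agent.H87.NS.EVe

/-
ROW DyP (MP_09540e_EP). Product weights `pw Y P x = Y (rsq x) * P (x 2)` off the axis (static). Aux lemmas prefixed DyP_ . PROOF. The set `{x | 0 < rsq x}` is open (EVe_rsq_smooth.continuous), `Y` is smooth on `Ioi 0`.
`pw_at`: HasFDerivAt: chain rule, `Y` has derivative `deriv Y (rsq x)` at `rsq x > 0` (ContDiffOn on the open set gives ContDiffAt), `rsq` has the partial derivatives `2 x 0, 2 x 1, 0` (EVe_pd_rsq, e_apply), `x 2` has `0, 0, 1`; product rule.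
`pw_pdd`: in a neighbourhood of `x` (still off the axis) `pd i (pw Y P)` equals the formula of `pw_at`, i.e. `2 * y i * pw (deriv Y) P y` for `i = 0, 1` and `pw Y (deriv P)` for `i = 2` (Filter.EventuallyEq.fderiv_eq); `deriv Y` is again smooth on `Ioi 0`
  (ContDiffOn.deriv_of_isOpen), `deriv P` is smooth (contDiff_infty_iff_deriv): apply `pw_at` again and the product rule (`pd i` of the coordinate `y i` is `1`).
`pw_rdr`: unfold rdr, `x 0 ^ 2 + x 1 ^ 2 = rsq x`. `pw_L`: lap = sum of the three, `2 / rsq x * rdr = 4 deriv Y (rsq x) P` (field_simp), ring with `x 0 ^ 2 + x 1 ^ 2 = rsq x`.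
`pw_ev`: `deriv sqf s = 2 s`, `deriv (deriv sqf) s = 2` (funext, simp [sqf]); unfold evJ adv; `x 0 * v x 0 + x 1 * v x 1 = radFlux v x = rsq x * sW v x` (flux_eq; unfold radFlux); `pw_at`, `pw_L`.
-/

set_option autoImplicit false

open Set Filter Topology MeasureTheory
open scoped ContDiff

namespace Pool.Agent.H37.EP

open Pool.Agent.H16 Pool.Agent.H87.NS Pool.Agent.H72.CC Pool.Agent.H16.TU Pool.Agent.H94.EP

/-- Product weights. -/
noncomputable def pw (Y P : ℝ → ℝ) (x : E3) : ℝ := Y (rsq x) * P (x 2)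

/-- The radial profile of `A1`. -/
noncomputable def Y1 (ρ : ℝ) : ℝ := Real.smoothTransition (2 - 4 * ρ) ^ 4

/-- The radial profile of `kx`. -/
noncomputable def Y2 (s ρ : ℝ) : ℝ := (ρ / 2) ^ s * Real.smoothTransition (2 - 16 * ρ) ^ 4

/-- The shifted height weight. -/
noncomputable def Ph (L a h z : ℝ) : ℝ := ph L a (z + h / 2)

theorem A1_pw (L a : ℝ) : A1 L a = pw Y1 (ph L a) := rfl

theorem kx_pw (s L a h : ℝ) : kx s L a h = pw (Y2 s) (Ph L a h) := rfl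

variable {Y P : ℝ → ℝ}

private theorem DyP_proj (k : Fin 3) (x : E3) :
    HasFDerivAt (fun y : E3 => y k) (EuclideanSpace.proj k : E3 →L[ℝ] ℝ) x :=
  (EuclideanSpace.proj k : E3 →L[ℝ] ℝ).hasFDerivAt

private theorem DyP_rsq (x : E3) : HasFDerivAt (rsq : E3 → ℝ)
    ((2 * x 0) • (EuclideanSpace.proj 0 : E3 →L[ℝ] ℝ) + (2 * x 1) • (EuclideanSpace.proj 1 : E3 →L[ℝ] ℝ)) x := by
  have h := ((DyP_proj 0 x).pow 2).add ((DyP_proj 1 x).pow 2)
  refine h.congr_fderiv ?_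
  ext w
  simp

private theorem DyP_at {x : E3} (hY : DifferentiableAt ℝ Y (rsq x)) (hP : DifferentiableAt ℝ P (x 2)) :
    DifferentiableAt ℝ (pw Y P) x ∧ pd 0 (pw Y P) x = 2 * x 0 * (deriv Y (rsq x) * P (x 2)) ∧
      pd 1 (pw Y P) x = 2 * x 1 * (deriv Y (rsq x) * P (x 2)) ∧ pd 2 (pw Y P) x = Y (rsq x) * deriv P (x 2) := by
  have h1 := hY.hasDerivAt.comp_hasFDerivAt x (DyP_rsq x)
  have h2 := hP.hasDerivAt.comp_hasFDerivAt x (DyP_proj 2 x)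
  have h3 : HasFDerivAt (pw Y P) _ x := h1.mul h2
  have h4 : ∀ i : Fin 3, pd i (pw Y P) x = _ := fun i => congrArg (fun A : E3 →L[ℝ] ℝ => A (e i)) h3.fderiv
  refine ⟨h3.differentiableAt, ?_, ?_, ?_⟩
  · rw [h4]
    simp [e_apply]
    ring
  · rw [h4]
    simp [e_apply]
    ring
  · rw [h4]
    simp [e_apply]

private theorem DyP_dY (hY : ContDiffOn ℝ ∞ Y (Ioi 0)) {x : E3} (hx : 0 < rsq x) : DifferentiableAt ℝ Y (rsq x) :=
  (hY.contDiffAt (Ioi_mem_nhds hx)).differentiableAt (by simp)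

private theorem DyP_Y' (hY : ContDiffOn ℝ ∞ Y (Ioi 0)) : ContDiffOn ℝ ∞ (deriv Y) (Ioi 0) :=
  hY.deriv_of_isOpen isOpen_Ioi (by simp)

private theorem DyP_P' (hP : ContDiff ℝ ∞ P) : ContDiff ℝ ∞ (deriv P) :=
  (contDiff_infty_iff_deriv.1 hP).2

private theorem DyP_ev {x : E3} (hx : 0 < rsq x) : ∀ᶠ y in 𝓝 x, 0 < rsq y :=
  EVe_rsq_smooth.continuous.continuousAt.eventually (lt_mem_nhds hx)

private theorem DyP_mul {g : E3 → ℝ} {x : E3} (hg : DifferentiableAt ℝ g x) (k : Fin 3) :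
    pd k (fun y => 2 * y k * g y) x = 2 * g x + 2 * x k * pd k g x := by
  have h1 : HasFDerivAt (fun y : E3 => 2 * y k) ((2 : ℝ) • (EuclideanSpace.proj k : E3 →L[ℝ] ℝ)) x :=
    (DyP_proj k x).const_mul 2
  have h3 := h1.mul hg.hasFDerivAt
  have h4 : pd k (fun y => 2 * y k * g y) x = _ := congrArg (fun A : E3 →L[ℝ] ℝ => A (e k)) h3.fderiv
  rw [h4]
  simp [e_apply, pd]
  ring

theorem pw_at (hY : ContDiffOn ℝ ∞ Y (Ioi 0)) (hP : ContDiff ℝ ∞ P) {x : E3} (hx : 0 < rsq x) :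
    ContDiffAt ℝ ∞ (pw Y P) x ∧ pd 0 (pw Y P) x = 2 * x 0 * (deriv Y (rsq x) * P (x 2)) ∧
      pd 1 (pw Y P) x = 2 * x 1 * (deriv Y (rsq x) * P (x 2)) ∧ pd 2 (pw Y P) x = Y (rsq x) * deriv P (x 2) := by
  obtain ⟨-, h0, h1, h2⟩ := DyP_at (P := P) (DyP_dY hY hx) ((hP.differentiable (by simp)) (x 2))
  refine ⟨?_, h0, h1, h2⟩
  have h3 : ContDiffAt ℝ ∞ (fun y : E3 => Y (rsq y)) x :=
    (hY.contDiffAt (Ioi_mem_nhds hx)).comp x EVe_rsq_smooth.contDiffAt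
  have h4 : ContDiff ℝ ∞ (fun y : E3 => P (y 2)) := hP.comp (by fun_prop)
  exact h3.mul h4.contDiffAt

theorem pw_pdd (hY : ContDiffOn ℝ ∞ Y (Ioi 0)) (hP : ContDiff ℝ ∞ P) {x : E3} (hx : 0 < rsq x) :
    pd 0 (pd 0 (pw Y P)) x = (2 * deriv Y (rsq x) + 4 * x 0 ^ 2 * deriv (deriv Y) (rsq x)) * P (x 2) ∧
      pd 1 (pd 1 (pw Y P)) x = (2 * deriv Y (rsq x) + 4 * x 1 ^ 2 * deriv (deriv Y) (rsq x)) * P (x 2) ∧
      pd 2 (pd 2 (pw Y P)) x = Y (rsq x) * deriv (deriv P) (x 2) := by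
  have hP1 : ∀ s, DifferentiableAt ℝ P s := hP.differentiable (by simp)
  have hP2 : ∀ s, DifferentiableAt ℝ (deriv P) s := (DyP_P' hP).differentiable (by simp)
  obtain ⟨hd, a0, a1, _⟩ := DyP_at (Y := deriv Y) (P := P) (DyP_dY (DyP_Y' hY) hx) (hP1 (x 2))
  obtain ⟨_, _, _, b2⟩ := DyP_at (Y := Y) (P := deriv P) (DyP_dY hY hx) (hP2 (x 2))
  have e0 : pd 0 (pw Y P) =ᶠ[𝓝 x] fun y => 2 * y 0 * pw (deriv Y) P y := by
    filter_upwards [DyP_ev hx] with y hy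
    exact (DyP_at (DyP_dY hY hy) (hP1 (y 2))).2.1
  have e1 : pd 1 (pw Y P) =ᶠ[𝓝 x] fun y => 2 * y 1 * pw (deriv Y) P y := by
    filter_upwards [DyP_ev hx] with y hy
    exact (DyP_at (DyP_dY hY hy) (hP1 (y 2))).2.2.1
  have e2 : pd 2 (pw Y P) =ᶠ[𝓝 x] pw Y (deriv P) := by
    filter_upwards [DyP_ev hx] with y hy
    exact (DyP_at (DyP_dY hY hy) (hP1 (y 2))).2.2.2
  refine ⟨?_, ?_, ?_⟩
  · have h1 : pd 0 (pd 0 (pw Y P)) x = pd 0 (fun y => 2 * y 0 * pw (deriv Y) P y) x := by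
      unfold pd at e0 ⊢
      rw [e0.fderiv_eq]
    rw [h1, DyP_mul hd, a0]
    unfold pw
    ring
  · have h1 : pd 1 (pd 1 (pw Y P)) x = pd 1 (fun y => 2 * y 1 * pw (deriv Y) P y) x := by
      unfold pd at e1 ⊢
      rw [e1.fderiv_eq]
    rw [h1, DyP_mul hd, a1]
    unfold pw
    ring
  · have h1 : pd 2 (pd 2 (pw Y P)) x = pd 2 (pw Y (deriv P)) x := by
      unfold pd at e2 ⊢
      rw [e2.fderiv_eq]
    rw [h1, b2]

theorem pw_rdr (hY : ContDiffOn ℝ ∞ Y (Ioi 0)) (hP : ContDiff ℝ ∞ P) {x : E3} (hx : 0 < rsq x) :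
    rdr (pw Y P) x = 2 * (rsq x * deriv Y (rsq x)) * P (x 2) := by
  obtain ⟨-, h0, h1, -⟩ := pw_at hY hP hx
  unfold rdr
  rw [h0, h1]
  have h : rsq x = x 0 ^ 2 + x 1 ^ 2 := rfl
  linear_combination (-2 * deriv Y (rsq x) * P (x 2)) * h

theorem pw_L (hY : ContDiffOn ℝ ∞ Y (Ioi 0)) (hP : ContDiff ℝ ∞ P) {x : E3} (hx : 0 < rsq x) :
    lap (pw Y P) x - 2 / rsq x * rdr (pw Y P) x =
      4 * (rsq x * deriv (deriv Y) (rsq x)) * P (x 2) + Y (rsq x) * deriv (deriv P) (x 2) := by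
  obtain ⟨h0, h1, h2⟩ := pw_pdd hY hP hx
  have h3 : 2 / rsq x * rdr (pw Y P) x = 4 * deriv Y (rsq x) * P (x 2) := by
    rw [pw_rdr hY hP hx]
    field_simp
    ring
  unfold lap
  rw [Fin.sum_univ_three, h0, h1, h2, h3]
  have h : rsq x = x 0 ^ 2 + x 1 ^ 2 := rfl
  linear_combination (-4 * deriv (deriv Y) (rsq x) * P (x 2)) * h

theorem pw_ev (hY : ContDiffOn ℝ ∞ Y (Ioi 0)) (hP : ContDiff ℝ ∞ P) {v : E3 → E3} (hv : AxF v) (f G : E3 → ℝ) {x : E3} (hx : 0 < rsq x) :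
    evJ sqf v f G (pw Y P) x = 2 * (f x * G x - gsq f x) * (Y (rsq x) * P (x 2)) +
      f x ^ 2 * (2 * sW v x * (rsq x * deriv Y (rsq x)) * P (x 2) + v x 2 * (Y (rsq x) * deriv P (x 2)) +
        4 * (rsq x * deriv (deriv Y) (rsq x)) * P (x 2) + Y (rsq x) * deriv (deriv P) (x 2)) := by
  have d1 : deriv sqf = fun s => 2 * s := by
    funext s
    have h : HasDerivAt sqf (2 * s) s := by
      have h0 : HasDerivAt (fun x : ℝ => x ^ 2) (2 * s) s := by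
        simpa using hasDerivAt_pow 2 s
      exact h0
    exact h.deriv
  have d2 : ∀ s, deriv (deriv sqf) s = 2 := by
    intro s
    rw [d1]
    have h : HasDerivAt (fun s : ℝ => 2 * s) 2 s := by
      simpa using (hasDerivAt_id s).const_mul (2 : ℝ)
    exact h.deriv
  obtain ⟨-, h0, h1, h2⟩ := pw_at hY hP hx
  have hL := pw_L hY hP hx
  have hfl : x 0 * v x 0 + x 1 * v x 1 = rsq x * sW v x := flux_eq hv x
  unfold evJ
  rw [d2, d1]
  unfold adv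
  rw [Fin.sum_univ_three, h0, h1, h2]
  have hp : pw Y P x = Y (rsq x) * P (x 2) := rfl
  rw [hp]
  have hq : sqf (f x) = f x ^ 2 := rfl
  rw [hq]
  linear_combination (f x ^ 2) * hL + (2 * f x ^ 2 * deriv Y (rsq x) * P (x 2)) * hfl

end Pool.Agent.H37.EP
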