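import Pool.Agent.H94.EP.DyI
import Pool.Agent.H87.NS.Bds2

/-
Shifts along the axis (static).
-/

set_option autoImplicit false

open Set Filter Topology MeasureTheory
open scoped ContDiff

namespace Pool.Agent.H37.EP

open Pool.Agent.H16 Pool.Agent.H87.NS Pool.Agent.H72.CC Pool.Agent.H16.TU Pool.Agent.H94.EP

theorem sh_rsq (s : ℝ) (x : E3) : rsq (sh2 s x) = rsq x ∧ sh2 s x 0 = x 0 ∧ sh2 s x 1 = x 1 ∧ sh2 s x 2 = x 2 + s := by
  have h0 : sh2 s x 0 = x 0 := by simp [sh2, e_apply]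
  have h1 : sh2 s x 1 = x 1 := by simp [sh2, e_apply]
  have h2 : sh2 s x 2 = x 2 + s := by simp [sh2, e_apply]
  refine ⟨?_, h0, h1, h2⟩
  unfold rsq
  rw [h0, h1]

private theorem DyS_sm (s : ℝ) : ContDiff ℝ ∞ (sh2 s) := contDiff_id.add contDiff_const

theorem sh_sm {f : E3 → ℝ} (hf : ContDiff ℝ ∞ f) (s : ℝ) : ContDiff ℝ ∞ (fun x => f (sh2 s x)) :=
  hf.comp (DyS_sm s)

theorem sh_pd (f : E3 → ℝ) (s : ℝ) (i : Fin 3) : pd i (fun x => f (sh2 s x)) = fun x => pd i f (sh2 s x) := by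
  funext x
  unfold pd sh2
  rw [fderiv_comp_add_right]

theorem sh_BL {K : ℝ} {f : E3 → ℝ} (h : BL K f) (s : ℝ) : BL K (fun x => f (sh2 s x)) := by
  refine ⟨fun x => h.1 _, h.2.1.comp_add_right (s • e 2), ?_⟩
  have h1 : ∫ x, f (sh2 s x) ^ 2 = ∫ x, f x ^ 2 :=
    integral_add_right_eq_self (fun x => f x ^ 2) (s • e 2)
  rw [h1]
  exact h.2.2

theorem sh_DB {n : ℕ} {K : ℝ} {f : E3 → ℝ} (h : DB n K f) (s : ℝ) : DB n K (fun x => f (sh2 s x)) := by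
  induction n generalizing f with
  | zero => exact sh_BL h s
  | succ n ih =>
    refine ⟨sh_BL h.1 s, fun i => ?_⟩
    rw [sh_pd]
    exact ih (h.2 i)

theorem sh_JC {T : ℝ} {f : ℝ → E3 → ℝ} (h : JC T f) (s : ℝ) : JC T (fun t x => f t (sh2 s x)) := by
  have h1 : Continuous (fun q : ℝ × E3 => (q.1, sh2 s q.2)) :=
    continuous_fst.prodMk ((DyS_sm s).continuous.comp continuous_snd)
  exact ContinuousOn.comp h h1.continuousOn (fun q hq => ⟨hq.1, mem_univ _⟩)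

theorem sh_joint {T : ℝ} {f : ℝ → E3 → ℝ} (hf : ContDiffOn ℝ ∞ (fun q : ℝ × E3 => f q.1 q.2) (Ioo 0 T ×ˢ {x | 0 < rsq x})) (s : ℝ) :
    ContDiffOn ℝ ∞ (fun q : ℝ × E3 => f q.1 (sh2 s q.2)) (Ioo 0 T ×ˢ {x | 0 < rsq x}) := by
  have h1 : ContDiff ℝ ∞ (fun q : ℝ × E3 => (q.1, sh2 s q.2)) :=
    contDiff_fst.prodMk ((DyS_sm s).comp contDiff_snd)
  refine ContDiffOn.comp hf h1.contDiffOn (fun q hq => ⟨hq.1, ?_⟩)
  have h2 : 0 < rsq q.2 := hq.2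
  show 0 < rsq (sh2 s q.2)
  rw [(sh_rsq s q.2).1]
  exact h2

theorem fh_smooth {v : E3 → E3} (h : AxF v) (s : ℝ) : ContDiff ℝ ∞ (fh s v) :=
  (sh_sm (sm_V h).1 s).sub (sm_V h).1

private theorem DyS_pd {v : E3 → E3} (h : AxF v) (s : ℝ) (i : Fin 3) :
    pd i (fh s v) = fun x => pd i (sV v) (sh2 s x) - pd i (sV v) x := by
  have h1 : fh s v = fun x => (fun y => sV v (sh2 s y)) x - sV v x := rfl
  rw [h1, Bds1_pd_sub (sh_sm (sm_V h).1 s) (sm_V h).1, sh_pd]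

theorem fh_pd {v : E3 → E3} (h : AxF v) (s : ℝ) (i : Fin 3) (x : E3) : pd i (fh s v) x = pd i (sV v) (sh2 s x) - pd i (sV v) x :=
  congrFun (DyS_pd h s i) x

theorem fh_lap {v : E3 → E3} (h : AxF v) (s : ℝ) (x : E3) : lap (fh s v) x = lap (sV v) (sh2 s x) - lap (sV v) x := by
  unfold lap
  rw [← Finset.sum_sub_distrib]
  refine Finset.sum_congr rfl fun i _ => ?_
  have h0 := pd_smooth (sm_V h).1 i
  have h1 : (fun x => pd i (sV v) (sh2 s x) - pd i (sV v) x) = fun x => (fun y => pd i (sV v) (sh2 s y)) x - pd i (sV v) x := rfl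
  rw [DyS_pd h s i, h1, Bds1_pd_sub (sh_sm h0 s) h0, sh_pd]

theorem fh_rdr {v : E3 → E3} (h : AxF v) (s : ℝ) (x : E3) : rdr (fh s v) x = rdr (sV v) (sh2 s x) - rdr (sV v) x := by
  obtain ⟨-, h0, h1, -⟩ := sh_rsq s x
  unfold rdr
  rw [fh_pd h, fh_pd h, h0, h1]
  ring

theorem fh_rot {v : E3 → E3} (h : AxF v) (s θ : ℝ) (x : E3) : fh s v (rot θ x) = fh s v x := by
  have h1 : sh2 s (rot θ x) = rot θ (sh2 s x) := by
    obtain ⟨-, a0, a1, a2⟩ := sh_rsq s (rot θ x)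
    obtain ⟨-, b0, b1, b2⟩ := sh_rsq s x
    apply ext3
    · rw [a0]
      show Real.cos θ * x 0 - Real.sin θ * x 1 = Real.cos θ * sh2 s x 0 - Real.sin θ * sh2 s x 1
      rw [b0, b1]
    · rw [a1]
      show Real.sin θ * x 0 + Real.cos θ * x 1 = Real.sin θ * sh2 s x 0 + Real.cos θ * sh2 s x 1
      rw [b0, b1]
    · rw [a2]
      show x 2 + s = sh2 s x 2
      rw [b2]
  unfold fh
  rw [h1, sV_rot h, sV_rot h]

end Pool.Agent.H37.EP
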