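import Pool.Agent.H94.EP.Defs
import Pool.Agent.H87.NS.EVe
import Pool.Agent.H87.NS.EvInt

/-
ROW EvA (MP_09540e_EP). The energy inequality for smooth compactly supported test functions, in the form `evJ`. Aux lemmas prefixed EvA_ . Source: H87/NS/EV.lean, EVe.lean, IBP.lean (copy from there; the lemmas of EV.lean are private).
`jsq`: `sqf s = s ^ 2`: smooth, `deriv sqf s = 2 * s` (funext, simp [sqf]), `deriv (deriv sqf) s = 2 ≥ 0`. `dsq`: the same.
`evJ_me`: like EVe_meas: `gsq (f t)`, `adv (u t ·) ψ`, `lap ψ`, `f t`, `G t`, `rdr ψ` are continuous (EVe_cx, EVe_adv_cont, EVe_rdr_cont, pd_smooth), `2 / rsq x` is measurable.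
`evJ_I`: pointwise `evJ = evI + (sqf (f t x) * lap ψ x + deriv sqf (f t x) * ∑ i, pd i (f t) x * pd i ψ x)` (unfold, ring). `evI` is integrable: measurable (EVe_meas), bounded (EVe_K, EVe_phi, EVe_evb), zero outside a ball (EVe_phi: `ψ`, `pd i ψ`, `rdr ψ` vanish): EVe_int.
  The bracket is integrable with integral zero: proof of `EV_lap` in EV.lean (there the weight is `Wt`, but only its smoothness and the compact support of `pd i χ` are used): it is `∑ i, (pd i (pd i ψ) * sqf (f t) + pd i ψ * pd i (sqf ∘ f t))` (comp_pd), ibp with `DB 1` of `pd i ψ` (smooth, compact support: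
  EV_DB1 in EV.lean) and of `sqf ∘ f t` (comp_DB). So `evJ` is integrable and `∫ evJ = ∫ evI`.
`evJ_ct`: by `evJ_I` the function is `t ↦ ∫ evI` on `Icc 0 b`; EVe_cont with EVe_meas, the bound of EVe_evb, EVe_phi, EVe_tcont.
`ev_cs`: ev_axis with `jsq`; `∫ t in a..b, ∫ evI = ∫ t in a..b, ∫ evJ` by intervalIntegral.integral_congr and `evJ_I`; `sqf (f b x) * ψ x = ψ x * f b x ^ 2` (mul_comm).
-/

set_option autoImplicit false

open Set Filter Topology MeasureTheory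
open scoped ContDiff

namespace Pool.Agent.H16.EP

open Pool.Agent.H16 Pool.Agent.H87.NS Pool.Agent.H72.CC Pool.Agent.H16.TU Pool.Agent.H94.EP

theorem jsq : JFun sqf := by
  have h1 : deriv sqf = fun s => 2 * s := by
    funext s
    have h : HasDerivAt sqf (2 * s) s :=
      (hasDerivAt_pow 2 s).congr_deriv (by norm_num)
    exact h.deriv
  have h2 : deriv (deriv sqf) = fun _ => 2 := by
    rw [h1]
    funext s
    have h : HasDerivAt (fun s : ℝ => 2 * s) 2 s := by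
      simpa using (hasDerivAt_id s).const_mul (2 : ℝ)
    exact h.deriv
  refine ⟨?_, ?_, ?_, fun s => ?_⟩
  · exact contDiff_id.pow 2
  · simp [sqf]
  · rw [h1]
    simp
  · rw [h2]
    norm_num

theorem dsq (s : ℝ) : deriv sqf s = 2 * s ∧ deriv (deriv sqf) s = 2 := by
  have h1 : deriv sqf = fun s => 2 * s := by
    funext s
    have h : HasDerivAt sqf (2 * s) s :=
      (hasDerivAt_pow 2 s).congr_deriv (by norm_num)
    exact h.deriv
  refine ⟨by rw [h1], ?_⟩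
  rw [h1]
  have h : HasDerivAt (fun s : ℝ => 2 * s) 2 s := by
    simpa using (hasDerivAt_id s).const_mul (2 : ℝ)
  exact h.deriv

variable {T : ℝ} {u : ℝ → E3 → E3} {f G : ℝ → E3 → ℝ}

private theorem EvA_BL {g : E3 → ℝ} (hg : Continuous g) (hc : HasCompactSupport g) :
    ∃ K, BL K g := by
  obtain ⟨C, hC⟩ := hg.bounded_above_of_compact_support hc
  refine ⟨max C (∫ x, g x ^ 2), fun x => ?_, ?_, le_max_right _ _⟩
  · have h := hC x
    rw [Real.norm_eq_abs] at h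
    exact h.trans (le_max_left _ _)
  · have h2 : HasCompactSupport (fun x => g x ^ 2) := by
      refine hc.mono fun x hx => ?_
      rw [Function.mem_support] at hx ⊢
      intro h
      exact hx (by rw [h]; norm_num)
    have h3 : Continuous (fun x => g x ^ 2) := hg.pow 2
    exact h3.integrable_of_hasCompactSupport h2

private theorem EvA_DB1 {g : E3 → ℝ} (hg : ContDiff ℝ ∞ g) (hc : HasCompactSupport g) :
    ∃ K, DB 1 K g := by
  obtain ⟨K0, h0⟩ := EvA_BL hg.continuous hc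
  have h1 : ∀ i, ∃ K, BL K (pd i g) := fun i =>
    EvA_BL (pd_smooth hg i).continuous (hc.fderiv_apply (𝕜 := ℝ) (e i))
  choose K1 hK1 using h1
  have hn : ∀ i, 0 ≤ K1 i := fun i => BL_nonneg (hK1 i)
  refine ⟨K0 + ∑ i, K1 i, ?_, fun i => ?_⟩
  · exact BL_mono h0 (le_add_of_nonneg_right (Finset.sum_nonneg fun i _ => hn i))
  · refine BL_mono (hK1 i) ?_
    have h2 := Finset.single_le_sum (fun i _ => hn i) (Finset.mem_univ i)
    have h3 := BL_nonneg h0
    linarith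

private theorem EvA_lap (hf : Evo T u f G) {j : ℝ → ℝ} (hj : JFun j) {χ : E3 → ℝ}
    (hχ : ContDiff ℝ ∞ χ)
    (hcs : ∀ i, HasCompactSupport (pd i χ)) {t : ℝ} (ht : t ∈ Ico 0 T) :
    Integrable (fun x => j (f t x) * lap χ x +
      deriv j (f t x) * (∑ i, pd i (f t) x * pd i χ x)) ∧
    ∫ x, (j (f t x) * lap χ x + deriv j (f t x) * (∑ i, pd i (f t) x * pd i χ x)) = 0 := by
  obtain ⟨K, hK⟩ := hf.bd t ht.2
  have hfd := (hK t ⟨ht.1, le_rfl⟩).1
  have hfs : ContDiff ℝ 1 (f t) := (hf.smooth t ht).of_le (by simp)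
  have hjs : ContDiff ℝ 1 j := hj.smooth.of_le (by simp)
  obtain ⟨K', hK'⟩ := comp_DB hjs hj.zero K
  have hjf := hK' (f t) hfs hfd
  have hjfs : ContDiff ℝ 1 (fun y => j (f t y)) := hjs.comp hfs
  have e1 : (fun x => j (f t x) * lap χ x + deriv j (f t x) * (∑ i, pd i (f t) x * pd i χ x)) =
      fun x => ∑ i, (pd i (pd i χ) x * j (f t x) + pd i χ x * pd i (fun y => j (f t y)) x) := by
    funext x
    unfold lap
    rw [Finset.mul_sum, Finset.mul_sum, ← Finset.sum_add_distrib]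
    refine Finset.sum_congr rfl fun i _ => ?_
    rw [comp_pd hfs hjs i x]
    ring
  have hgs : ∀ i, ContDiff ℝ ∞ (pd i χ) := fun i => pd_smooth hχ i
  have i1 : ∀ i, Integrable (fun x => pd i (pd i χ) x * j (f t x)) := fun i => by
    have hc : Continuous (fun x => pd i (pd i χ) x * j (f t x)) :=
      (pd_smooth (hgs i) i).continuous.mul hjfs.continuous
    have hs : HasCompactSupport (pd i (pd i χ)) := (hcs i).fderiv_apply (𝕜 := ℝ) (e i)
    exact hc.integrable_of_hasCompactSupport hs.mul_right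
  have i2 : ∀ i, Integrable (fun x => pd i χ x * pd i (fun y => j (f t y)) x) := fun i => by
    have hc : Continuous (fun x => pd i χ x * pd i (fun y => j (f t y)) x) :=
      (hgs i).continuous.mul (pd_cont hjfs i)
    exact hc.integrable_of_hasCompactSupport (hcs i).mul_right
  rw [e1]
  have i3 : ∀ i ∈ (Finset.univ : Finset (Fin 3)), Integrable (fun x =>
      pd i (pd i χ) x * j (f t x) + pd i χ x * pd i (fun y => j (f t y)) x) := fun i _ =>
    (i1 i).add (i2 i)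
  refine ⟨integrable_finsetSum _ i3, ?_⟩
  rw [integral_finsetSum _ i3]
  refine Finset.sum_eq_zero fun i _ => ?_
  obtain ⟨K2, hK2⟩ := EvA_DB1 (hgs i) (hcs i)
  have h := ibp ((hgs i).of_le (by simp)) hjfs hK2 hjf i
  have h3 := integral_add (i1 i) (i2 i)
  rw [h3, h]
  ring

/-- pointwise difference of the two integrands -/
private theorem EvA_pt (j : ℝ → ℝ) (v : E3 → E3) (f G ψ : E3 → ℝ) (x : E3) :
    evJ j v f G ψ x = evI j v f G ψ x + (j (f x) * lap ψ x +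
      deriv j (f x) * (∑ i, pd i f x * pd i ψ x)) := by
  unfold evJ evI
  ring

theorem evJ_me (hu : Drift T u) (hf : Evo T u f G) {ψ : E3 → ℝ} (hψ : ContDiff ℝ ∞ ψ) {t : ℝ} (ht : t ∈ Ico 0 T) :
    Measurable (evJ sqf (u t) (f t) (G t) ψ) := by
  have e1 : evJ sqf (u t) (f t) (G t) ψ = fun x => evI sqf (u t) (f t) (G t) ψ x +
      (sqf (f t x) * lap ψ x + deriv sqf (f t x) * (∑ i, pd i (f t) x * pd i ψ x)) :=
    funext fun x => EvA_pt _ _ _ _ _ x
  obtain ⟨d1, -⟩ := EVe_dj jsq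
  have cf : Continuous (f t) := (hf.smooth t ht).continuous
  have c1 : Continuous fun x => sqf (f t x) * lap ψ x := by
    refine (jsq.smooth.continuous.comp cf).mul ?_
    unfold lap
    exact continuous_finsetSum _ fun i _ => (pd_smooth (pd_smooth hψ i) i).continuous
  have c2 : Continuous fun x => deriv sqf (f t x) * (∑ i, pd i (f t) x * pd i ψ x) := by
    refine (d1.comp cf).mul (continuous_finsetSum _ fun i _ => ?_)
    exact (pd_smooth (hf.smooth t ht) i).continuous.mul (pd_smooth hψ i).continuous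
  rw [e1]
  exact (EVe_meas hu hf jsq hψ ht).add (c1.add c2).measurable

private theorem EvA_bd (hu : Drift T u) (hf : Evo T u f G) {ψ : E3 → ℝ} (hψ : ContDiff ℝ ∞ ψ)
    (hc : HasCompactSupport ψ)
    {C : ℝ} (hC : ∀ x, |rdr ψ x| ≤ C * rsq x) {b : ℝ} (hb : b < T) :
    ∃ B L : ℝ, (∀ t ∈ Icc 0 b, ∀ x, |evI sqf (u t) (f t) (G t) ψ x| ≤ B) ∧
      (∀ t ∈ Icc 0 b, ∀ x, L < ‖x‖ → evI sqf (u t) (f t) (G t) ψ x = 0) := by
  obtain ⟨K, hK0, hK⟩ := EVe_K hu hf jsq hb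
  obtain ⟨P, L, hP0, hL0, hP, hPz⟩ := EVe_phi hψ hc
  refine ⟨K * (3 * (K * K)) * P + K * K * P + K * (3 * (K * P)) +
      K * (3 * (K * P) + 2 * |C|), L, fun t ht x => ?_, fun t _ x hx => ?_⟩
  · obtain ⟨k1, k2, k3, k4, k5, k6, k7⟩ := hK t ht x
    exact EVe_evb hK0 hP0 k2 k3 k4 k5 k6 k7 (hP x).1 (hP x).2 (hC x)
  · exact EVe_evz (hPz x hx).1 (hPz x hx).2

theorem evJ_I (hu : Drift T u) (hf : Evo T u f G) {ψ : E3 → ℝ} (hψ : ContDiff ℝ ∞ ψ) (hc : HasCompactSupport ψ)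
    {C : ℝ} (hC : ∀ x, |rdr ψ x| ≤ C * rsq x) {t : ℝ} (ht : t ∈ Ico 0 T) :
    Integrable (evJ sqf (u t) (f t) (G t) ψ) ∧ ∫ x, evJ sqf (u t) (f t) (G t) ψ x = ∫ x, evI sqf (u t) (f t) (G t) ψ x := by
  have e1 : evJ sqf (u t) (f t) (G t) ψ = fun x => evI sqf (u t) (f t) (G t) ψ x +
      (sqf (f t x) * lap ψ x + deriv sqf (f t x) * (∑ i, pd i (f t) x * pd i ψ x)) :=
    funext fun x => EvA_pt _ _ _ _ _ x
  obtain ⟨B, L, hB, hz⟩ := EvA_bd hu hf hψ hc hC ht.2
  have i1 : Integrable (fun x => evI sqf (u t) (f t) (G t) ψ x) :=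
    EVe_int (EVe_meas hu hf jsq hψ ht) (hB t ⟨ht.1, le_rfl⟩) (hz t ⟨ht.1, le_rfl⟩)
  obtain ⟨g1, g2⟩ := EvA_lap hf jsq hψ (fun i => hc.fderiv_apply (𝕜 := ℝ) (e i)) ht
  rw [e1]
  refine ⟨i1.add g1, ?_⟩
  have h := integral_add i1 g1
  rw [g2, add_zero] at h
  exact h

theorem evJ_ct (hu : Drift T u) (hf : Evo T u f G) {ψ : E3 → ℝ} (hψ : ContDiff ℝ ∞ ψ) (hc : HasCompactSupport ψ)
    {C : ℝ} (hC : ∀ x, |rdr ψ x| ≤ C * rsq x) {b : ℝ} (hb : b < T) :
    ContinuousOn (fun t => ∫ x, evJ sqf (u t) (f t) (G t) ψ x) (Icc 0 b) := by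
  obtain ⟨B, L, hB, hz⟩ := EvA_bd hu hf hψ hc hC hb
  have h : ContinuousOn (fun t => ∫ x, evI sqf (u t) (f t) (G t) ψ x) (Icc 0 b) :=
    EVe_cont (fun t ht => EVe_meas hu hf jsq hψ ⟨ht.1, ht.2.trans_lt hb⟩) hB hz
      (fun x => EVe_tcont hu hf jsq hb x)
  exact h.congr fun t ht => (evJ_I hu hf hψ hc hC ⟨ht.1, ht.2.trans_lt hb⟩).2

theorem ev_cs (hu : Drift T u) (hf : Evo T u f G) {ψ : E3 → ℝ} (hψ : ContDiff ℝ ∞ ψ) (hc : HasCompactSupport ψ) (hψ0 : ∀ x, 0 ≤ ψ x)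
    {C : ℝ} (hC : ∀ x, |rdr ψ x| ≤ C * rsq x) {a b : ℝ} (ha : 0 ≤ a) (hab : a ≤ b) (hb : b < T) :
    ∫ x, ψ x * f b x ^ 2 ≤ (∫ x, ψ x * f a x ^ 2) + ∫ t in a..b, ∫ x, evJ sqf (u t) (f t) (G t) ψ x := by
  have h := ev_axis hu hf jsq hψ hc hψ0 hC ha hab hb
  have h1 : ∀ s : ℝ, ∫ x, sqf (f s x) * ψ x = ∫ x, ψ x * f s x ^ 2 := fun s => by
    refine integral_congr_ae (Filter.Eventually.of_forall fun x => ?_)
    simp only [sqf]
    ring
  have h2 : ∫ t in a..b, ∫ x, evJ sqf (u t) (f t) (G t) ψ x =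
      ∫ t in a..b, ∫ x, evI sqf (u t) (f t) (G t) ψ x := by
    refine intervalIntegral.integral_congr fun t ht => ?_
    rw [uIcc_of_le hab] at ht
    exact (evJ_I hu hf hψ hc hC ⟨ha.trans ht.1, ht.2.trans_lt hb⟩).2
  rw [h1, h1] at h
  rw [h2]
  exact h

end Pool.Agent.H16.EP
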