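import Pool.Agent.H94.EP.EvA
import Pool.Agent.H94.EP.DyQ

/-
ROW EvB (MP_09540e_EP). Passage to the limit in the test function. Aux lemmas prefixed EvB_ .
-/

set_option autoImplicit false

open Set Filter Topology MeasureTheory
open scoped ContDiff

namespace Pool.Agent.H16.EP

open Pool.Agent.H16 Pool.Agent.H87.NS Pool.Agent.H72.CC Pool.Agent.H16.TU Pool.Agent.H94.EP Pool.Agent.H37.EP

theorem EvB_eq {j : ℝ → ℝ} {v : E3 → E3} {f G ψ χ : E3 → ℝ} {x : E3} (h : ψ =ᶠ[𝓝 x] χ) :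
    evJ j v f G ψ x = evJ j v f G χ x := by
  have h0 : ψ x = χ x := h.eq_of_nhds
  have h1 : ∀ i, pd i ψ =ᶠ[𝓝 x] pd i χ := fun i => by
    filter_upwards [h.eventuallyEq_nhds] with y hy
    unfold pd
    rw [hy.fderiv_eq]
  have h2 : ∀ i, pd i ψ x = pd i χ x := fun i => (h1 i).eq_of_nhds
  have h3 : ∀ i, pd i (pd i ψ) x = pd i (pd i χ) x := fun i => by
    show fderiv ℝ (pd i ψ) x (e i) = fderiv ℝ (pd i χ) x (e i)
    rw [(h1 i).fderiv_eq]
  unfold evJ adv lap rdr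
  simp only [h0, h2, h3]

theorem ev_lim {T : ℝ} {u : ℝ → E3 → E3} {f G : ℝ → E3 → ℝ} (hu : Drift T u) (hf : Evo T u f G) {a b : ℝ} (ha : 0 ≤ a) (hab : a ≤ b) (hb : b < T)
    {ψ : ℕ → E3 → ℝ} {χ g : E3 → ℝ} {M : ℝ} (hg : Integrable g)
    (h1 : ∀ n, ContDiff ℝ ∞ (ψ n)) (h2 : ∀ n, HasCompactSupport (ψ n)) (h3 : ∀ n x, 0 ≤ ψ n x)
    (h4 : ∀ n, ∃ C : ℝ, ∀ x, |rdr (ψ n) x| ≤ C * rsq x)
    (hlim : ∀ x, 0 < rsq x → ∀ᶠ n in atTop, ψ n =ᶠ[𝓝 x] χ)
    (hb0 : ∀ n x, 0 < rsq x → |ψ n x| ≤ g x)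
    (hb1 : ∀ n, ∀ t ∈ Icc a b, ∀ x, 0 < rsq x → |evJ sqf (u t) (f t) (G t) (ψ n) x| ≤ M * g x) :
    ∫ x, χ x * f b x ^ 2 ≤ (∫ x, χ x * f a x ^ 2) + ∫ t in a..b, ∫ x, evJ sqf (u t) (f t) (G t) χ x := by
  have hT0 : ∀ t ∈ Icc (0:ℝ) b, t ∈ Ico 0 T := fun t ht => ⟨ht.1, ht.2.trans_lt hb⟩
  have hsub : Icc a b ⊆ Icc 0 b := Icc_subset_Icc_left ha
  obtain ⟨K, hK0, hK⟩ := EVe_K hu hf jsq hb
  have hoff : ∀ᵐ x : E3, 0 < rsq x := ae_off
  have s1 : ∀ τ ∈ Icc (0:ℝ) b,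
      Tendsto (fun n => ∫ x, ψ n x * f τ x ^ 2) atTop (𝓝 (∫ x, χ x * f τ x ^ 2)) := by
    intro τ hτ
    apply tendsto_integral_of_dominated_convergence (fun x => g x * K ^ 2)
    · intro n
      exact ((h1 n).continuous.mul ((hf.smooth τ (hT0 τ hτ)).continuous.pow 2)).aestronglyMeasurable
    · exact hg.mul_const _
    · intro n
      filter_upwards [hoff] with x hx
      rw [Real.norm_eq_abs, abs_mul, abs_pow]
      have h5 := (hK τ hτ x).1
      exact mul_le_mul (hb0 n x hx) (pow_le_pow_left₀ (abs_nonneg _) h5 2) (by positivity)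
        ((abs_nonneg _).trans (hb0 n x hx))
    · filter_upwards [hoff] with x hx
      apply tendsto_const_nhds.congr'
      filter_upwards [hlim x hx] with n hn
      rw [hn.eq_of_nhds]
  have s2 : ∀ t ∈ Icc a b, Tendsto (fun n => ∫ x, evJ sqf (u t) (f t) (G t) (ψ n) x) atTop
      (𝓝 (∫ x, evJ sqf (u t) (f t) (G t) χ x)) := by
    intro t ht
    apply tendsto_integral_of_dominated_convergence (fun x => M * g x)
    · intro n
      exact (evJ_me hu hf (h1 n) (hT0 t (hsub ht))).aestronglyMeasurable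
    · exact hg.const_mul _
    · intro n
      filter_upwards [hoff] with x hx
      rw [Real.norm_eq_abs]
      exact hb1 n t ht x hx
    · filter_upwards [hoff] with x hx
      apply tendsto_const_nhds.congr'
      filter_upwards [hlim x hx] with n hn
      exact (EvB_eq hn).symm
  have s3 : Tendsto (fun n => ∫ t in a..b, ∫ x, evJ sqf (u t) (f t) (G t) (ψ n) x) atTop
      (𝓝 (∫ t in a..b, ∫ x, evJ sqf (u t) (f t) (G t) χ x)) := by
    apply intervalIntegral.tendsto_integral_filter_of_dominated_convergence (fun _ => ∫ x, M * g x)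
    · filter_upwards with n
      obtain ⟨C, hC⟩ := h4 n
      have h5 := (evJ_ct hu hf (h1 n) (h2 n) hC hb).mono (s := Icc 0 b) (t := uIoc a b) (by
        rw [uIoc_of_le hab]
        exact (Ioc_subset_Icc_self).trans hsub)
      exact h5.aestronglyMeasurable measurableSet_uIoc
    · filter_upwards with n
      filter_upwards with t ht
      rw [uIoc_of_le hab] at ht
      apply norm_integral_le_of_norm_le (hg.const_mul M)
      filter_upwards [hoff] with x hx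
      rw [Real.norm_eq_abs]
      exact hb1 n t (Ioc_subset_Icc_self ht) x hx
    · exact intervalIntegrable_const
    · filter_upwards with t ht
      rw [uIoc_of_le hab] at ht
      exact s2 t (Ioc_subset_Icc_self ht)
  refine le_of_tendsto_of_tendsto' (s1 b ⟨ha.trans hab, le_rfl⟩) ((s1 a ⟨ha, hab⟩).add s3) (fun n => ?_)
  obtain ⟨C, hC⟩ := h4 n
  exact ev_cs hu hf (h1 n) (h2 n) (h3 n) hC ha hab hb

end Pool.Agent.H16.EP
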