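import Pool.Agent.H94.EP.Defs
import Pool.Agent.H87.NS.EVe

/-
ROW EvC (MP_09540e_EP). Cutoffs in height and near the axis (one variable). Aux lemmas prefixed EvC_ . PROOF. `g s = Real.smoothTransition (2 - s ^ 2)` is smooth, `1` for `s ^ 2 ≤ 1`, `0` for `2 ≤ s ^ 2`; `g'`, `g''` are continuous and vanish for `2 < s ^ 2` (locally constant there), so they are bounded by a constant `C`
(IsCompact.exists_bound_of_continuousOn on `Icc (-2) 2`, or Continuous.bounded_above_of_compact_support). `vc n z = g (z / (n + 1))`, `deriv (vc n) z = g' (z / (n+1)) / (n+1)`, `deriv (deriv (vc n)) z = g'' (z/(n+1)) / (n+1)^2` (deriv_comp_mul_left or HasDerivAt.comp; funext).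
`vc_lim`: for `n ≥ |z| + 1` the function is `1` on the neighbourhood `{w | |w| < |z| + 1}`.
`rc n ρ = EVe_th ((n+1) * ρ)`: EVe_th_smooth, EVe_th0 (`EVe_th y = 0` for `y ≤ 1`), EVe_th1 (`= 1` for `2 ≤ y`), EVe_thn, EVe_thl. `rc_z`: near `ρ` one has `(n+1) * ρ' < 1`. `rc_lim`: for `n + 1 > 4 / ρ`, on the neighbourhood `{ρ' > ρ/2}`: `(n+1) ρ' > 2`.
`rc_bd`: `deriv (rc n) ρ = (n+1) * EVe_th' ((n+1) ρ)`, so `ρ * deriv (rc n) ρ = y * EVe_th' y` with `y = (n+1) ρ`, and `ρ ^ 2 * deriv (deriv (rc n)) ρ = y ^ 2 * EVe_th'' y`. `EVe_th'` and `EVe_th''` vanish for `y < 1` and for `y > 2` (EVe_dth1, EVe_dth0; for the second derivative: locally zero first derivative),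
  and are continuous: `y ↦ y * EVe_th' y`, `y ↦ y ^ 2 * EVe_th'' y` are bounded (compact `Icc 0 2` and zero for `y > 2`). `C` = maximum of the bounds (and of 0).
-/

set_option autoImplicit false

open Set Filter Topology MeasureTheory
open scoped ContDiff

namespace Pool.Agent.H16.EP

open Pool.Agent.H16 Pool.Agent.H87.NS Pool.Agent.H72.CC Pool.Agent.H16.TU Pool.Agent.H94.EP

/-- Cutoff in height. -/
noncomputable def vc (n : ℕ) (z : ℝ) : ℝ := Real.smoothTransition (2 - (z / ((n : ℝ) + 1)) ^ 2)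

/-- Cutoff near the axis. -/
noncomputable def rc (n : ℕ) (ρ : ℝ) : ℝ := EVe_th (((n : ℝ) + 1) * ρ)

private noncomputable def EvC_g (s : ℝ) : ℝ := Real.smoothTransition (2 - s ^ 2)

private theorem EvC_g_sm : ContDiff ℝ ∞ EvC_g :=
  Real.smoothTransition.contDiff.comp (contDiff_const.sub (contDiff_id.pow 2))

private theorem EvC_g1 {s : ℝ} (h : s ^ 2 ≤ 1) : EvC_g s = 1 :=
  Real.smoothTransition.one_of_one_le (by linarith)

private theorem EvC_g0 {s : ℝ} (h : 2 ≤ s ^ 2) : EvC_g s = 0 :=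
  Real.smoothTransition.zero_of_nonpos (by linarith)

private theorem EvC_bd {f : ℝ → ℝ} (hf : Continuous f) {R : ℝ} (h0 : ∀ x, R < |x| → f x = 0) :
    ∃ C : ℝ, 0 ≤ C ∧ ∀ x, |f x| ≤ C := by
  obtain ⟨C, hC⟩ := (isCompact_Icc (a := -R) (b := R)).exists_bound_of_continuousOn hf.continuousOn
  refine ⟨max C 0, le_max_right _ _, fun x => ?_⟩
  rcases le_or_gt |x| R with h | h
  · exact (hC x (abs_le.1 h)).trans (le_max_left _ _)
  · rw [h0 x h, abs_zero]; exact le_max_right _ _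

private theorem EvC_dsm {f : ℝ → ℝ} (hf : ContDiff ℝ ∞ f) : ContDiff ℝ ∞ (deriv f) :=
  (contDiff_infty_iff_deriv.1 hf).2

private theorem EvC_d1 (f : ℝ → ℝ) (c : ℝ) : deriv (fun z => f (c * z)) = fun z => c * deriv f (c * z) := by
  funext z
  rw [deriv_comp_mul_left, smul_eq_mul]

private theorem EvC_d2 (f : ℝ → ℝ) (c : ℝ) :
    deriv (deriv (fun z => f (c * z))) = fun z => c * (c * deriv (deriv f) (c * z)) := by
  rw [EvC_d1]
  funext z
  rw [deriv_const_mul_field, deriv_comp_mul_left, smul_eq_mul]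

private theorem EvC_vc (n : ℕ) : vc n = fun z => EvC_g (((n : ℝ) + 1)⁻¹ * z) := by
  funext z
  unfold vc EvC_g
  rw [div_eq_inv_mul]

private theorem EvC_rc (n : ℕ) : rc n = fun z => EVe_th (((n : ℝ) + 1) * z) := rfl

private theorem EvC_pos (n : ℕ) : (0 : ℝ) < (n : ℝ) + 1 := by positivity

theorem vc_sm (n : ℕ) : ContDiff ℝ ∞ (vc n) := by
  rw [EvC_vc]
  exact EvC_g_sm.comp (contDiff_const.mul contDiff_id)

theorem vc_01 (n : ℕ) (z : ℝ) : 0 ≤ vc n z ∧ vc n z ≤ 1 :=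
  ⟨Real.smoothTransition.nonneg _, Real.smoothTransition.le_one _⟩

theorem vc_z {n : ℕ} {z : ℝ} (h : 2 * ((n : ℝ) + 1) ≤ |z|) : vc n z = 0 := by
  have hp := EvC_pos n
  have h1 : (2 : ℝ) ≤ |z / ((n : ℝ) + 1)| := by
    rw [abs_div, abs_of_pos hp, le_div_iff₀ hp]; exact h
  have h2 : (2 : ℝ) ≤ (z / ((n : ℝ) + 1)) ^ 2 := by
    rw [← sq_abs]; nlinarith
  exact EvC_g0 h2

theorem vc_lim (z : ℝ) : ∀ᶠ n in atTop, vc n =ᶠ[𝓝 z] fun _ => 1 := by
  obtain ⟨N, hN⟩ := exists_nat_ge (|z| + 1)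
  filter_upwards [eventually_ge_atTop N] with n hn
  have hn' : |z| + 1 ≤ (n : ℝ) := hN.trans (by exact_mod_cast hn)
  have ho : {w : ℝ | |w| < |z| + 1} ∈ 𝓝 z :=
    (isOpen_lt continuous_abs continuous_const).mem_nhds (by simp)
  filter_upwards [ho] with w hw
  have hp := EvC_pos n
  have h1 : |w / ((n : ℝ) + 1)| ≤ 1 := by
    rw [abs_div, abs_of_pos hp, div_le_one hp]
    have : |w| < |z| + 1 := hw
    linarith
  have h2 : (w / ((n : ℝ) + 1)) ^ 2 ≤ 1 := by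
    rw [← sq_abs]; nlinarith [abs_nonneg (w / ((n : ℝ) + 1))]
  exact EvC_g1 h2

private theorem EvC_gd0 {s : ℝ} (h : 2 < |s|) : deriv EvC_g s = 0 := by
  have h1 : EvC_g =ᶠ[𝓝 s] fun _ => (0 : ℝ) := by
    have ho : {w : ℝ | 2 < |w|} ∈ 𝓝 s := (isOpen_lt continuous_const continuous_abs).mem_nhds h
    filter_upwards [ho] with w hw
    have hw' : 2 < |w| := hw
    exact EvC_g0 (by rw [← sq_abs]; nlinarith)
  rw [h1.deriv_eq, deriv_const]

private theorem EvC_gdd0 {s : ℝ} (h : 2 < |s|) : deriv (deriv EvC_g) s = 0 := by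
  have h1 : deriv EvC_g =ᶠ[𝓝 s] fun _ => (0 : ℝ) := by
    have ho : {w : ℝ | 2 < |w|} ∈ 𝓝 s := (isOpen_lt continuous_const continuous_abs).mem_nhds h
    filter_upwards [ho] with w hw
    exact EvC_gd0 hw
  rw [h1.deriv_eq, deriv_const]

theorem vc_bd : ∃ C : ℝ, 0 ≤ C ∧ ∀ n z, |deriv (vc n) z| ≤ C ∧ |deriv (deriv (vc n)) z| ≤ C := by
  obtain ⟨C1, hC1, h1⟩ := EvC_bd (EvC_dsm EvC_g_sm).continuous (R := 2) fun x hx => EvC_gd0 hx
  obtain ⟨C2, hC2, h2⟩ := EvC_bd (EvC_dsm (EvC_dsm EvC_g_sm)).continuous (R := 2) fun x hx => EvC_gdd0 hx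
  refine ⟨max C1 C2, le_max_of_le_left hC1, fun n z => ?_⟩
  have hp := EvC_pos n
  set c : ℝ := ((n : ℝ) + 1)⁻¹ with hc
  have hc0 : 0 ≤ c := by positivity
  have hc1 : c ≤ 1 := inv_le_one_of_one_le₀ (by linarith [n.cast_nonneg (α := ℝ)])
  have key : ∀ a : ℝ, |c * a| ≤ |a| := fun a => by
    rw [abs_mul, abs_of_nonneg hc0]
    exact mul_le_of_le_one_left (abs_nonneg _) hc1
  rw [EvC_vc, EvC_d2, EvC_d1]
  exact ⟨(key _).trans ((h1 _).trans (le_max_left _ _)),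
    (key _).trans ((key _).trans ((h2 _).trans (le_max_right _ _)))⟩

theorem rc_sm (n : ℕ) : ContDiff ℝ ∞ (rc n) := by
  rw [EvC_rc]
  exact EVe_th_smooth.comp (contDiff_const.mul contDiff_id)

theorem rc_01 (n : ℕ) (ρ : ℝ) : 0 ≤ rc n ρ ∧ rc n ρ ≤ 1 := ⟨EVe_thn _, EVe_thl _⟩

theorem rc_z {n : ℕ} {ρ : ℝ} (h : ((n : ℝ) + 1) * ρ < 1) : rc n =ᶠ[𝓝 ρ] fun _ => 0 := by
  have ho : {w : ℝ | ((n : ℝ) + 1) * w < 1} ∈ 𝓝 ρ :=
    (isOpen_lt (continuous_const.mul continuous_id) continuous_const).mem_nhds h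
  filter_upwards [ho] with w hw
  exact EVe_th0 (le_of_lt hw)

theorem rc_lim {ρ : ℝ} (h : 0 < ρ) : ∀ᶠ n in atTop, rc n =ᶠ[𝓝 ρ] fun _ => 1 := by
  obtain ⟨N, hN⟩ := exists_nat_ge (4 / ρ)
  filter_upwards [eventually_ge_atTop N] with n hn
  have hn' : 4 / ρ ≤ (n : ℝ) := hN.trans (by exact_mod_cast hn)
  have hn2 : 4 ≤ (n : ℝ) * ρ := by rwa [div_le_iff₀ h] at hn'
  have ho : {w : ℝ | ρ / 2 < w} ∈ 𝓝 ρ := lt_mem_nhds (by linarith)
  filter_upwards [ho] with w hw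
  have hw' : ρ / 2 < w := hw
  refine EVe_th1 ?_
  have hn0 : (0 : ℝ) ≤ n := n.cast_nonneg
  nlinarith [mul_nonneg hn0 (sub_nonneg.2 hw'.le)]

private theorem EvC_tdd1 {y : ℝ} (h : 2 < y) : deriv (deriv EVe_th) y = 0 := by
  have h1 : deriv EVe_th =ᶠ[𝓝 y] fun _ => (0 : ℝ) := by
    filter_upwards [lt_mem_nhds h] with z hz
    exact EVe_dth1 hz
  rw [h1.deriv_eq, deriv_const]

private theorem EvC_tdd0 {y : ℝ} (h : y < 1) : deriv (deriv EVe_th) y = 0 := by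
  have h1 : deriv EVe_th =ᶠ[𝓝 y] fun _ => (0 : ℝ) := by
    filter_upwards [gt_mem_nhds h] with z hz
    exact EVe_dth0 hz
  rw [h1.deriv_eq, deriv_const]

theorem rc_bd : ∃ C : ℝ, 0 ≤ C ∧ ∀ n ρ, 0 < ρ → |ρ * deriv (rc n) ρ| ≤ C ∧ |ρ ^ 2 * deriv (deriv (rc n)) ρ| ≤ C := by
  have hd : Continuous (deriv EVe_th) := (EvC_dsm EVe_th_smooth).continuous
  have hdd : Continuous (deriv (deriv EVe_th)) := (EvC_dsm (EvC_dsm EVe_th_smooth)).continuous
  obtain ⟨C1, hC1, h1⟩ := EvC_bd (f := fun y => y * deriv EVe_th y) (continuous_id.mul hd) (R := 2) fun x hx => by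
    rcases lt_abs.1 hx with h | h
    · simp only [EVe_dth1 h, mul_zero]
    · simp only [EVe_dth0 (show x < 1 by linarith), mul_zero]
  obtain ⟨C2, hC2, h2⟩ := EvC_bd (f := fun y => y ^ 2 * deriv (deriv EVe_th) y) ((continuous_id.pow 2).mul hdd)
      (R := 2) fun x hx => by
    rcases lt_abs.1 hx with h | h
    · simp only [EvC_tdd1 h, mul_zero]
    · simp only [EvC_tdd0 (show x < 1 by linarith), mul_zero]
  refine ⟨max C1 C2, le_max_of_le_left hC1, fun n ρ _ => ?_⟩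
  rw [EvC_rc, EvC_d2, EvC_d1]
  have e1 : ρ * (((n : ℝ) + 1) * deriv EVe_th (((n : ℝ) + 1) * ρ)) =
      ((n : ℝ) + 1) * ρ * deriv EVe_th (((n : ℝ) + 1) * ρ) := by ring
  have e2 : ρ ^ 2 * (((n : ℝ) + 1) * (((n : ℝ) + 1) * deriv (deriv EVe_th) (((n : ℝ) + 1) * ρ))) =
      (((n : ℝ) + 1) * ρ) ^ 2 * deriv (deriv EVe_th) (((n : ℝ) + 1) * ρ) := by ring
  rw [e1, e2]
  exact ⟨(h1 _).trans (le_max_left _ _), (h2 _).trans (le_max_right _ _)⟩

end Pool.Agent.H16.EP
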