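import Pool.Agent.H94.EP.EvC
import Pool.Agent.H94.EP.DyY
import Pool.Agent.H94.EP.DyQ

/-
The profiles of the approximating weights and their bounds.
-/

set_option autoImplicit false

open Set Filter Topology MeasureTheory
open scoped ContDiff

namespace Pool.Agent.H16.EP

open Pool.Agent.H16 Pool.Agent.H87.NS Pool.Agent.H72.CC Pool.Agent.H16.TU Pool.Agent.H94.EP Pool.Agent.H37.EP

/-- Height profiles dominated by `q`. -/
structure PB (q P : ℝ → ℝ) (C : ℝ) : Prop where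
  sm : ContDiff ℝ ∞ P
  nn : ∀ z, 0 ≤ P z
  b0 : ∀ z, |P z| ≤ C * q z
  b1 : ∀ z, |deriv P z| ≤ C * q z
  b2 : ∀ z, |deriv (deriv P) z| ≤ C * q z

/-- Radial profiles dominated by `ρ ^ (θ - 1)`. -/
structure YB (θ : ℝ) (Y : ℝ → ℝ) (C : ℝ) : Prop where
  sm : ContDiffOn ℝ ∞ Y (Ioi 0)
  nn : ∀ ρ, 0 < ρ → 0 ≤ Y ρ
  z : ∀ ρ, 1 / 2 < ρ → Y ρ = 0
  b0 : ∀ ρ, 0 < ρ → |Y ρ| ≤ C * ρ ^ (θ - 1)
  b1 : ∀ ρ, 0 < ρ → |ρ * deriv Y ρ| ≤ C * ρ ^ (θ - 1)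
  b2 : ∀ ρ, 0 < ρ → |ρ * deriv (deriv Y) ρ| ≤ C * ρ ^ (θ - 1)

private theorem EvD_mb {a b A B : ℝ} (ha : |a| ≤ A) (hb : |b| ≤ B) : |a * b| ≤ A * B := by
  rw [abs_mul]
  exact mul_le_mul ha hb (abs_nonneg _) ((abs_nonneg _).trans ha)

private theorem EvD_at {U : Set ℝ} (hU : IsOpen U) {f : ℝ → ℝ} (hf : ContDiffOn ℝ ∞ f U) {x : ℝ} (hx : x ∈ U) :
    HasDerivAt f (deriv f x) x ∧ HasDerivAt (deriv f) (deriv (deriv f) x) x := by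
  have h1 : ContDiffOn ℝ ∞ (deriv f) U := hf.deriv_of_isOpen hU (by simp)
  exact ⟨((hf.contDiffAt (hU.mem_nhds hx)).differentiableAt (by simp)).hasDerivAt,
    ((h1.contDiffAt (hU.mem_nhds hx)).differentiableAt (by simp)).hasDerivAt⟩

private theorem EvD_d1 {U : Set ℝ} (hU : IsOpen U) {f g : ℝ → ℝ} (hf : ContDiffOn ℝ ∞ f U) (hg : ContDiffOn ℝ ∞ g U) {x : ℝ}
    (hx : x ∈ U) : deriv (fun y => f y * g y) x = deriv f x * g x + f x * deriv g x :=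
  ((EvD_at hU hf hx).1.mul (EvD_at hU hg hx).1).deriv

private theorem EvD_d2 {U : Set ℝ} (hU : IsOpen U) {f g : ℝ → ℝ} (hf : ContDiffOn ℝ ∞ f U) (hg : ContDiffOn ℝ ∞ g U) {x : ℝ}
    (hx : x ∈ U) : deriv (deriv fun y => f y * g y) x =
      deriv (deriv f) x * g x + 2 * (deriv f x * deriv g x) + f x * deriv (deriv g) x := by
  have h1 : deriv (fun y => f y * g y) =ᶠ[𝓝 x] fun y => deriv f y * g y + f y * deriv g y := by
    filter_upwards [hU.mem_nhds hx] with y hy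
    exact EvD_d1 hU hf hg hy
  rw [h1.deriv_eq]
  obtain ⟨f1, f2⟩ := EvD_at hU hf hx
  obtain ⟨g1, g2⟩ := EvD_at hU hg hx
  have h2 : deriv (fun y => deriv f y * g y + f y * deriv g y) x =
      (deriv (deriv f) x * g x + deriv f x * deriv g x) + (deriv f x * deriv g x + f x * deriv (deriv g) x) :=
    ((f2.mul g1).add (f1.mul g2)).deriv
  rw [h2]
  ring

theorem PB_ph {L : ℝ} (hL : 1 ≤ L) (a : ℝ) {h : ℝ} (hh : |h| ≤ 1) : PB (ph L a) (ph L a) 30 ∧ PB (ph L a) (Ph L a h) 30 := by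
  have h0 : |(0 : ℝ)| ≤ 1 := by norm_num
  have hp : ∀ z, 0 < ph L a z := fun z => (P_bd hL a h0 z).1
  refine ⟨⟨(P_sm L a 0).1, fun z => (hp z).le, fun z => ?_, fun z => ?_, fun z => ?_⟩,
    ⟨(P_sm L a h).2, fun z => (hp (z + h / 2)).le, fun z => ?_, fun z => ?_, fun z => ?_⟩⟩
  · rw [abs_of_pos (hp z)]
    linarith [hp z]
  · linarith [(P_bd hL a h0 z).2.2.1, hp z]
  · linarith [(P_bd hL a h0 z).2.2.2.1, hp z]
  · linarith [(P_bd hL a hh z).2.2.2.2.1, hp z]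
  · linarith [(P_bd hL a hh z).2.2.2.2.2.1, hp z]
  · exact (P_bd hL a hh z).2.2.2.2.2.2

theorem PB_cut {q P : ℝ → ℝ} {C : ℝ} (hq : ∀ z, 0 ≤ q z) (hC : 0 ≤ C) (hP : PB q P C) : ∃ C' : ℝ, 0 ≤ C' ∧ ∀ n, PB q (fun z => P z * vc n z) C' := by
  obtain ⟨C1, hC1, hb⟩ := vc_bd
  refine ⟨C * (1 + 3 * C1), by positivity, fun n => ⟨hP.sm.mul (vc_sm n), fun z => mul_nonneg (hP.nn z) (vc_01 n z).1,
    fun z => ?_, fun z => ?_, fun z => ?_⟩⟩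
  all_goals
    have hA : 0 ≤ C * q z := mul_nonneg hC (hq z)
    have hA1 : 0 ≤ C * q z * C1 := mul_nonneg hA hC1
    have c0 : |vc n z| ≤ 1 := by
      rw [abs_of_nonneg (vc_01 n z).1]
      exact (vc_01 n z).2
    obtain ⟨c1, c2⟩ := hb n z
  · have := EvD_mb (hP.b0 z) c0
    linarith
  · rw [EvD_d1 isOpen_univ hP.sm.contDiffOn (vc_sm n).contDiffOn (mem_univ z)]
    have h1 := EvD_mb (hP.b1 z) c0
    have h2 := EvD_mb (hP.b0 z) c1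
    have h3 := abs_add_le (deriv P z * vc n z) (P z * deriv (vc n) z)
    linarith
  · rw [EvD_d2 isOpen_univ hP.sm.contDiffOn (vc_sm n).contDiffOn (mem_univ z)]
    have h1 := EvD_mb (hP.b2 z) c0
    have h2 := EvD_mb (hP.b1 z) c1
    have h3 := EvD_mb (hP.b0 z) c2
    have h4 := abs_add_le (deriv (deriv P) z * vc n z + 2 * (deriv P z * deriv (vc n) z)) (P z * deriv (deriv (vc n)) z)
    have h5 := abs_add_le (deriv (deriv P) z * vc n z) (2 * (deriv P z * deriv (vc n) z))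
    have h6 : |2 * (deriv P z * deriv (vc n) z)| = 2 * |deriv P z * deriv (vc n) z| := by
      rw [abs_mul, abs_two]
    linarith

theorem cut_e (P : ℝ → ℝ) (z : ℝ) : ∀ᶠ n in atTop, (fun w => P w * vc n w) =ᶠ[𝓝 z] P := by
  filter_upwards [vc_lim z] with n hn
  filter_upwards [hn] with w hw
  rw [hw, mul_one]

theorem cut_z (P : ℝ → ℝ) {n : ℕ} {z : ℝ} (h : 2 * ((n : ℝ) + 1) ≤ |z|) : P z * vc n z = 0 := by
  rw [vc_z h, mul_zero]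

theorem YB_1 : ∃ C : ℝ, 0 ≤ C ∧ YB 1 Y1 C := by
  obtain ⟨C, hC, hb⟩ := Y1_bd
  refine ⟨C, hC, Y1_sm.contDiffOn, fun ρ h => (Y_nn 0 h.le).1, fun ρ h => (Y1_zero h).1, fun ρ h => ?_, fun ρ h => ?_,
    fun ρ h => ?_⟩
  all_goals rw [sub_self, Real.rpow_zero, mul_one]
  · exact (hb ρ h).1
  · exact (hb ρ h).2.1
  · exact (hb ρ h).2.2

theorem Y2_b0 {θ : ℝ} (hθ : 0 < θ) (hθ1 : θ ≤ 1) : ∃ C : ℝ, 0 ≤ C ∧ ∀ ρ, 0 < ρ → |Y2 θ ρ| ≤ C * ρ ^ θ ∧ |ρ * deriv (Y2 θ) ρ| ≤ C * ρ ^ θ := by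
  obtain ⟨B, hB⟩ : ∃ B : ℝ → ℝ, B = fun ρ : ℝ => Real.smoothTransition (2 - 16 * ρ) ^ 4 := ⟨_, rfl⟩
  have sB : ContDiff ℝ ∞ B := by
    rw [hB]
    exact (Real.smoothTransition.contDiff.comp (by fun_prop)).pow 4
  have hY : Y2 θ = fun ρ => (ρ / 2) ^ θ * B ρ := by
    rw [hB]
    rfl
  have B1 : ∀ ρ, |B ρ| ≤ 1 := by
    intro ρ
    rw [hB]
    show |Real.smoothTransition (2 - 16 * ρ) ^ 4| ≤ 1
    rw [abs_of_nonneg (pow_nonneg (Real.smoothTransition.nonneg _) 4)]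
    exact pow_le_one₀ (Real.smoothTransition.nonneg _) (Real.smoothTransition.le_one _)
  obtain ⟨C, hC⟩ := isCompact_Icc.exists_bound_of_continuousOn (s := Icc (0 : ℝ) 1)
    ((contDiff_infty_iff_deriv.1 sB).2.continuous).continuousOn
  have hC0 : 0 ≤ C := (norm_nonneg _).trans (hC 0 ⟨le_rfl, zero_le_one⟩)
  refine ⟨1 + C, by linarith, fun ρ hρ => ?_⟩
  have hh : 0 < ρ / 2 := by linarith
  have p0 : 0 ≤ (ρ / 2) ^ θ := Real.rpow_nonneg hh.le _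
  have p1 : (ρ / 2) ^ θ ≤ ρ ^ θ := Real.rpow_le_rpow hh.le (by linarith) hθ.le
  have pa : |(ρ / 2) ^ θ| ≤ ρ ^ θ := by
    rw [abs_of_nonneg p0]
    exact p1
  have hr : 0 ≤ ρ ^ θ := Real.rpow_nonneg hρ.le _
  have x1 := EvD_mb pa (B1 ρ)
  have hCr : 0 ≤ C * ρ ^ θ := mul_nonneg hC0 hr
  constructor
  · rw [hY]
    show |(ρ / 2) ^ θ * B ρ| ≤ _
    linarith
  · by_cases hle : ρ ≤ 1
    · have dA : HasDerivAt (fun y : ℝ => (y / 2) ^ θ) (1 / 2 * θ * (ρ / 2) ^ (θ - 1)) ρ :=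
        ((hasDerivAt_id ρ).div_const 2).rpow_const (Or.inl hh.ne')
      have dB : HasDerivAt B (deriv B ρ) ρ := (sB.differentiable (by simp) ρ).hasDerivAt
      have e1 : deriv (Y2 θ) ρ = 1 / 2 * θ * (ρ / 2) ^ (θ - 1) * B ρ + (ρ / 2) ^ θ * deriv B ρ := by
        rw [hY]
        exact (dA.mul dB).deriv
      have r3 : ρ / 2 * (ρ / 2) ^ (θ - 1) = (ρ / 2) ^ θ := by
        have := Real.rpow_add hh 1 (θ - 1)
        rw [Real.rpow_one] at this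
        rw [← this]
        congr 1
        ring
      have e2 : ρ * deriv (Y2 θ) ρ = θ * ((ρ / 2) ^ θ * B ρ) + (ρ / 2) ^ θ * (ρ * deriv B ρ) := by
        rw [e1, ← r3]
        ring
      rw [e2]
      have h1 : |θ * ((ρ / 2) ^ θ * B ρ)| ≤ 1 * (ρ ^ θ * 1) :=
        EvD_mb (by rw [abs_of_pos hθ]; exact hθ1) x1
      have h2 : |ρ * deriv B ρ| ≤ 1 * C := EvD_mb (by rw [abs_of_pos hρ]; exact hle) (hC ρ ⟨hρ.le, hle⟩)
      have h3 := EvD_mb pa h2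
      have h4 := abs_add_le (θ * ((ρ / 2) ^ θ * B ρ)) ((ρ / 2) ^ θ * (ρ * deriv B ρ))
      linarith
    · push Not at hle
      rw [(Y2_zero θ (by linarith : 1 / 8 < ρ)).2.1, mul_zero, abs_zero]
      linarith

theorem YB_2 {θ : ℝ} (hθ : 0 < θ) (hθ1 : θ ≤ 1) : ∃ C : ℝ, 0 ≤ C ∧ ∀ n, YB θ (fun ρ => Y2 θ ρ * rc n ρ) C := by
  obtain ⟨C0, hC0, hb0⟩ := Y2_b0 hθ hθ1
  obtain ⟨C1, hC1, hb1⟩ := Y2_bd hθ hθ1
  obtain ⟨C2, hC2, hb2⟩ := rc_bd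
  have h02 : 0 ≤ C0 * C2 := mul_nonneg hC0 hC2
  refine ⟨C0 + C1 + 3 * (C0 * C2), by linarith, fun n => ⟨(Y2_sm θ).mul (rc_sm n).contDiffOn,
    fun ρ h => mul_nonneg (Y_nn θ h.le).2 (rc_01 n ρ).1, fun ρ h => ?_, fun ρ h => ?_, fun ρ h => ?_, fun ρ h => ?_⟩⟩
  · rw [(Y2_zero θ (by linarith : 1 / 8 < ρ)).1, zero_mul]
  all_goals
    have hX : 0 ≤ ρ ^ (θ - 1) := Real.rpow_nonneg h.le _
    have hXC : 0 ≤ (C0 + C1 + 3 * (C0 * C2)) * ρ ^ (θ - 1) := mul_nonneg (by linarith) hX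
    have k0 : 0 ≤ C0 * ρ ^ (θ - 1) := mul_nonneg hC0 hX
    have k1 : 0 ≤ C1 * ρ ^ (θ - 1) := mul_nonneg hC1 hX
    have k2 : 0 ≤ C0 * C2 * ρ ^ (θ - 1) := mul_nonneg h02 hX
    have hex : ρ ^ θ = ρ * ρ ^ (θ - 1) := by
      have := Real.rpow_add h 1 (θ - 1)
      rw [Real.rpow_one] at this
      rw [← this]
      congr 1
      ring
    have c0 : |rc n ρ| ≤ 1 := by
      rw [abs_of_nonneg (rc_01 n ρ).1]
      exact (rc_01 n ρ).2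
    obtain ⟨c1, c2⟩ := hb2 n ρ h
    obtain ⟨y0, y1⟩ := hb0 ρ h
    obtain ⟨_, _, y2, _⟩ := hb1 ρ h
    rw [hex] at y0 y1
  · by_cases hle : ρ ≤ 1
    · have h1 := EvD_mb y0 c0
      have h2 : C0 * (ρ * ρ ^ (θ - 1)) ≤ C0 * ρ ^ (θ - 1) :=
        mul_le_mul_of_nonneg_left (mul_le_of_le_one_left hX hle) hC0
      nlinarith
    · push Not at hle
      rw [(Y2_zero θ (by linarith : 1 / 8 < ρ)).1, zero_mul, abs_zero]
      exact hXC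
  · rw [EvD_d1 isOpen_Ioi (Y2_sm θ) (rc_sm n).contDiffOn h]
    by_cases hle : ρ ≤ 1
    · have h2 : C0 * (ρ * ρ ^ (θ - 1)) ≤ C0 * ρ ^ (θ - 1) :=
        mul_le_mul_of_nonneg_left (mul_le_of_le_one_left hX hle) hC0
      have h3 := EvD_mb (y1.trans h2) c0
      have h4 := EvD_mb (y0.trans h2) c1
      have e : ρ * (deriv (Y2 θ) ρ * rc n ρ + Y2 θ ρ * deriv (rc n) ρ) =
          ρ * deriv (Y2 θ) ρ * rc n ρ + Y2 θ ρ * (ρ * deriv (rc n) ρ) := by ring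
      rw [e]
      have h5 := abs_add_le (ρ * deriv (Y2 θ) ρ * rc n ρ) (Y2 θ ρ * (ρ * deriv (rc n) ρ))
      nlinarith
    · push Not at hle
      obtain ⟨z1, z2, z3⟩ := Y2_zero θ (by linarith : 1 / 8 < ρ)
      rw [z1, z2, zero_mul, zero_mul, add_zero, mul_zero, abs_zero]
      exact hXC
  · rw [EvD_d2 isOpen_Ioi (Y2_sm θ) (rc_sm n).contDiffOn h]
    by_cases hle : ρ ≤ 1
    · have h3 := EvD_mb y2 c0
      have h4 := EvD_mb y1 c1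
      have h5 := EvD_mb y0 c2
      have e : ρ * (deriv (deriv (Y2 θ)) ρ * rc n ρ + 2 * (deriv (Y2 θ) ρ * deriv (rc n) ρ) + Y2 θ ρ * deriv (deriv (rc n)) ρ) =
          ρ * deriv (deriv (Y2 θ)) ρ * rc n ρ + 2 * (ρ * deriv (Y2 θ) ρ * (ρ * deriv (rc n) ρ) / ρ) +
            Y2 θ ρ * (ρ ^ 2 * deriv (deriv (rc n)) ρ) / ρ := by
        have := h.ne'
        have h' : ρ ≠ 0 := h.ne'
        field_simp
      rw [e]
      have d1 : |ρ * deriv (Y2 θ) ρ * (ρ * deriv (rc n) ρ) / ρ| ≤ C0 * C2 * ρ ^ (θ - 1) := by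
        rw [abs_div, abs_of_pos (show (0:ℝ) < ρ from h), div_le_iff₀ h]
        refine h4.trans (le_of_eq ?_)
        ring
      have d2 : |Y2 θ ρ * (ρ ^ 2 * deriv (deriv (rc n)) ρ) / ρ| ≤ C0 * C2 * ρ ^ (θ - 1) := by
        rw [abs_div, abs_of_pos (show (0:ℝ) < ρ from h), div_le_iff₀ h]
        refine h5.trans (le_of_eq ?_)
        ring
      have h6 := abs_add_le (ρ * deriv (deriv (Y2 θ)) ρ * rc n ρ + 2 * (ρ * deriv (Y2 θ) ρ * (ρ * deriv (rc n) ρ) / ρ))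
        (Y2 θ ρ * (ρ ^ 2 * deriv (deriv (rc n)) ρ) / ρ)
      have h7 := abs_add_le (ρ * deriv (deriv (Y2 θ)) ρ * rc n ρ) (2 * (ρ * deriv (Y2 θ) ρ * (ρ * deriv (rc n) ρ) / ρ))
      have h8 : |2 * (ρ * deriv (Y2 θ) ρ * (ρ * deriv (rc n) ρ) / ρ)| = 2 * |ρ * deriv (Y2 θ) ρ * (ρ * deriv (rc n) ρ) / ρ| := by
        rw [abs_mul, abs_two]
      have h9 : (C0 + C1 + 3 * (C0 * C2)) * ρ ^ (θ - 1) = C0 * ρ ^ (θ - 1) + C1 * ρ ^ (θ - 1) + 3 * (C0 * C2 * ρ ^ (θ - 1)) := by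
        ring
      rw [h9]
      linarith
    · push Not at hle
      obtain ⟨z1, z2, z3⟩ := Y2_zero θ (by linarith : 1 / 8 < ρ)
      rw [z1, z2, z3, zero_mul, zero_mul, zero_mul, mul_zero, add_zero, add_zero, mul_zero, abs_zero]
      exact hXC

theorem Yr_sm (θ : ℝ) (n : ℕ) : ContDiff ℝ ∞ (fun ρ => Y2 θ ρ * rc n ρ) := by
  rw [contDiff_iff_contDiffAt]
  intro ρ
  rcases lt_or_ge 0 ρ with h | h
  · exact ((Y2_sm θ).contDiffAt (isOpen_Ioi.mem_nhds h)).mul (rc_sm n).contDiffAt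
  · have h1 : ((n : ℝ) + 1) * ρ < 1 := by
      have : 0 ≤ (n : ℝ) := Nat.cast_nonneg n
      nlinarith
    refine (contDiffAt_const (c := (0 : ℝ))).congr_of_eventuallyEq ?_
    filter_upwards [rc_z h1] with y hy
    rw [hy, mul_zero]

theorem Yr_e (θ : ℝ) {ρ : ℝ} (h : 0 < ρ) : ∀ᶠ n in atTop, (fun r => Y2 θ r * rc n r) =ᶠ[𝓝 ρ] Y2 θ := by
  filter_upwards [rc_lim h] with n hn
  filter_upwards [hn] with w hw
  rw [hw, mul_one]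

end Pool.Agent.H16.EP
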