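import Pool.Agent.H94.EP.EvD

/-
ROW EvE (MP_09540e_EP). Product weights: domination of the rate, smoothness, compact support (static). Aux lemmas prefixed EvE_ . PROOF.
`pw_b0`: `pw Y P x = Y ρ * P z`, `ρ = rsq x`, `z = x 2`: for `ρ < 1`: `≤ C ρ^(θ-1) * (C' q)`, `ρ^(θ-1) * ph = dm` (dm_1); for `ρ ≥ 1`: `Y ρ = 0` (YB.z) and `0 ≤ dm` (dm_nn).
`pw_b1`: pw_ev (DyP) with `hv : AxF v`: in absolute value, for `ρ < 1`: `|2 (f G - gsq f)| ≤ 2 (K² + 3 K²)`, `f² ≤ K²`, `|sW v x| ≤ K`, `|v x 2| ≤ K`; the products of a radial and a height factor are `≤ C C' ρ^(θ-1) ph = C C' dm`; total `(8 K² + K² (2 K + K + 4 + 1)) C C' dm = (13 K² + 3 K³) C C' dm`.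
  For `ρ > 1/2` all radial factors are zero: `Y = 0` near `ρ`, so the derivatives vanish (EventuallyEq.deriv_eq; only `ρ ≥ 1` is needed).
`pw_cs`: `Y : ℝ → ℝ` smooth, so `pw Y P` is smooth (composition with rsq: EVe_rsq_smooth, and the coordinate `x 2`). Support: `pw Y P x = 0` unless `rsq x ≤ 1/2` and `|x 2| < R`: then `‖x‖ ^ 2 = rsq x + x 2 ^ 2 ≤ 1/2 + R ^ 2` (EuclideanSpace.norm_sq_eq, Fin.sum_univ_three):
  HasCompactSupport.intro (isCompact_closedBall 0 (1 + R)). `rdr`: off the axis pw_rdr (`hY.contDiffOn`): `|2 ρ Y' ρ P z| ≤ 2 ρ * B * B'` where `|Y'| ≤ B` on `Icc 0 1` (continuous; and `Y' ρ = 0` for `ρ > 1/2`), `|P| ≤ B'` (P is continuous and vanishes for `|z| ≥ R`: bounded). On the axis (`x 0 = x 1 = 0`) `rdr = 0`.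
  Nonnegative: `Y ρ ≥ 0` for `ρ > 0` by hypothesis, and for `ρ = 0` by continuity (hypothesis h0 : ∀ ρ, 0 ≤ ρ → 0 ≤ Y ρ is assumed directly).
`pw_e`: if `Y n =ᶠ[𝓝 (rsq x)] Y`, `P n =ᶠ[𝓝 (x 2)] P` then `pw (Y n) (P n) =ᶠ[𝓝 x] pw Y P` (Filter.EventuallyEq.comp_tendsto with continuity of rsq and of the coordinate).
-/

set_option autoImplicit false

open Set Filter Topology MeasureTheory
open scoped ContDiff

namespace Pool.Agent.H16.EP

open Pool.Agent.H16 Pool.Agent.H87.NS Pool.Agent.H72.CC Pool.Agent.H16.TU Pool.Agent.H94.EP Pool.Agent.H37.EP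

private theorem EvE_fac {θ L a C C' y p : ℝ} (hC : 0 ≤ C) {x : E3} (hx : 0 < rsq x) (hy : |y| ≤ C * rsq x ^ (θ - 1))
    (hp : |p| ≤ C' * ph L a (x 2)) (hd : rsq x ^ (θ - 1) * ph L a (x 2) = dm θ L a x) : |y * p| ≤ C * C' * dm θ L a x := by
  rw [abs_mul]
  have h1 : |y| * |p| ≤ (C * rsq x ^ (θ - 1)) * (C' * ph L a (x 2)) :=
    mul_le_mul hy hp (abs_nonneg _) (mul_nonneg hC (Real.rpow_nonneg hx.le _))
  calc |y| * |p| ≤ (C * rsq x ^ (θ - 1)) * (C' * ph L a (x 2)) := h1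
    _ = C * C' * (rsq x ^ (θ - 1) * ph L a (x 2)) := by ring
    _ = C * C' * dm θ L a x := by rw [hd]

private theorem EvE_dm0 (θ L a : ℝ) {x : E3} (h : ¬ rsq x < 1) : dm θ L a x = 0 := by
  unfold dm
  exact indicator_of_notMem (by simpa using h) _

private theorem EvE_z {Y : ℝ → ℝ} (hz : ∀ ρ, 1 / 2 < ρ → Y ρ = 0) {ρ : ℝ} (h : 1 / 2 < ρ) :
    deriv Y ρ = 0 ∧ deriv (deriv Y) ρ = 0 := by
  have h1 : ∀ r, 1 / 2 < r → deriv Y r = 0 := by
    intro r hr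
    have h2 : Y =ᶠ[𝓝 r] fun _ => (0:ℝ) := by
      filter_upwards [lt_mem_nhds hr] with s hs
      exact hz s hs
    rw [h2.deriv_eq]
    simp
  refine ⟨h1 ρ h, ?_⟩
  have h2 : deriv Y =ᶠ[𝓝 ρ] fun _ => (0:ℝ) := by
    filter_upwards [lt_mem_nhds h] with s hs
    exact h1 s hs
  rw [h2.deriv_eq]
  simp

theorem pw_b0 {θ L a C C' : ℝ} {Y P : ℝ → ℝ} (hθ1 : θ ≤ 1) (hC : 0 ≤ C) (hY : YB θ Y C) (hP : PB (ph L a) P C') {x : E3} (hx : 0 < rsq x) :
    |pw Y P x| ≤ C * C' * dm θ L a x := by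
  unfold pw
  by_cases h : rsq x < 1
  · exact EvE_fac hC hx (hY.b0 _ hx) (hP.b0 _) (dm_1 hθ1 L a hx h).2
  · rw [EvE_dm0 θ L a h, hY.z _ (by linarith [not_lt.1 h])]
    simp

theorem pw_b1 {θ L a C C' K : ℝ} {Y P : ℝ → ℝ} (hθ1 : θ ≤ 1) (hC : 0 ≤ C) (hY : YB θ Y C) (hP : PB (ph L a) P C') (hK : 0 ≤ K)
    {v : E3 → E3} (hv : AxF v) {f G : E3 → ℝ} {x : E3} (hx : 0 < rsq x) (h1 : |f x| ≤ K) (h2 : ∀ i, |pd i f x| ≤ K) (h3 : |G x| ≤ K)
    (h4 : |sW v x| ≤ K) (h5 : |v x 2| ≤ K) :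
    |evJ sqf v f G (pw Y P) x| ≤ (13 * K ^ 2 + 3 * K ^ 3) * (C * C') * dm θ L a x := by
  rw [pw_ev hY.sm hP.sm hv f G hx]
  by_cases h : rsq x < 1
  · have hd := (dm_1 hθ1 L a hx h).2
    have e1 := EvE_fac hC hx (hY.b0 _ hx) (hP.b0 (x 2)) hd
    have e2 := EvE_fac hC hx (hY.b1 _ hx) (hP.b0 (x 2)) hd
    have e3 := EvE_fac hC hx (hY.b0 _ hx) (hP.b1 (x 2)) hd
    have e4 := EvE_fac hC hx (hY.b2 _ hx) (hP.b0 (x 2)) hd
    have e5 := EvE_fac hC hx (hY.b0 _ hx) (hP.b2 (x 2)) hd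
    set D := C * C' * dm θ L a x with hD
    have hD0 : 0 ≤ D := (abs_nonneg _).trans e1
    have hf2 : f x ^ 2 ≤ K ^ 2 := by
      rw [← sq_abs]
      exact pow_le_pow_left₀ (abs_nonneg _) h1 2
    have hg : 0 ≤ gsq f x ∧ gsq f x ≤ 3 * K ^ 2 := by
      unfold gsq
      rw [Fin.sum_univ_three]
      have q : ∀ i, pd i f x ^ 2 ≤ K ^ 2 := by
        intro i
        rw [← sq_abs]
        exact pow_le_pow_left₀ (abs_nonneg _) (h2 i) 2
      refine ⟨by positivity, ?_⟩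
      linarith [q 0, q 1, q 2]
    have hfG : |f x * G x| ≤ K ^ 2 := by
      rw [abs_mul, _root_.sq]
      exact mul_le_mul h1 h3 (abs_nonneg _) hK
    have t1 : |2 * (f x * G x - gsq f x) * (Y (rsq x) * P (x 2))| ≤ 8 * K ^ 2 * D := by
      rw [abs_mul]
      refine mul_le_mul ?_ e1 (abs_nonneg _) (by positivity)
      rw [abs_mul, abs_of_pos (by norm_num : (0:ℝ) < 2)]
      have : |f x * G x - gsq f x| ≤ K ^ 2 + 3 * K ^ 2 := by
        refine (abs_sub _ _).trans ?_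
        rw [abs_of_nonneg hg.1]
        linarith [hg.2]
      linarith
    have t2 : |2 * sW v x * (rsq x * deriv Y (rsq x)) * P (x 2)| ≤ 2 * K * D := by
      have : 2 * sW v x * (rsq x * deriv Y (rsq x)) * P (x 2) = (2 * sW v x) * ((rsq x * deriv Y (rsq x)) * P (x 2)) := by ring
      rw [this, abs_mul]
      refine mul_le_mul ?_ e2 (abs_nonneg _) (by positivity)
      rw [abs_mul, abs_of_pos (by norm_num : (0:ℝ) < 2)]
      linarith
    have t3 : |v x 2 * (Y (rsq x) * deriv P (x 2))| ≤ K * D := by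
      rw [abs_mul]
      exact mul_le_mul h5 e3 (abs_nonneg _) hK
    have t4 : |4 * (rsq x * deriv (deriv Y) (rsq x)) * P (x 2)| ≤ 4 * D := by
      have : 4 * (rsq x * deriv (deriv Y) (rsq x)) * P (x 2) = 4 * ((rsq x * deriv (deriv Y) (rsq x)) * P (x 2)) := by ring
      rw [this, abs_mul, abs_of_pos (by norm_num : (0:ℝ) < 4)]
      linarith
    have t5 := e5
    have t6 : |2 * sW v x * (rsq x * deriv Y (rsq x)) * P (x 2) + v x 2 * (Y (rsq x) * deriv P (x 2)) +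
        4 * (rsq x * deriv (deriv Y) (rsq x)) * P (x 2) + Y (rsq x) * deriv (deriv P) (x 2)| ≤ (3 * K + 5) * D := by
      refine (abs_add_le _ _).trans ?_
      have q1 := abs_add_le (2 * sW v x * (rsq x * deriv Y (rsq x)) * P (x 2) + v x 2 * (Y (rsq x) * deriv P (x 2)))
        (4 * (rsq x * deriv (deriv Y) (rsq x)) * P (x 2))
      have q2 := abs_add_le (2 * sW v x * (rsq x * deriv Y (rsq x)) * P (x 2)) (v x 2 * (Y (rsq x) * deriv P (x 2)))
      have q3 : (3 * K + 5) * D = 2 * K * D + K * D + 4 * D + D := by ring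
      rw [q3]
      linarith
    have t7 : |f x ^ 2 * (2 * sW v x * (rsq x * deriv Y (rsq x)) * P (x 2) + v x 2 * (Y (rsq x) * deriv P (x 2)) +
        4 * (rsq x * deriv (deriv Y) (rsq x)) * P (x 2) + Y (rsq x) * deriv (deriv P) (x 2))| ≤ K ^ 2 * ((3 * K + 5) * D) := by
      rw [abs_mul, abs_of_nonneg (sq_nonneg (f x))]
      exact mul_le_mul hf2 t6 (abs_nonneg _) (by positivity)
    refine (abs_add_le _ _).trans ?_
    have hfin : (13 * K ^ 2 + 3 * K ^ 3) * (C * C') * dm θ L a x = 8 * K ^ 2 * D + K ^ 2 * ((3 * K + 5) * D) := by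
      rw [hD]
      ring
    rw [hfin]
    exact add_le_add t1 t7
  · have h6 : (1:ℝ) / 2 < rsq x := by linarith [not_lt.1 h]
    obtain ⟨z1, z2⟩ := EvE_z hY.z h6
    rw [EvE_dm0 θ L a h, hY.z _ h6, z1, z2]
    simp

theorem pw_cs {Y P : ℝ → ℝ} (hY : ContDiff ℝ ∞ Y) (hP : ContDiff ℝ ∞ P) (h0 : ∀ ρ, 0 ≤ ρ → 0 ≤ Y ρ) (hz : ∀ ρ, 1 / 2 < ρ → Y ρ = 0)
    (hp : ∀ z, 0 ≤ P z) {R : ℝ} (hR : ∀ z, R ≤ |z| → P z = 0) :
    ContDiff ℝ ∞ (pw Y P) ∧ HasCompactSupport (pw Y P) ∧ (∀ x, 0 ≤ pw Y P x) ∧ ∃ C : ℝ, ∀ x, |rdr (pw Y P) x| ≤ C * rsq x := by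
  refine ⟨?_, ?_, ?_, ?_⟩
  · have h1 : ContDiff ℝ ∞ (fun y : E3 => Y (rsq y)) := hY.comp EVe_rsq_smooth
    have h2 : ContDiff ℝ ∞ (fun y : E3 => P (y 2)) := hP.comp (by fun_prop)
    exact h1.mul h2
  · refine HasCompactSupport.intro (isCompact_closedBall (0 : E3) (1 + |R|)) fun x hx => ?_
    unfold pw
    by_cases h1 : 1 / 2 < rsq x
    · rw [hz _ h1, zero_mul]
    · by_cases h2 : R ≤ |x 2|
      · rw [hR _ h2, mul_zero]
      · exfalso
        apply hx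
        rw [mem_closedBall_zero_iff]
        have h3 : ‖x‖ ^ 2 = rsq x + x 2 ^ 2 := by
          rw [EuclideanSpace.norm_sq_eq, Fin.sum_univ_three]
          simp only [Real.norm_eq_abs, sq_abs]
          rfl
        push Not at h1 h2
        have h4 : x 2 ^ 2 ≤ |R| ^ 2 := by
          rw [← sq_abs (x 2)]
          exact pow_le_pow_left₀ (abs_nonneg _) (h2.le.trans (le_abs_self R)) 2
        have h5 : ‖x‖ ^ 2 ≤ (1 + |R|) ^ 2 := by
          rw [h3]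
          nlinarith [abs_nonneg R]
        exact le_of_sq_le_sq h5 (by positivity)
  · intro x
    exact mul_nonneg (h0 _ (EVe_rsq_nonneg x)) (hp _)
  · have hdc : Continuous (deriv Y) := hY.continuous_deriv (by simp)
    obtain ⟨B, hB⟩ := (isCompact_Icc (a := (0:ℝ)) (b := 1)).exists_bound_of_continuousOn hdc.continuousOn
    obtain ⟨B', hB'⟩ := (isCompact_Icc (a := -|R|) (b := |R|)).exists_bound_of_continuousOn hP.continuous.continuousOn
    have hB0 : 0 ≤ B := (norm_nonneg _).trans (hB 0 (by simp))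
    have hB0' : 0 ≤ B' := (norm_nonneg _).trans (hB' 0 (by simp))
    have b1 : ∀ ρ, 0 ≤ ρ → |deriv Y ρ| ≤ B := by
      intro ρ hρ
      by_cases h : ρ ≤ 1
      · exact hB ρ ⟨hρ, h⟩
      · rw [(EvE_z hz (by linarith [not_le.1 h])).1, abs_zero]
        exact hB0
    have b2 : ∀ z, |P z| ≤ B' := by
      intro z
      by_cases h : |z| ≤ |R|
      · exact hB' z (abs_le.1 h)
      · rw [hR z ((le_abs_self R).trans (not_le.1 h).le), abs_zero]
        exact hB0'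
    refine ⟨2 * B * B', fun x => ?_⟩
    have hr0 := EVe_rsq_nonneg x
    rcases hr0.eq_or_lt with h | h
    · have h3 : x 0 ^ 2 + x 1 ^ 2 = 0 := h.symm
      have h4 : x 0 = 0 := by nlinarith [sq_nonneg (x 0), sq_nonneg (x 1)]
      have h5 : x 1 = 0 := by nlinarith [sq_nonneg (x 0), sq_nonneg (x 1)]
      have h6 : rdr (pw Y P) x = 0 := by
        unfold rdr
        rw [h4, h5]
        ring
      rw [h6, abs_zero, ← h, mul_zero]
    · rw [pw_rdr hY.contDiffOn hP h, abs_mul, abs_mul, abs_mul, abs_of_pos (by norm_num : (0:ℝ) < 2), abs_of_pos h]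
      have h3 : |deriv Y (rsq x)| * |P (x 2)| ≤ B * B' :=
        mul_le_mul (b1 _ hr0) (b2 _) (abs_nonneg _) hB0
      calc 2 * (rsq x * |deriv Y (rsq x)|) * |P (x 2)| = 2 * rsq x * (|deriv Y (rsq x)| * |P (x 2)|) := by ring
        _ ≤ 2 * rsq x * (B * B') := mul_le_mul_of_nonneg_left h3 (by positivity)
        _ = 2 * B * B' * rsq x := by ring

theorem pw_e {Y Y' P P' : ℝ → ℝ} {x : E3} (hY : Y' =ᶠ[𝓝 (rsq x)] Y) (hP : P' =ᶠ[𝓝 (x 2)] P) : pw Y' P' =ᶠ[𝓝 x] pw Y P := by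
  have h1 : (fun y : E3 => Y' (rsq y)) =ᶠ[𝓝 x] fun y => Y (rsq y) :=
    hY.comp_tendsto EVe_rsq_smooth.continuous.continuousAt
  have h2 : (fun y : E3 => P' (y 2)) =ᶠ[𝓝 x] fun y => P (y 2) :=
    hP.comp_tendsto (Continuous.continuousAt (by fun_prop))
  exact h1.mul h2

end Pool.Agent.H16.EP
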