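import Pool.Agent.H94.EP.EvB
import Pool.Agent.H94.EP.EvE
import Pool.Agent.H94.EP.DyB
import Pool.Agent.H87.NS.FlowOf

/-
The energy inequality with the weights `A1` and `kx`.
-/

set_option autoImplicit false

open Set Filter Topology MeasureTheory
open scoped ContDiff

namespace Pool.Agent.H16.EP

open Pool.Agent.H16 Pool.Agent.H87.NS Pool.Agent.H72.CC Pool.Agent.H16.TU Pool.Agent.H94.EP Pool.Agent.H37.EP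

variable {T : ℝ} {u : ℝ → E3 → E3} {p : ℝ → E3 → ℝ} {f G : ℝ → E3 → ℝ}

private theorem EvF_gen (h : IsHInfAxisymNS T u p) (hf : Evo T u f G) {θ L : ℝ} (hθ : 0 < θ) (hθ1 : θ ≤ 1) (hL : 1 ≤ L)
    (a₀ : ℝ) {Y : ℕ → ℝ → ℝ} {Y' P : ℝ → ℝ} {C C' : ℝ} (hC : 0 ≤ C) (hC' : 0 ≤ C') (hYs : ∀ n, ContDiff ℝ ∞ (Y n))
    (hY0 : ∀ n ρ, 0 ≤ ρ → 0 ≤ Y n ρ) (hYB : ∀ n, YB θ (Y n) C) (hYe : ∀ ρ, 0 < ρ → ∀ᶠ n in atTop, Y n =ᶠ[𝓝 ρ] Y')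
    (hP : PB (ph L a₀) P C') {a b : ℝ} (ha : 0 ≤ a) (hab : a ≤ b) (hb : b < T) :
    ∫ x, pw Y' P x * f b x ^ 2 ≤ (∫ x, pw Y' P x * f a x ^ 2) +
      ∫ t in a..b, ∫ x, evJ sqf (u t) (f t) (G t) (pw Y' P) x := by
  have hu : Drift T u := (flow_of h).drift
  have hq : ∀ z, 0 ≤ ph L a₀ z := fun z => (P_bd hL a₀ (h := 0) (by simp) z).1.le
  obtain ⟨D, hD, hPn⟩ := PB_cut hq hC' hP
  obtain ⟨K1, k1, hK1⟩ := EVe_K hu hf jsq hb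
  obtain ⟨K2, k2, hK2⟩ := bds h hb 0
  have hK : 0 ≤ K1 + K2 := by linarith
  have hM : 0 ≤ 13 * (K1 + K2) ^ 2 + 3 * (K1 + K2) ^ 3 := by positivity
  have hCD : 0 ≤ C * D := mul_nonneg hC hD
  have hcs := fun n => pw_cs (hYs n) (hP.sm.mul (vc_sm n)) (hY0 n) (hYB n).z
    (fun z => mul_nonneg (hP.nn z) (vc_01 n z).1) (R := 2 * ((n : ℝ) + 1)) (fun z hz => cut_z P hz)
  refine ev_lim (ψ := fun n => pw (Y n) (fun z => P z * vc n z)) (χ := pw Y' P)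
    (g := fun x => (C * D + 1) * dm θ L a₀ x) (M := 13 * (K1 + K2) ^ 2 + 3 * (K1 + K2) ^ 3) hu hf ha hab hb
    ((dm_int hθ (by linarith) a₀).const_mul _) (fun n => (hcs n).1) (fun n => (hcs n).2.1)
    (fun n => (hcs n).2.2.1) (fun n => (hcs n).2.2.2) ?_ ?_ ?_
  · intro x hx
    filter_upwards [hYe (rsq x) hx, cut_e P (x 2)] with n e1 e2
    exact pw_e e1 e2
  · intro n x hx
    refine (pw_b0 hθ1 hC (hYB n) (hPn n) hx).trans ?_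
    have h0 := dm_nn θ L a₀ x
    show C * D * dm θ L a₀ x ≤ (C * D + 1) * dm θ L a₀ x
    nlinarith
  · intro n t ht x hx
    have ht1 : t ∈ Icc 0 b := ⟨ha.trans ht.1, ht.2⟩
    obtain ⟨g1, g2, g3, -⟩ := hK1 t ht1 x
    obtain ⟨-, m1, -, m2, -⟩ := hK2 t ht1
    have e1 : |sW (u t) x| ≤ K2 := (DB_BL m1).1 x
    have e2 : |u t x 2| ≤ K2 := (DB_BL (m2 2)).1 x
    have h6 := pw_b1 hθ1 hC (hYB n) (hPn n) hK (axF_of h.ns ⟨ht1.1, lt_of_le_of_lt ht1.2 hb⟩) hx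
      (f := f t) (G := G t) (by linarith) (fun i => (g2 i).trans (by linarith)) (by linarith)
      (by linarith) (by linarith)
    refine h6.trans ?_
    have h0 := dm_nn θ L a₀ x
    show (13 * (K1 + K2) ^ 2 + 3 * (K1 + K2) ^ 3) * (C * D) * dm θ L a₀ x ≤
      (13 * (K1 + K2) ^ 2 + 3 * (K1 + K2) ^ 3) * ((C * D + 1) * dm θ L a₀ x)
    rw [mul_assoc]
    exact mul_le_mul_of_nonneg_left (by nlinarith) hM

theorem evA (h : IsHInfAxisymNS T u p) (hf : Evo T u f G) {L : ℝ} (hL : 1 ≤ L) (a₀ : ℝ) {a b : ℝ} (ha : 0 ≤ a) (hab : a ≤ b) (hb : b < T) :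
    ∫ x, A1 L a₀ x * f b x ^ 2 ≤ (∫ x, A1 L a₀ x * f a x ^ 2) + ∫ t in a..b, ∫ x, evJ sqf (u t) (f t) (G t) (A1 L a₀) x := by
  obtain ⟨C, hC, hY⟩ := YB_1
  rw [A1_pw]
  exact EvF_gen h hf zero_lt_one le_rfl hL a₀ (Y := fun _ => Y1) hC (by norm_num : (0 : ℝ) ≤ 30)
    (fun _ => Y1_sm) (fun _ ρ hρ => (Y_nn 0 hρ).1) (fun _ => hY) (fun ρ _ => Eventually.of_forall fun _ => EventuallyEq.rfl)
    (PB_ph hL a₀ (h := 0) (by simp)).1 ha hab hb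

theorem evK (h : IsHInfAxisymNS T u p) (hf : Evo T u f G) {θ L : ℝ} (hθ : 0 < θ) (hθ1 : θ ≤ 1) (hL : 1 ≤ L) (a₀ : ℝ) {s : ℝ} (hs : |s| ≤ 1)
    {a b : ℝ} (ha : 0 ≤ a) (hab : a ≤ b) (hb : b < T) :
    ∫ x, kx θ L a₀ s x * f b x ^ 2 ≤ (∫ x, kx θ L a₀ s x * f a x ^ 2) + ∫ t in a..b, ∫ x, evJ sqf (u t) (f t) (G t) (kx θ L a₀ s) x := by
  obtain ⟨C, hC, hY⟩ := YB_2 hθ hθ1
  rw [kx_pw]
  exact EvF_gen h hf hθ hθ1 hL a₀ (Y := fun n ρ => Y2 θ ρ * rc n ρ) hC (by norm_num : (0 : ℝ) ≤ 30)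
    (fun n => Yr_sm θ n) (fun n ρ hρ => mul_nonneg (Y_nn θ hρ).2 (rc_01 n ρ).1) hY (fun ρ hρ => Yr_e θ hρ)
    (PB_ph hL a₀ hs).2 ha hab hb

end Pool.Agent.H16.EP
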